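import Pool.Agent.Mg.F29e935p.Gf05388

section

set_option autoImplicit false

/-! A balanced orientation whose split graph is connected. -/

namespace Pool.Agent.MP_29e935_co

open Equiv Finset

variable {I W : Type*} [Fintype I] [DecidableEq I] [Fintype W] [DecidableEq W]

/-- balanced orientation: in- and out-degree `m` at all vertices but `inf` -/
structure Bal (ends : I → Sym2 W) (inf : W) (m : ℕ) (a b : I → W) : Prop where
  hab : ∀ x, s(a x, b x) = ends x
  ca : ∀ w, w ≠ inf → (univ.filter (fun x => a x = w)).card = m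
  cb : ∀ w, w ≠ inf → (univ.filter (fun x => b x = w)).card = m

theorem Bal.symm {ends : I → Sym2 W} {inf : W} {m : ℕ} {a b : I → W} (h : Bal ends inf m a b) :
    Bal ends inf m b a :=
  ⟨fun x => by rw [Sym2.eq_swap]; exact h.hab x, h.cb, h.ca⟩

/-- common tail or common head, away from `inf` -/
def rel (inf : W) (a b : I → W) (x y : I) : Prop :=
  (a x = a y ∧ a x ≠ inf) ∨ (b x = b y ∧ b x ≠ inf)

/-- connected through vertices other than `inf` -/
def RC (inf : W) (a b : I → W) : I → I → Prop := Relation.ReflTransGen (rel inf a b)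

theorem rel.symm' {inf : W} {a b : I → W} {x y : I} (h : rel inf a b x y) : rel inf a b y x := by
  rcases h with ⟨h1, h2⟩ | ⟨h1, h2⟩
  · exact Or.inl ⟨h1.symm, h1 ▸ h2⟩
  · exact Or.inr ⟨h1.symm, h1 ▸ h2⟩

theorem RC.refl {inf : W} {a b : I → W} {x : I} : RC inf a b x x := Relation.ReflTransGen.refl

theorem RC.step {inf : W} {a b : I → W} {x y z : I} (h : RC inf a b x y) (h' : rel inf a b y z) :
    RC inf a b x z := Relation.ReflTransGen.tail h h'

theorem RC.trans {inf : W} {a b : I → W} {x y z : I} (h : RC inf a b x y) (h' : RC inf a b y z) :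
    RC inf a b x z := Relation.ReflTransGen.trans h h'

theorem RC.of_closed {inf : W} {a b : I → W} {x : I} (P : I → Prop) (h0 : P x)
    (hs : ∀ y z, RC inf a b x y → P y → rel inf a b y z → P z) {y : I} (h : RC inf a b x y) :
    P y := by
  induction h with
  | refl => exact h0
  | tail h1 h2 ih => exact hs _ _ h1 ih h2

theorem RC.symm {inf : W} {a b : I → W} {x y : I} (h : RC inf a b x y) : RC inf a b y x :=
  h.of_closed (fun y => RC inf a b y x) .refl
    (fun _ _ _ h1 h2 => (RC.refl.step h2.symm').trans h1)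

theorem RC.flip {inf : W} {a b : I → W} {x y : I} (h : RC inf a b x y) : RC inf b a x y :=
  h.of_closed (fun y => RC inf b a x y) .refl
    (fun _ _ _ h1 h2 => h1.step (Or.symm h2))

theorem dvd_card_of_closed {inf : W} {m : ℕ} (a : I → W)
    (ca : ∀ w, w ≠ inf → (univ.filter (fun x => a x = w)).card = m) (S : Finset I)
    (hS : ∀ x ∈ S, ∀ y, a x = a y → a x ≠ inf → y ∈ S) :
    m ∣ (S.filter (fun x => a x ≠ inf)).card := by
  rw [Finset.card_eq_sum_card_fiberwise (f := a) (t := univ) (fun x _ => by simp)]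
  apply Finset.dvd_sum
  intro w _
  rcases ((S.filter (fun x => a x ≠ inf)).filter (fun x => a x = w)).eq_empty_or_nonempty with
    h | ⟨x, hx⟩
  · rw [h]; simp
  · simp only [mem_filter] at hx
    obtain ⟨⟨h1, h2⟩, rfl⟩ := hx
    have : (S.filter (fun x => a x ≠ inf)).filter (fun y => a y = a x) =
        univ.filter (fun y => a y = a x) := by
      ext y
      simp only [mem_filter, mem_univ, true_and]
      constructor
      · exact fun h => h.2
      · exact fun h => ⟨⟨hS x h1 y h.symm h2, h ▸ h2⟩, h⟩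
    rw [this, ca _ h2]

theorem Bal.ne {ends : I → Sym2 W} {inf : W} {m : ℕ} {a b : I → W} (hB : Bal ends inf m a b)
    (hnd : ∀ x, ¬ (ends x).IsDiag) (x : I) : a x ≠ b x := by
  intro h
  apply hnd x
  rw [← hB.hab x, h]; simp

theorem Bal.other_label_aux {ends : I → Sym2 W} {inf : W} {m : ℕ} {a b : I → W}
    (hB : Bal ends inf m a b) (hnd : ∀ x, ¬ (ends x).IsDiag) (hm : 2 ≤ m) {l : I}
    (hl : a l = inf) : ∃ z, z ≠ l ∧ (a z = inf ∨ b z = inf) ∧ RC inf a b l z := by
  classical
  by_contra hcon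
  push Not at hcon
  set S := univ.filter (fun x => RC inf a b l x) with hS
  have d1 := dvd_card_of_closed a hB.ca S (by
    intro x hx y h1 h2
    simp only [hS, mem_filter, mem_univ, true_and] at hx ⊢
    exact hx.step (Or.inl ⟨h1, h2⟩))
  have d2 := dvd_card_of_closed b hB.cb S (by
    intro x hx y h1 h2
    simp only [hS, mem_filter, mem_univ, true_and] at hx ⊢
    exact hx.step (Or.inr ⟨h1, h2⟩))
  have hlS : l ∈ S := by simp only [hS, mem_filter, mem_univ, true_and]; exact .refl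
  have e1 : S.filter (fun x => a x ≠ inf) = S.erase l := by
    ext x
    simp only [mem_filter, mem_erase]
    constructor
    · rintro ⟨h1, h2⟩
      exact ⟨by rintro rfl; exact h2 hl, h1⟩
    · rintro ⟨h1, h2⟩
      refine ⟨h2, fun h => ?_⟩
      simp only [hS, mem_filter, mem_univ, true_and] at h2
      exact hcon x h1 (Or.inl h) h2
  have e2 : S.filter (fun x => b x ≠ inf) = S := by
    apply Finset.filter_true_of_mem
    intro x hx h
    simp only [hS, mem_filter, mem_univ, true_and] at hx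
    by_cases hxl : x = l
    · subst hxl; exact hB.ne hnd x (hl.trans h.symm)
    · exact hcon x hxl (Or.inr h) hx
  rw [e1, Finset.card_erase_of_mem hlS] at d1
  rw [e2] at d2
  have hp := Finset.card_pos.2 ⟨_, hlS⟩
  have : m ∣ 1 := by
    have := (Nat.dvd_sub d2 d1)
    rwa [show S.card - (S.card - 1) = 1 by omega] at this
  have := Nat.le_of_dvd one_pos this
  omega

theorem Bal.other_label {ends : I → Sym2 W} {inf : W} {m : ℕ} {a b : I → W}
    (hB : Bal ends inf m a b) (hnd : ∀ x, ¬ (ends x).IsDiag) (hm : 2 ≤ m) {l : I}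
    (hl : a l = inf ∨ b l = inf) : ∃ z, z ≠ l ∧ (a z = inf ∨ b z = inf) ∧ RC inf a b l z := by
  rcases hl with hl | hl
  · exact hB.other_label_aux hnd hm hl
  · obtain ⟨z, h1, h2, h3⟩ := hB.symm.other_label_aux hnd hm hl
    exact ⟨z, h1, h2.symm, h3.flip⟩

/-- reversal of the directed triangle `inf, w, u` -/
structure Flip (inf : W) (a b a' b' : I → W) (e lu lw : I) (u w : W) : Prop where
  hu : u ≠ inf
  hw : w ≠ inf
  ae : a e = w
  be : b e = u
  alu : a lu = u
  blu : b lu = inf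
  alw : a lw = inf
  blw : b lw = w
  ae' : a' e = u
  be' : b' e = w
  alu' : a' lu = inf
  blu' : b' lu = u
  alw' : a' lw = w
  blw' : b' lw = inf
  rest : ∀ x, x ≠ e → x ≠ lu → x ≠ lw → a' x = a x ∧ b' x = b x

theorem card_comp_perm (a : I → W) (ρ : Perm I) (v : W) :
    (univ.filter (fun x => a (ρ x) = v)).card = (univ.filter (fun x => a x = v)).card := by
  apply Finset.card_bij (fun x _ => ρ x)
  · intro x hx; simpa using hx
  · intro x _ y _ h; exact ρ.injective h
  · intro y hy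
    exact ⟨ρ.symm y, by simpa using hy, by simp⟩

theorem Bal.exists_flip {ends : I → Sym2 W} {inf : W} {m : ℕ} {a b : I → W}
    (hB : Bal ends inf m a b) {e lu lw : I} {u w : W} (hu : u ≠ inf) (hw : w ≠ inf)
    (ae : a e = w) (be : b e = u) (alu : a lu = u) (blu : b lu = inf) (alw : a lw = inf)
    (blw : b lw = w) : ∃ a' b', Bal ends inf m a' b' ∧ Flip inf a b a' b' e lu lw u w := by
  have n1 : e ≠ lu := by rintro rfl; exact hu (be.symm.trans blu)
  have n2 : e ≠ lw := by rintro rfl; exact hw (ae.symm.trans alw)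
  have n3 : lu ≠ lw := by rintro rfl; exact hu (alu.symm.trans alw)
  let ρ : Perm I := swap e lw * swap e lu
  let ρ' : Perm I := swap e lu * swap e lw
  have r1 : ρ e = lu := by
    simp only [ρ, Perm.mul_apply, swap_apply_left]
    exact swap_apply_of_ne_of_ne n1.symm n3
  have r2 : ρ lu = lw := by simp [ρ]
  have r3 : ρ lw = e := by
    simp only [ρ, Perm.mul_apply, swap_apply_of_ne_of_ne n2.symm n3.symm, swap_apply_right]
  have r4 : ∀ x, x ≠ e → x ≠ lu → x ≠ lw → ρ x = x := by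
    intro x h1 h2 h3
    simp only [ρ, Perm.mul_apply, swap_apply_of_ne_of_ne h1 h2, swap_apply_of_ne_of_ne h1 h3]
  have s1 : ρ' e = lw := by
    simp only [ρ', Perm.mul_apply, swap_apply_left]
    exact swap_apply_of_ne_of_ne n2.symm n3.symm
  have s2 : ρ' lw = lu := by simp [ρ']
  have s3 : ρ' lu = e := by
    simp only [ρ', Perm.mul_apply, swap_apply_of_ne_of_ne n1.symm n3, swap_apply_right]
  have s4 : ∀ x, x ≠ e → x ≠ lu → x ≠ lw → ρ' x = x := by
    intro x h1 h2 h3
    simp only [ρ', Perm.mul_apply, swap_apply_of_ne_of_ne h1 h2, swap_apply_of_ne_of_ne h1 h3]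
  refine ⟨fun x => a (ρ x), fun x => b (ρ' x), ⟨?_, ?_, ?_⟩, ⟨hu, hw, ae, be, alu, blu, alw, blw,
    ?_, ?_, ?_, ?_, ?_, ?_, ?_⟩⟩
  · intro x
    rw [← hB.hab x]
    by_cases h1 : x = e
    · subst h1; simp only [r1, s1, alu, blw, ae, be]; exact Sym2.eq_swap
    by_cases h2 : x = lu
    · subst h2; simp only [r2, s3, alu, blu, alw, be]; exact Sym2.eq_swap
    by_cases h3 : x = lw
    · subst h3; simp only [r3, s2, ae, blu, alw, blw]; exact Sym2.eq_swap
    simp only [r4 x h1 h2 h3, s4 x h1 h2 h3]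
  · intro v hv; rw [card_comp_perm]; exact hB.ca v hv
  · intro v hv; rw [card_comp_perm]; exact hB.cb v hv
  · simp only [r1, alu]
  · simp only [s1, blw]
  · simp only [r2, alw]
  · simp only [s3, be]
  · simp only [r3, ae]
  · simp only [s2, blu]
  · intro x h1 h2 h3
    simp only [r4 x h1 h2 h3, s4 x h1 h2 h3, and_self]

theorem Flip.closed {inf : W} {a b a' b' : I → W} {e lu lw : I} {u w : W}
    (F : Flip inf a b a' b' e lu lw u w) (T : I → Prop)
    (hT : ∀ x y, T x → rel inf a' b' x y → T y) (te : T e) (tu : T lu) (tw : T lw) :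
    ∀ x y, T x → rel inf a b x y → T y := by
  intro x y hx hxy
  by_cases h1 : y = e
  · rw [h1]; exact te
  by_cases h2 : y = lu
  · rw [h2]; exact tu
  by_cases h3 : y = lw
  · rw [h3]; exact tw
  obtain ⟨ya, yb⟩ := F.rest y h1 h2 h3
  by_cases k1 : x = e
  · subst k1
    rcases hxy with ⟨p, q⟩ | ⟨p, q⟩
    · exact hT lw y tw (Or.inl ⟨by rw [F.alw', ya, ← p, F.ae], by rw [F.alw']; exact F.hw⟩)
    · exact hT lu y tu (Or.inr ⟨by rw [F.blu', yb, ← p, F.be], by rw [F.blu']; exact F.hu⟩)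
  by_cases k2 : x = lu
  · subst k2
    rcases hxy with ⟨p, q⟩ | ⟨p, q⟩
    · exact hT e y te (Or.inl ⟨by rw [F.ae', ya, ← p, F.alu], by rw [F.ae']; exact F.hu⟩)
    · exact absurd F.blu q
  by_cases k3 : x = lw
  · subst k3
    rcases hxy with ⟨p, q⟩ | ⟨p, q⟩
    · exact absurd F.alw q
    · exact hT e y te (Or.inr ⟨by rw [F.be', yb, ← p, F.blw], by rw [F.be']; exact F.hw⟩)
  obtain ⟨xa, xb⟩ := F.rest x k1 k2 k3
  apply hT x y hx
  rcases hxy with ⟨p, q⟩ | ⟨p, q⟩
  · exact Or.inl ⟨by rw [xa, ya, p], by rw [xa]; exact q⟩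
  · exact Or.inr ⟨by rw [xb, yb, p], by rw [xb]; exact q⟩

theorem Flip.escape {inf : W} {a b a' b' : I → W} {e lu lw : I} {u w : W}
    (F : Flip inf a b a' b' e lu lw u w) {l z : I} (hl : l = lu ∨ l = lw)
    (he : ¬ RC inf a b l e) (hz : RC inf a b l z) (h1 : z ≠ lu) (h2 : z ≠ lw) :
    RC inf a' b' e z := by
  have : z = lu ∨ z = lw ∨ RC inf a' b' e z := by
    refine hz.of_closed (fun z => z = lu ∨ z = lw ∨ RC inf a' b' e z) (by tauto) ?_
    intro x y hx ih hxy
    by_cases h2 : y = lu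
    · exact Or.inl h2
    by_cases h3 : y = lw
    · exact Or.inr (Or.inl h3)
    have h1 : y ≠ e := by rintro rfl; exact he (hx.step hxy)
    have k1 : x ≠ e := by rintro rfl; exact he hx
    obtain ⟨ya, yb⟩ := F.rest y h1 h2 h3
    right; right
    by_cases k2 : x = lu
    · subst k2
      rcases hxy with ⟨p, q⟩ | ⟨p, q⟩
      · exact RC.refl.step (Or.inl ⟨by rw [F.ae', ya, ← p, F.alu], by rw [F.ae']; exact F.hu⟩)
      · exact absurd F.blu q
    by_cases k3 : x = lw
    · subst k3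
      rcases hxy with ⟨p, q⟩ | ⟨p, q⟩
      · exact absurd F.alw q
      · exact RC.refl.step (Or.inr ⟨by rw [F.be', yb, ← p, F.blw], by rw [F.be']; exact F.hw⟩)
    obtain ⟨xa, xb⟩ := F.rest x k1 k2 k3
    have hx' : RC inf a' b' e x := by tauto
    apply hx'.step
    rcases hxy with ⟨p, q⟩ | ⟨p, q⟩
    · exact Or.inl ⟨by rw [xa, ya, p], by rw [xa]; exact q⟩
    · exact Or.inr ⟨by rw [xb, yb, p], by rw [xb]; exact q⟩
  tauto

theorem Flip.label {inf : W} {a b a' b' : I → W} {e lu lw : I} {u w : W}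
    (F : Flip inf a b a' b' e lu lw u w) {z : I} (hz : a z = inf ∨ b z = inf) :
    a' z = inf ∨ b' z = inf := by
  by_cases h2 : z = lu
  · rw [h2]; exact Or.inl F.alu'
  by_cases h3 : z = lw
  · rw [h3]; exact Or.inr F.blw'
  have h1 : z ≠ e := by
    rintro rfl
    rcases hz with h | h
    · exact F.hw (F.ae.symm.trans h)
    · exact F.hu (F.be.symm.trans h)
  obtain ⟨p, q⟩ := F.rest z h1 h2 h3
  rw [p, q]; exact hz

/-- connected to an edge at `inf` -/
def RL (inf : W) (a b : I → W) (x : I) : Prop := ∃ l, (a l = inf ∨ b l = inf) ∧ RC inf a b l x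

theorem Flip.RL_mono {inf : W} {a b a' b' : I → W} {e lu lw : I} {u w : W}
    (F : Flip inf a b a' b' e lu lw u w) (he : RL inf a' b' e) {x : I} (hx : RL inf a b x) :
    RL inf a' b' x := by
  obtain ⟨l, hl, hx⟩ := hx
  have hc := F.closed (RL inf a' b') (fun x y ⟨l, h1, h2⟩ h => ⟨l, h1, h2.step h⟩) he
    ⟨lu, Or.inl F.alu', .refl⟩ ⟨lw, Or.inr F.blw', .refl⟩
  exact hx.of_closed (RL inf a' b') ⟨l, F.label hl, .refl⟩ (fun y z _ h1 h2 => hc y z h1 h2)

theorem Bal.label_cases {ends : I → Sym2 W} {inf : W} {m : ℕ} {a b : I → W}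
    (hB : Bal ends inf m a b) {l : I} {v : W} (hl : ends l = s(v, inf)) :
    (a l = v ∧ b l = inf) ∨ (a l = inf ∧ b l = v) := by
  have := hB.hab l
  rw [hl, Sym2.eq_iff] at this
  exact this

theorem Bal.step1 {ends : I → Sym2 W} {inf : W} {m : ℕ} (hnd : ∀ x, ¬ (ends x).IsDiag)
    (hinj : Function.Injective ends) (hlab : ∀ v, v ≠ inf → ∃ l, ends l = s(v, inf))
    (hm : 2 ≤ m) {a b : I → W} (hB : Bal ends inf m a b) :
    ∃ a b, Bal ends inf m a b ∧ ∀ x, RL inf a b x := by
  classical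
  induction' hn : (univ.filter (fun x => ¬ RL inf a b x)).card using Nat.strong_induction_on
    with n ih generalizing a b
  by_cases hall : ∀ x, RL inf a b x
  · exact ⟨a, b, hB, hall⟩
  push Not at hall
  obtain ⟨e₀, he₀⟩ := hall
  have hnl : ∀ x, ¬ RL inf a b x → a x ≠ inf ∧ b x ≠ inf := fun x hx =>
    ⟨fun h => hx ⟨x, Or.inl h, .refl⟩, fun h => hx ⟨x, Or.inr h, .refl⟩⟩
  set u := b e₀ with hu
  have hui : u ≠ inf := (hnl _ he₀).2
  obtain ⟨lu, hlu⟩ := hlab u hui
  have hlu' : a lu = u ∧ b lu = inf := by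
    rcases hB.label_cases hlu with h | h
    · exact h
    · exact absurd ⟨lu, Or.inl h.1, RC.refl.step (Or.inr ⟨h.2, h.2 ▸ hui⟩)⟩ he₀
  obtain ⟨z, hz1, hz2, hz3⟩ := hB.other_label hnd hm (Or.inr hlu'.2)
  have hfib : ∀ e, b e = u → ¬ RL inf a b e := by
    rintro e he ⟨l, h1, h2⟩
    exact he₀ ⟨l, h1, h2.step (Or.inr ⟨he, he ▸ hui⟩)⟩
  have hlw : ∀ e, b e = u → ∃ lw, a lw = inf ∧ b lw = a e := by
    intro e he
    obtain ⟨lw, hlw⟩ := hlab (a e) (hnl _ (hfib e he)).1
    rcases hB.label_cases hlw with h | h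
    · exact absurd ⟨lw, Or.inr h.2, RC.refl.step (Or.inl ⟨h.1, h.1 ▸ (hnl _ (hfib e he)).1⟩)⟩
        (hfib e he)
    · exact ⟨lw, h⟩
  have hex : ∃ e lw, b e = u ∧ a lw = inf ∧ b lw = a e ∧ z ≠ lw := by
    have h2 : 1 < (univ.filter (fun x => b x = u)).card := by rw [hB.cb u hui]; omega
    obtain ⟨e₁, he₁, hne⟩ := Finset.exists_mem_ne h2 e₀
    simp only [mem_filter, mem_univ, true_and] at he₁
    obtain ⟨l₀, p0, q0⟩ := hlw e₀ rfl
    obtain ⟨l₁, p1, q1⟩ := hlw e₁ he₁
    by_cases h : z = l₀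
    · refine ⟨e₁, l₁, he₁, p1, q1, ?_⟩
      rintro rfl
      apply hne
      apply hinj
      rw [← hB.hab, ← hB.hab, he₁, ← q1, ← q0, h]
    · exact ⟨e₀, l₀, rfl, p0, q0, h⟩
  obtain ⟨e, lw, he, p, q, hzw⟩ := hex
  obtain ⟨a', b', hB', F⟩ := hB.exists_flip hui (hnl _ (hfib e he)).1 rfl he hlu'.1 hlu'.2 p q
  have hesc := F.escape (Or.inl rfl) (fun h => hfib e he ⟨lu, Or.inr hlu'.2, h⟩) hz3 hz1 hzw
  have he' : RL inf a' b' e := ⟨z, F.label hz2, hesc.symm⟩
  refine ih _ ?_ hB' rfl
  rw [← hn]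
  apply Finset.card_lt_card
  rw [Finset.ssubset_iff_of_subset]
  · exact ⟨e, by simp [hfib e he], by simp [he']⟩
  · intro x hx
    simp only [mem_filter, mem_univ, true_and] at hx ⊢
    exact fun h => hx (F.RL_mono he' h)

theorem Bal.step2_aux {ends : I → Sym2 W} {inf : W} {m : ℕ} (hnd : ∀ x, ¬ (ends x).IsDiag)
    (hm : 2 ≤ m) {a b : I → W} (hB : Bal ends inf m a b) (hR : ∀ x, RL inf a b x)
    (hno : ∀ l₁ l₂, a l₁ = inf → b l₂ = inf → ¬ RC inf a b l₁ l₂)
    {e y lu lw l₂ : I} (hu : b e ≠ inf) (hw : a e ≠ inf) (alu : a lu = b e) (blu : b lu = inf)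
    (alw : a lw = inf) (blw : b lw = a e) (hy : b y = b e) (hy2 : a y ≠ inf) (a2 : a l₂ = a y)
    (b2 : b l₂ = inf) (k1 : y ≠ e) :
    ∃ a b, Bal ends inf m a b ∧ (∀ x, RL inf a b x) ∧
      ∃ l₁ l₂, a l₁ = inf ∧ b l₂ = inf ∧ RC inf a b l₁ l₂ := by
  obtain ⟨a', b', hB', F⟩ := hB.exists_flip hu hw rfl rfl alu blu alw blw
  obtain ⟨z, hz1, hz2, hz3⟩ := hB.other_label hnd hm (Or.inl alw)
  have hzu : z ≠ lu := by rintro rfl; exact hno _ _ alw blu hz3
  have hne : ¬ RC inf a b lw e := by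
    intro h
    apply hno lw l₂ alw b2
    exact (h.step (Or.inr ⟨hy.symm, hu⟩)).step (Or.inl ⟨a2.symm, hy2⟩)
  have hesc := F.escape (Or.inr rfl) hne hz3 hzu hz1
  have he' : RL inf a' b' e := ⟨z, F.label hz2, hesc.symm⟩
  refine ⟨a', b', hB', fun x => F.RL_mono he' (hR x), lu, l₂, F.alu', ?_, ?_⟩
  all_goals
    have n1 : l₂ ≠ e := by rintro rfl; exact hu b2
    have n2 : l₂ ≠ lu := by
      rintro rfl
      exact hB.ne hnd y (by rw [← a2, alu, hy])
    have n3 : l₂ ≠ lw := by rintro rfl; exact hw (blw.symm.trans b2)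
    obtain ⟨p, q⟩ := F.rest l₂ n1 n2 n3
  · rw [q, b2]
  · have k2 : y ≠ lu := by rintro rfl; exact hu (hy.symm.trans blu)
    have k3 : y ≠ lw := by rintro rfl; exact hy2 alw
    obtain ⟨p', q'⟩ := F.rest y k1 k2 k3
    refine (RC.refl.step (Or.inr ⟨?_, ?_⟩ : rel inf a' b' lu y)).step (Or.inl ⟨?_, ?_⟩)
    · rw [F.blu', q', hy]
    · rw [F.blu']; exact hu
    · rw [p', p, a2]
    · rw [p']; exact hy2

theorem Bal.card_inf {ends : I → Sym2 W} {inf : W} {m : ℕ} {a b : I → W}
    (hB : Bal ends inf m a b) :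
    (univ.filter (fun x => a x = inf)).card = (univ.filter (fun x => b x = inf)).card := by
  have h1 := sum_card_fibre a (univ.erase inf)
  have h2 := sum_card_fibre b (univ.erase inf)
  rw [Finset.sum_congr rfl (fun w hw => hB.ca w (Finset.ne_of_mem_erase hw))] at h1
  rw [Finset.sum_congr rfl (fun w hw => hB.cb w (Finset.ne_of_mem_erase hw))] at h2
  have e1 := Finset.card_filter_add_card_filter_not (s := univ) (fun x => a x = inf)
  have e2 := Finset.card_filter_add_card_filter_not (s := univ) (fun x => b x = inf)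
  simp only [mem_erase, mem_univ, and_true, ne_eq] at h1 h2
  omega

theorem Bal.step2 {ends : I → Sym2 W} {inf : W} {m : ℕ} (hnd : ∀ x, ¬ (ends x).IsDiag)
    (hinj : Function.Injective ends) (hlab : ∀ v, v ≠ inf → ∃ l, ends l = s(v, inf))
    (hm : 2 ≤ m) (hne : ∃ v, v ≠ inf) {a b : I → W} (hB : Bal ends inf m a b)
    (hR : ∀ x, RL inf a b x) :
    ∃ a b, Bal ends inf m a b ∧ (∀ x, RL inf a b x) ∧
      ∃ l₁ l₂, a l₁ = inf ∧ b l₂ = inf ∧ RC inf a b l₁ l₂ := by
  classical
  by_cases hyes : ∃ l₁ l₂, a l₁ = inf ∧ b l₂ = inf ∧ RC inf a b l₁ l₂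
  · exact ⟨a, b, hB, hR, hyes⟩
  have hno : ∀ l₁ l₂, a l₁ = inf → b l₂ = inf → ¬ RC inf a b l₁ l₂ :=
    fun l₁ l₂ h1 h2 h3 => hyes ⟨l₁, l₂, h1, h2, h3⟩
  have huniq : ∀ l l', a l = inf → b l' = inf → b l ≠ a l' := by
    intro l l' h1 h2 h3
    have : l = l' := by
      apply hinj
      rw [← hB.hab, ← hB.hab, h1, h2, h3]
      exact Sym2.eq_swap
    subst this
    exact hB.ne hnd l (h1.trans h2.symm)
  let X : I → Prop := fun x => (∃ lw, a lw = inf ∧ b lw = a x) ∧ (∃ lu, a lu = b x ∧ b lu = inf)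
  have hXa : ∀ x, X x → a x ≠ inf := by
    rintro x ⟨⟨lw, h1, h2⟩, -⟩ h
    exact hB.ne hnd lw (h1.trans (h2.trans h).symm)
  have hXb : ∀ x, X x → b x ≠ inf := by
    rintro x ⟨-, ⟨lu, h1, h2⟩⟩ h
    exact hB.ne hnd lu ((h1.trans h).trans h2.symm)
  have hXne : ∃ x, X x := by
    by_contra hcon
    push Not at hcon
    obtain ⟨lu, hlu⟩ : ∃ lu, b lu = inf := by
      obtain ⟨v, hv⟩ := hne
      obtain ⟨l, hl⟩ := hlab v hv
      rcases hB.label_cases hl with h | h
      · exact ⟨l, h.2⟩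
      · have h1 : 0 < (univ.filter (fun x => a x = inf)).card :=
          Finset.card_pos.2 ⟨l, by simp [h.1]⟩
        rw [hB.card_inf] at h1
        obtain ⟨l', hl'⟩ := Finset.card_pos.1 h1
        exact ⟨l', by simpa using hl'⟩
    set U := univ.filter (fun v => ∃ l, a l = v ∧ b l = inf) with hU
    have hUi : ∀ v ∈ U, v ≠ inf := by
      intro v hv h
      simp only [hU, mem_filter, mem_univ, true_and] at hv
      obtain ⟨l, h1, h2⟩ := hv
      exact hB.ne hnd l ((h1.trans h).trans h2.symm)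
    have h1 := sum_card_fibre a U
    have h2 := sum_card_fibre b U
    rw [Finset.sum_congr rfl (fun w hw => hB.ca w (hUi w hw))] at h1
    rw [Finset.sum_congr rfl (fun w hw => hB.cb w (hUi w hw))] at h2
    have : univ.filter (fun x => b x ∈ U) ⊂ univ.filter (fun x => a x ∈ U) := by
      rw [Finset.ssubset_iff_of_subset]
      · refine ⟨lu, ?_, ?_⟩
        · simp only [hU, mem_filter, mem_univ, true_and]
          exact ⟨lu, rfl, hlu⟩
        · simp only [mem_filter, mem_univ, true_and]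
          intro h
          exact hUi _ h hlu
      · intro x hx
        simp only [hU, mem_filter, mem_univ, true_and] at hx ⊢
        obtain ⟨l, p, q⟩ := hx
        have hxa : a x ≠ inf := fun h => huniq x l h q p.symm
        obtain ⟨l', hl'⟩ := hlab _ hxa
        rcases hB.label_cases hl' with h | h
        · exact ⟨l', h⟩
        · exact absurd ⟨⟨l', h⟩, ⟨l, p, q⟩⟩ (hcon x)
    have := Finset.card_lt_card this
    omega
  obtain ⟨x₀, hx₀⟩ := hXne
  have hmix : ∃ x y, X x ∧ ¬ X y ∧ rel inf a b x y := by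
    by_contra hcon
    push Not at hcon
    obtain ⟨l, hl, hl'⟩ := hR x₀
    have : X l := hl'.symm.of_closed X hx₀ (fun y z _ h1 h2 => by
      by_contra h; exact hcon y z h1 h h2)
    rcases hl with h | h
    · exact hXa l this h
    · exact hXb l this h
  obtain ⟨e, y, he, hy, hey⟩ := hmix
  have hye : y ≠ e := by rintro rfl; exact hy he
  obtain ⟨⟨lw, alw, blw⟩, ⟨lu, alu, blu⟩⟩ := id he
  rcases hey with ⟨p, q⟩ | ⟨p, q⟩
  · have hyb : b y ≠ inf := fun h => huniq lw y alw h (blw.trans p)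
    obtain ⟨l₂, hl₂⟩ := hlab _ hyb
    rcases hB.label_cases hl₂ with h | h
    · exact absurd ⟨⟨lw, alw, blw.trans p⟩, ⟨l₂, h⟩⟩ hy
    · obtain ⟨a', b', k1, k2, l₁, l₃, k3, k4, k5⟩ := hB.symm.step2_aux hnd hm
        (fun x => by
          obtain ⟨l, h1, h2⟩ := hR x
          exact ⟨l, h1.symm, h2.flip⟩)
        (fun l₁ l₂ h1 h2 h3 => hno l₂ l₁ h2 h1 h3.flip.symm)
        (e := e) (y := y) (lu := lw) (lw := lu) (l₂ := l₂) (hXa e he) (hXb e he) blw alw blu alu
        p.symm hyb h.2 h.1 hye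
      exact ⟨a', b', k1, k2, l₁, l₃, k3, k4, k5⟩
  · have hya : a y ≠ inf := fun h => huniq y lu h blu (p.symm.trans alu.symm)
    obtain ⟨l₂, hl₂⟩ := hlab _ hya
    rcases hB.label_cases hl₂ with h | h
    · exact hB.step2_aux hnd hm hR hno (hXb e he) (hXa e he) alu blu alw blw p.symm hya h.1 h.2 hye
    · exact absurd ⟨⟨l₂, h⟩, ⟨lu, alu.trans p, blu⟩⟩ hy

theorem conn_of_RL {inf : W} {a b : I → W} (hR : ∀ x, RL inf a b x) {l₁ l₂ : I}
    (h1 : a l₁ = inf) (h2 : b l₂ = inf) (h3 : RC inf a b l₁ l₂) (S : Set I)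
    (ha : ∀ x ∈ S, ∀ y, a x = a y → y ∈ S) (hb : ∀ x ∈ S, ∀ y, b x = b y → y ∈ S) :
    ∀ x ∈ S, ∀ y, y ∈ S := by
  have hc : ∀ x y, RC inf a b x y → x ∈ S → y ∈ S := by
    intro x y h hx
    refine h.of_closed (fun z => z ∈ S) hx ?_
    rintro y z _ hy (⟨p, _⟩ | ⟨p, _⟩)
    · exact ha y hy z p
    · exact hb y hy z p
  intro x hx y
  obtain ⟨l, hl, hlx⟩ := hR x
  have hlS := hc _ _ hlx.symm hx
  have k : l₁ ∈ S ∧ l₂ ∈ S := by
    rcases hl with h | h
    · have := ha l hlS l₁ (h.trans h1.symm)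
      exact ⟨this, hc _ _ h3 this⟩
    · have := hb l hlS l₂ (h.trans h2.symm)
      exact ⟨hc _ _ h3.symm this, this⟩
  obtain ⟨l', hl', hly⟩ := hR y
  apply hc _ _ hly
  rcases hl' with h | h
  · exact ha l₁ k.1 l' (h1.trans h.symm)
  · exact hb l₂ k.2 l' (h2.trans h.symm)

/-- the abstract magic labelling theorem for degree `2 m` with `m` even -/
theorem magic_even {ends : I → Sym2 W} {inf : W} {m : ℕ} (hnd : ∀ x, ¬ (ends x).IsDiag)
    (hinj : Function.Injective ends) (hlab : ∀ v, v ≠ inf → ∃ l, ends l = s(v, inf))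
    (hm : 2 ≤ m) (hme : Even m) (hne : ∃ v, v ≠ inf)
    (hdeg : ∀ v, v ≠ inf → (univ.filter (fun x => v ∈ ends x)).card = 2 * m)
    (hinf : Even (univ.filter (fun x => inf ∈ ends x)).card) :
    ∃ (lab : I → ℕ) (k : ℕ), Function.Injective lab ∧
      (∀ x, 1 ≤ lab x ∧ lab x ≤ Fintype.card I) ∧
      ∀ v, v ≠ inf → ∑ x ∈ univ.filter (fun x => v ∈ ends x), lab x = k := by
  obtain ⟨h, hh⟩ := hinf
  obtain ⟨a, b, hab, hc⟩ := exists_balanced ends hnd (fun w => if w = inf then h else m) (by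
    intro w
    by_cases hw : w = inf
    · subst hw; simp only [if_true]; omega
    · simp only [hw, if_false]; exact hdeg w hw)
  have hB : Bal ends inf m a b :=
    ⟨hab, fun w hw => by simpa [hw] using (hc w).1, fun w hw => by simpa [hw] using (hc w).2⟩
  clear hc hab
  obtain ⟨a, b, hB, hR⟩ := hB.step1 hnd hinj hlab hm
  obtain ⟨a, b, hB, hR, l₁, l₂, h1, h2, h3⟩ := hB.step2 hnd hinj hlab hm hne hR
  have hci := hB.card_inf
  have hfib : ∀ (c : I → W) (T : Finset I), (∀ x ∈ T, c x = inf) →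
      (∀ w, w ≠ inf → (univ.filter (fun x => c x = w)).card = m) →
      Even ((univ.filter (fun x => c x = inf)).card + T.card) →
      ∃ γ : Perm I, (∀ x, γ (γ x) = x) ∧ (∀ x, c (γ x) = c x) ∧ ∀ x, γ x = x ↔ x ∈ T := by
    intro c T t1 t2 t3
    obtain ⟨γ, g1, g2, g3⟩ := exists_pairing c (univ \ T) (by
      intro w
      by_cases hw : w = inf
      · subst hw
        have e : (univ \ T).filter (fun x => c x = w) = univ.filter (fun x => c x = w) \ T := by
          ext x; simp [and_comm]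
        have hs : T ⊆ univ.filter (fun x => c x = w) := fun x hx => by simp [t1 x hx]
        rw [e, Finset.card_sdiff_of_subset hs]
        have := Finset.card_le_card hs
        obtain ⟨k, hk⟩ := t3
        exact ⟨k - T.card, by omega⟩
      · have e : (univ \ T).filter (fun x => c x = w) = univ.filter (fun x => c x = w) := by
          ext x
          simp only [mem_filter, mem_sdiff, mem_univ, true_and, and_iff_right_iff_imp]
          intro k1 k2
          exact hw (k1.symm.trans (t1 x k2))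
        rw [e, t2 w hw]; exact hme)
    refine ⟨γ, fun x => ?_, g2, fun x => by simp [g3]⟩
    have := congrArg (fun f : Perm I => f x) g1
    simpa using this
  have hT : ∃ Ta Tb : Finset I, (∀ x ∈ Ta, a x = inf) ∧ (∀ x ∈ Tb, b x = inf) ∧ l₂ ∈ Tb ∧
      Ta.card + Tb.card ≤ 2 ∧ Even ((univ.filter (fun x => a x = inf)).card + Ta.card) ∧
      Even ((univ.filter (fun x => b x = inf)).card + Tb.card) := by
    rcases Nat.even_or_odd (univ.filter (fun x => b x = inf)).card with hp | hp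
    · have hpos : 0 < (univ.filter (fun x => b x = inf)).card :=
        Finset.card_pos.2 ⟨l₂, by simp [h2]⟩
      have h2' : 1 < (univ.filter (fun x => b x = inf)).card := by
        obtain ⟨k, hk⟩ := hp; omega
      obtain ⟨l₃, k1, k2⟩ := Finset.exists_mem_ne h2' l₂
      simp only [mem_filter, mem_univ, true_and] at k1
      refine ⟨∅, {l₃, l₂}, by simp, ?_, by simp, ?_, ?_, ?_⟩
      · intro x hx
        simp only [mem_insert, mem_singleton] at hx
        rcases hx with rfl | rfl <;> assumption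
      · rw [Finset.card_pair k2]; simp
      · rw [hci]; simpa using hp
      · rw [Finset.card_pair k2]; exact hp.add (by decide)
    · refine ⟨{l₁}, {l₂}, by simp [h1], by simp [h2], by simp, by simp, ?_, ?_⟩
      · rw [hci, Finset.card_singleton]; exact hp.add_one
      · rw [Finset.card_singleton]; exact hp.add_one
  obtain ⟨Ta, Tb, t1, t2, t3, t4, t5, t6⟩ := hT
  obtain ⟨α, a1, a2, a3⟩ := hfib a Ta t1 hB.ca t5
  obtain ⟨β, b1, b2, b3⟩ := hfib b Tb t2 hB.cb t6
  have g : Good a b inf (fun _ => True) (fun _ => True) α β l₂ := by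
    refine ⟨a1, b1, a2, b2, (b3 _).2 t3, h2, fun _ _ => trivial, fun _ _ _ => trivial, ?_⟩
    have e1 : univ.filter (fun x => α x = x) = Ta := by ext x; simp [a3]
    have e2 : univ.filter (fun x => β x = x) = Tb := by ext x; simp [b3]
    rw [e1, e2]; exact t4
  obtain ⟨α, β, x₀, lab, g, i1, i2, -, i3, i4⟩ :=
    exists_label_of_conn (conn_of_RL hR h1 h2 h3) g
  refine ⟨lab, (m * (Fintype.card I + 1) + m * (Fintype.card I + 2)) / 2, i1, i2, ?_⟩
  intro v hv
  have s1 := two_mul_sum_fibre a α g.hα g.ha lab v _ (fun x _ => i3 x)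
  have s2 := two_mul_sum_fibre b β g.hβ g.hb lab v _ (fun x hx => i4 x (by
    rintro rfl; exact hv (hx.symm.trans g.hb0)))
  rw [hB.ca v hv] at s1
  rw [hB.cb v hv] at s2
  rw [sum_deg hnd hB.hab]
  omega

end Pool.Agent.MP_29e935_co

end

section

set_option autoImplicit false

/-! From graphs to the abstract setting: a new vertex `none` joined to all vertices. -/

namespace Pool.Agent.MP_29e935_co

open Finset

variable {V : Type} [Fintype V] [DecidableEq V] (G : SimpleGraph V) [DecidableRel G.Adj]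

/-- vertices are edges to the new vertex `none` -/
def plusEnds : V ⊕ G.edgeSet → Sym2 (Option V)
  | Sum.inl v => s(some v, none)
  | Sum.inr e => (e : Sym2 V).map some

theorem plusEnds_nd (x : V ⊕ G.edgeSet) : ¬ (plusEnds G x).IsDiag := by
  rcases x with v | ⟨e, he⟩
  · simp [plusEnds]
  · induction e using Sym2.ind with
    | _ u v =>
      have : u ≠ v := G.ne_of_adj he
      simp [plusEnds, this]

theorem plusEnds_inj : Function.Injective (plusEnds G) := by
  rintro (v | ⟨e, he⟩) (w | ⟨f, hf⟩) h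
  · simp only [plusEnds, Sym2.eq_iff] at h
    simp at h
    rw [h]
  · induction f using Sym2.ind with
    | _ u u' => simp [plusEnds] at h
  · induction e using Sym2.ind with
    | _ u u' => simp [plusEnds] at h
  · simp only [plusEnds] at h
    have := Sym2.map.injective (Option.some_injective V) h
    subst this
    rfl

theorem plusEnds_lab (v : Option V) (hv : v ≠ none) : ∃ l, plusEnds G l = s(v, none) := by
  rcases v with _ | v
  · exact absurd rfl hv
  · exact ⟨Sum.inl v, rfl⟩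

/-- edge part of a function on items -/
def edgeFun (f : V ⊕ G.edgeSet → ℕ) (e : Sym2 V) : ℕ :=
  if he : e ∈ G.edgeSet then f (Sum.inr ⟨e, he⟩) else 0

theorem plusEnds_sum (f : V ⊕ G.edgeSet → ℕ) (v : V) :
    ∑ x ∈ univ.filter (fun x => some v ∈ plusEnds G x), f x =
      f (Sum.inl v) + ∑ w ∈ G.neighborFinset v, edgeFun G f s(v, w) := by
  rw [Finset.sum_filter, Fintype.sum_sum_type]
  congr 1
  · rw [Finset.sum_eq_single v]
    · simp [plusEnds]
    · intro w _ hw
      simp [plusEnds, Ne.symm hw]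
    · simp
  · rw [← Finset.sum_filter]
    symm
    apply Finset.sum_bij (fun w hw => (⟨s(v, w), by simpa using hw⟩ : G.edgeSet))
    · intro w hw
      simp [plusEnds]
    · intro w _ w' _ h
      simp only [Subtype.mk.injEq, Sym2.congr_right] at h
      exact h
    · rintro ⟨e, he⟩ h
      simp only [mem_filter, mem_univ, true_and, plusEnds, Sym2.mem_map, Option.some.injEq,
        exists_eq_right] at h
      obtain ⟨w, rfl⟩ := Sym2.mem_iff_exists.1 h
      exact ⟨w, by simpa using he, rfl⟩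
    · intro w hw
      have : s(v, w) ∈ G.edgeSet := by simpa using hw
      simp only [edgeFun, this, dif_pos]

theorem plusEnds_deg (v : V) :
    (univ.filter (fun x => some v ∈ plusEnds G x)).card = G.degree v + 1 := by
  rw [Finset.card_eq_sum_ones, plusEnds_sum G (fun _ => 1) v, add_comm]
  congr 1
  rw [← SimpleGraph.card_neighborFinset_eq_degree, Finset.card_eq_sum_ones]
  apply Finset.sum_congr rfl
  intro w hw
  have : s(v, w) ∈ G.edgeSet := by simpa using hw
  simp only [edgeFun, this, dif_pos]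

theorem plusEnds_deg_none :
    (univ.filter (fun x => none ∈ plusEnds G x)).card = Fintype.card V := by
  have : univ.filter (fun x => none ∈ plusEnds G x) = univ.map ⟨Sum.inl, Sum.inl_injective⟩ := by
    ext x
    rcases x with v | ⟨e, he⟩
    · simp [plusEnds]
    · simp [plusEnds]
  rw [this, Finset.card_map, Finset.card_univ]

theorem even_card_of_odd_regular {r : ℕ} (hr : G.IsRegularOfDegree r) (ho : Odd r) :
    Even (Fintype.card V) := by
  have h := G.sum_degrees_eq_twice_card_edges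
  rw [Finset.sum_congr rfl (fun v _ => hr v), Finset.sum_const, smul_eq_mul, Finset.card_univ] at h
  have : Even (Fintype.card V * r) := ⟨_, by rw [h]; ring⟩
  rcases Nat.even_mul.1 this with h1 | h1
  · exact h1
  · exact absurd h1 (Nat.not_even_iff_odd.2 ho)

/-- vertex-magic total labelling, in the words of the frozen statement -/
def HasVMTL : Prop :=
  ∃ (h : V → ℕ) (g : Sym2 V → ℕ) (k : ℕ),
    Function.Injective h ∧ Set.InjOn g G.edgeSet ∧
    (∀ v, ∀ e ∈ G.edgeSet, h v ≠ g e) ∧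
    (∀ v, 1 ≤ h v ∧ h v ≤ Fintype.card V + Fintype.card G.edgeSet) ∧
    (∀ e ∈ G.edgeSet, 1 ≤ g e ∧ g e ≤ Fintype.card V + Fintype.card G.edgeSet) ∧
    ∀ v, h v + ∑ w ∈ G.neighborFinset v, g s(v, w) = k

theorem hasVMTL_of_lab (lab : V ⊕ G.edgeSet → ℕ) (k : ℕ) (h1 : Function.Injective lab)
    (h2 : ∀ x, 1 ≤ lab x ∧ lab x ≤ Fintype.card (V ⊕ G.edgeSet))
    (h3 : ∀ v, v ≠ none → ∑ x ∈ univ.filter (fun x => v ∈ plusEnds G x), lab x = k) :
    HasVMTL G := by
  rw [Fintype.card_sum] at h2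
  refine ⟨fun v => lab (Sum.inl v), edgeFun G lab, k, ?_, ?_, ?_, fun v => h2 _, ?_, ?_⟩
  · intro v w h
    exact Sum.inl_injective (h1 h)
  · intro e he f hf h
    simp only [edgeFun, he, hf, dif_pos] at h
    have := Sum.inr_injective (h1 h)
    exact congrArg Subtype.val this
  · intro v e he h
    simp only [edgeFun, he, dif_pos] at h
    exact Sum.inl_ne_inr (h1 h)
  · intro e he
    simp only [edgeFun, he, dif_pos]
    exact h2 _
  · intro v
    rw [← plusEnds_sum]
    exact h3 _ (Option.some_ne_none v)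

theorem hasVMTL_of_isEmpty [IsEmpty V] : HasVMTL G := by
  refine ⟨fun _ => 0, fun _ => 0, 0, ?_, ?_, ?_, ?_, ?_, ?_⟩
  · intro v; exact isEmptyElim v
  · intro e; induction e using Sym2.ind with
    | _ u v => exact isEmptyElim u
  · intro v; exact isEmptyElim v
  · intro v; exact isEmptyElim v
  · intro e; induction e using Sym2.ind with
    | _ u v => exact isEmptyElim u
  · intro v; exact isEmptyElim v

theorem hasVMTL_three_mod_four {r : ℕ} (hr : G.IsRegularOfDegree r) (h4 : r % 4 = 3) :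
    HasVMTL G := by
  rcases isEmpty_or_nonempty V with hV | ⟨⟨v₀⟩⟩
  · exact hasVMTL_of_isEmpty G
  obtain ⟨lab, k, h1, h2, h3⟩ := magic_even (ends := plusEnds G) (inf := none) (m := (r + 1) / 2)
    (plusEnds_nd G) (plusEnds_inj G) (plusEnds_lab G) (by omega) ⟨(r + 1) / 4, by omega⟩
    ⟨some v₀, by simp⟩ (by
      rintro (_ | v) hv
      · exact absurd rfl hv
      · rw [plusEnds_deg, hr v]; omega)
    (by rw [plusEnds_deg_none]; exact even_card_of_odd_regular G hr ⟨r / 2, by omega⟩)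
  exact hasVMTL_of_lab G lab k h1 h2 h3

end Pool.Agent.MP_29e935_co

end
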