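import Pool.Agent.Mg.F29e935p.G1cf072
import Pool.Agent.Mg.F29e935p.Ga58434

set_option autoImplicit false

/-! All odd degrees at least three. -/

namespace Pool.Agent.MP_29e935_co

open Finset

variable {V : Type} [Fintype V] [DecidableEq V] (G : SimpleGraph V) [DecidableRel G.Adj]

theorem hasVMTL_one_mod_four {r : ℕ} (hr : G.IsRegularOfDegree r) (h4 : r % 4 = 1) (h5 : 1 < r) :
    HasVMTL G := by
  obtain ⟨lab, k, h1, h2, h3⟩ := magic_odd (ends := plusEnds G) (inf := none) (m := (r + 1) / 2)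
    ⟨plusEnds_nd G, plusEnds_inj G, plusEnds_lab G, by
      rintro (_ | v) hv
      · exact absurd rfl hv
      · rw [plusEnds_deg, hr v]; omega, ⟨r / 4, by omega⟩, by omega⟩
  exact hasVMTL_of_lab G lab k h1 h2 h3

theorem hasVMTL_odd {r : ℕ} (hr : G.IsRegularOfDegree r) (ho : Odd r) (h1 : 1 < r) :
    HasVMTL G := by
  rw [Nat.odd_iff] at ho
  by_cases h : r % 4 = 3
  · exact hasVMTL_three_mod_four G hr h
  · exact hasVMTL_one_mod_four G hr (by omega) h1

end Pool.Agent.MP_29e935_co
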