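import Mathlib

section

set_option autoImplicit false

/-! Two involutions generating a transitive group give a zigzag labelling. -/

namespace Pool.Agent.MP_29e935_co

open Equiv Finset

variable {I : Type*}

/-- the zigzag labelling along the path formed by two involutions -/
theorem exists_label [Fintype I] [DecidableEq I] (α β : Perm I) (hα : α * α = 1)
    (hβ : β * β = 1) (x₀ : I) (h0 : β x₀ = x₀)
    (htr : ∀ S : Set I, x₀ ∈ S → (∀ x ∈ S, α x ∈ S) → (∀ x ∈ S, β x ∈ S) → ∀ x, x ∈ S) :
    ∃ lab : I → ℕ, Function.Injective lab ∧ (∀ x, 1 ≤ lab x ∧ lab x ≤ Fintype.card I) ∧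
      lab x₀ = 1 ∧ (∀ x, lab x + lab (α x) = Fintype.card I + 1) ∧
      (∀ x, x ≠ x₀ → lab x + lab (β x) = Fintype.card I + 2) := by
  classical
  set σ : Perm I := β * α with hσ
  have hββ : ∀ x, β (β x) = x := fun x => by
    have := congrArg (fun f : Perm I => f x) hβ; simpa using this
  have hαα : ∀ x, α (α x) = x := fun x => by
    have := congrArg (fun f : Perm I => f x) hα; simpa using this
  have key : ∀ j : ℕ, ∀ x, (σ ^ j) (β ((σ ^ j) x)) = β x := by
    intro j
    induction j with
    | zero => intro x; simp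
    | succ j ih =>
      intro x
      have e1 : (σ ^ (j + 1)) x = (σ ^ j) (σ x) := by rw [pow_succ]; rfl
      have e2 : ∀ y, (σ ^ (j + 1)) y = σ ((σ ^ j) y) := fun y => by rw [pow_succ']; rfl
      rw [e2, e1, ih]
      simp [hσ, hββ, hαα]
  set N := Function.minimalPeriod σ x₀ with hN
  have hper : x₀ ∈ Function.periodicPts σ := σ.injective.mem_periodicPts x₀
  have hNpos : 0 < N := Function.minimalPeriod_pos_of_mem_periodicPts hper
  have hNit : (σ ^ N) x₀ = x₀ := by
    have := Function.iterate_minimalPeriod (f := σ) (x := x₀)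
    rwa [Equiv.Perm.iterate_eq_pow] at this
  have hinj : ∀ i j, i < N → j < N → (σ ^ i) x₀ = (σ ^ j) x₀ → i = j := by
    intro i j hi hj h
    have := Function.iterate_injOn_Iio_minimalPeriod (f := σ) (x := x₀)
    apply this hi hj
    simp only [Equiv.Perm.iterate_eq_pow]
    exact h
  have hb : ∀ i, i ≤ N → β ((σ ^ i) x₀) = (σ ^ (N - i)) x₀ := by
    intro i hi
    apply (σ ^ i).injective
    rw [key, h0, ← Perm.mul_apply, ← pow_add, Nat.add_sub_cancel' hi, hNit]
  have ha : ∀ i, i < N → α ((σ ^ i) x₀) = (σ ^ (N - (i + 1))) x₀ := by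
    intro i hi
    rw [← hb (i + 1) hi]
    have e2 : (σ ^ (i + 1)) x₀ = σ ((σ ^ i) x₀) := by rw [pow_succ']; rfl
    rw [e2]
    simp [hσ, hββ]
  have hall : ∀ x, ∃ i, i < N ∧ (σ ^ i) x₀ = x := by
    intro x
    refine htr {x | ∃ i, i < N ∧ (σ ^ i) x₀ = x} ⟨0, hNpos, by simp⟩ ?_ ?_ x
    · rintro _ ⟨i, hi, rfl⟩
      exact ⟨N - (i + 1), by omega, (ha i hi).symm⟩
    · rintro _ ⟨i, hi, rfl⟩
      rcases Nat.eq_zero_or_pos i with rfl | hp
      · exact ⟨0, hNpos, by simp [h0]⟩
      · exact ⟨N - i, by omega, (hb i hi.le).symm⟩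
  choose e he1 he2 using hall
  have hee : ∀ i, i < N → e ((σ ^ i) x₀) = i := fun i hi =>
    hinj _ _ (he1 _) hi (he2 _)
  have hcard : Fintype.card I = N := by
    have : Function.Bijective (fun i : Fin N => (σ ^ (i : ℕ)) x₀) := by
      constructor
      · intro i j h
        exact Fin.ext (hinj _ _ i.2 j.2 h)
      · intro x
        exact ⟨⟨e x, he1 x⟩, he2 x⟩
    rw [← Fintype.card_of_bijective this, Fintype.card_fin]
  refine ⟨fun x => e x + 1, ?_, ?_, ?_, ?_, ?_⟩
  · intro x y h
    have h' : e x = e y := by simpa using h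
    rw [← he2 x, ← he2 y, h']
  · intro x
    have := he1 x
    simp only [hcard]
    omega
  · have := hee 0 hNpos
    simp at this
    simp [this]
  · intro x
    have h1 := he1 x
    have h2 : e (α x) = N - (e x + 1) := by
      conv_lhs => rw [← he2 x, ha _ h1]
      exact hee _ (by omega)
    simp only [hcard, h2]
    omega
  · intro x hx
    have h1 := he1 x
    have h3 : e x ≠ 0 := by
      intro h
      apply hx
      rw [← he2 x, h]
      simp
    have h2 : e (β x) = N - e x := by
      conv_lhs => rw [← he2 x, hb _ h1.le]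
      exact hee _ (by omega)
    simp only [hcard, h2]
    omega

/-- a finite set closed under a map that is a fixed point free involution on it is even -/
theorem even_card_of_invol [DecidableEq I] (K : Finset I) (f : I → I)
    (h1 : ∀ x ∈ K, f x ∈ K) (h2 : ∀ x ∈ K, f (f x) = x) (h3 : ∀ x ∈ K, f x ≠ x) :
    Even K.card := by
  have : ∑ _x ∈ K, (1 : ZMod 2) = 0 := by
    refine Finset.sum_involution (fun x _ => f x) ?_ ?_ h1 h2
    · intro a _
      rfl
    · intro a ha _
      exact h3 a ha
  rw [Finset.sum_const, nsmul_eq_mul, mul_one] at this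
  exact (ZMod.natCast_eq_zero_iff_even).1 this

/-- pairing inside the fibres of a map -/
theorem exists_pairing {W : Type*} [DecidableEq I] [DecidableEq W] (a : I → W) (S : Finset I)
    (hS : ∀ w, Even (S.filter (fun x => a x = w)).card) :
    ∃ α : Perm I, α * α = 1 ∧ (∀ x, a (α x) = a x) ∧ (∀ x, α x = x ↔ x ∉ S) := by
  induction' hn : S.card using Nat.strong_induction_on with n ih generalizing S
  rcases S.eq_empty_or_nonempty with rfl | ⟨x, hx⟩
  · exact ⟨1, by simp, by simp, by simp⟩
  · have hx1 : x ∈ S.filter (fun z => a z = a x) := by simp [hx]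
    have h2 : 1 < (S.filter (fun z => a z = a x)).card := by
      have := hS (a x)
      have hp := Finset.card_pos.2 ⟨x, hx1⟩
      obtain ⟨k, hk⟩ := this
      omega
    obtain ⟨y, hy, hyx⟩ := Finset.exists_mem_ne h2 x
    rw [Finset.mem_filter] at hy
    set S' := (S.erase x).erase y with hS'
    have hyS : y ∈ S.erase x := by simp [hyx, hy.1]
    have hc : S'.card + 2 = n := by
      rw [hS', Finset.card_erase_of_mem hyS, Finset.card_erase_of_mem hx, ← hn]
      have := Finset.card_pos.2 ⟨y, hyS⟩
      rw [Finset.card_erase_of_mem hx] at this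
      omega
    have hS'e : ∀ w, Even (S'.filter (fun x => a x = w)).card := by
      intro w
      by_cases hw : a x = w
      · subst hw
        have e1 : S'.filter (fun z => a z = a x) =
            ((S.filter (fun z => a z = a x)).erase x).erase y := by
          ext z; simp [hS']; tauto
        have hy2 : y ∈ (S.filter (fun z => a z = a x)).erase x := by simp [hyx, hy.1, hy.2]
        rw [e1, Finset.card_erase_of_mem hy2, Finset.card_erase_of_mem hx1]
        obtain ⟨k, hk⟩ := hS (a x)
        exact ⟨k - 1, by omega⟩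
      · have e1 : S'.filter (fun z => a z = w) = S.filter (fun z => a z = w) := by
          ext z
          simp only [hS', Finset.mem_filter, Finset.mem_erase]
          constructor
          · tauto
          · rintro ⟨k1, k2⟩
            refine ⟨⟨?_, ?_, k1⟩, k2⟩
            · rintro rfl; exact hw (hy.2 ▸ k2)
            · rintro rfl; exact hw k2
        rw [e1]; exact hS w
    obtain ⟨α', h1, h2', h3⟩ := ih S'.card (by omega) S' hS'e rfl
    have hx' : α' x = x := (h3 x).2 (by simp [hS'])
    have hy' : α' y = y := (h3 y).2 (by simp [hS'])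
    have hαα : ∀ z, α' (α' z) = z := fun z => by
      have := congrArg (fun f : Perm I => f z) h1; simpa using this
    have hval : ∀ z, z ≠ x → z ≠ y → swap x y (α' z) = α' z := by
      intro z hzx hzy
      apply swap_apply_of_ne_of_ne
      · intro h; apply hzx; rw [← hαα z, h, hx']
      · intro h; apply hzy; rw [← hαα z, h, hy']
    refine ⟨swap x y * α', ?_, ?_, ?_⟩
    · ext z
      simp only [Perm.mul_apply, Perm.one_apply]
      by_cases hzx : z = x
      · subst hzx; simp [hx', hy']
      · by_cases hzy : z = y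
        · subst hzy; simp [hx', hy']
        · rw [hval z hzx hzy, hαα, swap_apply_of_ne_of_ne hzx hzy]
    · intro z
      simp only [Perm.mul_apply]
      by_cases hzx : z = x
      · subst hzx; simp [hx', hy.2]
      · by_cases hzy : z = y
        · subst hzy; simp [hy', hy.2]
        · rw [hval z hzx hzy, h2']
    · intro z
      simp only [Perm.mul_apply]
      by_cases hzx : z = x
      · subst hzx; simp [hx', hx, hyx]
      · by_cases hzy : z = y
        · subst hzy; simp [hy', hy.1, Ne.symm hyx]
        · rw [hval z hzx hzy, h3]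
          simp [hS', hzx, hzy]

/-- orbit of a point under two maps -/
inductive Reach (α β : Perm I) (x : I) : I → Prop
  | refl : Reach α β x x
  | sa {y : I} : Reach α β x y → Reach α β x (α y)
  | sb {y : I} : Reach α β x y → Reach α β x (β y)

theorem Reach.trans {α β : Perm I} {x y z : I} (h1 : Reach α β x y) (h2 : Reach α β y z) :
    Reach α β x z := by
  induction h2 with
  | refl => exact h1
  | sa _ ih => exact ih.sa
  | sb _ ih => exact ih.sb

theorem Reach.flip {α β : Perm I} {x y : I} (h : Reach α β x y) : Reach β α x y := by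
  induction h with
  | refl => exact .refl
  | sa _ ih => exact ih.sb
  | sb _ ih => exact ih.sa

theorem Reach.symm {α β : Perm I} (hα : ∀ x, α (α x) = x) (hβ : ∀ x, β (β x) = x) {x y : I}
    (h : Reach α β x y) : Reach α β y x := by
  induction h with
  | refl => exact .refl
  | @sa y _ ih =>
    have : Reach α β (α y) y := by
      have := (Reach.refl (α := α) (β := β) (x := α y)).sa
      rwa [hα] at this
    exact this.trans ih
  | @sb y _ ih =>
    have : Reach α β (β y) y := by
      have := (Reach.refl (α := α) (β := β) (x := β y)).sb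
      rwa [hβ] at this
    exact this.trans ih

theorem Reach.of_closed {α β : Perm I} {x : I} (P : I → Prop) (h0 : P x)
    (ha : ∀ y, P y → P (α y)) (hb : ∀ y, P y → P (β y)) {y : I} (h : Reach α β x y) : P y := by
  induction h with
  | refl => exact h0
  | sa _ ih => exact ha _ ih
  | sb _ ih => exact hb _ ih

/-- re-pairing merges an orbit with a closed orbit -/
theorem merge [Fintype I] [DecidableEq I] (α β : Perm I) (hα : ∀ x, α (α x) = x)
    (hβ : ∀ x, β (β x) = x) (x y : I) (hxy : ¬ Reach α β y x)
    (hy : ∀ z, Reach α β y z → α z ≠ z ∧ β z ≠ z) :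
    Reach (swap x y * α * swap x y) β x y ∧
      ∀ z, Reach (swap x y * α * swap x y) β x z → Reach (swap x y * α * swap x y) β x (α z) := by
  classical
  set α' := swap x y * α * swap x y with hα'
  have hne : x ≠ y := by rintro rfl; exact hxy .refl
  have hy1 : α y ≠ y := (hy y .refl).1
  have hy2 : α y ≠ x := fun h => hxy (h ▸ Reach.refl.sa)
  have hx2 : α x ≠ y := fun h => hy2 (by rw [← h, hα])
  have v1 : α' x = α y := by
    simp only [hα', Perm.mul_apply, swap_apply_left]
    exact swap_apply_of_ne_of_ne hy2 hy1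
  have v2 : α x ≠ x → α' y = α x := by
    intro h
    simp only [hα', Perm.mul_apply, swap_apply_right]
    exact swap_apply_of_ne_of_ne h hx2
  have v3 : ∀ z, z ≠ x → z ≠ y → z ≠ α x → z ≠ α y → α' z = α z := by
    intro z h1 h2 h3 h4
    simp only [hα', Perm.mul_apply, swap_apply_of_ne_of_ne h1 h2]
    apply swap_apply_of_ne_of_ne
    · intro h; apply h3; rw [← h, hα]
    · intro h; apply h4; rw [← h, hα]
  have c0 : Reach α' β x (α y) := v1 ▸ Reach.refl.sa
  have c1 : Reach α' β x y := by
    by_contra hn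
    set T := Finset.univ.filter (fun z => Reach α' β x z ∧ Reach α β y z) with hT
    have e1 : Even T.card := by
      apply even_card_of_invol T β
      · intro z hz
        simp only [hT, Finset.mem_filter, Finset.mem_univ, true_and] at hz ⊢
        exact ⟨hz.1.sb, hz.2.sb⟩
      · intro z _; exact hβ z
      · intro z hz
        simp only [hT, Finset.mem_filter, Finset.mem_univ, true_and] at hz
        exact (hy z hz.2).2
    have hm : α y ∈ T := by
      simp only [hT, Finset.mem_filter, Finset.mem_univ, true_and]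
      exact ⟨c0, Reach.refl.sa⟩
    have e2 : Even (T.erase (α y)).card := by
      apply even_card_of_invol _ α
      · intro z hz
        simp only [hT, Finset.mem_erase, Finset.mem_filter, Finset.mem_univ, true_and] at hz ⊢
        obtain ⟨h1, h2, h3⟩ := hz
        have hzy : z ≠ y := by rintro rfl; exact hn h2
        have hzx : z ≠ x := by rintro rfl; exact hxy h3
        have hzx' : z ≠ α x := by
          rintro rfl
          have := h3.sa
          rw [hα] at this
          exact hxy this
        refine ⟨fun h => hzy (α.injective h), ?_, h3.sa⟩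
        rw [← v3 z hzx hzy hzx' h1]
        exact h2.sa
      · intro z _; exact hα z
      · intro z hz
        simp only [hT, Finset.mem_erase, Finset.mem_filter, Finset.mem_univ, true_and] at hz
        exact (hy z hz.2.2).1
    rw [Finset.card_erase_of_mem hm] at e2
    have := Finset.card_pos.2 ⟨_, hm⟩
    obtain ⟨k, hk⟩ := e1
    obtain ⟨l, hl⟩ := e2
    omega
  refine ⟨c1, ?_⟩
  intro z hz
  by_cases h1 : z = x
  · subst h1
    by_cases h : α z = z
    · rw [h]; exact .refl
    · rw [← v2 h]; exact c1.sa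
  by_cases h2 : z = y
  · subst h2; exact c0
  by_cases h3 : z = α x
  · subst h3; rw [hα]; exact .refl
  by_cases h4 : z = α y
  · subst h4; rw [hα]; exact c1
  rw [← v3 z h1 h2 h3 h4]
  exact hz.sa

end Pool.Agent.MP_29e935_co

end

section

set_option autoImplicit false

/-! Euler trails of a connected bipartite multigraph, in the language of two involutions. -/

namespace Pool.Agent.MP_29e935_co

open Equiv Finset

variable {I W : Type*}

/-- admissible pairings: `α` pairs inside fibres of `a`, `β` inside fibres of `b` -/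
structure Good [Fintype I] [DecidableEq I] (a b : I → W) (ib : W) (Pa Pb : W → Prop)
    (α β : Perm I) (x₀ : I) : Prop where
  hα : ∀ x, α (α x) = x
  hβ : ∀ x, β (β x) = x
  ha : ∀ x, a (α x) = a x
  hb : ∀ x, b (β x) = b x
  h0 : β x₀ = x₀
  hb0 : b x₀ = ib
  fa : ∀ x, α x = x → Pa (a x)
  fb : ∀ x, β x = x → x ≠ x₀ → Pb (b x)
  hfix : (univ.filter (fun x => α x = x)).card + (univ.filter (fun x => β x = x)).card ≤ 2

theorem card_fix_conj [Fintype I] [DecidableEq I] (α : Perm I) (x y : I) :
    (univ.filter (fun z => (swap x y * α * swap x y) z = z)).card =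
      (univ.filter (fun z => α z = z)).card := by
  apply Finset.card_bij (fun z _ => swap x y z)
  · intro z hz
    simp only [mem_filter, mem_univ, true_and, Perm.mul_apply] at hz ⊢
    have := congrArg (swap x y) hz
    simpa using this
  · intro z _ w _ h
    exact (swap x y).injective h
  · intro z hz
    refine ⟨swap x y z, ?_, by simp⟩
    simp only [mem_filter, mem_univ, true_and, Perm.mul_apply] at hz ⊢
    simp [hz]

theorem apply_swap_eq [DecidableEq I] (a : I → W) {x y : I} (h : a x = a y) (z : I) :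
    a (swap x y z) = a z := by
  by_cases h1 : z = x
  · subst h1; simp [h]
  · by_cases h2 : z = y
    · subst h2; simp [h]
    · rw [swap_apply_of_ne_of_ne h1 h2]

theorem card_parity [DecidableEq I] (K : Finset I) (f : Perm I) (h1 : ∀ x ∈ K, f x ∈ K)
    (h2 : ∀ x, f (f x) = x) : Even (K.card + (K.filter (fun x => f x = x)).card) := by
  have e := Finset.card_filter_add_card_filter_not (s := K) (fun x => f x = x)
  have : Even (K.filter (fun x => ¬ f x = x)).card := by
    apply even_card_of_invol _ f
    · intro x hx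
      simp only [mem_filter] at hx ⊢
      refine ⟨h1 x hx.1, ?_⟩
      rw [h2]; exact fun h => hx.2 h.symm
    · intro x _; exact h2 x
    · intro x hx
      simp only [mem_filter] at hx
      exact hx.2
  obtain ⟨k, hk⟩ := this
  exact ⟨k + (K.filter (fun x => f x = x)).card, by omega⟩

theorem Good.no_fix [Fintype I] [DecidableEq I] {a b : I → W} {ib : W} {Pa Pb : W → Prop}
    {α β : Perm I} {x₀ : I} (g : Good a b ib Pa Pb α β x₀) {z : I} (hz : ¬ Reach α β x₀ z) :
    α z ≠ z ∧ β z ≠ z := by
  classical
  set O := univ.filter (fun x => Reach α β x₀ x) with hO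
  have p1 := card_parity O α (by
    intro x hx; simp only [hO, mem_filter, mem_univ, true_and] at hx ⊢; exact hx.sa) g.hα
  have p2 := card_parity O β (by
    intro x hx; simp only [hO, mem_filter, mem_univ, true_and] at hx ⊢; exact hx.sb) g.hβ
  have hx0 : x₀ ∈ O.filter (fun x => β x = x) := by
    simp only [hO, mem_filter, mem_univ, true_and]; exact ⟨.refl, g.h0⟩
  have hpos := Finset.card_pos.2 ⟨_, hx0⟩
  have hzO : z ∉ O := by simp [hO, hz]
  have s1 : O.filter (fun x => α x = x) ⊆ univ.filter (fun x => α x = x) :=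
    Finset.filter_subset_filter _ (subset_univ _)
  have s2 : O.filter (fun x => β x = x) ⊆ univ.filter (fun x => β x = x) :=
    Finset.filter_subset_filter _ (subset_univ _)
  have c1 := Finset.card_le_card s1
  have c2 := Finset.card_le_card s2
  have hf := g.hfix
  obtain ⟨k, hk⟩ := p1
  obtain ⟨l, hl⟩ := p2
  constructor
  · intro h
    have : O.filter (fun x => α x = x) ⊂ univ.filter (fun x => α x = x) := by
      rw [Finset.ssubset_iff_of_subset s1]
      exact ⟨z, by simp [h], by simp [hzO]⟩
    have := Finset.card_lt_card this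
    omega
  · intro h
    have : O.filter (fun x => β x = x) ⊂ univ.filter (fun x => β x = x) := by
      rw [Finset.ssubset_iff_of_subset s2]
      exact ⟨z, by simp [h], by simp [hzO]⟩
    have := Finset.card_lt_card this
    omega

theorem exists_transitive [Fintype I] [DecidableEq I] {a b : I → W} {ib : W} {Pa Pb : W → Prop}
    (hconn : ∀ S : Set I, (∀ x ∈ S, ∀ y, a x = a y → y ∈ S) → (∀ x ∈ S, ∀ y, b x = b y → y ∈ S) →
      ∀ x ∈ S, ∀ y, y ∈ S)
    {α β : Perm I} {x₀ : I} (g : Good a b ib Pa Pb α β x₀) :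
    ∃ (α β : Perm I) (x₀ : I), Good a b ib Pa Pb α β x₀ ∧ ∀ y, Reach α β x₀ y := by
  classical
  induction' hn : (univ.filter (fun x => ¬ Reach α β x₀ x)).card using Nat.strong_induction_on
    with n ih generalizing α β x₀
  by_cases hall : ∀ y, Reach α β x₀ y
  · exact ⟨α, β, x₀, g, hall⟩
  have hex : (∃ x y, Reach α β x₀ x ∧ ¬ Reach α β x₀ y ∧ a x = a y) ∨
      (∃ x y, Reach α β x₀ x ∧ ¬ Reach α β x₀ y ∧ b x = b y) := by
    by_contra hcon
    push Not at hcon
    apply hall
    refine hconn {x | Reach α β x₀ x} ?_ ?_ x₀ Reach.refl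
    · intro x hx y hxy
      by_contra hy
      exact hcon.1 x y hx hy hxy
    · intro x hx y hxy
      by_contra hy
      exact hcon.2 x y hx hy hxy
  have hnf : ∀ y, ¬ Reach α β x₀ y → ∀ z, Reach α β y z → α z ≠ z ∧ β z ≠ z := by
    intro y hy z hz
    apply g.no_fix
    intro h
    exact hy (h.trans (hz.symm g.hα g.hβ))
  have hlt : ∀ (α' β' : Perm I) (x₁ y : I), ¬ Reach α β x₀ y → Reach α' β' x₁ y →
      (∀ z, Reach α β x₀ z → Reach α' β' x₁ z) →
      (univ.filter (fun x => ¬ Reach α' β' x₁ x)).card < n := by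
    intro α' β' x₁ y h1 h2 h3
    rw [← hn]
    apply Finset.card_lt_card
    rw [Finset.ssubset_iff_of_subset]
    · exact ⟨y, by simp [h1], by simp [h2]⟩
    · intro z hz
      simp only [mem_filter, mem_univ, true_and] at hz ⊢
      exact fun h => hz (h3 z h)
  rcases hex with ⟨x, y, hx, hy, hxy⟩ | ⟨x, y, hx, hy, hxy⟩
  · have hyx : ¬ Reach α β y x := fun h => hy (hx.trans (h.symm g.hα g.hβ))
    obtain ⟨m1, m2⟩ := merge α β g.hα g.hβ x y hyx (hnf y hy)
    set α' := swap x y * α * swap x y with hα'
    have g' : Good a b ib Pa Pb α' β x₀ := by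
      refine ⟨?_, g.hβ, ?_, g.hb, g.h0, g.hb0, ?_, g.fb, ?_⟩
      · intro z; simp [hα', g.hα]
      · intro z
        simp only [hα', Perm.mul_apply]
        rw [apply_swap_eq a hxy, g.ha, apply_swap_eq a hxy]
      · intro z hz
        simp only [hα', Perm.mul_apply] at hz
        have := congrArg (swap x y) hz
        simp only [swap_apply_self] at this
        have := g.fa _ this
        rwa [apply_swap_eq a hxy] at this
      · rw [hα', card_fix_conj]; exact g.hfix
    have hx0 : Reach α' β x x₀ :=
      (hx.symm g.hα g.hβ).of_closed (fun z => Reach α' β x z) .refl m2 (fun z h => h.sb)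
    have hx0' := hx0.symm g'.hα g'.hβ
    refine ih _ (hlt α' β x₀ y hy (hx0'.trans m1) ?_) g' rfl
    intro z hz
    exact hx0'.trans (hz.of_closed (fun z => Reach α' β x z) hx0 m2 (fun z h => h.sb))
  · have hyx : ¬ Reach β α y x := fun h => hy (hx.trans (h.flip.symm g.hα g.hβ))
    obtain ⟨m1, m2⟩ := merge β α g.hβ g.hα x y hyx
      (fun z hz => (hnf y hy z hz.flip).symm)
    set β' := swap x y * β * swap x y with hβ'
    have g' : Good a b ib Pa Pb α β' (swap x y x₀) := by
      refine ⟨g.hα, ?_, g.ha, ?_, ?_, ?_, g.fa, ?_, ?_⟩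
      · intro z; simp [hβ', g.hβ]
      · intro z
        simp only [hβ', Perm.mul_apply]
        rw [apply_swap_eq b hxy, g.hb, apply_swap_eq b hxy]
      · simp [hβ', g.h0]
      · rw [apply_swap_eq b hxy, g.hb0]
      · intro z hz hz0
        simp only [hβ', Perm.mul_apply] at hz
        have := congrArg (swap x y) hz
        simp only [swap_apply_self] at this
        have := g.fb _ this (by
          intro h; apply hz0; rw [← h]; simp)
        rwa [apply_swap_eq b hxy] at this
      · rw [hβ', card_fix_conj]; exact g.hfix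
    have hx0 : Reach β' α x x₀ :=
      (hx.symm g.hα g.hβ).of_closed (fun z => Reach β' α x z) .refl (fun z h => h.sb) m2
    have hx1 : Reach β' α x (swap x y x₀) := by
      by_cases h1 : x₀ = x
      · rw [h1]; simpa using m1
      · by_cases h2 : x₀ = y
        · rw [h2]; simp only [swap_apply_right]; exact .refl
        · rw [swap_apply_of_ne_of_ne h1 h2]; exact hx0
    have hx1' := hx1.flip.symm g'.hα g'.hβ
    refine ih _ (hlt α β' _ y hy (hx1'.trans m1.flip) ?_) g' rfl
    intro z hz
    exact hx1'.trans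
      (hz.of_closed (fun z => Reach β' α x z) hx0 (fun z h => h.sb) m2).flip

/-- zigzag labelling from connectivity -/
theorem exists_label_of_conn [Fintype I] [DecidableEq I] {a b : I → W} {ib : W}
    {Pa Pb : W → Prop}
    (hconn : ∀ S : Set I, (∀ x ∈ S, ∀ y, a x = a y → y ∈ S) → (∀ x ∈ S, ∀ y, b x = b y → y ∈ S) →
      ∀ x ∈ S, ∀ y, y ∈ S)
    {α β : Perm I} {x₀ : I} (g : Good a b ib Pa Pb α β x₀) :
    ∃ (α β : Perm I) (x₀ : I) (lab : I → ℕ), Good a b ib Pa Pb α β x₀ ∧
      Function.Injective lab ∧ (∀ x, 1 ≤ lab x ∧ lab x ≤ Fintype.card I) ∧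
      lab x₀ = 1 ∧ (∀ x, lab x + lab (α x) = Fintype.card I + 1) ∧
      (∀ x, x ≠ x₀ → lab x + lab (β x) = Fintype.card I + 2) := by
  obtain ⟨α, β, x₀, g, h⟩ := exists_transitive hconn g
  obtain ⟨lab, h'⟩ := exists_label α β (by ext x; simp [g.hα]) (by ext x; simp [g.hβ]) x₀ g.h0
    (fun S h0 h1 h2 x => (h x).of_closed (fun z => z ∈ S) h0 h1 h2)
  exact ⟨α, β, x₀, lab, g, h'⟩

/-- sum of the labels over a fibre -/
theorem two_mul_sum_fibre [Fintype I] [DecidableEq I] [DecidableEq W] (a : I → W) (α : Perm I)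
    (hα : ∀ x, α (α x) = x) (ha : ∀ x, a (α x) = a x) (lab : I → ℕ) (v : W) (s : ℕ)
    (hs : ∀ x, a x = v → lab x + lab (α x) = s) :
    2 * ∑ x ∈ univ.filter (fun x => a x = v), lab x =
      (univ.filter (fun x => a x = v)).card * s := by
  have e : ∑ x ∈ univ.filter (fun x => a x = v), lab x =
      ∑ x ∈ univ.filter (fun x => a x = v), lab (α x) := by
    apply Finset.sum_bij (fun x _ => α x)
    · intro x hx
      simp only [mem_filter, mem_univ, true_and] at hx ⊢
      rw [ha, hx]
    · intro x _ y _ h; exact α.injective h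
    · intro y hy
      simp only [mem_filter, mem_univ, true_and] at hy
      exact ⟨α y, by simp [ha, hy], hα y⟩
    · intro x _; rw [hα]
  rw [two_mul]
  nth_rewrite 2 [e]
  rw [← Finset.sum_add_distrib, Finset.card_eq_sum_ones, Finset.sum_mul]
  apply Finset.sum_congr rfl
  intro x hx
  simp only [mem_filter, mem_univ, true_and] at hx
  rw [hs x hx, one_mul]

end Pool.Agent.MP_29e935_co

end

section

set_option autoImplicit false

/-! Orientations with bounded out-degree (Hakimi) and balanced orientations. -/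

namespace Pool.Agent.MP_29e935_co

open Equiv Finset

variable {I W : Type*}

theorem exists_orient_cap [Fintype I] [DecidableEq I] [Fintype W] [DecidableEq W]
    (ends : I → Sym2 W) (cap : W → ℕ)
    (h : ∀ T : Finset W, (univ.filter (fun x => ∀ w ∈ ends x, w ∈ T)).card ≤ ∑ w ∈ T, cap w) :
    ∃ a b : I → W, (∀ x, s(a x, b x) = ends x) ∧
      ∀ w, (univ.filter (fun x => a x = w)).card ≤ cap w := by
  classical
  let t : I → Finset (W × ℕ) := fun x =>
    (univ.filter (fun w => w ∈ ends x)).biUnion (fun w => {w} ×ˢ range (cap w))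
  have ht : ∀ x p, p ∈ t x ↔ p.1 ∈ ends x ∧ p.2 < cap p.1 := by
    intro x p
    simp only [t, mem_biUnion, mem_filter, mem_univ, true_and, mem_product, mem_singleton,
      mem_range]
    constructor
    · rintro ⟨w, h1, rfl, h3⟩; exact ⟨h1, h3⟩
    · rintro ⟨h1, h2⟩; exact ⟨_, h1, rfl, h2⟩
  have hall : ∀ s : Finset I, s.card ≤ (s.biUnion t).card := by
    intro s
    set T := univ.filter (fun w => ∃ x ∈ s, w ∈ ends x) with hT
    have e1 : s.biUnion t = T.biUnion (fun w => {w} ×ˢ range (cap w)) := by
      ext p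
      simp only [mem_biUnion, ht, hT, mem_filter, mem_univ, true_and, mem_product, mem_singleton,
        mem_range]
      constructor
      · rintro ⟨x, hx, h1, h2⟩; exact ⟨_, ⟨x, hx, h1⟩, rfl, h2⟩
      · rintro ⟨w, ⟨x, hx, h1⟩, rfl, h2⟩; exact ⟨x, hx, h1, h2⟩
    have e2 : (T.biUnion (fun w => {w} ×ˢ range (cap w))).card = ∑ w ∈ T, cap w := by
      rw [Finset.card_biUnion]
      · simp
      · intro u _ v _ huv
        simp only [Function.onFun]
        rw [Finset.disjoint_left]
        intro p h1 h2
        simp only [mem_product, mem_singleton] at h1 h2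
        exact huv (h1.1.symm.trans h2.1)
    rw [e1, e2]
    refine le_trans (Finset.card_le_card ?_) (h T)
    intro x hx
    simp only [mem_filter, mem_univ, true_and, hT]
    intro w hw
    exact ⟨x, hx, hw⟩
  obtain ⟨f, hf, hft⟩ := (Finset.all_card_le_biUnion_card_iff_exists_injective t).1 hall
  have hm : ∀ x, (f x).1 ∈ ends x := fun x => ((ht x _).1 (hft x)).1
  refine ⟨fun x => (f x).1, fun x => Sym2.Mem.other (hm x), fun x => Sym2.other_spec (hm x), ?_⟩
  intro w
  have : (univ.filter (fun x => (f x).1 = w)).card ≤ (range (cap w)).card := by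
    apply Finset.card_le_card_of_injOn (fun x => (f x).2)
    · intro x hx
      simp only [coe_filter, mem_univ, true_and, Set.mem_ofPred_eq] at hx
      simp only [coe_range, Set.mem_Iio]
      rw [← hx]
      exact ((ht x _).1 (hft x)).2
    · intro x hx y hy hxy
      simp only [coe_filter, mem_univ, true_and, Set.mem_ofPred_eq] at hx hy
      apply hf
      exact Prod.ext (hx.trans hy.symm) hxy
  simpa using this

theorem deg_eq_add [Fintype I] [DecidableEq I] [DecidableEq W] {ends : I → Sym2 W}
    (hnd : ∀ x, ¬ (ends x).IsDiag) {a b : I → W} (hab : ∀ x, s(a x, b x) = ends x) (w : W) :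
    (univ.filter (fun x => w ∈ ends x)) =
      (univ.filter (fun x => a x = w)) ∪ (univ.filter (fun x => b x = w)) ∧
      Disjoint (univ.filter (fun x => a x = w)) (univ.filter (fun x => b x = w)) := by
  constructor
  · ext x
    simp only [mem_filter, mem_univ, true_and, mem_union, ← hab x, Sym2.mem_iff]
    constructor
    · rintro (h | h)
      · exact Or.inl h.symm
      · exact Or.inr h.symm
    · rintro (h | h)
      · exact Or.inl h.symm
      · exact Or.inr h.symm
  · rw [Finset.disjoint_left]
    intro x h1 h2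
    simp only [mem_filter, mem_univ, true_and] at h1 h2
    apply hnd x
    rw [← hab x, h1, h2]
    simp

theorem card_deg [Fintype I] [DecidableEq I] [DecidableEq W] {ends : I → Sym2 W}
    (hnd : ∀ x, ¬ (ends x).IsDiag) {a b : I → W} (hab : ∀ x, s(a x, b x) = ends x) (w : W) :
    (univ.filter (fun x => w ∈ ends x)).card =
      (univ.filter (fun x => a x = w)).card + (univ.filter (fun x => b x = w)).card := by
  obtain ⟨h1, h2⟩ := deg_eq_add hnd hab w
  rw [h1, Finset.card_union_of_disjoint h2]

theorem sum_deg [Fintype I] [DecidableEq I] [DecidableEq W] {ends : I → Sym2 W}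
    (hnd : ∀ x, ¬ (ends x).IsDiag) {a b : I → W} (hab : ∀ x, s(a x, b x) = ends x) (w : W)
    (f : I → ℕ) :
    ∑ x ∈ univ.filter (fun x => w ∈ ends x), f x =
      ∑ x ∈ univ.filter (fun x => a x = w), f x + ∑ x ∈ univ.filter (fun x => b x = w), f x := by
  obtain ⟨h1, h2⟩ := deg_eq_add hnd hab w
  rw [h1, Finset.sum_union h2]

theorem sum_card_fibre [Fintype I] [DecidableEq W] (a : I → W) (T : Finset W) :
    ∑ w ∈ T, (univ.filter (fun x => a x = w)).card = (univ.filter (fun x => a x ∈ T)).card := by
  classical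
  rw [Finset.card_eq_sum_card_fiberwise (f := a) (t := T)]
  · apply Finset.sum_congr rfl
    intro w hw
    congr 1
    ext x
    simp only [mem_filter, mem_univ, true_and]
    constructor
    · intro h; exact ⟨h ▸ hw, h⟩
    · exact fun h => h.2
  · intro x hx
    simpa using hx

/-- Eulerian orientation -/
theorem exists_balanced [Fintype I] [DecidableEq I] [Fintype W] [DecidableEq W]
    (ends : I → Sym2 W) (hnd : ∀ x, ¬ (ends x).IsDiag) (c : W → ℕ)
    (hc : ∀ w, (univ.filter (fun x => w ∈ ends x)).card = 2 * c w) :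
    ∃ a b : I → W, (∀ x, s(a x, b x) = ends x) ∧
      ∀ w, (univ.filter (fun x => a x = w)).card = c w ∧
        (univ.filter (fun x => b x = w)).card = c w := by
  classical
  have h0 : ∀ x, ∃ p : W × W, s(p.1, p.2) = ends x := fun x => by
    induction ends x using Sym2.ind with
    | _ u v => exact ⟨(u, v), rfl⟩
  choose p hp using h0
  have hT : ∀ T : Finset W, 2 * ∑ w ∈ T, c w =
      (univ.filter (fun x => (p x).1 ∈ T)).card + (univ.filter (fun x => (p x).2 ∈ T)).card := by
    intro T
    rw [← sum_card_fibre, ← sum_card_fibre, ← Finset.sum_add_distrib, Finset.mul_sum]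
    apply Finset.sum_congr rfl
    intro w _
    rw [← hc, card_deg hnd hp]
  obtain ⟨a, b, hab, hcap⟩ := exists_orient_cap ends c (by
    intro T
    have h1 : (univ.filter (fun x => ∀ w ∈ ends x, w ∈ T)).card ≤
        (univ.filter (fun x => (p x).1 ∈ T)).card := by
      apply Finset.card_le_card
      intro x hx
      simp only [mem_filter, mem_univ, true_and] at hx ⊢
      apply hx; rw [← hp]; simp
    have h2 : (univ.filter (fun x => ∀ w ∈ ends x, w ∈ T)).card ≤
        (univ.filter (fun x => (p x).2 ∈ T)).card := by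
      apply Finset.card_le_card
      intro x hx
      simp only [mem_filter, mem_univ, true_and] at hx ⊢
      apply hx; rw [← hp]; simp
    have := hT T
    omega)
  have hs : ∑ w, (univ.filter (fun x => a x = w)).card = ∑ w, c w := by
    have h1 := hT univ
    rw [sum_card_fibre]
    simp only [mem_univ, filter_true] at h1 ⊢
    omega
  have heq := (Finset.sum_eq_sum_iff_of_le (fun w _ => hcap w)).1 hs
  refine ⟨a, b, hab, fun w => ?_⟩
  have h1 := heq w (mem_univ w)
  have h2 := card_deg hnd hab w
  rw [hc] at h2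
  omega

end Pool.Agent.MP_29e935_co

end

section

set_option autoImplicit false

/-! Two nested zigzags. -/

namespace Pool.Agent.MP_29e935_co

open Equiv Finset

variable {J W : Type*} [Fintype J] [DecidableEq J] [Fintype W] [DecidableEq W]

theorem even_of_fibres (c : J → W) (T : Finset J)
    (h : ∀ v, Even (T.filter (fun x => c x = v)).card) : Even T.card := by
  rw [Finset.card_eq_sum_card_fiberwise (f := c) (t := univ) (fun x _ => by simp)]
  exact Finset.even_sum _ (fun v _ => h v)

theorem even_add_of_fibres (c : J → W) (T : Finset J) (v₀ : W)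
    (h : ∀ v, v ≠ v₀ → Even (T.filter (fun x => c x = v)).card) :
    Even (T.card + (T.filter (fun x => c x = v₀)).card) := by
  rw [Finset.card_eq_sum_card_fiberwise (f := c) (s := T) (t := univ) (fun x _ => by simp),
    ← Finset.add_sum_erase _ _ (mem_univ v₀)]
  have : Even (∑ v ∈ univ.erase v₀, (T.filter (fun x => c x = v)).card) :=
    Finset.even_sum _ (fun v hv => h v (Finset.ne_of_mem_erase hv))
  obtain ⟨k, hk⟩ := this
  exact ⟨k + (T.filter (fun x => c x = v₀)).card, by omega⟩

theorem exists_pairing_fix {inf : W} (c : J → W) (T : Finset J) (t1 : ∀ x ∈ T, c x = inf)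
    (t2 : ∀ w, w ≠ inf → Even (univ.filter (fun x => c x = w)).card)
    (t3 : Even ((univ.filter (fun x => c x = inf)).card + T.card)) :
    ∃ γ : Perm J, (∀ x, γ (γ x) = x) ∧ (∀ x, c (γ x) = c x) ∧ ∀ x, γ x = x ↔ x ∈ T := by
  obtain ⟨γ, g1, g2, g3⟩ := exists_pairing c (univ \ T) (by
    intro w
    by_cases hw : w = inf
    · subst hw
      have e : (univ \ T).filter (fun x => c x = w) = univ.filter (fun x => c x = w) \ T := by
        ext x; simp [and_comm]
      have hs : T ⊆ univ.filter (fun x => c x = w) := fun x hx => by simp [t1 x hx]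
      rw [e, Finset.card_sdiff_of_subset hs]
      have := Finset.card_le_card hs
      obtain ⟨k, hk⟩ := t3
      exact ⟨k - T.card, by omega⟩
    · have e : (univ \ T).filter (fun x => c x = w) = univ.filter (fun x => c x = w) := by
        ext x
        simp only [mem_filter, mem_sdiff, mem_univ, true_and, and_iff_right_iff_imp]
        intro k1 k2
        exact hw (k1.symm.trans (t1 x k2))
      rw [e]; exact t2 w hw)
  refine ⟨γ, fun x => ?_, g2, fun x => by simp [g3]⟩
  have := congrArg (fun f : Perm J => f x) g1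
  simpa using this

theorem exists_zigzag {inf : W} (a b : J → W)
    (ea : ∀ w, w ≠ inf → Even (univ.filter (fun x => a x = w)).card)
    (eb : ∀ w, w ≠ inf → Even (univ.filter (fun x => b x = w)).card)
    (hconn : ∀ S : Set J, (∀ x ∈ S, ∀ y, a x = a y → y ∈ S) → (∀ x ∈ S, ∀ y, b x = b y → y ∈ S) →
      ∀ x ∈ S, ∀ y, y ∈ S) (l₂ : J) (h2 : b l₂ = inf) :
    ∃ (α β : Perm J) (x₀ : J) (lab : J → ℕ), Good a b inf (· = inf) (· = inf) α β x₀ ∧
      Function.Injective lab ∧ (∀ x, 1 ≤ lab x ∧ lab x ≤ Fintype.card J) ∧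
      (∀ x, lab x + lab (α x) = Fintype.card J + 1) ∧
      (∀ x, x ≠ x₀ → lab x + lab (β x) = Fintype.card J + 2) := by
  have pa := even_add_of_fibres a univ inf ea
  have pb := even_add_of_fibres b univ inf eb
  have hT : ∃ Ta Tb : Finset J, (∀ x ∈ Ta, a x = inf) ∧ (∀ x ∈ Tb, b x = inf) ∧ l₂ ∈ Tb ∧
      Ta.card + Tb.card ≤ 2 ∧ Even ((univ.filter (fun x => a x = inf)).card + Ta.card) ∧
      Even ((univ.filter (fun x => b x = inf)).card + Tb.card) := by
    obtain ⟨p, hp⟩ := pa
    obtain ⟨q, hq⟩ := pb
    rcases Nat.even_or_odd (univ.filter (fun x => b x = inf)).card with ⟨r, hr⟩ | ⟨r, hr⟩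
    · have hpos : 0 < (univ.filter (fun x => b x = inf)).card :=
        Finset.card_pos.2 ⟨l₂, by simp [h2]⟩
      have h2' : 1 < (univ.filter (fun x => b x = inf)).card := by omega
      obtain ⟨l₃, k1, k2⟩ := Finset.exists_mem_ne h2' l₂
      simp only [mem_filter, mem_univ, true_and] at k1
      refine ⟨∅, {l₃, l₂}, by simp, ?_, by simp, ?_, ?_, ?_⟩
      · intro x hx
        simp only [mem_insert, mem_singleton] at hx
        rcases hx with rfl | rfl <;> assumption
      · rw [Finset.card_pair k2]; simp
      · rw [Finset.card_empty, Nat.even_iff]; omega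
      · rw [Finset.card_pair k2, Nat.even_iff]; omega
    · have hpos : 0 < (univ.filter (fun x => a x = inf)).card := by omega
      obtain ⟨l₁, h1⟩ := Finset.card_pos.1 hpos
      simp only [mem_filter, mem_univ, true_and] at h1
      refine ⟨{l₁}, {l₂}, by simp [h1], by simp [h2], by simp, by simp, ?_, ?_⟩
      · rw [Finset.card_singleton, Nat.even_iff]; omega
      · rw [Finset.card_singleton, Nat.even_iff]; omega
  obtain ⟨Ta, Tb, t1, t2, t3, t4, t5, t6⟩ := hT
  obtain ⟨α, a1, a2, a3⟩ := exists_pairing_fix a Ta t1 ea t5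
  obtain ⟨β, b1, b2, b3⟩ := exists_pairing_fix b Tb t2 eb t6
  have g : Good a b inf (· = inf) (· = inf) α β l₂ := by
    refine ⟨a1, b1, a2, b2, (b3 _).2 t3, h2, fun x hx => t1 x ((a3 x).1 hx),
      fun x hx _ => t2 x ((b3 x).1 hx), ?_⟩
    have e1 : univ.filter (fun x => α x = x) = Ta := by ext x; simp [a3]
    have e2 : univ.filter (fun x => β x = x) = Tb := by ext x; simp [b3]
    rw [e1, e2]; exact t4
  obtain ⟨α, β, x₀, lab, g, i1, i2, -, i3, i4⟩ := exists_label_of_conn hconn g
  exact ⟨α, β, x₀, lab, g, i1, i2, i3, i4⟩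

/-- no nonempty closed set of items avoids the items with head `inf` -/
def NoDry (inf : W) (a b : J → W) : Prop :=
  ∀ K : Set J, (∀ x ∈ K, ∀ y, a x = a y → y ∈ K) → (∀ x ∈ K, ∀ y, b x = b y → y ∈ K) →
    (∀ x ∈ K, b x ≠ inf) → ∀ x, x ∉ K

theorem NoDry.conn {inf : W} {a b : J → W} (h : NoDry inf a b) (S : Set J)
    (ha : ∀ x ∈ S, ∀ y, a x = a y → y ∈ S) (hb : ∀ x ∈ S, ∀ y, b x = b y → y ∈ S) :
    ∀ x ∈ S, ∀ y, y ∈ S := by
  intro x hx y
  by_contra hy
  by_cases hw : ∃ l ∈ S, b l = inf
  · obtain ⟨l, hl, hl'⟩ := hw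
    refine h Sᶜ ?_ ?_ ?_ y hy
    · intro u hu v huv hv; exact hu (ha v hv u huv.symm)
    · intro u hu v huv hv; exact hu (hb v hv u huv.symm)
    · intro u hu hu'; exact hu (hb l hl u (hl'.trans hu'.symm))
  · push Not at hw
    exact h S ha hb hw x hx

theorem NoDry.wet {inf : W} {a b : J → W} (h : NoDry inf a b) (x : J) : ∃ l, b l = inf := by
  by_contra hw
  push Not at hw
  exact h Set.univ (fun _ _ _ _ => trivial) (fun _ _ _ _ => trivial) (fun x _ => hw x) x trivial

theorem exists_inner {inf : W} (a b : J → W)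
    (ea : ∀ w, w ≠ inf → Even (univ.filter (fun x => a x = w)).card)
    (eb : ∀ w, w ≠ inf → Even (univ.filter (fun x => b x = w)).card)
    (h : NoDry inf a b) (lo : ℕ) :
    ∃ lab : J → ℕ, Function.Injective lab ∧ (∀ x, lo + 1 ≤ lab x ∧ lab x ≤ lo + Fintype.card J) ∧
      ∀ v, v ≠ inf →
        2 * ∑ x ∈ univ.filter (fun x => a x = v), lab x =
          (univ.filter (fun x => a x = v)).card * (2 * lo + Fintype.card J + 1) ∧
        2 * ∑ x ∈ univ.filter (fun x => b x = v), lab x =
          (univ.filter (fun x => b x = v)).card * (2 * lo + Fintype.card J) := by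
  rcases isEmpty_or_nonempty J with hJ | ⟨⟨x⟩⟩
  · exact ⟨fun _ => 0, fun x => isEmptyElim x, fun x => isEmptyElim x, fun v _ => by simp⟩
  obtain ⟨l, hl⟩ := h.wet x
  obtain ⟨α, β, x₀, lab, g, i1, i2, i3, i4⟩ := exists_zigzag a b ea eb h.conn l hl
  refine ⟨fun x => lo + Fintype.card J + 1 - lab x, ?_, ?_, fun v hv => ⟨?_, ?_⟩⟩
  · intro x y hxy
    apply i1
    have := i2 x
    have := i2 y
    simp only at hxy
    omega
  · intro x
    have := i2 x
    simp only
    omega
  · apply two_mul_sum_fibre a α g.hα g.ha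
    intro x _
    have := i2 x
    have := i2 (α x)
    have := i3 x
    omega
  · apply two_mul_sum_fibre b β g.hβ g.hb
    intro x hx
    have := i2 x
    have := i2 (β x)
    have := i4 x (by rintro rfl; exact hv (hx.symm.trans g.hb0))
    omega

theorem exists_outer {inf : W} (a b : J → W)
    (ea : ∀ w, w ≠ inf → Even (univ.filter (fun x => a x = w)).card)
    (eb : ∀ w, w ≠ inf → Even (univ.filter (fun x => b x = w)).card)
    (h : NoDry inf a b) (M : ℕ) :
    ∃ (lab : J → ℕ) (lo : ℕ), Function.Injective lab ∧ lo ≤ Fintype.card J ∧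
      (∀ x, 1 ≤ lab x ∧ lab x ≤ Fintype.card J + M ∧ (lab x ≤ lo ∨ lo + M < lab x)) ∧
      ∀ v, v ≠ inf →
        2 * ∑ x ∈ univ.filter (fun x => a x = v), lab x =
          (univ.filter (fun x => a x = v)).card * (2 * lo + M + 1) ∧
        2 * ∑ x ∈ univ.filter (fun x => b x = v), lab x =
          (univ.filter (fun x => b x = v)).card * (2 * lo + M + 2) := by
  rcases isEmpty_or_nonempty J with hJ | ⟨⟨x⟩⟩
  · exact ⟨fun _ => 0, 0, fun x => isEmptyElim x, by simp, fun x => isEmptyElim x,
      fun v _ => by simp⟩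
  rcases Nat.even_or_odd (Fintype.card J) with ⟨p, hp⟩ | ⟨p, hp⟩
  · obtain ⟨l, hl⟩ := h.wet x
    obtain ⟨α, β, x₀, lab, g, i1, i2, i3, i4⟩ := exists_zigzag a b ea eb h.conn l hl
    refine ⟨fun x => if lab x ≤ p then lab x else lab x + M, p, ?_, by omega, ?_,
      fun v hv => ⟨?_, ?_⟩⟩
    · intro x y hxy
      apply i1
      simp only at hxy
      split_ifs at hxy <;> omega
    · intro x
      have := i2 x
      simp only
      split_ifs <;> omega
    · apply two_mul_sum_fibre a α g.hα g.ha
      intro x _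
      have := i3 x
      split_ifs <;> omega
    · apply two_mul_sum_fibre b β g.hβ g.hb
      intro x hx
      have h0 : x ≠ x₀ := by rintro rfl; exact hv (hx.symm.trans g.hb0)
      have := i4 x h0
      have : lab x ≠ lab (β x) := fun e => hv (hx.symm.trans (g.fb x (i1 e).symm h0))
      split_ifs <;> omega
  · have pa := even_add_of_fibres a univ inf ea
    have hpos : 0 < (univ.filter (fun x => a x = inf)).card := by
      rw [Finset.card_univ, Nat.even_iff] at pa; omega
    obtain ⟨l, hl⟩ := Finset.card_pos.1 hpos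
    simp only [mem_filter, mem_univ, true_and] at hl
    obtain ⟨α, β, x₀, lab, g, i1, i2, i3, i4⟩ :=
      exists_zigzag b a eb ea (fun S h1 h2 => h.conn S h2 h1) l hl
    refine ⟨fun x => if p + 2 ≤ lab x then 2 * p + 2 - lab x else 2 * p + 2 - lab x + M, p,
      ?_, by omega, ?_, fun v hv => ⟨?_, ?_⟩⟩
    · intro x y hxy
      apply i1
      have := i2 x
      have := i2 y
      simp only at hxy
      split_ifs at hxy <;> omega
    · intro x
      have := i2 x
      simp only
      split_ifs <;> omega
    · apply two_mul_sum_fibre a β g.hβ g.hb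
      intro x hx
      have h0 : x ≠ x₀ := by rintro rfl; exact hv (hx.symm.trans g.hb0)
      have := i4 x h0
      have := i2 x
      have := i2 (β x)
      split_ifs <;> omega
    · apply two_mul_sum_fibre b α g.hα g.ha
      intro x hx
      have := i3 x
      have := i2 x
      have := i2 (α x)
      have : lab x ≠ lab (α x) := fun e => hv (hx.symm.trans (g.fa x (i1 e).symm))
      split_ifs <;> omega

/-- closed dry subsets of a set of items -/
def Dry (inf : W) (a b : J → W) (B K : Finset J) : Prop :=
  K ⊆ B ∧ (∀ x ∈ K, ∀ y ∈ B, a x = a y → y ∈ K) ∧ (∀ x ∈ K, ∀ y ∈ B, b x = b y → y ∈ K) ∧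
    ∀ x ∈ K, b x ≠ inf

theorem noDry_sub {inf : W} {a b : J → W} {B : Finset J} (h : ∀ K, Dry inf a b B K → K = ∅) :
    NoDry inf (fun x : B => a x) (fun x : B => b x) := by
  classical
  intro K h1 h2 h3 x hx
  have := h (B.filter (fun y => ∃ hy : y ∈ B, (⟨y, hy⟩ : B) ∈ K)) ⟨filter_subset _ _, ?_, ?_, ?_⟩
  · have hx' : (x : J) ∈ B.filter (fun y => ∃ hy : y ∈ B, (⟨y, hy⟩ : B) ∈ K) := by
      simp only [mem_filter]; exact ⟨x.2, x.2, hx⟩
    rw [this] at hx'
    simp at hx'
  · intro u hu v hv huv
    simp only [mem_filter] at hu ⊢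
    obtain ⟨hu1, _, hu2⟩ := hu
    exact ⟨hv, hv, h1 _ hu2 ⟨v, hv⟩ huv⟩
  · intro u hu v hv huv
    simp only [mem_filter] at hu ⊢
    obtain ⟨hu1, _, hu2⟩ := hu
    exact ⟨hv, hv, h2 _ hu2 ⟨v, hv⟩ huv⟩
  · intro u hu
    simp only [mem_filter] at hu
    obtain ⟨hu1, _, hu2⟩ := hu
    exact h3 _ hu2

theorem sum_sub_filter (B : Finset J) (c : J → W) (v : W) (f : J → ℕ) :
    ∑ x ∈ univ.filter (fun x : B => c x = v), f x = ∑ x ∈ B.filter (fun x => c x = v), f x := by
  rw [Finset.sum_filter, Finset.sum_filter]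
  exact Finset.sum_coe_sort B (fun x => if c x = v then f x else 0)

theorem card_sub_filter (B : Finset J) (c : J → W) (v : W) :
    (univ.filter (fun x : B => c x = v)).card = (B.filter (fun x => c x = v)).card := by
  rw [Finset.card_eq_sum_ones, Finset.card_eq_sum_ones]
  exact sum_sub_filter B c v (fun _ => 1)

/-- the labelling from a split of the items into two connected even parts -/
theorem exists_nested {inf : W} (a b : J → W) (A : Finset J)
    (eaA : ∀ w, w ≠ inf → Even (A.filter (fun x => a x = w)).card)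
    (ebA : ∀ w, w ≠ inf → Even (A.filter (fun x => b x = w)).card)
    (eaB : ∀ w, w ≠ inf → Even (Aᶜ.filter (fun x => a x = w)).card)
    (ebB : ∀ w, w ≠ inf → Even (Aᶜ.filter (fun x => b x = w)).card)
    (hA : ∀ K, Dry inf a b A K → K = ∅) (hB : ∀ K, Dry inf a b Aᶜ K → K = ∅) :
    ∃ (lab : J → ℕ) (C : ℕ), Function.Injective lab ∧
      (∀ x, 1 ≤ lab x ∧ lab x ≤ Fintype.card J) ∧ ∀ v, v ≠ inf →
        2 * ∑ x ∈ univ.filter (fun x => a x = v), lab x =
          (univ.filter (fun x => a x = v)).card * (C + 1) ∧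
        2 * ∑ x ∈ univ.filter (fun x => b x = v), lab x =
          (A.filter (fun x => b x = v)).card * C + (Aᶜ.filter (fun x => b x = v)).card * (C + 2) := by
  obtain ⟨lB, lo, i1, i0, i2, i3⟩ := exists_outer (inf := inf) (fun x : ↥(Aᶜ) => a x)
    (fun x : ↥(Aᶜ) => b x) (fun w hw => by rw [card_sub_filter]; exact eaB w hw)
    (fun w hw => by rw [card_sub_filter]; exact ebB w hw) (noDry_sub hB) A.card
  obtain ⟨lA, j1, j2, j3⟩ := exists_inner (inf := inf) (fun x : A => a x)
    (fun x : A => b x) (fun w hw => by rw [card_sub_filter]; exact eaA w hw)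
    (fun w hw => by rw [card_sub_filter]; exact ebA w hw) (noDry_sub hA) lo
  simp only [Fintype.card_coe] at i0 i2 j2 j3
  have hc := Finset.card_add_card_compl A
  let lab : J → ℕ := fun x => if hx : x ∈ A then lA ⟨x, hx⟩ else lB ⟨x, Finset.mem_compl.2 hx⟩
  have lA' : ∀ x : A, lab x = lA x := fun x => by simp [lab, x.2]
  have lB' : ∀ x : ↥(Aᶜ), lab x = lB x := fun x => by
    have := Finset.mem_compl.1 x.2
    simp [lab, this]
  have split : ∀ (c : J → W) (v : W) (f : J → ℕ), ∑ x ∈ univ.filter (fun x => c x = v), f x =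
      ∑ x ∈ A.filter (fun x => c x = v), f x + ∑ x ∈ Aᶜ.filter (fun x => c x = v), f x := by
    intro c v f
    simp only [Finset.sum_filter]
    exact (Finset.sum_add_sum_compl A _).symm
  refine ⟨lab, 2 * lo + A.card, ?_, ?_, fun v hv => ?_⟩
  · intro x y hxy
    by_cases hx : x ∈ A <;> by_cases hy : y ∈ A
    · have := lA' ⟨x, hx⟩
      have := lA' ⟨y, hy⟩
      have : lA ⟨x, hx⟩ = lA ⟨y, hy⟩ := by simp only at *; omega
      exact congrArg Subtype.val (j1 this)
    · have := lA' ⟨x, hx⟩
      have := lB' ⟨y, Finset.mem_compl.2 hy⟩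
      have := j2 ⟨x, hx⟩
      have := i2 ⟨y, Finset.mem_compl.2 hy⟩
      simp only at *; omega
    · have := lA' ⟨y, hy⟩
      have := lB' ⟨x, Finset.mem_compl.2 hx⟩
      have := j2 ⟨y, hy⟩
      have := i2 ⟨x, Finset.mem_compl.2 hx⟩
      simp only at *; omega
    · have := lB' ⟨x, Finset.mem_compl.2 hx⟩
      have := lB' ⟨y, Finset.mem_compl.2 hy⟩
      have : lB ⟨x, Finset.mem_compl.2 hx⟩ = lB ⟨y, Finset.mem_compl.2 hy⟩ := by
        simp only at *; omega
      exact congrArg Subtype.val (i1 this)
  · intro x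
    by_cases hx : x ∈ A
    · have := lA' ⟨x, hx⟩
      have := j2 ⟨x, hx⟩
      simp only at *; omega
    · have := lB' ⟨x, Finset.mem_compl.2 hx⟩
      have := i2 ⟨x, Finset.mem_compl.2 hx⟩
      simp only at *; omega
  · obtain ⟨p1, p2⟩ := i3 v hv
    obtain ⟨q1, q2⟩ := j3 v hv
    simp only [← lA', ← lB'] at p1 p2 q1 q2
    rw [sum_sub_filter, card_sub_filter] at p1 p2 q1 q2
    constructor
    · rw [split a v lab, Finset.card_eq_sum_ones (univ.filter _), split a v (fun _ => 1),
        ← Finset.card_eq_sum_ones, ← Finset.card_eq_sum_ones, mul_add, p1, q1]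
      ring
    · rw [split b v lab, mul_add, p2, q2]

end Pool.Agent.MP_29e935_co

end
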