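import Pool.Agent.MP_29e935_co.Greedy
import Pool.Agent.Mg.F29e935p.Gf05388
import Pool.Agent.Mg.F29e935p.Ga58434

section

set_option autoImplicit false

/-! Orientations with in-degree `m - 1` off a set `S` and `m + 3` on `S`. -/

namespace Pool.Agent.MP_29e935_co

open Finset

variable {I W : Type*} [Fintype I] [DecidableEq I] [Fintype W] [DecidableEq W]

theorem exists_choice_cap {ι : Type*} [Fintype ι] [DecidableEq ι] (t : ι → Finset W) (cap : W → ℕ)
    (h : ∀ T : Finset W, (univ.filter (fun x => t x ⊆ T)).card ≤ ∑ w ∈ T, cap w) :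
    ∃ f : ι → W, (∀ x, f x ∈ t x) ∧ ∀ w, (univ.filter (fun x => f x = w)).card ≤ cap w := by
  classical
  let t' : ι → Finset (W × ℕ) := fun x => (t x).biUnion (fun w => {w} ×ˢ range (cap w))
  have ht : ∀ x p, p ∈ t' x ↔ p.1 ∈ t x ∧ p.2 < cap p.1 := by
    intro x p
    simp only [t', mem_biUnion, mem_product, mem_singleton, mem_range]
    constructor
    · rintro ⟨w, h1, rfl, h3⟩; exact ⟨h1, h3⟩
    · rintro ⟨h1, h2⟩; exact ⟨_, h1, rfl, h2⟩
  have hall : ∀ s : Finset ι, s.card ≤ (s.biUnion t').card := by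
    intro s
    have e1 : s.biUnion t' = (s.biUnion t).biUnion (fun w => {w} ×ˢ range (cap w)) := by
      ext p
      simp only [mem_biUnion, ht, mem_product, mem_singleton, mem_range]
      constructor
      · rintro ⟨x, hx, h1, h2⟩; exact ⟨_, ⟨x, hx, h1⟩, rfl, h2⟩
      · rintro ⟨w, ⟨x, hx, h1⟩, rfl, h2⟩; exact ⟨x, hx, h1, h2⟩
    have e2 : ((s.biUnion t).biUnion (fun w => {w} ×ˢ range (cap w))).card =
        ∑ w ∈ s.biUnion t, cap w := by
      rw [Finset.card_biUnion]
      · simp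
      · intro u _ v _ huv
        simp only [Function.onFun]
        rw [Finset.disjoint_left]
        intro p h1 h2
        simp only [mem_product, mem_singleton] at h1 h2
        exact huv (h1.1.symm.trans h2.1)
    rw [e1, e2]
    refine le_trans (Finset.card_le_card ?_) (h _)
    intro x hx
    simp only [mem_filter, mem_univ, true_and]
    exact Finset.subset_biUnion_of_mem t hx
  obtain ⟨f, hf, hft⟩ := (Finset.all_card_le_biUnion_card_iff_exists_injective t').1 hall
  refine ⟨fun x => (f x).1, fun x => ((ht x _).1 (hft x)).1, ?_⟩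
  intro w
  have : (univ.filter (fun x => (f x).1 = w)).card ≤ (range (cap w)).card := by
    apply Finset.card_le_card_of_injOn (fun x => (f x).2)
    · intro x hx
      simp only [coe_filter, mem_univ, true_and, Set.mem_ofPred_eq] at hx
      simp only [coe_range, Set.mem_Iio]
      rw [← hx]
      exact ((ht x _).1 (hft x)).2
    · intro x hx y hy hxy
      simp only [coe_filter, mem_univ, true_and, Set.mem_ofPred_eq] at hx hy
      apply hf
      exact Prod.ext (hx.trans hy.symm) hxy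
  simpa using this

/-- a simple graph with a vertex `inf` joined to all others, which have degree `2 m` -/
structure Setup (ends : I → Sym2 W) (inf : W) (m : ℕ) : Prop where
  nd : ∀ x, ¬ (ends x).IsDiag
  inj : Function.Injective ends
  lab : ∀ v, v ≠ inf → ∃ l, ends l = s(v, inf)
  deg : ∀ v, v ≠ inf → (univ.filter (fun x => v ∈ ends x)).card = 2 * m
  odd : Odd m
  three : 3 ≤ m

/-- admissible orientations -/
structure Ori (ends : I → Sym2 W) (inf : W) (m : ℕ) (S : Finset W) (a b : I → W) : Prop where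
  hab : ∀ x, s(a x, b x) = ends x
  cb : ∀ v, v ≠ inf → (univ.filter (fun x => b x = v)).card = if v ∈ S then m + 3 else m - 1
  hS : inf ∉ S
  fr : m ≠ 3 → ∀ l, a l = inf → b l ∉ S

/-- the edge to `inf` leaves `v` -/
def Free (inf : W) (a b : I → W) (v : W) : Prop := ∃ l, a l = v ∧ b l = inf

section basic

variable {ends : I → Sym2 W} {inf : W} {m : ℕ} {a b : I → W}

theorem Setup.ne (H : Setup ends inf m) (hab : ∀ x, s(a x, b x) = ends x) (x : I) : a x ≠ b x := by
  intro h
  apply H.nd x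
  rw [← hab x, h]; simp

theorem Setup.simple (H : Setup ends inf m) (hab : ∀ x, s(a x, b x) = ends x) {x y : I}
    (h1 : a x = a y) (h2 : b x = b y) : x = y := by
  apply H.inj
  rw [← hab, ← hab, h1, h2]

theorem Setup.anti (H : Setup ends inf m) (hab : ∀ x, s(a x, b x) = ends x) {x y : I}
    (h1 : a x = b y) (h2 : b x = a y) : False := by
  have : x = y := by
    apply H.inj
    rw [← hab, ← hab, h1, h2]; exact Sym2.eq_swap
  subst this
  exact H.ne hab x h1

theorem Setup.label (H : Setup ends inf m) (hab : ∀ x, s(a x, b x) = ends x) {v : W}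
    (hv : v ≠ inf) : (∃ l, a l = v ∧ b l = inf) ∨ (∃ l, a l = inf ∧ b l = v) := by
  obtain ⟨l, hl⟩ := H.lab v hv
  have := hab l
  rw [hl, Sym2.eq_iff] at this
  rcases this with h | h
  · exact Or.inl ⟨l, h⟩
  · exact Or.inr ⟨l, h⟩

theorem Setup.deg_add (H : Setup ends inf m) (hab : ∀ x, s(a x, b x) = ends x) {v : W}
    (hv : v ≠ inf) : (univ.filter (fun x => a x = v)).card +
      (univ.filter (fun x => b x = v)).card = 2 * m := by
  rw [← card_deg H.nd hab, H.deg v hv]

theorem Setup.deg_set (H : Setup ends inf m) (hab : ∀ x, s(a x, b x) = ends x) {X : Finset W}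
    (hX : inf ∉ X) : (univ.filter (fun x => a x ∈ X ∨ b x ∈ X)).card +
      (univ.filter (fun x => a x ∈ X ∧ b x ∈ X)).card = 2 * m * X.card := by
  rw [Finset.filter_or, Finset.filter_and, Finset.card_union_add_card_inter, ← sum_card_fibre,
    ← sum_card_fibre, ← Finset.sum_add_distrib, Finset.card_eq_sum_ones X, Finset.mul_sum]
  apply Finset.sum_congr rfl
  intro v hv
  rw [H.deg_add hab (by rintro rfl; exact hX hv), mul_one]

theorem Ori.ca {S : Finset W} (H : Setup ends inf m) (O : Ori ends inf m S a b) {v : W}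
    (hv : v ≠ inf) : (univ.filter (fun x => a x = v)).card = if v ∈ S then m - 3 else m + 1 := by
  have h1 := H.deg_add O.hab hv
  have h2 := O.cb v hv
  have := H.three
  split_ifs at h2 ⊢ <;> omega

theorem Ori.cb_set {S : Finset W} (H : Setup ends inf m) (O : Ori ends inf m S a b)
    {X : Finset W} (hX : inf ∉ X) :
    (univ.filter (fun x => b x ∈ X)).card = (m - 1) * X.card + 4 * (X ∩ S).card := by
  rw [← sum_card_fibre, ← Finset.filter_mem_eq_inter, Finset.card_filter, Finset.card_eq_sum_ones X,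
    Finset.mul_sum, Finset.mul_sum, ← Finset.sum_add_distrib]
  apply Finset.sum_congr rfl
  intro v hv
  rw [O.cb v (by rintro rfl; exact hX hv)]
  have := H.three
  split_ifs <;> omega

end basic

/-- number of edges between two sets, counted from both sides -/
def cnt (p q : I → W) (A B : Finset W) : ℕ :=
  (univ.filter (fun x => p x ∈ A ∧ q x ∈ B)).card + (univ.filter (fun x => p x ∈ B ∧ q x ∈ A)).card

theorem cnt_add (p q : I → W) (A A' B : Finset W) (h : Disjoint A A') :
    cnt p q (A ∪ A') B = cnt p q A B + cnt p q A' B := by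
  simp only [cnt, Finset.card_filter, ← Finset.sum_add_distrib]
  apply Finset.sum_congr rfl
  intro x _
  have h1 : p x ∈ A → p x ∉ A' := fun hx => Finset.disjoint_left.1 h hx
  have h2 : q x ∈ A → q x ∉ A' := fun hx => Finset.disjoint_left.1 h hx
  simp only [mem_union]
  by_cases k1 : p x ∈ A <;> by_cases k2 : p x ∈ A' <;> by_cases k3 : q x ∈ A <;>
    by_cases k4 : q x ∈ A' <;> by_cases k5 : p x ∈ B <;> by_cases k6 : q x ∈ B <;> simp_all

theorem bil_cnt {ends : I → Sym2 W} {inf : W} {m : ℕ} (H : Setup ends inf m) {p q : I → W}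
    (hpq : ∀ x, s(p x, q x) = ends x) : Bil (univ.erase inf) (2 * m - 1) (cnt p q) := by
  refine ⟨fun A B => by simp only [cnt]; omega, cnt_add p q, ?_, ?_, ?_⟩
  · intro A hA
    induction A using Finset.induction_on with
    | empty => simp [cnt]
    | insert x A hx ih =>
      have hxi : x ≠ inf := Finset.ne_of_mem_erase (hA (mem_insert_self x A))
      rw [Finset.card_insert_of_notMem hx, Finset.insert_eq, cnt_add _ _ _ _ _ (by simpa using hx)]
      have := ih ((Finset.subset_insert x A).trans hA)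
      have h1 : cnt p q {x} (univ.erase inf) + 1 ≤ 2 * m := by
        rw [← H.deg_add hpq hxi]
        have s1 : univ.filter (fun i => p i ∈ ({x} : Finset W) ∧ q i ∈ univ.erase inf) ⊆
            univ.filter (fun i => p i = x) := by
          intro i; simp only [mem_filter, mem_univ, true_and, mem_singleton]; exact fun h => h.1
        have s2 : univ.filter (fun i => p i ∈ univ.erase inf ∧ q i ∈ ({x} : Finset W)) ⊆
            univ.filter (fun i => q i = x) := by
          intro i; simp only [mem_filter, mem_univ, true_and, mem_singleton]; exact fun h => h.2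
        have c1 := Finset.card_le_card s1
        have c2 := Finset.card_le_card s2
        unfold cnt
        rcases H.label hpq hxi with ⟨l, h1, h2⟩ | ⟨l, h1, h2⟩
        · have := Finset.card_lt_card ((Finset.ssubset_iff_of_subset s1).2
            ⟨l, by simp [h1], by simp [h2]⟩)
          omega
        · have := Finset.card_lt_card ((Finset.ssubset_iff_of_subset s2).2
            ⟨l, by simp [h2], by simp [h1]⟩)
          omega
      rw [mul_add]
      omega
  · intro x B
    unfold cnt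
    rw [← Finset.card_union_of_disjoint]
    · apply Finset.card_le_card_of_injOn (fun i => if p i = x then q i else p i)
      · intro i hi
        simp only [coe_union, coe_filter, mem_univ, true_and, mem_singleton, Set.mem_union,
          Set.mem_ofPred_eq] at hi
        simp only [mem_coe]
        rcases hi with ⟨h1, h2⟩ | ⟨h1, h2⟩
        · simp [h1, h2]
        · have : p i ≠ x := h2 ▸ H.ne hpq i
          simp [h1, this]
      · intro i hi j hj hij
        simp only [coe_union, coe_filter, mem_univ, true_and, mem_singleton, Set.mem_union,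
          Set.mem_ofPred_eq] at hi hj
        simp only at hij
        rcases hi with ⟨h1, h2⟩ | ⟨h1, h2⟩ <;> rcases hj with ⟨k1, k2⟩ | ⟨k1, k2⟩
        · simp only [h1, k1, if_true] at hij
          exact H.simple hpq (h1.trans k1.symm) hij
        · have : p j ≠ x := k2 ▸ H.ne hpq j
          simp only [h1, this, if_true, if_false] at hij
          exact (H.anti hpq (h1.trans k2.symm) hij).elim
        · have : p i ≠ x := h2 ▸ H.ne hpq i
          simp only [k1, this, if_true, if_false] at hij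
          exact (H.anti hpq hij (h2.trans k1.symm)).elim
        · have h3 : p i ≠ x := h2 ▸ H.ne hpq i
          have k3 : p j ≠ x := k2 ▸ H.ne hpq j
          simp only [h3, k3, if_false] at hij
          exact H.simple hpq hij (h2.trans k2.symm)
    · rw [Finset.disjoint_left]
      intro i h1 h2
      simp only [mem_filter, mem_univ, true_and, mem_singleton] at h1 h2
      exact H.ne hpq i (h1.1.trans h2.2.symm)
  · intro x
    have : univ.filter (fun i => p i ∈ ({x} : Finset W) ∧ q i ∈ ({x} : Finset W)) = ∅ := by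
      apply Finset.filter_eq_empty_iff.2
      intro i _ h
      simp only [mem_singleton] at h
      exact H.ne hpq i (h.1.trans h.2.symm)
    simp only [cnt, this, card_empty]

theorem cnt_self {ends : I → Sym2 W} {p q a b : I → W} (hpq : ∀ x, s(p x, q x) = ends x)
    (hab : ∀ x, s(a x, b x) = ends x) (X : Finset W) :
    cnt p q X X = 2 * (univ.filter (fun x => a x ∈ X ∧ b x ∈ X)).card := by
  have : univ.filter (fun x => p x ∈ X ∧ q x ∈ X) = univ.filter (fun x => a x ∈ X ∧ b x ∈ X) := by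
    apply Finset.filter_congr
    intro x _
    have := (hpq x).trans (hab x).symm
    rw [Sym2.eq_iff] at this
    rcases this with ⟨h1, h2⟩ | ⟨h1, h2⟩
    · rw [h1, h2]
    · rw [h1, h2, and_comm]
  unfold cnt
  rw [this]; omega

/-- every vertex of `S` has many free in-neighbours -/
def Rich (ends : I → Sym2 W) (inf : W) (m : ℕ) (S : Finset W) : Prop :=
  ∀ a b, Ori ends inf m S a b → ∀ s ∈ S, ∃ T : Finset I, m ≤ T.card ∧
    ∀ i ∈ T, b i = s ∧ Free inf a b (a i)

/-- every closed set with a vertex outside `S` has a free vertex outside `S` -/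
def Reachy (ends : I → Sym2 W) (inf : W) (m : ℕ) (S : Finset W) : Prop :=
  ∀ a b, Ori ends inf m S a b → ∀ R : Finset W, inf ∉ R → (∃ v ∈ R, v ∉ S) →
    (∀ i, a i ∈ R → b i ∈ R ∨ b i = inf) → ∃ v ∈ R, v ∉ S ∧ Free inf a b v

theorem exists_ori {ends : I → Sym2 W} {inf : W} {m : ℕ} (H : Setup ends inf m) :
    ∃ S, (∃ a b, Ori ends inf m S a b) ∧ Rich ends inf m S ∧ Reachy ends inf m S := by
  classical
  have h0 : ∀ x, ∃ p : W × W, s(p.1, p.2) = ends x := fun x => by
    induction ends x using Sym2.ind with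
    | _ u v => exact ⟨(u, v), rfl⟩
  choose pq hpq using h0
  set p : I → W := fun x => (pq x).1 with hp
  set q : I → W := fun x => (pq x).2 with hq
  replace hpq : ∀ x, s(p x, q x) = ends x := hpq
  set δ : ℕ := if m = 3 then 0 else 1 with hδ
  have hm3 := H.three
  have hm : (δ = 0 ∧ m = 3) ∨ (δ = 1 ∧ 5 ≤ m) := by
    obtain ⟨k, hk⟩ := H.odd
    by_cases h : m = 3
    · simp [hδ, h]
    · right; simp only [hδ, h, if_false, true_and]; omega
  obtain ⟨S, hSV, hU, hL, hmin⟩ := exists_absorber (bil_cnt H hpq) hm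
  have hsub : ∀ X : Finset W, X ⊆ univ.erase inf ↔ inf ∉ X := by
    intro X; simp [Finset.subset_erase]
  have hS : inf ∉ S := (hsub S).1 hSV
  refine ⟨S, ?_, ?_, ?_⟩
  · let forced : I → Prop := fun i => m ≠ 3 ∧ ∃ s ∈ S, ends i = s(s, inf)
    let t : I → Finset W := fun i => if forced i then {inf} else {p i, q i}
    let c : Finset W → ℕ := fun X => (m - 1) * X.card + 4 * (X ∩ S).card
    let cap : W → ℕ := fun w => if w = inf then Fintype.card I - c (univ.erase inf) else
      if w ∈ S then m + 3 else m - 1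
    have hc : ∀ X, inf ∉ X → ∑ w ∈ X, cap w = c X := by
      intro X hX
      simp only [c]
      rw [← Finset.filter_mem_eq_inter, Finset.card_filter, Finset.card_eq_sum_ones X,
        Finset.mul_sum, Finset.mul_sum, ← Finset.sum_add_distrib]
      apply Finset.sum_congr rfl
      intro v hv
      have : v ≠ inf := by rintro rfl; exact hX hv
      simp only [cap, this, if_false]
      split_ifs <;> omega
    have hlow : ∀ Y, inf ∉ Y → c Y ≤ (univ.filter (fun i => ¬ t i ⊆ Yᶜ)).card := by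
      intro Y hY
      have e1 := H.deg_set hpq hY
      have e2 := hL Y ((hsub Y).2 hY)
      rw [cnt_self hpq hpq] at e2
      have e3 : (univ.filter (fun x => p x ∈ Y ∨ q x ∈ Y)).card ≤
          (univ.filter (fun i => ¬ t i ⊆ Yᶜ)).card +
            (univ.filter (fun i => forced i ∧ (p i ∈ Y ∨ q i ∈ Y))).card := by
        refine le_trans (Finset.card_le_card ?_) (Finset.card_union_le _ _)
        intro i hi
        simp only [mem_filter, mem_univ, true_and, mem_union] at hi ⊢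
        by_cases hf : forced i
        · exact Or.inr ⟨hf, hi⟩
        · left
          simp only [t, hf, if_false, Finset.insert_subset_iff, Finset.singleton_subset_iff,
            mem_compl]
          tauto
      have e4 : (univ.filter (fun i => forced i ∧ (p i ∈ Y ∨ q i ∈ Y))).card ≤
          δ * (Y ∩ S).card := by
        by_cases h3 : m = 3
        · have : univ.filter (fun i => forced i ∧ (p i ∈ Y ∨ q i ∈ Y)) = ∅ :=
            Finset.filter_eq_empty_iff.2 (fun i _ h => h.1.1 h3)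
          rw [this]; simp
        · simp only [hδ, h3, if_false, one_mul]
          apply Finset.card_le_card_of_forall_subsingleton (fun i s => ends i = s(s, inf))
          · intro i hi
            simp only [mem_filter, mem_univ, true_and] at hi
            obtain ⟨⟨_, s, hs, he⟩, h2⟩ := hi
            refine ⟨s, mem_inter.2 ⟨?_, hs⟩, he⟩
            have := (hpq i).trans he
            rw [Sym2.eq_iff] at this
            rcases this with ⟨k1, k2⟩ | ⟨k1, k2⟩ <;> rw [k1, k2] at h2 <;> tauto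
          · intro s _ i hi j hj
            exact H.inj (hi.2.trans hj.2.symm)
      obtain ⟨n, rfl⟩ : ∃ n, m = n + 3 := ⟨m - 3, by omega⟩
      simp only [c, show n + 3 - 1 = n + 2 by omega]
      have : 0 ≤ (if Y ⊆ S then 0 else 1) := Nat.zero_le _
      nlinarith
    have hcN : c (univ.erase inf) ≤ Fintype.card I :=
      (hlow _ (by simp)).trans (Finset.card_le_univ _)
    obtain ⟨b, hb1, hb2⟩ := exists_choice_cap t cap (by
      intro T
      by_cases hT : inf ∈ T
      · have e1 := hlow Tᶜ (by simpa using hT)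
        rw [compl_compl] at e1
        have e2 := Finset.card_filter_add_card_filter_not (s := univ) (fun i => t i ⊆ T)
        rw [← Finset.add_sum_erase _ _ hT]
        have e3 : ∑ w ∈ T.erase inf, cap w + ∑ w ∈ Tᶜ, cap w = c (univ.erase inf) := by
          rw [← hc _ (by simp), ← Finset.sum_union]
          · congr 1
            ext w
            simp only [mem_union, mem_erase, mem_compl, mem_univ, and_true]
            by_cases hw : w = inf
            · simp [hw, hT]
            · tauto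
          · exact Finset.disjoint_of_subset_left (Finset.erase_subset _ _) disjoint_compl_right
        rw [hc Tᶜ (by simpa using hT)] at e3
        rw [Finset.card_univ] at e2
        simp only [cap, if_true] at e3 ⊢
        omega
      · rw [hc T hT]
        have e1 := hU T ((hsub T).2 hT)
        rw [cnt_self hpq hpq] at e1
        have e2 : (univ.filter (fun i => t i ⊆ T)).card ≤
            (univ.filter (fun x => p x ∈ T ∧ q x ∈ T)).card := by
          apply Finset.card_le_card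
          intro i hi
          simp only [mem_filter, mem_univ, true_and, t] at hi ⊢
          split_ifs at hi
          · exact absurd (Finset.singleton_subset_iff.1 hi) hT
          · simpa [Finset.insert_subset_iff] using hi
        simp only [c]
        omega)
    have hs : ∑ w, (univ.filter (fun x => b x = w)).card = ∑ w, cap w := by
      rw [sum_card_fibre, ← Finset.add_sum_erase _ _ (mem_univ inf), hc _ (by simp)]
      simp only [mem_univ, filter_true, card_univ, cap, if_true]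
      omega
    have heq := (Finset.sum_eq_sum_iff_of_le (fun w _ => hb2 w)).1 hs
    have hbm : ∀ i, b i ∈ ends i := by
      intro i
      have := hb1 i
      simp only [t] at this
      split_ifs at this with hf
      · obtain ⟨_, s, _, he⟩ := hf
        rw [he, mem_singleton.1 this]; simp
      · rw [← hpq]
        simpa using this
    have hab : ∀ i, s(Sym2.Mem.other (hbm i), b i) = ends i := fun i => by
      rw [Sym2.eq_swap]; exact Sym2.other_spec (hbm i)
    refine ⟨fun i => Sym2.Mem.other (hbm i), b, hab, fun v hv => ?_, hS, ?_⟩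
    · rw [heq v (mem_univ v)]
      simp only [cap, hv, if_false]
    · intro h3 l hl hs
      have hf : forced l := ⟨h3, b l, hs, by rw [← hab l, hl]; exact Sym2.eq_swap⟩
      have := hb1 l
      simp only [t, hf, if_true, mem_singleton] at this
      exact hS (this ▸ hs)
  · intro a b O s hs
    obtain ⟨X, hXV, hsX, hX⟩ := hmin s hs
    have hXi := (hsub X).1 hXV
    rw [cnt_self hpq O.hab, ← O.cb_set H hXi] at hX
    refine ⟨univ.filter (fun i => b i = s ∧ Free inf a b (a i)), ?_, fun i hi => by simpa using hi⟩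
    have e1 := O.cb s (by rintro rfl; exact hS hs)
    simp only [hs, if_true] at e1
    have e2 := Finset.card_filter_add_card_filter_not (s := univ.filter (fun i => b i = s))
      (fun i => Free inf a b (a i))
    have e3 := Finset.card_filter_add_card_filter_not (s := univ.filter (fun i => b i ∈ X))
      (fun i => a i ∈ X)
    simp only [Finset.filter_filter] at e2 e3
    have e4 : (univ.filter (fun i => b i = s ∧ ¬ Free inf a b (a i))).card ≤
        (univ.filter (fun i => b i ∈ X ∧ a i ∉ X)).card := by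
      apply Finset.card_le_card_of_forall_subsingleton
        (fun i j => (a i ∉ X ∧ j = i) ∨ (a i ∈ X ∧ a j = inf ∧ b j = a i))
      · intro i hi
        simp only [mem_filter, mem_univ, true_and] at hi ⊢
        by_cases h : a i ∈ X
        · rcases H.label O.hab (v := a i) (by rintro h'; exact hXi (h' ▸ h)) with hl | ⟨l, h1, h2⟩
          · exact absurd hl hi.2
          · exact ⟨l, ⟨h2 ▸ h, h1 ▸ hXi⟩, Or.inr ⟨h, h1, h2⟩⟩
        · exact ⟨i, ⟨hi.1 ▸ hsX, h⟩, Or.inl ⟨h, rfl⟩⟩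
      · intro l _ i hi j hj
        simp only [mem_filter, mem_univ, true_and, Set.mem_ofPred_eq] at hi hj
        obtain ⟨⟨i1, _⟩, i2⟩ := hi
        obtain ⟨⟨j1, _⟩, j2⟩ := hj
        rcases i2 with ⟨_, rfl⟩ | ⟨_, _, i3⟩ <;> rcases j2 with ⟨_, j3⟩ | ⟨_, _, j3⟩
        · exact j3
        · exact absurd (j3.symm.trans (i1.trans j1.symm)) (H.ne O.hab j)
        · subst j3
          exact absurd (i3.symm.trans (j1.trans i1.symm)) (H.ne O.hab i)
        · exact H.simple O.hab (i3.symm.trans j3) (i1.trans j1.symm)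
    have e5 : univ.filter (fun i => b i ∈ X ∧ a i ∈ X) =
        univ.filter (fun i => a i ∈ X ∧ b i ∈ X) := by simp only [and_comm]
    rw [e5] at e3
    omega
  · intro a b O R hR hv hcl
    by_contra hcon
    push Not at hcon
    have e1 := H.deg_set O.hab hR
    have e2 := hL R ((hsub R).2 hR)
    have hRS : ¬ R ⊆ S := by
      obtain ⟨v, h1, h2⟩ := hv
      exact fun h => h2 (h h1)
    rw [cnt_self hpq O.hab] at e2
    simp only [hRS, if_false] at e2
    have e3 : (univ.filter (fun x => a x ∈ R ∨ b x ∈ R)).card ≤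
        (univ.filter (fun x => b x ∈ R)).card +
          (univ.filter (fun x => a x ∈ R ∧ b x = inf)).card := by
      refine le_trans (Finset.card_le_card ?_) (Finset.card_union_le _ _)
      intro i hi
      simp only [mem_filter, mem_univ, true_and, mem_union] at hi ⊢
      rcases hi with h | h
      · rcases hcl i h with k | k
        · exact Or.inl k
        · exact Or.inr ⟨h, k⟩
      · exact Or.inl h
    have e4 : (univ.filter (fun x => a x ∈ R ∧ b x = inf)).card ≤ δ * (R ∩ S).card := by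
      have hin : ∀ x, a x ∈ R → b x = inf → a x ∈ S := by
        intro x h1 h2
        by_contra h3
        exact hcon _ h1 h3 ⟨x, rfl, h2⟩
      by_cases h3 : m = 3
      · have : univ.filter (fun x => a x ∈ R ∧ b x = inf) = ∅ := by
          apply Finset.filter_eq_empty_iff.2
          rintro x _ ⟨h1, h2⟩
          have k := O.ca H (v := a x) (by rintro h'; exact hR (h' ▸ h1))
          simp only [hin x h1 h2, if_true, h3] at k
          have : 0 < (univ.filter (fun y => a y = a x)).card := Finset.card_pos.2 ⟨x, by simp⟩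
          omega
        rw [this]; simp
      · simp only [hδ, h3, if_false, one_mul]
        apply Finset.card_le_card_of_injOn a
        · intro x hx
          simp only [coe_filter, mem_univ, true_and, Set.mem_ofPred_eq] at hx
          simp only [coe_inter, Set.mem_inter_iff, mem_coe]
          exact ⟨hx.1, hin x hx.1 hx.2⟩
        · intro x hx y hy hxy
          simp only [coe_filter, mem_univ, true_and, Set.mem_ofPred_eq] at hx hy
          exact H.simple O.hab hxy (hx.2.trans hy.2.symm)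
    rw [O.cb_set H hR] at e3
    obtain ⟨n, rfl⟩ : ∃ n, m = n + 3 := ⟨m - 3, by omega⟩
    simp only [show n + 3 - 1 = n + 2 by omega] at e3
    nlinarith

end Pool.Agent.MP_29e935_co

end

section

set_option autoImplicit false

/-! Improving the orientation by reversing directed cycles through `inf`. -/

namespace Pool.Agent.MP_29e935_co

open Finset

variable {I W : Type*} [Fintype I] [DecidableEq I] [Fintype W] [DecidableEq W]
variable {ends : I → Sym2 W} {inf : W} {m : ℕ} {S : Finset W} {a b : I → W}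

/-- reversal of a set of edges -/
def flipA (F : Finset I) (a b : I → W) (i : I) : W := if i ∈ F then b i else a i

theorem Ori.flip (O : Ori ends inf m S a b) (F : Finset I)
    (h1 : ∀ v, v ≠ inf → (F.filter (fun i => b i = v)).card = (F.filter (fun i => a i = v)).card)
    (h2 : ∀ l ∈ F, b l = inf → a l ∉ S) : Ori ends inf m S (flipA F a b) (flipA F b a) := by
  refine ⟨fun x => ?_, fun v hv => ?_, O.hS, fun h3 l hl => ?_⟩
  · unfold flipA
    split_ifs
    · rw [Sym2.eq_swap]; exact O.hab x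
    · exact O.hab x
  · rw [← O.cb v hv]
    have e : (univ.filter (fun i => flipA F b a i = v)).card +
        (univ.filter (fun i => i ∈ F ∧ b i = v)).card =
        (univ.filter (fun i => b i = v)).card + (univ.filter (fun i => i ∈ F ∧ a i = v)).card := by
      simp only [Finset.card_filter, ← Finset.sum_add_distrib]
      apply Finset.sum_congr rfl
      intro i _
      unfold flipA
      by_cases hi : i ∈ F <;> simp [hi, add_comm]
    have e1 : ∀ c : I → W, univ.filter (fun i => i ∈ F ∧ c i = v) = F.filter (fun i => c i = v) := by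
      intro c; ext i; simp
    rw [e1, e1, h1 v hv] at e
    omega
  · unfold flipA at hl ⊢
    split_ifs at hl ⊢ with hF
    · exact h2 l hF hl
    · exact O.fr h3 l hl

theorem Setup.not_free (H : Setup ends inf m) (hab : ∀ x, s(a x, b x) = ends x) {v : W}
    (hv : v ≠ inf) : ¬ Free inf a b v ↔ ∃ l, a l = inf ∧ b l = v := by
  constructor
  · intro h
    rcases H.label hab hv with k | k
    · exact absurd k h
    · exact k
  · rintro ⟨l, h1, h2⟩ ⟨l', k1, k2⟩
    exact H.anti hab (h1.trans k2.symm) (h2.trans k1.symm)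

theorem Setup.free_ne (H : Setup ends inf m) (hab : ∀ x, s(a x, b x) = ends x) {v : W}
    (h : Free inf a b v) : v ≠ inf := by
  obtain ⟨l, h1, h2⟩ := h
  rintro rfl
  exact H.ne hab l (h1.trans h2.symm)

theorem Ori.tail_not_mem (H : Setup ends inf m) (O : Ori ends inf m S a b) {i : I}
    (h : ¬ Free inf a b (a i)) : a i ∉ S := by
  intro hs
  have hi : a i ≠ inf := by rintro h'; exact O.hS (h' ▸ hs)
  by_cases h3 : m = 3
  · have k := O.ca H hi
    simp only [hs, if_true, h3] at k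
    have : 0 < (univ.filter (fun y => a y = a i)).card := Finset.card_pos.2 ⟨i, by simp⟩
    omega
  · obtain ⟨l, h1, h2⟩ := (H.not_free O.hab hi).1 h
    exact O.fr h3 l h1 (h2 ▸ hs)

theorem Ori.other_in (H : Setup ends inf m) (O : Ori ends inf m S a b) {v : W} (hv : v ≠ inf)
    (e : I) : ∃ j, j ≠ e ∧ b j = v := by
  have h1 := O.cb v hv
  have := H.three
  have h2 : 1 < (univ.filter (fun x => b x = v)).card := by split_ifs at h1 <;> omega
  obtain ⟨j, k1, k2⟩ := Finset.exists_mem_ne h2 e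
  exact ⟨j, k2, by simpa using k1⟩

theorem exists_closed_flip (a b : I → W) (ok : I → Prop) (x : W) :
    ∃ T : Finset W, x ∈ T ∧ (∀ i, ok i → a i ∈ T → b i ∈ T) ∧
      ∀ y ∈ T, (y = x ∨ ∃ i, ok i ∧ b i = y) ∧ ∃ F : Finset I,
        (∀ i ∈ F, ok i ∧ a i ∈ T ∧ b i ∈ T) ∧
        ∀ v, (F.filter (fun i => b i = v)).card + (if x = v then 1 else 0) =
          (F.filter (fun i => a i = v)).card + (if y = v then 1 else 0) := by
  classical
  obtain ⟨T, hT, hmax⟩ := ((univ : Finset (Finset W)).filter (fun T => x ∈ T ∧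
      ∀ y ∈ T, (y = x ∨ ∃ i, ok i ∧ b i = y) ∧ ∃ F : Finset I,
        (∀ i ∈ F, ok i ∧ a i ∈ T ∧ b i ∈ T) ∧
        ∀ v, (F.filter (fun i => b i = v)).card + (if x = v then 1 else 0) =
          (F.filter (fun i => a i = v)).card + (if y = v then 1 else 0))).exists_max_image
    Finset.card ⟨{x}, by
      simp only [mem_filter, mem_univ, true_and, mem_singleton]
      rintro y rfl
      exact ⟨Or.inl rfl, ∅, by simp, by simp⟩⟩
  simp only [mem_filter, mem_univ, true_and] at hT hmax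
  refine ⟨T, hT.1, ?_, hT.2⟩
  intro i hi hT'
  by_contra hb
  have := hmax (insert (b i) T) ⟨mem_insert_of_mem hT.1, ?_⟩
  · rw [Finset.card_insert_of_notMem hb] at this; omega
  intro y hy
  rcases mem_insert.1 hy with rfl | hy
  · obtain ⟨_, F, h1, h2⟩ := hT.2 _ hT'
    have hiF : i ∉ F := fun h => hb (h1 i h).2.2
    refine ⟨Or.inr ⟨i, hi, rfl⟩, insert i F, ?_, ?_⟩
    · intro j hj
      rcases mem_insert.1 hj with rfl | hj
      · exact ⟨hi, mem_insert_of_mem hT', mem_insert_self _ _⟩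
      · exact ⟨(h1 j hj).1, mem_insert_of_mem (h1 j hj).2.1, mem_insert_of_mem (h1 j hj).2.2⟩
    · intro v
      have := h2 v
      simp only [Finset.card_filter, Finset.sum_insert hiF] at this ⊢
      omega
  · obtain ⟨k, F, h1, h2⟩ := hT.2 _ hy
    exact ⟨k, F, fun j hj =>
      ⟨(h1 j hj).1, mem_insert_of_mem (h1 j hj).2.1, mem_insert_of_mem (h1 j hj).2.2⟩, h2⟩

/-- an edge from a free vertex to an unfree vertex outside `S`, if there is such a vertex -/
def Wit (inf : W) (S : Finset W) (a b : I → W) : Prop :=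
  (∀ l, a l = inf → b l ∈ S) ∨
    ∃ i, Free inf a b (a i) ∧ b i ∉ S ∧ ∃ l, a l = inf ∧ b l = b i

theorem exists_wit (H : Setup ends inf m) (hR : Reachy ends inf m S) (O : Ori ends inf m S a b) :
    ∃ a b, Ori ends inf m S a b ∧ Wit inf S a b := by
  classical
  by_cases hw : Wit inf S a b
  · exact ⟨a, b, O, hw⟩
  unfold Wit at hw
  push Not at hw
  obtain ⟨⟨l₀, hl₀, hl₀'⟩, hw⟩ := hw
  set NB := univ.filter (fun v => v ∉ S ∧ ∃ l, a l = inf ∧ b l = v) with hNB
  have hNBi : ∀ v ∈ NB, v ≠ inf := by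
    intro v hv
    simp only [hNB, mem_filter, mem_univ, true_and] at hv
    obtain ⟨_, l, h1, h2⟩ := hv
    rw [← h2, ← h1]; exact (H.ne O.hab l).symm
  have hin : ∀ y ∈ NB, ∃ i, b i = y ∧ a i ∈ NB := by
    intro y hy
    have hyi := hNBi y hy
    simp only [hNB, mem_filter, mem_univ, true_and] at hy ⊢
    obtain ⟨hyS, l, h1, h2⟩ := hy
    obtain ⟨j, k1, k2⟩ := O.other_in H hyi l
    have hj : a j ≠ inf := fun h => k1 (H.simple O.hab (h.trans h1.symm) (k2.trans h2.symm))
    have hf : ¬ Free inf a b (a j) := fun h => hw j h (k2 ▸ hyS) l h1 (h2.trans k2.symm)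
    exact ⟨j, k2, O.tail_not_mem H hf, (H.not_free O.hab hj).1 hf⟩
  obtain ⟨J, hJ, hmin⟩ := (NB.powerset.filter
    (fun J => J.Nonempty ∧ ∀ y ∈ J, ∃ i, b i = y ∧ a i ∈ J)).exists_min_image Finset.card
    ⟨NB, by
      simp only [mem_filter, mem_powerset, Finset.Subset.refl, true_and]
      exact ⟨⟨b l₀, by simp only [hNB, mem_filter, mem_univ, true_and]; exact ⟨hl₀', l₀, hl₀, rfl⟩⟩,
        hin⟩⟩
  simp only [mem_filter, mem_powerset] at hJ hmin
  obtain ⟨hJ1, hJ2, hJ3⟩ := hJ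
  have hout : ∀ x ∈ J, ∃ i, a i = x ∧ b i ∈ J := by
    intro x hx
    by_contra hcon
    push Not at hcon
    have := hmin (J.erase x) ⟨(Finset.erase_subset _ _).trans hJ1, ?_, ?_⟩
    · rw [Finset.card_erase_of_mem hx] at this
      have := Finset.card_pos.2 hJ2
      omega
    · obtain ⟨i, h1, h2⟩ := hJ3 x hx
      exact ⟨a i, mem_erase.2 ⟨h1 ▸ H.ne O.hab i, h2⟩⟩
    · intro y hy
      obtain ⟨i, h1, h2⟩ := hJ3 y (mem_of_mem_erase hy)
      exact ⟨i, h1, mem_erase.2 ⟨fun h => hcon i h (h1 ▸ mem_of_mem_erase hy), h2⟩⟩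
  have : Nonempty I := ⟨l₀⟩
  choose! e he1 he2 using hout
  choose T hT1 hT2 hT3 using exists_closed_flip a b (fun i => b i ≠ inf ∧ ∀ x ∈ J, i ≠ e x)
  have hTi : ∀ x ∈ J, inf ∉ T x := by
    intro x hx h
    rcases (hT3 x _ h).1 with k | ⟨i, k1, k2⟩
    · exact hNBi x (hJ1 hx) k.symm
    · exact k1.1 k2
  have hJS : ∀ x ∈ J, x ∉ S ∧ ∃ l, a l = inf ∧ b l = x := by
    intro x hx
    have := hJ1 hx
    simpa only [hNB, mem_filter, mem_univ, true_and] using this
  obtain ⟨w, hw1, hw2, lw, hlw1, hlw2⟩ := hR a b O (J.biUnion T) (by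
      simp only [mem_biUnion, not_exists, not_and]; exact hTi) (by
      obtain ⟨x, hx⟩ := hJ2
      exact ⟨x, mem_biUnion.2 ⟨x, hx, hT1 x⟩, (hJS x hx).1⟩) (by
      intro i hi
      obtain ⟨x, hx, hi⟩ := mem_biUnion.1 hi
      by_cases h1 : b i = inf
      · exact Or.inr h1
      left
      by_cases h2 : ∀ x ∈ J, i ≠ e x
      · exact mem_biUnion.2 ⟨x, hx, hT2 x i ⟨h1, h2⟩ hi⟩
      · push Not at h2
        obtain ⟨y, hy, rfl⟩ := h2
        exact mem_biUnion.2 ⟨_, he2 y hy, hT1 _⟩)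
  obtain ⟨x, hx, hw1⟩ := mem_biUnion.1 hw1
  obtain ⟨_, F, hF1, hF2⟩ := hT3 x w hw1
  obtain ⟨hxS, lx, hlx1, hlx2⟩ := hJS x hx
  have hxi := hNBi x (hJ1 hx)
  have hwi : w ≠ inf := by rintro rfl; exact hTi x hx hw1
  have n1 : lw ∉ F := fun h => (hF1 _ h).1.1 hlw2
  have n2 : lx ∉ insert lw F := by
    intro h
    rcases mem_insert.1 h with h | h
    · exact hxi (hlx2.symm.trans (h ▸ hlw2))
    · exact hTi x hx (hlx1 ▸ (hF1 _ h).2.1)
  have O' := O.flip (insert lx (insert lw F)) (by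
      intro v hv
      have := hF2 v
      simp only [Finset.card_filter, Finset.sum_insert n1, Finset.sum_insert n2, hlx1, hlx2, hlw1,
        hlw2, hv.symm, if_false] at this ⊢
      omega) (by
      intro l hl hl'
      rcases mem_insert.1 hl with rfl | hl
      · rw [hlx1]; exact O.hS
      rcases mem_insert.1 hl with rfl | hl
      · rw [hlw1]; exact hw2
      · exact absurd hl' (hF1 _ hl).1.1)
  refine ⟨_, _, O', Or.inr ⟨e x, ?_⟩⟩
  have n3 : e x ∉ insert lx (insert lw F) := by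
    intro h
    rcases mem_insert.1 h with h | h
    · exact hxi ((he1 x hx).symm.trans (h ▸ hlx1))
    rcases mem_insert.1 h with h | h
    · exact hNBi _ (hJ1 (he2 x hx)) (h ▸ hlw2)
    · exact (hF1 _ h).1.2 x hx rfl
  obtain ⟨hyS, ly, hly1, hly2⟩ := hJS _ (he2 x hx)
  have n4 : ly ∉ insert lx (insert lw F) := by
    intro h
    rcases mem_insert.1 h with h | h
    · exact H.ne O.hab (e x) ((he1 x hx).trans (hlx2.symm.trans (h ▸ hly2)))
    rcases mem_insert.1 h with h | h
    · exact hwi (hlw1.symm.trans (h ▸ hly1))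
    · exact hTi x hx (hly1 ▸ (hF1 _ h).2.1)
  simp only [flipA, n3, if_false]
  refine ⟨⟨lx, ?_, ?_⟩, hyS, ly, ?_, ?_⟩
  · simp only [flipA, mem_insert_self, if_true, hlx2, he1 x hx]
  · simp only [flipA, mem_insert_self, if_true, hlx1]
  · simp only [n4, if_false, hly1]
  · simp only [n4, if_false, hly2]

theorem Ori.exists_flip (O : Ori ends inf m S a b) {e lu lw : I} {u w : W} (hu : u ≠ inf)
    (hw : w ≠ inf) (huS : u ∉ S) (ae : a e = w) (be : b e = u) (alu : a lu = u) (blu : b lu = inf)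
    (alw : a lw = inf) (blw : b lw = w) :
    ∃ a' b', Ori ends inf m S a' b' ∧ Flip inf a b a' b' e lu lw u w := by
  have n1 : e ≠ lu := by rintro rfl; exact hu (be.symm.trans blu)
  have n2 : e ≠ lw := by rintro rfl; exact hw (ae.symm.trans alw)
  have n3 : lu ≠ lw := by rintro rfl; exact hu (alu.symm.trans alw)
  refine ⟨_, _, O.flip {e, lu, lw} ?_ ?_, ⟨hu, hw, ae, be, alu, blu, alw, blw, ?_, ?_, ?_, ?_, ?_,
    ?_, ?_⟩⟩
  · intro v hv
    have k1 : e ∉ ({lu, lw} : Finset I) := by simp [n1, n2]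
    have k2 : lu ∉ ({lw} : Finset I) := by simp [n3]
    simp only [Finset.card_filter, Finset.sum_insert k1, Finset.sum_insert k2,
      Finset.sum_singleton, ae, be, alu, blu, alw, blw]
    omega
  · intro l hl hl'
    simp only [mem_insert, mem_singleton] at hl
    rcases hl with rfl | rfl | rfl
    · exact absurd (be.symm.trans hl') hu
    · rw [alu]; exact huS
    · exact absurd (blw.symm.trans hl') hw
  · simp [flipA, be]
  · simp [flipA, ae]
  · simp [flipA, blu]
  · simp [flipA, alu]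
  · simp [flipA, blw]
  · simp [flipA, alw]
  · intro x h1 h2 h3
    simp [flipA, h1, h2, h3]

/-- sets of edges that can form a closed part avoiding `S` and `inf` -/
structure Sealed (inf : W) (S : Finset W) (a b : I → W) (Z : Finset I) : Prop where
  head : ∀ i ∈ Z, b i ∉ S ∧ b i ≠ inf
  tail : ∀ i ∈ Z, a i ≠ inf
  cb : ∀ i ∈ Z, ∀ j, b j = b i → j ∈ Z
  ca : ∀ i ∈ Z, ∀ j, a j = a i → j ∈ Z ∨ b j = inf ∨ (b j ∈ S ∧ Free inf a b (a i))
  ev : ∀ i ∈ Z, Even (Z.filter (fun j => a j = a i)).card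

section flips

variable {a' b' : I → W} {e lu lw : I} {u w : W} {Z : Finset I}

theorem Sealed.same (F : Flip inf a b a' b' e lu lw u w) (hZ : Sealed inf S a' b' Z) {i : I}
    (hi : i ∈ Z) (hie : i ≠ e) : a' i = a i ∧ b' i = b i :=
  F.rest i hie (by rintro rfl; exact hZ.tail _ hi F.alu')
    (by rintro rfl; exact (hZ.head _ hi).2 F.blw')

theorem Sealed.head_ne (F : Flip inf a b a' b' e lu lw u w) (hZ : Sealed inf S a' b' Z) {i : I}
    (hi : i ∈ Z) : b' i ≠ u := fun h =>
  hZ.tail _ (hZ.cb i hi lu (F.blu'.trans h.symm)) F.alu'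

theorem Sealed.tail_ne (H : Setup ends inf m) (O : Ori ends inf m S a b)
    (F : Flip inf a b a' b' e lu lw u w) (hw : ∀ j, a j = w → b j ∉ S)
    (hZ : Sealed inf S a' b' Z) {i : I} (hi : i ∈ Z) : a' i ≠ w := by
  intro h
  have huw : u ≠ w := by rw [← F.ae, ← F.be]; exact (H.ne O.hab e).symm
  have hnf : ¬ Free inf a b (a e) := (H.not_free O.hab (F.ae ▸ F.hw)).2 ⟨lw, F.alw, F.ae ▸ F.blw⟩
  have e1 : Z.filter (fun j => a' j = a' i) = (univ.filter (fun j => a j = w)).erase e := by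
    ext j
    simp only [mem_filter, mem_erase, mem_univ, true_and, h]
    constructor
    · rintro ⟨h1, h2⟩
      have : j ≠ e := by rintro rfl; exact huw (F.ae'.symm.trans h2)
      exact ⟨this, (hZ.same F h1 this).1 ▸ h2⟩
    · rintro ⟨h1, h2⟩
      obtain ⟨p, q⟩ := F.rest j h1 (by rintro rfl; exact huw (F.alu.symm.trans h2))
        (by rintro rfl; exact F.hw (h2.symm.trans F.alw))
      refine ⟨?_, p.trans h2⟩
      rcases hZ.ca i hi j (by rw [p, h2, h]) with k | k | k
      · exact k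
      · exact absurd ⟨j, h2.trans F.ae.symm, q ▸ k⟩ hnf
      · exact absurd (q ▸ k.1) (hw j h2)
  have e2 := hZ.ev i hi
  have e3 := O.ca H F.hw
  have e4 : w ∉ S := F.ae ▸ O.tail_not_mem H hnf
  rw [e1, Finset.card_erase_of_mem (by simp [F.ae]), e3] at e2
  simp only [e4, if_false, Nat.add_sub_cancel] at e2
  exact (Nat.not_even_iff_odd.2 H.odd) e2

theorem Sealed.of_flip (H : Setup ends inf m) (O : Ori ends inf m S a b)
    (F : Flip inf a b a' b' e lu lw u w) (hw : ∀ j, a j = w → b j ∉ S) (hwS : w ∉ S)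
    (hZ : Sealed inf S a' b' Z) (he : e ∉ Z) : Sealed inf S a b Z := by
  have same : ∀ i ∈ Z, a' i = a i ∧ b' i = b i := fun i hi =>
    hZ.same F hi (by rintro rfl; exact he hi)
  have k1 : ∀ i ∈ Z, b i ≠ u := fun i hi => (same i hi).2 ▸ hZ.head_ne F hi
  have k2 : ∀ i ∈ Z, b i ≠ w := fun i hi h =>
    he (hZ.cb i hi e (by rw [F.be', (same i hi).2, h]))
  have k3 : ∀ i ∈ Z, a i ≠ u := by
    intro i hi h
    rcases hZ.ca i hi e (by rw [F.ae', (same i hi).1, h]) with k | k | k
    · exact he k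
    · exact F.hw (F.be'.symm.trans k)
    · exact hwS (F.be' ▸ k.1)
  have k4 : ∀ i ∈ Z, a i ≠ w := fun i hi => (same i hi).1 ▸ hZ.tail_ne H O F hw hi
  have k5 : ∀ i ∈ Z, b i ∉ S ∧ b i ≠ inf := fun i hi => (same i hi).2 ▸ hZ.head i hi
  have k6 : ∀ i ∈ Z, a i ≠ inf := fun i hi => (same i hi).1 ▸ hZ.tail i hi
  refine ⟨k5, k6, ?_, ?_, ?_⟩
  · intro i hi j hj
    obtain ⟨_, q⟩ := F.rest j (by rintro rfl; exact k1 i hi (hj.symm.trans F.be))
      (by rintro rfl; exact (k5 i hi).2 (hj.symm.trans F.blu))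
      (by rintro rfl; exact k2 i hi (hj.symm.trans F.blw))
    exact hZ.cb i hi j (by rw [q, hj, (same i hi).2])
  · intro i hi j hj
    obtain ⟨p, q⟩ := F.rest j (by rintro rfl; exact k4 i hi (hj.symm.trans F.ae))
      (by rintro rfl; exact k3 i hi (hj.symm.trans F.alu))
      (by rintro rfl; exact k6 i hi (hj.symm.trans F.alw))
    rcases hZ.ca i hi j (by rw [p, hj, (same i hi).1]) with k | k | ⟨k, l, l1, l2⟩
    · exact Or.inl k
    · exact Or.inr (Or.inl (q ▸ k))
    · rw [(same i hi).1] at l1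
      obtain ⟨p', q'⟩ := F.rest l (by rintro rfl; exact F.hw (F.be'.symm.trans l2))
        (by rintro rfl; exact k6 i hi (l1.symm.trans F.alu'))
        (by rintro rfl; exact k4 i hi (l1.symm.trans F.alw'))
      exact Or.inr (Or.inr ⟨q ▸ k, l, p' ▸ l1, q' ▸ l2⟩)
  · intro i hi
    have := hZ.ev i hi
    rwa [Finset.filter_congr (q := fun j => a j = a i) (fun j hj => by
      rw [(same j hj).1, (same i hi).1])] at this

theorem Sealed.fibre (F : Flip inf a b a' b' e lu lw u w) (hZ : Sealed inf S a' b' Z)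
    (he : e ∈ Z) {i : I} (hi : i ∈ Z) (hie : i ≠ e) (hiw : a i ≠ w) :
    (∀ j, a j = a i → b j ∉ S → b j ≠ inf → j ∈ Z ∧ j ≠ e) ∧
    Even ((univ.filter (fun j => a j = a i ∧ b j ∉ S ∧ b j ≠ inf)).card +
      if a i = u then 1 else 0) := by
  have si := hZ.same F hi hie
  have k : ∀ j, a j = a i → b j ∉ S → b j ≠ inf → j ∈ Z ∧ j ≠ e := by
    intro j h1 h2 h3
    have hje : j ≠ e := by rintro rfl; exact hiw (h1.symm.trans F.ae)
    obtain ⟨p, q⟩ := F.rest j hje (by rintro rfl; exact h3 F.blu)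
      (by rintro rfl; exact hZ.tail i hi (si.1.trans (h1.symm.trans F.alw)))
    rcases hZ.ca i hi j (by rw [p, h1, si.1]) with k | k | k
    · exact ⟨k, hje⟩
    · exact absurd (q ▸ k) h3
    · exact absurd (q ▸ k.1) h2
  refine ⟨k, ?_⟩
  have e1 : (Z.filter (fun j => a' j = a' i)).erase e =
      univ.filter (fun j => a j = a i ∧ b j ∉ S ∧ b j ≠ inf) := by
    ext j
    simp only [mem_erase, mem_filter, mem_univ, true_and]
    constructor
    · rintro ⟨h1, h2, h3⟩
      obtain ⟨p, q⟩ := hZ.same F h2 h1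
      exact ⟨by rw [← p, h3, si.1], q ▸ hZ.head j h2⟩
    · rintro ⟨h1, h2, h3⟩
      obtain ⟨p, q⟩ := k j h1 h2 h3
      exact ⟨q, p, by rw [(hZ.same F p q).1, h1, si.1]⟩
  have e2 := hZ.ev i hi
  rw [← e1]
  split_ifs with h
  · rwa [Finset.card_erase_add_one (by simp [he, F.ae', si.1, h])]
  · rwa [Finset.erase_eq_of_notMem (by simp [F.ae', si.1, Ne.symm h]), add_zero]

theorem bad_unique (H : Setup ends inf m) (O : Ori ends inf m S a b)
    {a₁ b₁ a₂ b₂ : I → W} {e₁ e₂ l₁ l₂ lw : I} {u₁ u₂ w : W} {Z₁ Z₂ : Finset I}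
    (F₁ : Flip inf a b a₁ b₁ e₁ l₁ lw u₁ w) (F₂ : Flip inf a b a₂ b₂ e₂ l₂ lw u₂ w)
    (hu : u₁ ≠ u₂) (hw : ∀ j, a j = w → b j ∉ S) (hwS : w ∉ S)
    (h₁ : Sealed inf S a₁ b₁ Z₁) (h₂ : Sealed inf S a₂ b₂ Z₂) (m₁ : e₁ ∈ Z₁) (m₂ : e₂ ∈ Z₂) :
    False := by
  set T := Z₁.erase e₁ ∩ Z₂.erase e₂ with hT
  have hmem : ∀ i, i ∈ T ↔ (i ≠ e₁ ∧ i ∈ Z₁) ∧ (i ≠ e₂ ∧ i ∈ Z₂) := by
    intro i; simp only [hT, mem_inter, mem_erase]
  have pa : Even T.card := by
    apply even_of_fibres a
    intro v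
    rcases (T.filter (fun x => a x = v)).eq_empty_or_nonempty with h | ⟨i, hi⟩
    · rw [h]; simp
    obtain ⟨hi', rfl⟩ := mem_filter.1 hi
    obtain ⟨⟨p1, p2⟩, q1, q2⟩ := (hmem i).1 hi'
    have hiw : a i ≠ w := (h₁.same F₁ p2 p1).1 ▸ h₁.tail_ne H O F₁ hw p2
    obtain ⟨r1, r2⟩ := h₁.fibre F₁ m₁ p2 p1 hiw
    obtain ⟨s1, s2⟩ := h₂.fibre F₂ m₂ q2 q1 hiw
    have e1 : T.filter (fun x => a x = a i) =
        univ.filter (fun j => a j = a i ∧ b j ∉ S ∧ b j ≠ inf) := by
      ext j
      simp only [mem_filter, mem_univ, true_and, hmem]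
      constructor
      · rintro ⟨⟨⟨k1, k2⟩, _⟩, k3⟩
        exact ⟨k3, (h₁.same F₁ k2 k1).2 ▸ h₁.head j k2⟩
      · rintro ⟨k1, k2, k3⟩
        exact ⟨⟨(r1 j k1 k2 k3).symm, (s1 j k1 k2 k3).symm⟩, k1⟩
    rw [e1]
    by_cases h : a i = u₁
    · simpa [h, hu] using s2
    · simpa [h] using r2
  have key : ∀ {a' b' : I → W} {e l : I} {u : W} {Z : Finset I},
      Flip inf a b a' b' e l lw u w → Sealed inf S a' b' Z → ∀ i ∈ Z, ∀ j, b j = b' i → j ≠ lw →
        j ≠ e ∧ j ∈ Z := by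
    intro a' b' e l u Z F hZ i hi j hj hjl
    have n1 : j ≠ e := by rintro rfl; exact hZ.head_ne F hi (hj.symm.trans F.be)
    obtain ⟨_, q⟩ := F.rest j n1 (by rintro rfl; exact (hZ.head i hi).2 (hj.symm.trans F.blu)) hjl
    exact ⟨n1, hZ.cb i hi j (q.trans hj)⟩
  have pb := even_add_of_fibres b T w (by
    intro v hv
    rcases (T.filter (fun x => b x = v)).eq_empty_or_nonempty with h | ⟨i, hi⟩
    · rw [h]; simp
    obtain ⟨hi', rfl⟩ := mem_filter.1 hi
    obtain ⟨⟨p1, p2⟩, q1, q2⟩ := (hmem i).1 hi'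
    have s1 := (h₁.same F₁ p2 p1).2
    have s2 := (h₂.same F₂ q2 q1).2
    have e1 : T.filter (fun x => b x = b i) = univ.filter (fun j => b j = b i) := by
      ext j
      simp only [mem_filter, mem_univ, true_and, hmem, and_iff_right_iff_imp]
      intro hj
      have : j ≠ lw := by rintro rfl; exact hv (hj.symm.trans F₁.blw)
      exact ⟨key F₁ h₁ i p2 j (hj.trans s1.symm) this, key F₂ h₂ i q2 j (hj.trans s2.symm) this⟩
    have hh := s1 ▸ h₁.head i p2
    rw [e1, O.cb _ hh.2]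
    simp only [hh.1, if_false]
    obtain ⟨k, hk⟩ := H.odd
    exact ⟨k, by omega⟩)
  have e1 : T.filter (fun x => b x = w) = (univ.filter (fun j => b j = w)).erase lw := by
    ext j
    simp only [mem_filter, mem_univ, true_and, hmem, mem_erase]
    constructor
    · rintro ⟨⟨⟨_, k2⟩, _⟩, k3⟩
      exact ⟨by rintro rfl; exact (h₁.head _ k2).2 F₁.blw', k3⟩
    · rintro ⟨k1, k2⟩
      exact ⟨⟨key F₁ h₁ e₁ m₁ j (k2.trans F₁.be'.symm) k1,
        key F₂ h₂ e₂ m₂ j (k2.trans F₂.be'.symm) k1⟩, k2⟩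
  rw [e1, Finset.card_erase_of_mem (by simp [F₁.blw]), O.cb _ F₁.hw] at pb
  simp only [hwS, if_false] at pb
  obtain ⟨k, hk⟩ := H.odd
  have := H.three
  rw [Nat.even_iff] at pa pb
  omega

end flips

theorem exists_nice (H : Setup ends inf m) (O : Ori ends inf m S a b) (hw : Wit inf S a b) :
    ∃ a b, Ori ends inf m S a b ∧ Wit inf S a b ∧
      ∀ Z, Sealed inf S a b Z → ∀ i ∈ Z, Free inf a b (a i) := by
  classical
  induction' hn : (univ.filter (fun i => ∃ Z, Sealed inf S a b Z ∧ i ∈ Z)).card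
    using Nat.strong_induction_on with n ih generalizing a b
  by_cases hall : ∀ Z, Sealed inf S a b Z → ∀ i ∈ Z, Free inf a b (a i)
  · exact ⟨a, b, O, hw, hall⟩
  have step : ∀ (Z : Finset I) (i : I) (y : W), Sealed inf S a b Z → i ∈ Z →
      ¬ Free inf a b (a i) → ∃ a' b' e lu lw, e ∈ Z ∧ b e ≠ y ∧ Ori ends inf m S a' b' ∧
        Flip inf a b a' b' e lu lw (b e) (a i) ∧
        (univ.filter (fun i => ∃ Z, Sealed inf S a' b' Z ∧ i ∈ Z)).card < n := by
    intro Z i y hZ hi hf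
    have hiS := O.tail_not_mem H hf
    have hin : ∀ j, a j = a i → j ∈ Z := by
      intro j hj
      rcases hZ.ca i hi j hj with k | k | k
      · exact k
      · exact absurd ⟨j, hj, k⟩ hf
      · exact absurd k.2 hf
    have hnS : ∀ j, a j = a i → b j ∉ S := fun j hj => (hZ.head j (hin j hj)).1
    obtain ⟨lw, alw, blw⟩ := (H.not_free O.hab (hZ.tail i hi)).1 hf
    have hfl : ∀ e, a e = a i → ∃ a' b' lu, Ori ends inf m S a' b' ∧
        Flip inf a b a' b' e lu lw (b e) (a i) := by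
      intro e he
      have hh := hZ.head e (hin e he)
      rcases H.label O.hab hh.2 with ⟨lu, p, q⟩ | ⟨l, p, q⟩
      · obtain ⟨a', b', k1, k2⟩ := O.exists_flip hh.2 (hZ.tail i hi) hh.1 he rfl p q alw blw
        exact ⟨a', b', lu, k1, k2⟩
      · exact absurd p (hZ.tail l (hZ.cb e (hin e he) l q))
    have hc : 1 < (univ.filter (fun j => a j = a i ∧ b j ≠ y)).card := by
      have e1 := O.ca H (hZ.tail i hi)
      simp only [hiS, if_false] at e1
      have e2 := Finset.card_filter_add_card_filter_not (s := univ.filter (fun j => a j = a i))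
        (fun j => b j = y)
      simp only [Finset.filter_filter] at e2
      have e3 : (univ.filter (fun j => a j = a i ∧ b j = y)).card ≤ 1 := by
        rw [Finset.card_le_one]
        intro j hj k hk
        simp only [mem_filter, mem_univ, true_and] at hj hk
        exact H.simple O.hab (hj.1.trans hk.1.symm) (hj.2.trans hk.2.symm)
      have := H.three
      simp only [ne_eq]
      omega
    obtain ⟨e₁, he₁, e₂, he₂, hne⟩ := Finset.one_lt_card.1 hc
    simp only [mem_filter, mem_univ, true_and] at he₁ he₂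
    obtain ⟨a₁, b₁, l₁, O₁, F₁⟩ := hfl e₁ he₁.1
    obtain ⟨a₂, b₂, l₂, O₂, F₂⟩ := hfl e₂ he₂.1
    have fin : ∀ a' b' e lu, a e = a i → Flip inf a b a' b' e lu lw (b e) (a i) →
        (¬ ∃ Z', Sealed inf S a' b' Z' ∧ e ∈ Z') →
        (univ.filter (fun i => ∃ Z, Sealed inf S a' b' Z ∧ i ∈ Z)).card < n := by
      intro a' b' e lu he F hno
      rw [← hn]
      apply Finset.card_lt_card
      rw [Finset.ssubset_iff_of_subset]
      · refine ⟨e, ?_, ?_⟩
        · simp only [mem_filter, mem_univ, true_and]; exact ⟨Z, hZ, hin e he⟩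
        · simp only [mem_filter, mem_univ, true_and]; exact hno
      · intro j hj
        simp only [mem_filter, mem_univ, true_and] at hj ⊢
        obtain ⟨Z', k1, k2⟩ := hj
        exact ⟨Z', k1.of_flip H O F hnS hiS (fun h => hno ⟨Z', k1, h⟩), k2⟩
    by_cases hb : ∃ Z', Sealed inf S a₁ b₁ Z' ∧ e₁ ∈ Z'
    · obtain ⟨Z₁, k1, k2⟩ := hb
      refine ⟨a₂, b₂, e₂, l₂, lw, hin _ he₂.1, he₂.2, O₂, F₂, fin _ _ _ _ he₂.1 F₂ ?_⟩
      rintro ⟨Z₂, k3, k4⟩
      exact bad_unique H O F₁ F₂ (fun h => hne (H.simple O.hab (he₁.1.trans he₂.1.symm) h))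
        hnS hiS k1 k3 k2 k4
    · exact ⟨a₁, b₁, e₁, l₁, lw, hin _ he₁.1, he₁.2, O₁, F₁, fin _ _ _ _ he₁.1 F₁ hb⟩
  have keep : ∀ {a' b' : I → W} {e lu lw : I} {u w v : W}, Flip inf a b a' b' e lu lw u w →
      v ≠ u → Free inf a b v → Free inf a' b' v := by
    rintro a' b' e lu lw u w v F hv ⟨l, l1, l2⟩
    obtain ⟨p, q⟩ := F.rest l (by rintro rfl; exact F.hu (F.be.symm.trans l2))
      (by rintro rfl; exact hv (l1.symm.trans F.alu))
      (by rintro rfl; exact F.hw (F.blw.symm.trans l2))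
    exact ⟨l, p.trans l1, q.trans l2⟩
  push Not at hall
  obtain ⟨Z₀, hZ₀, i₁, hi₁, hf₁⟩ := hall
  rcases hw with hw | ⟨i₀, w1, w2, l₀, w3, w4⟩
  · obtain ⟨l, p, q⟩ := (H.not_free O.hab (hZ₀.tail _ hi₁)).1 hf₁
    exact absurd (q ▸ hw l p) (O.tail_not_mem H hf₁)
  by_cases hcase : ∃ Z i, Sealed inf S a b Z ∧ i ∈ Z ∧ ¬ Free inf a b (a i) ∧ a i ≠ b i₀
  · obtain ⟨Z, i, hZ, hi, hf, hne⟩ := hcase
    obtain ⟨a', b', e, lu, lw, h1, h2, O', F, hlt⟩ := step Z i (a i₀) hZ hi hf
    refine ih _ hlt O' (Or.inr ?_) rfl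
    have hb0 : b i₀ ≠ inf := by rw [← w4, ← w3]; exact (H.ne O.hab l₀).symm
    obtain ⟨p, q⟩ := F.rest i₀ (by rintro rfl; exact hZ.tail l₀ (hZ.cb _ h1 l₀ w4) w3)
      (by rintro rfl; exact hb0 F.blu) (by rintro rfl; exact H.free_ne O.hab w1 F.alw)
    obtain ⟨p', q'⟩ := F.rest l₀ (by rintro rfl; exact hZ.tail _ h1 w3)
      (by rintro rfl; exact hb0 (w4.symm.trans F.blu))
      (by rintro rfl; exact hne (F.blw.symm.trans w4))
    exact ⟨i₀, p ▸ keep F h2.symm w1, q ▸ w2, l₀, p'.trans w3, by rw [q', q, w4]⟩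
  · push Not at hcase
    obtain ⟨a', b', e, lu, lw, h1, _, O', F, hlt⟩ := step Z₀ i₁ inf hZ₀ hi₁ hf₁
    refine ih _ hlt O' (Or.inr ?_) rfl
    obtain ⟨j, k1, k2⟩ := O.other_in H F.hu e
    have hj := hZ₀.cb e h1 j k2
    have hfj : Free inf a b (a j) := by
      by_contra hf
      apply k1
      exact H.simple O.hab
        ((hcase Z₀ j hZ₀ hj hf).trans ((hcase Z₀ i₁ hZ₀ hi₁ hf₁).symm.trans F.ae.symm)) k2
    obtain ⟨p, q⟩ := F.rest j k1 (by rintro rfl; exact F.hu (k2.symm.trans F.blu))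
      (by rintro rfl; exact hZ₀.tail _ hj F.alw)
    refine ⟨j, p ▸ keep F (k2 ▸ H.ne O.hab j) hfj, ?_, lu, F.alu', by rw [F.blu', q, k2]⟩
    rw [q, k2]
    exact (hZ₀.head e h1).1

end Pool.Agent.MP_29e935_co

end

section

set_option autoImplicit false

/-! Protected edges into `S`. -/

namespace Pool.Agent.MP_29e935_co

open Finset

variable {I W : Type*} [Fintype I] [DecidableEq I] [Fintype W] [DecidableEq W]
variable {ends : I → Sym2 W} {inf : W} {m : ℕ} {S : Finset W} {a b : I → W}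

theorem Sealed.mem_of_tail {Z : Finset I} (hZ : Sealed inf S a b Z) {i j : I} (hi : i ∈ Z)
    (h : a j = a i) (h1 : b j ∉ S) (h2 : b j ≠ inf) : j ∈ Z := by
  rcases hZ.ca i hi j h with k | k | k
  · exact k
  · exact absurd k h2
  · exact absurd k.1 h1

theorem Sealed.inter {Z Z' : Finset I} (hZ : Sealed inf S a b Z) (hZ' : Sealed inf S a b Z') :
    Sealed inf S a b (Z ∩ Z') := by
  refine ⟨fun i hi => hZ.head i (mem_inter.1 hi).1, fun i hi => hZ.tail i (mem_inter.1 hi).1,
    fun i hi j hj => mem_inter.2 ⟨hZ.cb i (mem_inter.1 hi).1 j hj, hZ'.cb i (mem_inter.1 hi).2 j hj⟩,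
    ?_, ?_⟩
  · intro i hi j hj
    rcases hZ.ca i (mem_inter.1 hi).1 j hj with k | k
    · exact Or.inl (mem_inter.2 ⟨k, hZ'.mem_of_tail (mem_inter.1 hi).2 hj
        (hZ.head j k).1 (hZ.head j k).2⟩)
    · exact Or.inr k
  · intro i hi
    have : (Z ∩ Z').filter (fun j => a j = a i) = Z.filter (fun j => a j = a i) := by
      ext j
      simp only [mem_filter, mem_inter]
      exact ⟨fun h => ⟨h.1.1, h.2⟩, fun h => ⟨⟨h.1, hZ'.mem_of_tail (mem_inter.1 hi).2 h.2
        (hZ.head j h.1).1 (hZ.head j h.1).2⟩, h.2⟩⟩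
    rw [this]
    exact hZ.ev i (mem_inter.1 hi).1

theorem Ori.even_ca (H : Setup ends inf m) (O : Ori ends inf m S a b) {v : W} (hv : v ≠ inf) :
    Even (univ.filter (fun x => a x = v)).card := by
  rw [O.ca H hv]
  obtain ⟨k, hk⟩ := H.odd
  have := H.three
  rw [Nat.even_iff]
  split_ifs <;> omega

theorem Ori.even_cb (H : Setup ends inf m) (O : Ori ends inf m S a b) {v : W} (hv : v ≠ inf) :
    Even (univ.filter (fun x => b x = v)).card := by
  rw [O.cb v hv]
  obtain ⟨k, hk⟩ := H.odd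
  have := H.three
  rw [Nat.even_iff]
  split_ifs <;> omega

theorem Sealed.exists_arc (H : Setup ends inf m) (O : Ori ends inf m S a b) {Z : Finset I}
    (hZ : Sealed inf S a b Z) {i : I} (hi : i ∈ Z) (hf : Free inf a b (a i)) :
    ∃ k, a k = a i ∧ b k ∈ S := by
  by_contra hcon
  push Not at hcon
  obtain ⟨l, l1, l2⟩ := hf
  have e : univ.filter (fun x => a x = a i) = insert l (Z.filter (fun j => a j = a i)) := by
    ext j
    simp only [mem_filter, mem_univ, true_and, mem_insert]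
    constructor
    · intro h
      by_cases h2 : b j = inf
      · exact Or.inl (H.simple O.hab (h.trans l1.symm) (h2.trans l2.symm))
      · exact Or.inr ⟨hZ.mem_of_tail hi h (hcon j h) h2, h⟩
    · rintro (rfl | h)
      · exact l1
      · exact h.2
  have e1 := O.even_ca H (hZ.tail i hi)
  have e2 := hZ.ev i hi
  rw [e, Finset.card_insert_of_notMem (fun h => (hZ.head l (mem_filter.1 h).1).2 l2)] at e1
  rw [Nat.even_iff] at e1 e2
  omega

theorem exists_protect (H : Setup ends inf m) (O : Ori ends inf m S a b) (hR : Rich ends inf m S)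
    (hN : ∀ Z, Sealed inf S a b Z → ∀ i ∈ Z, Free inf a b (a i)) (A₀ : Finset I)
    (h₀ : ∀ j ∈ A₀, b j ∈ S ∧ Free inf a b (a j) ∧ ∀ Z, Sealed inf S a b Z → ∀ i ∈ Z, a i ≠ a j) :
    ∃ Pr : Finset I,
      (∀ Z, Sealed inf S a b Z → Z.Nonempty → ∃ j ∈ Pr, b j ∈ S ∧ ∃ i ∈ Z, a i = a j) ∧
      (A₀.Nonempty → ∃ j ∈ Pr, j ∈ A₀) ∧
      (∀ s ∈ S, ∃ T : Finset I, m - 2 ≤ T.card ∧ ∀ i ∈ T, b i = s ∧ Free inf a b (a i) ∧ i ∉ Pr) ∧
      ∀ j ∈ Pr, j ∈ A₀ ∨ ∃ Z, Sealed inf S a b Z ∧ ∃ i ∈ Z, a i = a j := by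
  classical
  let Min : Finset I → Prop := fun Z => Sealed inf S a b Z ∧ Z.Nonempty ∧
    ∀ Z' ⊆ Z, Sealed inf S a b Z' → Z'.Nonempty → Z' = Z
  let A : Finset I → Finset I := fun Z =>
    if Z = ∅ then A₀ else univ.filter (fun j => b j ∈ S ∧ ∃ i ∈ Z, a i = a j)
  let f : W → ℕ := fun s => (univ.filter (fun i => b i = s ∧ Free inf a b (a i))).card
  have hf : ∀ s ∈ S, m ≤ f s := by
    intro s hs
    obtain ⟨T, h1, h2⟩ := hR a b O s hs
    exact h1.trans (Finset.card_le_card (fun i hi => by simpa using h2 i hi))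
  let ι := {Z : Finset I // Min Z ∨ (Z = ∅ ∧ A₀.Nonempty)}
  have hA1 : ∀ Z : ι, Min Z.1 → ∀ j, j ∈ A Z.1 ↔ b j ∈ S ∧ ∃ i ∈ Z.1, a i = a j := by
    intro Z hZ j
    simp [A, hZ.2.1.ne_empty]
  have hA2 : ∀ Z : ι, ¬ Min Z.1 → Z.1 = ∅ ∧ A Z.1 = A₀ ∧ A₀.Nonempty := by
    intro Z hZ
    rcases Z.2 with h | h
    · exact absurd h hZ
    · exact ⟨h.1, by simp [A, h.1], h.2⟩
  have hAo : ∀ Z : ι, ∀ j ∈ A Z.1, b j ∈ S ∧ Free inf a b (a j) := by
    intro Z j hj
    by_cases hZ : Min Z.1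
    · obtain ⟨h1, i, h2, h3⟩ := (hA1 Z hZ j).1 hj
      exact ⟨h1, h3 ▸ hN _ hZ.1 i h2⟩
    · rw [(hA2 Z hZ).2.1] at hj
      exact ⟨(h₀ j hj).1, (h₀ j hj).2.1⟩
  have hAc : ∀ Z : ι, Min Z.1 → m - 1 ≤ (A Z.1).card := by
    intro Z hZ
    obtain ⟨i, hi⟩ := hZ.2.1
    have hh := hZ.1.head i hi
    have e := O.cb _ hh.2
    simp only [hh.1, if_false] at e
    rw [← e]
    apply Finset.card_le_card_of_forall_subsingleton (fun j k => a k = a j)
    · intro j hj
      simp only [mem_filter, mem_univ, true_and] at hj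
      have hjZ := hZ.1.cb i hi j hj
      obtain ⟨k, k1, k2⟩ := hZ.1.exists_arc H O hjZ (hN _ hZ.1 j hjZ)
      exact ⟨k, (hA1 Z hZ k).2 ⟨k2, j, hjZ, k1.symm⟩, k1⟩
    · intro k _ j hj j' hj'
      simp only [mem_filter, mem_univ, true_and, Set.mem_ofPred_eq] at hj hj'
      exact H.simple O.hab (hj.2.symm.trans hj'.2) (hj.1.trans hj'.1.symm)
  have hdis : ∀ Z Z' : ι, Z ≠ Z' → Disjoint (A Z.1) (A Z'.1) := by
    intro Z Z' hne
    rw [Finset.disjoint_left]
    intro k h1 h2
    by_cases hZ : Min Z.1 <;> by_cases hZ' : Min Z'.1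
    · obtain ⟨_, i, p1, p2⟩ := (hA1 Z hZ k).1 h1
      obtain ⟨_, i', q1, q2⟩ := (hA1 Z' hZ' k).1 h2
      have hh := hZ'.1.head i' q1
      have hne' : (Z.1 ∩ Z'.1).Nonempty :=
        ⟨i', mem_inter.2 ⟨hZ.1.mem_of_tail p1 (q2.trans p2.symm) hh.1 hh.2, q1⟩⟩
      have e1 := hZ.2.2 _ inter_subset_left (hZ.1.inter hZ'.1) hne'
      have e2 := hZ'.2.2 _ inter_subset_right (hZ.1.inter hZ'.1) hne'
      exact hne (Subtype.ext (e1.symm.trans e2))
    · obtain ⟨_, i, p1, p2⟩ := (hA1 Z hZ k).1 h1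
      rw [(hA2 Z' hZ').2.1] at h2
      exact (h₀ k h2).2.2 _ hZ.1 i p1 p2
    · obtain ⟨_, i, p1, p2⟩ := (hA1 Z' hZ' k).1 h2
      rw [(hA2 Z hZ).2.1] at h1
      exact (h₀ k h1).2.2 _ hZ'.1 i p1 p2
    · exact hne (Subtype.ext ((hA2 Z hZ).1.trans (hA2 Z' hZ').1.symm))
  have hm3 := H.three
  have hAne : ∀ Z : ι, (A Z.1).Nonempty := by
    intro Z
    by_cases hZ : Min Z.1
    · exact Finset.card_pos.1 (by have := hAc Z hZ; omega)
    · rw [(hA2 Z hZ).2.1]; exact (hA2 Z hZ).2.2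
  let cap : W → ℕ := fun s => if s ∈ S then f s - (m - 2) else 0
  obtain ⟨g, hg1, hg2⟩ := exists_choice_cap (fun Z : ι => (A Z.1).image b) cap (by
    intro T
    set J := univ.filter (fun Z : ι => (A Z.1).image b ⊆ T) with hJ
    rcases J.eq_empty_or_nonempty with h | ⟨Z₀, hZ₀⟩
    · rw [h]; simp
    have e1 : ∑ Z ∈ J, (A Z.1).card ≤ ∑ s ∈ T ∩ S, f s := by
      rw [← Finset.card_biUnion (fun Z _ Z' _ h => hdis Z Z' h)]
      have : ∑ s ∈ T ∩ S, f s =
          (univ.filter (fun i => b i ∈ T ∩ S ∧ Free inf a b (a i))).card := by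
        rw [Finset.card_eq_sum_card_fiberwise (f := b) (t := T ∩ S)
          (fun i hi => by simpa using (mem_filter.1 hi).2.1)]
        apply Finset.sum_congr rfl
        intro s hs
        simp only [f]
        congr 1
        ext i
        simp only [mem_filter, mem_univ, true_and]
        constructor
        · exact fun h => ⟨⟨h.1 ▸ hs, h.2⟩, h.1⟩
        · exact fun h => ⟨h.2, h.1.2⟩
      rw [this]
      apply Finset.card_le_card
      intro i hi
      obtain ⟨Z, hZ, hi⟩ := mem_biUnion.1 hi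
      simp only [hJ, mem_filter, mem_univ, true_and] at hZ ⊢
      exact ⟨mem_inter.2 ⟨hZ (mem_image_of_mem b hi), (hAo Z i hi).1⟩, (hAo Z i hi).2⟩
    have e2 : (m - 1) * J.card ≤ ∑ Z ∈ J, (A Z.1).card + (m - 2) := by
      have k1 : ∀ Z ∈ J, m - 1 ≤ (A Z.1).card + (if Min Z.1 then 0 else m - 2) := by
        intro Z _
        split_ifs with hZ
        · exact hAc Z hZ
        · have := (hAne Z).card_pos; omega
      have k2 : ∑ Z ∈ J, (if Min Z.1 then 0 else m - 2) ≤ m - 2 := by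
        rw [Finset.sum_ite, Finset.sum_const_zero, zero_add, Finset.sum_const, smul_eq_mul]
        have : (J.filter (fun Z => ¬ Min Z.1)).card ≤ 1 := by
          rw [Finset.card_le_one]
          intro Z hZ Z' hZ'
          exact Subtype.ext ((hA2 Z (mem_filter.1 hZ).2).1.trans
            (hA2 Z' (mem_filter.1 hZ').2).1.symm)
        calc _ ≤ 1 * (m - 2) := Nat.mul_le_mul_right _ this
          _ = m - 2 := one_mul _
      have k3 := Finset.sum_le_sum k1
      rw [Finset.sum_const, smul_eq_mul, Finset.sum_add_distrib, mul_comm] at k3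
      omega
    have e3 : ∑ s ∈ T ∩ S, f s + (m - 2) * (T ∩ S).card ≤ (m - 1) * ∑ s ∈ T, cap s := by
      have : ∑ s ∈ T, cap s = ∑ s ∈ T ∩ S, (f s - (m - 2)) := by
        rw [← Finset.filter_mem_eq_inter, Finset.sum_filter]
      rw [this, Finset.card_eq_sum_ones, Finset.mul_sum, Finset.mul_sum, ← Finset.sum_add_distrib]
      apply Finset.sum_le_sum
      intro s hs
      have := hf s (mem_inter.1 hs).2
      obtain ⟨n, rfl⟩ : ∃ n, m = n + 3 := ⟨m - 3, by omega⟩
      obtain ⟨r, hr⟩ : ∃ r, f s = n + 3 + r := ⟨f s - (n + 3), by omega⟩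
      rw [hr, show n + 3 - 2 = n + 1 by omega, show n + 3 - 1 = n + 2 by omega,
        show n + 3 + r - (n + 1) = r + 2 by omega]
      nlinarith
    have e4 : 1 ≤ (T ∩ S).card := by
      obtain ⟨j, hj⟩ := hAne Z₀
      simp only [hJ, mem_filter, mem_univ, true_and] at hZ₀
      exact Finset.card_pos.2 ⟨b j, mem_inter.2 ⟨hZ₀ (mem_image_of_mem b hj), (hAo Z₀ j hj).1⟩⟩
    have e5 : m - 2 ≤ (m - 2) * (T ∩ S).card := Nat.le_mul_of_pos_right _ e4
    have e6 : (m - 1) * J.card ≤ (m - 1) * ∑ s ∈ T, cap s := by omega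
    exact Nat.le_of_mul_le_mul_left e6 (by omega))
  simp only [mem_image] at hg1
  choose p hp1 hp2 using hg1
  refine ⟨univ.image p, ?_, ?_, ?_, ?_⟩
  · intro Z hZ hne
    obtain ⟨Z', hZ', hmin⟩ := (Z.powerset.filter
      (fun Z' => Sealed inf S a b Z' ∧ Z'.Nonempty)).exists_min_image Finset.card
      ⟨Z, by simp [hZ, hne]⟩
    simp only [mem_filter, mem_powerset] at hZ' hmin
    have hM : Min Z' := ⟨hZ'.2.1, hZ'.2.2, fun Z'' h1 h2 h3 =>
      Finset.eq_of_subset_of_card_le h1 (hmin _ ⟨h1.trans hZ'.1, h2, h3⟩)⟩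
    obtain ⟨k1, i, k2, k3⟩ := (hA1 ⟨Z', Or.inl hM⟩ hM _).1 (hp1 ⟨Z', Or.inl hM⟩)
    exact ⟨_, mem_image_of_mem p (mem_univ _), k1, i, hZ'.1 k2, k3⟩
  · intro hne
    refine ⟨_, mem_image_of_mem p (mem_univ ⟨∅, Or.inr ⟨rfl, hne⟩⟩), ?_⟩
    simpa [A] using hp1 ⟨∅, Or.inr ⟨rfl, hne⟩⟩
  · intro s hs
    refine ⟨univ.filter (fun i => b i = s ∧ Free inf a b (a i)) \
      (univ.filter (fun Z => g Z = s)).image p, ?_, ?_⟩
    · have k1 := Finset.le_card_sdiff ((univ.filter (fun Z => g Z = s)).image p)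
        (univ.filter (fun i => b i = s ∧ Free inf a b (a i)))
      have k2 := Finset.card_image_le (s := univ.filter (fun Z => g Z = s)) (f := p)
      have k3 := hg2 s
      have k4 := hf s hs
      simp only [cap, hs, if_true, f] at k3 k4
      omega
    · intro i hi
      simp only [mem_sdiff, mem_filter, mem_univ, true_and, mem_image, not_exists, not_and] at hi ⊢
      refine ⟨hi.1.1, hi.1.2, fun Z hZ => hi.2 Z ?_ hZ⟩
      rw [← hp2 Z, hZ, hi.1.1]
  · intro j hj
    obtain ⟨Z, _, rfl⟩ := mem_image.1 hj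
    by_cases hZ : Min Z.1
    · obtain ⟨_, i, k2, k3⟩ := (hA1 Z hZ _).1 (hp1 Z)
      exact Or.inr ⟨Z.1, hZ.1, i, k2, k3⟩
    · exact Or.inl ((hA2 Z hZ).2.1 ▸ hp1 Z)

end Pool.Agent.MP_29e935_co

end

section

set_option autoImplicit false

/-! Picked edges into `S` and the connectivity of the rest. -/

namespace Pool.Agent.MP_29e935_co

open Finset

variable {I W : Type*} [Fintype I] [DecidableEq I] [Fintype W] [DecidableEq W]
variable {ends : I → Sym2 W} {inf : W} {m : ℕ} {S : Finset W} {a b : I → W}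

/-- number of picked edges with a given end -/
def cY (a : I → W) (Y : Finset I) (v : W) : ℕ := (Y.filter (fun i => a i = v)).card

/-- the inner part determined by the picked edges -/
def Aset (inf : W) (S : Finset W) (a b : I → W) (Y : Finset I) : Finset I :=
  univ.filter (fun i => i ∈ Y ∨ (b i = inf ∧ Odd (cY a Y (a i))) ∨ (a i = inf ∧ b i ∈ S))

/-- admissible sets of picked edges -/
structure Picks (inf : W) (m : ℕ) (S : Finset W) (a b : I → W) (Y : Finset I) : Prop where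
  opt : ∀ j ∈ Y, b j ∈ S ∧ Free inf a b (a j)
  num : ∀ s ∈ S, cY b Y s = if m = 3 then 1 else 2

theorem mem_B {Y : Finset I} {i : I} : i ∈ (Aset inf S a b Y)ᶜ ↔
    i ∉ Y ∧ (b i = inf → Even (cY a Y (a i))) ∧ (a i = inf → b i ∉ S) := by
  simp only [Aset, mem_compl, mem_filter, mem_univ, true_and, not_or, not_and,
    Nat.not_odd_iff_even]

theorem parity_contra (a b : I → W) (T : Finset I) (v₀ : W)
    (h1 : ∀ v, Even (T.filter (fun x => a x = v)).card)
    (h2 : ∀ v, v ≠ v₀ → Even (T.filter (fun x => b x = v)).card)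
    (h3 : Odd (T.filter (fun x => b x = v₀)).card) : False := by
  have p1 := even_of_fibres a T h1
  have p2 := even_add_of_fibres b T v₀ h2
  rw [Nat.even_iff] at p1 p2
  rw [Nat.odd_iff] at h3
  omega

theorem even_of_none {T : Finset I} {c : I → W} {v : W} (h : ∀ x ∈ T, c x ≠ v) :
    Even (T.filter (fun x => c x = v)).card := by
  rw [Finset.filter_eq_empty_iff.2 h]; simp

theorem even_inter {K K' B B' : Finset I} {c : I → W} {v : W} (hK : K ⊆ B)
    (hc : ∀ x ∈ K', ∀ y ∈ B', c x = c y → y ∈ K') (hag : ∀ i, c i = v → i ∈ B → i ∈ B')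
    (he : Even (K.filter (fun x => c x = v)).card) :
    Even ((K ∩ K').filter (fun x => c x = v)).card ∧
      Even ((K \ K').filter (fun x => c x = v)).card := by
  by_cases h : ∃ x ∈ K', c x = v
  · obtain ⟨x, h1, h2⟩ := h
    have k : ∀ y ∈ K, c y = v → y ∈ K' := fun y hy hv =>
      hc x h1 y (hag y hv (hK hy)) (h2.trans hv.symm)
    constructor
    · have : (K ∩ K').filter (fun x => c x = v) = K.filter (fun x => c x = v) := by
        ext y
        simp only [mem_filter, mem_inter]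
        exact ⟨fun h => ⟨h.1.1, h.2⟩, fun h => ⟨⟨h.1, k y h.1 h.2⟩, h.2⟩⟩
      rwa [this]
    · exact even_of_none (fun y hy hv => (mem_sdiff.1 hy).2 (k y (mem_sdiff.1 hy).1 hv))
  · push Not at h
    constructor
    · exact even_of_none (fun y hy => h y (mem_inter.1 hy).2)
    · have : (K \ K').filter (fun x => c x = v) = K.filter (fun x => c x = v) := by
        ext y
        simp only [mem_filter, mem_sdiff]
        exact ⟨fun h => ⟨h.1.1, h.2⟩, fun k => ⟨⟨k.1, fun k' => h y k' k.2⟩, k.2⟩⟩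
      rwa [this]

theorem card_split (A : Finset I) (c : I → W) (v : W) :
    (A.filter (fun x => c x = v)).card + (Aᶜ.filter (fun x => c x = v)).card =
      (univ.filter (fun x => c x = v)).card := by
  simp only [Finset.card_filter]
  exact Finset.sum_add_sum_compl A _

theorem Picks.fibA_a {Y : Finset I} (H : Setup ends inf m) (O : Ori ends inf m S a b)
    (P : Picks inf m S a b Y) {v : W} (hv : v ≠ inf) :
    Even ((Aset inf S a b Y).filter (fun x => a x = v)).card := by
  rcases Nat.even_or_odd (cY a Y v) with h | h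
  · have : (Aset inf S a b Y).filter (fun x => a x = v) = Y.filter (fun x => a x = v) := by
      ext i
      simp only [Aset, mem_filter, mem_univ, true_and, and_congr_left_iff]
      rintro rfl
      simp [hv, Nat.not_odd_iff_even.2 h]
    rw [this]; exact h
  · have hpos : 0 < cY a Y v := h.pos
    obtain ⟨j, hj⟩ := Finset.card_pos.1 hpos
    obtain ⟨l, l1, l2⟩ := (P.opt j (mem_filter.1 hj).1).2
    rw [(mem_filter.1 hj).2] at l1
    have : (Aset inf S a b Y).filter (fun x => a x = v) =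
        insert l (Y.filter (fun x => a x = v)) := by
      ext i
      simp only [Aset, mem_filter, mem_univ, true_and, mem_insert]
      constructor
      · rintro ⟨k | k | k, k'⟩
        · exact Or.inr ⟨k, k'⟩
        · exact Or.inl (H.simple O.hab (k'.trans l1.symm) (k.1.trans l2.symm))
        · exact absurd (k'.symm.trans k.1) hv
      · rintro (rfl | k)
        · exact ⟨Or.inr (Or.inl ⟨l2, l1 ▸ h⟩), l1⟩
        · exact ⟨Or.inl k.1, k.2⟩
    rw [this, Finset.card_insert_of_notMem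
      (fun k => O.hS (l2 ▸ (P.opt l (mem_filter.1 k).1).1))]
    exact h.add_one

theorem Picks.fibA_b {Y : Finset I} (H : Setup ends inf m) (O : Ori ends inf m S a b)
    (P : Picks inf m S a b Y) {v : W} (hv : v ≠ inf) :
    ((Aset inf S a b Y).filter (fun x => b x = v)).card = if v ∈ S then 2 else 0 := by
  split_ifs with hS
  · have h1 := P.num v hS
    by_cases h3 : m = 3
    · have hnf : ¬ Free inf a b v := by
        rintro ⟨l, l1, l2⟩
        have k := O.ca H hv
        simp only [hS, if_true, h3] at k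
        have : 0 < (univ.filter (fun y => a y = v)).card := Finset.card_pos.2 ⟨l, by simp [l1]⟩
        omega
      obtain ⟨l, l1, l2⟩ := (H.not_free O.hab hv).1 hnf
      have : (Aset inf S a b Y).filter (fun x => b x = v) =
          insert l (Y.filter (fun x => b x = v)) := by
        ext i
        simp only [Aset, mem_filter, mem_univ, true_and, mem_insert]
        constructor
        · rintro ⟨k | k | k, k'⟩
          · exact Or.inr ⟨k, k'⟩
          · exact absurd (k'.symm.trans k.1) hv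
          · exact Or.inl (H.simple O.hab (k.1.trans l1.symm) (k'.trans l2.symm))
        · rintro (rfl | k)
          · exact ⟨Or.inr (Or.inr ⟨l1, l2 ▸ hS⟩), l2⟩
          · exact ⟨Or.inl k.1, k.2⟩
      rw [this, Finset.card_insert_of_notMem
        (fun k => H.free_ne O.hab (P.opt l (mem_filter.1 k).1).2 l1)]
      simp only [h3, if_true, cY] at h1
      omega
    · have : (Aset inf S a b Y).filter (fun x => b x = v) = Y.filter (fun x => b x = v) := by
        ext i
        simp only [Aset, mem_filter, mem_univ, true_and, and_congr_left_iff]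
        rintro rfl
        have := O.fr h3 i
        simp only [hv, false_and, false_or]
        tauto
      rw [this]
      simpa [h3, cY] using h1
  · rw [Finset.card_eq_zero, Finset.filter_eq_empty_iff]
    intro i hi k'
    simp only [Aset, mem_filter, mem_univ, true_and] at hi
    rcases hi with k | k | k
    · exact hS (k' ▸ (P.opt i k).1)
    · exact hv (k'.symm.trans k.1)
    · exact hS (k' ▸ k.2)

theorem Picks.fibB_a {Y : Finset I} (H : Setup ends inf m) (O : Ori ends inf m S a b)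
    (P : Picks inf m S a b Y) {v : W} (hv : v ≠ inf) :
    Even ((Aset inf S a b Y)ᶜ.filter (fun x => a x = v)).card := by
  have h1 := card_split (Aset inf S a b Y) a v
  have h2 := P.fibA_a H O hv
  have h3 := O.even_ca H hv
  rw [Nat.even_iff] at *
  omega

theorem Picks.fibB_b {Y : Finset I} (H : Setup ends inf m) (O : Ori ends inf m S a b)
    (P : Picks inf m S a b Y) {v : W} (hv : v ≠ inf) :
    ((Aset inf S a b Y)ᶜ.filter (fun x => b x = v)).card = if v ∈ S then m + 1 else m - 1 := by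
  have h1 := card_split (Aset inf S a b Y) b v
  have h2 := P.fibA_b H O hv
  have h3 := O.cb v hv
  split_ifs at * <;> omega

theorem fibre_eq {K B : Finset I} {c : I → W} (hK : K ⊆ B)
    (hc : ∀ x ∈ K, ∀ y ∈ B, c x = c y → y ∈ K) {x : I} (hx : x ∈ K) :
    K.filter (fun y => c y = c x) = B.filter (fun y => c y = c x) := by
  ext y
  simp only [mem_filter]
  exact ⟨fun h => ⟨hK h.1, h.2⟩, fun h => ⟨hc x hx y h.1 h.2.symm, h.2⟩⟩

theorem Picks.even_b {Y K : Finset I} (H : Setup ends inf m) (O : Ori ends inf m S a b)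
    (P : Picks inf m S a b Y) (hK : Dry inf a b (Aset inf S a b Y)ᶜ K) (v : W) :
    Even (K.filter (fun x => b x = v)).card := by
  by_cases h : ∃ x ∈ K, b x = v
  · obtain ⟨x, hx, rfl⟩ := h
    rw [fibre_eq hK.1 hK.2.2.1 hx, P.fibB_b H O (hK.2.2.2 x hx)]
    obtain ⟨k, hk⟩ := H.odd
    rw [Nat.even_iff]
    split_ifs <;> omega
  · push Not at h
    exact even_of_none h

theorem Picks.even_a {Y K : Finset I} (H : Setup ends inf m) (O : Ori ends inf m S a b)
    (P : Picks inf m S a b Y) (hK : Dry inf a b (Aset inf S a b Y)ᶜ K) (v : W) :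
    Even (K.filter (fun x => a x = v)).card := by
  have k : ∀ v, v ≠ inf → Even (K.filter (fun x => a x = v)).card := by
    intro v hv
    by_cases h : ∃ x ∈ K, a x = v
    · obtain ⟨x, hx, rfl⟩ := h
      rw [fibre_eq hK.1 hK.2.1 hx]
      exact P.fibB_a H O hv
    · push Not at h
      exact even_of_none h
  by_cases hv : v = inf
  · subst hv
    have p1 := even_add_of_fibres a K v k
    have p2 := even_of_fibres b K (P.even_b H O hK)
    rw [Nat.even_iff] at *
    omega
  · exact k v hv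

/-- exchange of one picked edge -/
def mv (Y : Finset I) (j j' : I) : Finset I := insert j' (Y.erase j)

theorem mem_mv {Y : Finset I} {j j' i : I} : i ∈ mv Y j j' ↔ i = j' ∨ (i ≠ j ∧ i ∈ Y) := by
  simp [mv]

theorem cY_mv {Y : Finset I} {j j' : I} (h : j ∈ Y) (h' : j' ∉ Y) (c : I → W) (v : W) :
    cY c (mv Y j j') v + (if c j = v then 1 else 0) = cY c Y v + (if c j' = v then 1 else 0) := by
  have h1 : j' ∉ Y.erase j := fun k => h' (mem_of_mem_erase k)
  simp only [cY, mv, Finset.card_filter, Finset.sum_insert h1]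
  rw [← Finset.add_sum_erase Y _ h]
  omega

/-- data of an exchange -/
structure Mv (inf : W) (a b : I → W) (Y : Finset I) (j j' : I) : Prop where
  m1 : j ∈ Y
  m2 : j' ∉ Y
  hb : b j' = b j
  fr : Free inf a b (a j')

theorem Mv.picks {Y : Finset I} {j j' : I} (M : Mv inf a b Y j j') (P : Picks inf m S a b Y) :
    Picks inf m S a b (mv Y j j') := by
  constructor
  · intro i hi
    rcases mem_mv.1 hi with rfl | hi
    · exact ⟨M.hb ▸ (P.opt j M.m1).1, M.fr⟩
    · exact P.opt i hi.2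
  · intro s hs
    have := cY_mv M.m1 M.m2 b s
    rw [M.hb, P.num s hs] at this
    omega

theorem Mv.tail_ne {Y : Finset I} {j j' : I} (H : Setup ends inf m) (O : Ori ends inf m S a b)
    (M : Mv inf a b Y j j') : a j ≠ a j' := fun h =>
  M.m2 (H.simple O.hab h M.hb.symm ▸ M.m1)

theorem Mv.agree {Y : Finset I} {j j' : I} (M : Mv inf a b Y j j') {i : I} (h1 : i ≠ j)
    (h2 : i ≠ j') (h3 : b i = inf → a i ≠ a j ∧ a i ≠ a j') :
    i ∈ (Aset inf S a b (mv Y j j'))ᶜ ↔ i ∈ (Aset inf S a b Y)ᶜ := by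
  simp only [mem_B, mem_mv, h1, h2, false_or, ne_eq, not_false_eq_true, true_and]
  by_cases hb : b i = inf
  · have := cY_mv M.m1 M.m2 a (a i)
    simp only [(h3 hb).1.symm, (h3 hb).2.symm, if_false, add_zero] at this
    rw [this]
  · simp [hb]

theorem Mv.agree_a {Y : Finset I} {j j' : I} (M : Mv inf a b Y j j') {i : I} (h1 : a i ≠ a j)
    (h2 : a i ≠ a j') : i ∈ (Aset inf S a b (mv Y j j'))ᶜ ↔ i ∈ (Aset inf S a b Y)ᶜ :=
  M.agree (by rintro rfl; exact h1 rfl) (by rintro rfl; exact h2 rfl) (fun _ => ⟨h1, h2⟩)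

theorem Mv.agree_b {Y : Finset I} {j j' : I} (M : Mv inf a b Y j j') {i : I} (h1 : b i ≠ b j)
    (h2 : b i ≠ inf) : i ∈ (Aset inf S a b (mv Y j j'))ᶜ ↔ i ∈ (Aset inf S a b Y)ᶜ :=
  M.agree (by rintro rfl; exact h1 rfl) (by rintro rfl; exact h1 M.hb) (fun h => absurd h h2)

theorem opt_mem_B (H : Setup ends inf m) (O : Ori ends inf m S a b) {Y : Finset I} {j : I}
    (h1 : j ∉ Y) (h2 : b j ∈ S) (h3 : Free inf a b (a j)) : j ∈ (Aset inf S a b Y)ᶜ :=
  mem_B.2 ⟨h1, fun h => absurd (h ▸ h2) O.hS, fun h => absurd h (H.free_ne O.hab h3)⟩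

theorem Mv.old_mem {Y : Finset I} {j j' : I} (H : Setup ends inf m) (O : Ori ends inf m S a b)
    (P : Picks inf m S a b Y) (M : Mv inf a b Y j j') : j ∈ (Aset inf S a b (mv Y j j'))ᶜ :=
  opt_mem_B H O (by
    rw [mem_mv]; rintro (rfl | h)
    · exact M.m2 M.m1
    · exact h.1 rfl) (P.opt j M.m1).1 (P.opt j M.m1).2

theorem Picks.odd_of_dry {Y K : Finset I} (O : Ori ends inf m S a b) (P : Picks inf m S a b Y)
    (hK : Dry inf a b (Aset inf S a b Y)ᶜ K) {x : I} (hx : x ∈ K) (hf : Free inf a b (a x)) :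
    Odd (cY a Y (a x)) := by
  obtain ⟨l, l1, l2⟩ := hf
  by_contra h
  rw [Nat.not_odd_iff_even] at h
  have : l ∈ (Aset inf S a b Y)ᶜ := mem_B.2 ⟨fun k => O.hS (l2 ▸ (P.opt l k).1),
    fun _ => l1 ▸ h, fun _ => l2 ▸ O.hS⟩
  exact hK.2.2.2 l (hK.2.1 x hx l this l1.symm) l2

theorem Mv.dry_back {Y K : Finset I} {j j' : I} (H : Setup ends inf m)
    (O : Ori ends inf m S a b) (P : Picks inf m S a b Y) (M : Mv inf a b Y j j')
    (hK : Dry inf a b (Aset inf S a b (mv Y j j'))ᶜ K) (h1 : ∀ x ∈ K, b x ≠ b j)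
    (h2 : ∀ x ∈ K, a x ≠ a j') : Dry inf a b (Aset inf S a b Y)ᶜ K := by
  have h3 : ∀ x ∈ K, a x ≠ a j := fun x hx h =>
    h1 j (hK.2.1 x hx j (M.old_mem H O P) h) rfl
  refine ⟨fun x hx => (M.agree_a (h3 x hx) (h2 x hx)).1 (hK.1 hx), ?_, ?_, hK.2.2.2⟩
  · intro x hx y hy h
    exact hK.2.1 x hx y ((M.agree_a (h ▸ h3 x hx) (h ▸ h2 x hx)).2 hy) h
  · intro x hx y hy h
    exact hK.2.2.1 x hx y ((M.agree_b (h ▸ h1 x hx) (h ▸ hK.2.2.2 x hx)).2 hy) h

theorem Picks.odd_head {Y : Finset I} (H : Setup ends inf m) (O : Ori ends inf m S a b)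
    (P : Picks inf m S a b Y) {j : I} (hj : j ∈ (Aset inf S a b Y)ᶜ) (hS : b j ∈ S) :
    Odd (((Aset inf S a b Y)ᶜ.filter (fun x => b x = b j)).erase j).card := by
  rw [Finset.card_erase_of_mem (by simp only [mem_filter, and_true]; exact hj),
    P.fibB_b H O (by rintro h; exact O.hS (h ▸ hS))]
  simp only [hS, if_true, Nat.add_sub_cancel]
  exact H.odd

theorem Mv.no_head {Y K K' : Finset I} {j j' : I} (H : Setup ends inf m)
    (O : Ori ends inf m S a b) (P : Picks inf m S a b Y) (M : Mv inf a b Y j j')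
    (hK : Dry inf a b (Aset inf S a b Y)ᶜ K) (hj : j' ∈ K)
    (hK' : Dry inf a b (Aset inf S a b (mv Y j j'))ᶜ K') :
    (∀ x ∈ K', b x ≠ b j) ∧ ∀ x ∈ K', a x ≠ a j' := by
  have P' := M.picks P
  have hne := M.tail_ne H O
  have t3 : ∀ x ∈ K', a x ≠ a j' := by
    intro x hx h
    have p1 := P.odd_of_dry O hK hj M.fr
    have p2 := P'.odd_of_dry O hK' hx (h ▸ M.fr)
    have p3 := cY_mv M.m1 M.m2 a (a j')
    rw [h] at p2
    simp only [hne, if_true, if_false] at p3
    rw [Nat.odd_iff] at p1 p2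
    omega
  refine ⟨fun x hx hb => ?_, t3⟩
  have hS : b j' ∈ S := M.hb ▸ (P.opt j M.m1).1
  apply parity_contra a b (K ∩ K') (b j')
  · intro v
    by_cases h1 : v = a j'
    · exact even_of_none (fun y hy => h1 ▸ t3 y (mem_inter.1 hy).2)
    by_cases h2 : v = a j
    · apply even_of_none
      intro y hy h
      rw [h2] at h
      have p1 := P.odd_of_dry O hK (mem_inter.1 hy).1 (h ▸ (P.opt j M.m1).2)
      have p2 := P'.odd_of_dry O hK' (mem_inter.1 hy).2 (h ▸ (P.opt j M.m1).2)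
      have p3 := cY_mv M.m1 M.m2 a (a j)
      rw [h] at p1 p2
      simp only [hne.symm, if_true, if_false] at p3
      rw [Nat.odd_iff] at p1 p2
      omega
    · exact (even_inter hK.1 hK'.2.1 (fun i hi => (M.agree_a (hi ▸ h2) (hi ▸ h1)).2)
        (P.even_a H O hK v)).1
  · intro v hv
    by_cases h1 : v = inf
    · exact even_of_none (fun y hy => h1 ▸ hK.2.2.2 y (mem_inter.1 hy).1)
    · exact (even_inter hK.1 hK'.2.2.1
        (fun i hi => (M.agree_b (hi ▸ M.hb ▸ hv) (hi ▸ h1)).2) (P.even_b H O hK v)).1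
  · have : (K ∩ K').filter (fun y => b y = b j') =
        ((Aset inf S a b Y)ᶜ.filter (fun y => b y = b j')).erase j' := by
      ext y
      simp only [mem_filter, mem_inter, mem_erase]
      constructor
      · rintro ⟨⟨k1, k2⟩, k3⟩
        refine ⟨?_, hK.1 k1, k3⟩
        rintro rfl
        exact (mem_B.1 (hK'.1 k2)).1 (mem_mv.2 (Or.inl rfl))
      · rintro ⟨k1, k2, k3⟩
        refine ⟨⟨hK.2.2.1 j' hj y k2 k3.symm, hK'.2.2.1 x hx y ?_ (hb.trans (k3.trans M.hb).symm)⟩,
          k3⟩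
        refine (M.agree ?_ k1 (fun h => absurd (h ▸ k3 ▸ hS) O.hS)).2 k2
        rintro rfl
        exact (mem_B.1 k2).1 M.m1
    rw [this]
    exact P.odd_head H O (hK.1 hj) hS

/-- a dry part hanging at the tail of a newly picked edge -/
structure Pend (inf : W) (S : Finset W) (a b : I → W) (Y : Finset I) (j j' : I) (Q : Finset I) :
    Prop where
  hmv : Mv inf a b Y j j'
  dry : Dry inf a b (Aset inf S a b (mv Y j j'))ᶜ Q
  nh : ∀ x ∈ Q, b x ≠ b j
  ex : ∃ x ∈ Q, a x = a j'

theorem Pend.nt {Y Q : Finset I} {j j' : I} (H : Setup ends inf m) (O : Ori ends inf m S a b)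
    (P : Picks inf m S a b Y) (h : Pend inf S a b Y j j' Q) : ∀ x ∈ Q, a x ≠ a j :=
  fun x hx k => h.nh j (h.dry.2.1 x hx j (h.hmv.old_mem H O P) k) rfl

theorem Pend.unique {Y Q Q' : Finset I} {j j' i i' : I} (H : Setup ends inf m)
    (O : Ori ends inf m S a b) (P : Picks inf m S a b Y) (h : Pend inf S a b Y j j' Q)
    (h' : Pend inf S a b Y i i' Q') (ht : a j' = a i') (hb : b j ≠ b i) : False := by
  have P1 := h.hmv.picks P
  have hS : b i' ∈ S := h'.hmv.hb ▸ (P.opt i h'.hmv.m1).1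
  apply parity_contra b a (Q \ Q') (a j')
  · intro v
    by_cases h1 : v = b j
    · exact even_of_none (fun y hy => h1 ▸ h.nh y (mem_sdiff.1 hy).1)
    by_cases h2 : v = inf
    · exact even_of_none (fun y hy => h2 ▸ h.dry.2.2.2 y (mem_sdiff.1 hy).1)
    by_cases h3 : v = b i
    · exact (even_inter (B := Q) (B' := Q'.filter (fun y => b y ≠ v) ∪ univ.filter (fun y => b y = v))
        (Finset.Subset.refl _) (fun x hx y hy k => by
          rcases mem_union.1 hy with k' | k'
          · exact (mem_filter.1 k').1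
          · exact absurd (k.trans ((mem_filter.1 k').2.trans h3)) (h'.nh x hx))
        (fun y hy _ => mem_union_right _ (by simpa using hy)) (P1.even_b H O h.dry v)).2
    · exact (even_inter h.dry.1 h'.dry.2.2.1 (fun y hy k =>
        (h'.hmv.agree_b (hy ▸ h3) (hy ▸ h2)).2 ((h.hmv.agree_b (hy ▸ h1) (hy ▸ h2)).1 k))
        (P1.even_b H O h.dry v)).2
  · intro v hv
    by_cases h1 : v = a j
    · exact even_of_none (fun y hy => h1 ▸ h.nt H O P y (mem_sdiff.1 hy).1)
    by_cases h3 : v = a i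
    · exact (even_inter (B := Q) (B' := Q'.filter (fun y => a y ≠ v) ∪ univ.filter (fun y => a y = v))
        (Finset.Subset.refl _) (fun x hx y hy k => by
          rcases mem_union.1 hy with k' | k'
          · exact (mem_filter.1 k').1
          · exact absurd (k.trans ((mem_filter.1 k').2.trans h3)) (h'.nt H O P x hx))
        (fun y hy _ => mem_union_right _ (by simpa using hy)) (P1.even_a H O h.dry v)).2
    · exact (even_inter h.dry.1 h'.dry.2.1 (fun y hy k =>
        (h'.hmv.agree_a (hy ▸ h3) (hy ▸ ht ▸ hv)).2 ((h.hmv.agree_a (hy ▸ h1) (hy ▸ hv)).1 k))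
        (P1.even_a H O h.dry v)).2
  · have : (Q \ Q').filter (fun y => a y = a j') = {i'} := by
      obtain ⟨x, hx, hx'⟩ := h.ex
      obtain ⟨z, hz, hz'⟩ := h'.ex
      ext y
      simp only [mem_filter, mem_sdiff, mem_singleton]
      constructor
      · rintro ⟨⟨k1, k2⟩, k3⟩
        by_contra k4
        apply k2
        have k5 := h.dry.2.2.2 y k1
        have k6 := (h.hmv.agree_b (h.nh y k1) k5).1 (h.dry.1 k1)
        refine h'.dry.2.1 z hz y ((h'.hmv.agree ?_ k4 (fun k => absurd k k5)).2 k6)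
          (hz'.trans (ht.symm.trans k3.symm))
        rintro rfl
        exact (mem_B.1 k6).1 h'.hmv.m1
      · rintro rfl
        refine ⟨⟨h.dry.2.1 x hx y ((h.hmv.agree_b (h'.hmv.hb ▸ hb.symm)
          (fun k => O.hS (k ▸ hS))).2 (opt_mem_B H O h'.hmv.m2 hS h'.hmv.fr)) (hx'.trans ht),
          fun k => h'.nh y k h'.hmv.hb⟩, ht.symm⟩
    rw [this]; simp

theorem Pend.last {Y Q U : Finset I} {j j' i i' : I} (H : Setup ends inf m)
    (O : Ori ends inf m S a b) (P : Picks inf m S a b Y) (M : Mv inf a b Y j j')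
    (hU : Dry inf a b (Aset inf S a b Y)ᶜ U) (hj : j' ∈ U)
    (h : Pend inf S a b (mv Y j j') i i' Q) (ht : a i' = a j) (hb : b i ≠ b j) : i' ∈ U := by
  by_contra hi
  have P1 := M.picks P
  have P2 := h.hmv.picks P1
  have hS : b j' ∈ S := M.hb ▸ (P.opt j M.m1).1
  have hS' : b i' ∈ S := h.hmv.hb ▸ (P1.opt i h.hmv.m1).1
  have hsi : b j ≠ inf := fun k => O.hS (k ▸ (P.opt j M.m1).1)
  have hne := M.tail_ne H O
  apply parity_contra a b (U ∩ Q) (b j')
  · intro v
    by_cases h1 : v = a j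
    · apply even_of_none
      intro y hy k
      apply hi
      refine hU.2.1 y (mem_inter.1 hy).1 i' ?_ (k.trans (h1.trans ht.symm))
      exact (M.agree_b (h.hmv.hb ▸ hb) (fun k => O.hS (k ▸ hS'))).1
        (opt_mem_B H O h.hmv.m2 hS' h.hmv.fr)
    by_cases h2 : v = a i
    · exact even_of_none (fun y hy => h2 ▸ h.nt H O P1 y (mem_inter.1 hy).2)
    by_cases h3 : v = a j'
    · apply even_of_none
      intro y hy k
      rw [h3] at k
      have p1 := P.odd_of_dry O hU hj M.fr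
      have p2 := P2.odd_of_dry O h.dry (mem_inter.1 hy).2 (k ▸ M.fr)
      have p3 := cY_mv M.m1 M.m2 a (a j')
      have p4 := cY_mv h.hmv.m1 h.hmv.m2 a (a j')
      have p5 : a i ≠ a j' := fun k' => h2 (h3.trans k'.symm)
      rw [k] at p2
      simp only [ht, hne, p5, if_true, if_false] at p3 p4
      rw [Nat.odd_iff] at p1 p2
      omega
    · exact (even_inter hU.1 h.dry.2.1 (fun y hy k =>
        (h.hmv.agree_a (hy ▸ h2) (hy ▸ ht ▸ h1)).2 ((M.agree_a (hy ▸ h1) (hy ▸ h3)).2 k))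
        (P.even_a H O hU v)).1
  · intro v hv
    by_cases h1 : v = inf
    · exact even_of_none (fun y hy => h1 ▸ hU.2.2.2 y (mem_inter.1 hy).1)
    by_cases h2 : v = b i
    · exact even_of_none (fun y hy => h2 ▸ h.nh y (mem_inter.1 hy).2)
    · exact (even_inter hU.1 h.dry.2.2.1 (fun y hy k =>
        (h.hmv.agree_b (hy ▸ h2) (hy ▸ h1)).2 ((M.agree_b (hy ▸ M.hb ▸ hv) (hy ▸ h1)).2 k))
        (P.even_b H O hU v)).1
  · obtain ⟨x, hx, hx'⟩ := h.ex
    have hjQ : j ∈ Q := h.dry.2.1 x hx j ((h.hmv.agree_b hb.symm hsi).2 (M.old_mem H O P))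
      (hx'.trans ht)
    have : (U ∩ Q).filter (fun y => b y = b j') =
        ((Aset inf S a b Y)ᶜ.filter (fun y => b y = b j')).erase j' := by
      ext y
      simp only [mem_filter, mem_inter, mem_erase]
      constructor
      · rintro ⟨⟨k1, k2⟩, k3⟩
        refine ⟨?_, hU.1 k1, k3⟩
        rintro rfl
        have := (h.hmv.agree_b (h.nh y k2) (h.dry.2.2.2 y k2)).1 (h.dry.1 k2)
        exact (mem_B.1 this).1 (mem_mv.2 (Or.inl rfl))
      · rintro ⟨k1, k2, k3⟩
        have k4 : b y = b j := k3.trans M.hb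
        refine ⟨⟨hU.2.2.1 j' hj y k2 k3.symm, h.dry.2.2.1 j hjQ y ?_ k4.symm⟩, k3⟩
        refine (h.hmv.agree_b (k4 ▸ hb.symm) (k4 ▸ hsi)).2
          ((M.agree ?_ k1 (fun k => absurd (k4.symm.trans k) hsi)).2 k2)
        rintro rfl
        exact (mem_B.1 k2).1 M.m1
    rw [this]
    exact P.odd_head H O (hU.1 hj) hS

theorem Picks.all_picked {Y K : Finset I} (H : Setup ends inf m) (O : Ori ends inf m S a b)
    (hK : Dry inf a b (Aset inf S a b Y)ᶜ K) (hS : ∀ x ∈ K, b x ∉ S) {x : I} (hx : x ∈ K)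
    (hf : Free inf a b (a x)) {j : I} (h1 : a j = a x) (h2 : b j ∈ S) : j ∈ Y := by
  by_contra h
  exact hS j (hK.2.1 x hx j (opt_mem_B H O h h2 (h1 ▸ hf)) h1.symm) h2

theorem Picks.sealed {Y K : Finset I} (H : Setup ends inf m) (O : Ori ends inf m S a b)
    (P : Picks inf m S a b Y) (hK : Dry inf a b (Aset inf S a b Y)ᶜ K) (hS : ∀ x ∈ K, b x ∉ S)
    (ha : ∀ x ∈ K, a x ≠ inf) : Sealed inf S a b K := by
  refine ⟨fun i hi => ⟨hS i hi, hK.2.2.2 i hi⟩, ha, ?_, ?_, fun i _ => P.even_a H O hK _⟩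
  · intro i hi j hj
    refine hK.2.2.1 i hi j (mem_B.2 ⟨fun k => hS i hi (hj ▸ (P.opt j k).1),
      fun k => absurd (hj.symm.trans k) (hK.2.2.2 i hi), fun _ => hj ▸ hS i hi⟩) hj.symm
  · intro i hi j hj
    by_cases h : j ∈ (Aset inf S a b Y)ᶜ
    · exact Or.inl (hK.2.1 i hi j h hj.symm)
    · simp only [Aset, mem_compl, mem_filter, mem_univ, true_and, not_not] at h
      rcases h with k | k | k
      · exact Or.inr (Or.inr ⟨(P.opt j k).1, hj ▸ (P.opt j k).2⟩)
      · exact Or.inr (Or.inl k.1)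
      · exact absurd (hj.symm.trans k.1) (ha i hi)

theorem Picks.wit_mem {Y K : Finset I} (H : Setup ends inf m) (O : Ori ends inf m S a b)
    (P : Picks inf m S a b Y) (hK : Dry inf a b (Aset inf S a b Y)ᶜ K) {x : I} (hx : x ∈ K)
    (hx' : a x = inf) {i l : I} (hf : Free inf a b (a i)) (hi : b i ∉ S) (l1 : a l = inf)
    (l2 : b l = b i) : i ∈ K := by
  have hb : b i ≠ inf := by rw [← l2, ← l1]; exact (H.ne O.hab l).symm
  have hl : l ∈ K := hK.2.1 x hx l (mem_B.2 ⟨fun k => hi (l2 ▸ (P.opt l k).1),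
    fun k => absurd (l2.symm.trans k) hb, fun _ => l2 ▸ hi⟩) (hx'.trans l1.symm)
  exact hK.2.2.1 l hl i (mem_B.2 ⟨fun k => hi (P.opt i k).1, fun k => absurd k hb,
    fun _ => hi⟩) l2

/-- union of all dry sets -/
noncomputable def Ud (inf : W) (a b : I → W) (B : Finset I) : Finset I := by
  classical exact univ.filter (fun i => ∃ K, Dry inf a b B K ∧ i ∈ K)

theorem mem_Ud {B : Finset I} {i : I} : i ∈ Ud inf a b B ↔ ∃ K, Dry inf a b B K ∧ i ∈ K := by
  simp [Ud]

theorem dry_Ud (B : Finset I) : Dry inf a b B (Ud inf a b B) := by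
  refine ⟨fun i hi => ?_, fun x hx y hy h => ?_, fun x hx y hy h => ?_, fun x hx => ?_⟩
  · obtain ⟨K, h1, h2⟩ := mem_Ud.1 hi; exact h1.1 h2
  · obtain ⟨K, h1, h2⟩ := mem_Ud.1 hx; exact mem_Ud.2 ⟨K, h1, h1.2.1 x h2 y hy h⟩
  · obtain ⟨K, h1, h2⟩ := mem_Ud.1 hx; exact mem_Ud.2 ⟨K, h1, h1.2.2.1 x h2 y hy h⟩
  · obtain ⟨K, h1, h2⟩ := mem_Ud.1 hx; exact h1.2.2.2 x h2

theorem Dry.sub_Ud {B K : Finset I} (h : Dry inf a b B K) : K ⊆ Ud inf a b B :=
  fun _ hi => mem_Ud.2 ⟨K, h, hi⟩

theorem Mv.Ud_lt {Y : Finset I} {j j' : I} (H : Setup ends inf m)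
    (O : Ori ends inf m S a b) (P : Picks inf m S a b Y) (M : Mv inf a b Y j j')
    (hj : j' ∈ Ud inf a b (Aset inf S a b Y)ᶜ) :
    Ud inf a b (Aset inf S a b (mv Y j j'))ᶜ ⊂ Ud inf a b (Aset inf S a b Y)ᶜ := by
  obtain ⟨h1, h2⟩ := M.no_head H O P (dry_Ud _) hj (dry_Ud _)
  rw [Finset.ssubset_iff_of_subset (M.dry_back H O P (dry_Ud _) h1 h2).sub_Ud]
  exact ⟨j', hj, fun k => h2 j' k rfl⟩

end Pool.Agent.MP_29e935_co

end

section

set_option autoImplicit false

/-! Protected edges, and the case `m = 3`. -/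

namespace Pool.Agent.MP_29e935_co

open Finset

variable {I W : Type*} [Fintype I] [DecidableEq I] [Fintype W] [DecidableEq W]
variable {ends : I → Sym2 W} {inf : W} {m : ℕ} {S : Finset W} {a b : I → W}

/-- every dry part of the outer set reaches `S` -/
def Headed (inf : W) (S : Finset W) (a b : I → W) (Y : Finset I) : Prop :=
  ∀ K, Dry inf a b (Aset inf S a b Y)ᶜ K → K.Nonempty → ∃ x ∈ K, b x ∈ S

theorem exists_guard (H : Setup ends inf m) (O : Ori ends inf m S a b) (hR : Rich ends inf m S)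
    (hw : Wit inf S a b) (hN : ∀ Z, Sealed inf S a b Z → ∀ i ∈ Z, Free inf a b (a i)) :
    ∃ Pr : Finset I, (∀ Y, Picks inf m S a b Y → (∀ j ∈ Y, j ∉ Pr) → Headed inf S a b Y) ∧
      ∀ s ∈ S, ∃ T : Finset I, m - 2 ≤ T.card ∧ ∀ i ∈ T, b i = s ∧ Free inf a b (a i) ∧ i ∉ Pr := by
  have key : ∀ (Pr : Finset I) (Y K : Finset I), Picks inf m S a b Y → (∀ j ∈ Y, j ∉ Pr) →
      (∀ Z, Sealed inf S a b Z → Z.Nonempty → ∃ j ∈ Pr, b j ∈ S ∧ ∃ i ∈ Z, a i = a j) →
      Dry inf a b (Aset inf S a b Y)ᶜ K → K.Nonempty → (∀ x ∈ K, b x ∉ S) →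
      ∃ x ∈ K, a x = inf := by
    intro Pr Y K P hY h1 hK hne hS
    by_contra hc
    push Not at hc
    have hZ := P.sealed H O hK hS hc
    obtain ⟨j, j1, j2, i, i1, i2⟩ := h1 K hZ hne
    exact hY j (Picks.all_picked H O hK hS i1 (hN K hZ i i1) i2.symm j2) j1
  rcases hw with hw | ⟨i₀, f₀, h₀, l, l1, l2⟩
  · obtain ⟨Pr, h1, -, h3, -⟩ := exists_protect H O hR hN ∅ (by simp)
    refine ⟨Pr, fun Y P hY K hK hne => ?_, h3⟩
    by_contra hS
    push Not at hS
    obtain ⟨x, x1, x2⟩ := key Pr Y K P hY h1 hK hne hS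
    exact hS x x1 (hw x x2)
  · have hb : b i₀ ≠ inf := by rw [← l2, ← l1]; exact (H.ne O.hab l).symm
    obtain ⟨Pr, h1, h2, h3, -⟩ := exists_protect H O hR hN
      (univ.filter (fun j => a j = a i₀ ∧ b j ∈ S)) (by
        intro j hj
        simp only [mem_filter, mem_univ, true_and] at hj
        refine ⟨hj.2, hj.1 ▸ f₀, fun Z hZ i hi h => ?_⟩
        have k := hZ.mem_of_tail hi (j := i₀) (hj.1.symm.trans h.symm) h₀ hb
        exact hZ.tail l (hZ.cb i₀ k l l2) l1)
    refine ⟨Pr, fun Y P hY K hK hne => ?_, h3⟩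
    by_contra hS
    push Not at hS
    obtain ⟨x, x1, x2⟩ := key Pr Y K P hY h1 hK hne hS
    have hi := P.wit_mem H O hK x1 x2 f₀ h₀ l1 l2
    obtain ⟨j, hj⟩ := Finset.card_pos.1 (P.odd_of_dry O hK hi f₀).pos
    obtain ⟨j', k1, k2⟩ := h2 ⟨j, by
      simp only [mem_filter, mem_univ, true_and] at hj ⊢
      exact ⟨hj.2, (P.opt j hj.1).1⟩⟩
    simp only [mem_filter, mem_univ, true_and] at k2
    exact hY j' (Picks.all_picked H O hK hS hi f₀ k2.1 k2.2) k1

theorem exists_picks (H : Setup ends inf m) (Pr : Finset I)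
    (h : ∀ s ∈ S, ∃ T : Finset I, m - 2 ≤ T.card ∧
      ∀ i ∈ T, b i = s ∧ Free inf a b (a i) ∧ i ∉ Pr) :
    ∃ Y, Picks inf m S a b Y ∧ ∀ j ∈ Y, j ∉ Pr := by
  have h' : ∀ s ∈ S, ∃ T : Finset I, T.card = (if m = 3 then 1 else 2) ∧
      ∀ i ∈ T, b i = s ∧ Free inf a b (a i) ∧ i ∉ Pr := by
    intro s hs
    obtain ⟨T, h1, h2⟩ := h s hs
    have := H.three
    obtain ⟨k, hk⟩ := H.odd
    obtain ⟨T', k1, k2⟩ := Finset.exists_subset_card_eq (s := T) (n := if m = 3 then 1 else 2)
      (by split_ifs <;> omega)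
    exact ⟨T', k2, fun i hi => h2 i (k1 hi)⟩
  choose! T h1 h2 using h'
  refine ⟨S.biUnion T, ⟨?_, ?_⟩, ?_⟩
  · intro j hj
    obtain ⟨s, hs, hj⟩ := mem_biUnion.1 hj
    exact ⟨(h2 s hs j hj).1 ▸ hs, (h2 s hs j hj).2.1⟩
  · intro s hs
    rw [← h1 s hs, cY]
    congr 1
    ext j
    simp only [mem_filter, mem_biUnion]
    constructor
    · rintro ⟨⟨s', k1, k2⟩, k3⟩
      rwa [← k3, (h2 s' k1 j k2).1]
    · exact fun k => ⟨⟨s, hs, k⟩, (h2 s hs j k).1⟩
  · intro j hj
    obtain ⟨s, hs, hj⟩ := mem_biUnion.1 hj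
    exact (h2 s hs j hj).2.2

theorem Picks.spare {Y T : Finset I} (P : Picks inf m S a b Y) {s : W} (hs : s ∈ S)
    (hT : ∀ i ∈ T, b i = s) : T.card ≤ (T \ Y).card + if m = 3 then 1 else 2 := by
  rw [← P.num s hs, ← Finset.card_sdiff_add_card_inter T Y]
  exact Nat.add_le_add_left (Finset.card_le_card (fun i hi =>
    mem_filter.2 ⟨(mem_inter.1 hi).2, hT i (mem_inter.1 hi).1⟩)) _

theorem Picks.exists_pick {Y : Finset I} (P : Picks inf m S a b Y) {s : W} (hs : s ∈ S) :
    ∃ j ∈ Y, b j = s := by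
  have h := P.num s hs
  have : 0 < cY b Y s := by rw [h]; split_ifs <;> omega
  obtain ⟨j, hj⟩ := Finset.card_pos.1 this
  exact ⟨j, (mem_filter.1 hj).1, (mem_filter.1 hj).2⟩

theorem Picks.two_spare {Y : Finset I} (H : Setup ends inf 3) (O : Ori ends inf 3 S a b)
    (hR : Rich ends inf 3 S) (P : Picks inf 3 S a b Y) {s : W} (hs : s ∈ S) :
    ∃ i i', a i ≠ a i' ∧ i ∉ Y ∧ i' ∉ Y ∧ b i = s ∧ b i' = s ∧ Free inf a b (a i) ∧
      Free inf a b (a i') := by
  obtain ⟨T, h1, h2⟩ := hR a b O s hs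
  have h3 := P.spare hs (fun i hi => (h2 i hi).1)
  simp only [if_true] at h3
  obtain ⟨i, k1, i', k2, k3⟩ := Finset.one_lt_card.1 (show 1 < (T \ Y).card by omega)
  rw [mem_sdiff] at k1 k2
  exact ⟨i, i', fun h => k3 (H.simple O.hab h ((h2 i k1.1).1.trans (h2 i' k2.1).1.symm)), k1.2, k2.2,
    (h2 i k1.1).1, (h2 i' k2.1).1, (h2 i k1.1).2, (h2 i' k2.1).2⟩

theorem Picks.dryA_three {Y K : Finset I} (H : Setup ends inf 3) (O : Ori ends inf 3 S a b)
    (P : Picks inf 3 S a b Y) (ho : S = ∅ ∨ ∃ v, Odd (cY a Y v))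
    (hK : Dry inf a b (Aset inf S a b Y) K) : K = ∅ := by
  have lab : ∀ s ∈ S, ∃ l ∈ Aset inf S a b Y, a l = inf ∧ b l = s := by
    intro s hs
    have hv : s ≠ inf := by rintro rfl; exact O.hS hs
    have hnf : ¬ Free inf a b s := by
      rintro ⟨l, l1, l2⟩
      have k := O.ca H hv
      simp only [hs, if_true] at k
      have : 0 < (univ.filter (fun y => a y = s)).card := Finset.card_pos.2 ⟨l, by simp [l1]⟩
      omega
    obtain ⟨l, l1, l2⟩ := (H.not_free O.hab hv).1 hnf
    exact ⟨l, by simp [Aset, l1, l2, hs], l1, l2⟩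
  by_contra hne
  obtain ⟨x, hx⟩ := Finset.nonempty_iff_ne_empty.2 hne
  have hxS : b x ∈ S := by
    have := hK.1 hx
    simp only [Aset, mem_filter, mem_univ, true_and] at this
    rcases this with k | k | k
    · exact (P.opt x k).1
    · exact absurd k.1 (hK.2.2.2 x hx)
    · exact k.2
  rcases ho with rfl | ⟨v, hv⟩
  · simp at hxS
  obtain ⟨j, hj⟩ := Finset.card_pos.1 hv.pos
  rw [mem_filter] at hj
  obtain ⟨l, l0, l1, l2⟩ := lab _ hxS
  obtain ⟨l', k0, k1, k2⟩ := lab _ (P.opt j hj.1).1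
  obtain ⟨e, e1, e2⟩ := (P.opt j hj.1).2
  have h1 := hK.2.2.1 x hx l l0 l2.symm
  have h2 := hK.2.1 l h1 l' k0 (l1.trans k1.symm)
  have h3 := hK.2.2.1 l' h2 j (by simp [Aset, hj.1]) k2
  have h4 := hK.2.1 j h3 e (by simp [Aset, e1, e2, hj.2, hv]) e1.symm
  exact hK.2.2.2 e h4 e2

theorem good_three (H : Setup ends inf 3) (O : Ori ends inf 3 S a b) (hR : Rich ends inf 3 S)
    (hw : Wit inf S a b) (hN : ∀ Z, Sealed inf S a b Z → ∀ i ∈ Z, Free inf a b (a i)) :
    ∃ Y, Picks inf 3 S a b Y ∧ (∀ K, Dry inf a b (Aset inf S a b Y) K → K = ∅) ∧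
      ∀ K, Dry inf a b (Aset inf S a b Y)ᶜ K → K = ∅ := by
  classical
  obtain ⟨Pr, g1, g2⟩ := exists_guard H O hR hw hN
  obtain ⟨Y₀, P₀, hY₀⟩ := exists_picks H Pr g2
  obtain ⟨Y, hY, hmin⟩ := Finset.exists_min_image
    (univ.filter (fun Y : Finset I => Picks inf 3 S a b Y ∧ Headed inf S a b Y))
    (fun Y => (Ud inf a b (Aset inf S a b Y)ᶜ).card) ⟨Y₀, by simp [P₀, g1 Y₀ P₀ hY₀]⟩
  simp only [mem_filter, mem_univ, true_and] at hY hmin
  obtain ⟨P, hh⟩ := hY
  by_cases ho : S = ∅ ∨ ∃ v, Odd (cY a Y v)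
  · refine ⟨Y, P, fun K hK => P.dryA_three H O ho hK, fun K hK => ?_⟩
    by_contra hne
    obtain ⟨x, x1, x2⟩ := hh K hK (Finset.nonempty_iff_ne_empty.2 hne)
    obtain ⟨j, j1, j2⟩ := P.exists_pick x2
    obtain ⟨i, -, -, i1, -, i2, -, i3, -⟩ := P.two_spare H O hR x2
    have M : Mv inf a b Y j i := ⟨j1, i1, i2.trans j2.symm, i3⟩
    have hi : i ∈ K := hK.2.2.1 x x1 i (opt_mem_B H O i1 (i2 ▸ x2) i3) i2.symm
    have h1 := Finset.card_lt_card (M.Ud_lt H O P (hK.sub_Ud hi))
    have h2 := hmin (mv Y j i) ⟨M.picks P, fun K' hK' hne' => by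
      obtain ⟨k1, k2⟩ := M.no_head H O P hK hi hK'
      exact hh K' (M.dry_back H O P hK' k1 k2) hne'⟩
    omega
  · push Not at ho
    obtain ⟨⟨s, hs⟩, ho⟩ := ho
    obtain ⟨j, j1, j2⟩ := P.exists_pick hs
    have hex : ∃ i i', a i ≠ a i' ∧ i ∉ Y ∧ i' ∉ Y ∧ b i = s ∧ b i' = s ∧ Free inf a b (a i) ∧
        Free inf a b (a i') ∧ ((∀ l, a l = inf → b l ∈ S) ∨ ∃ i₀, a i₀ ≠ a i ∧
          Free inf a b (a i₀) ∧ b i₀ ∉ S ∧ ∃ l, a l = inf ∧ b l = b i₀) := by
      obtain ⟨i, i', k1, k2, k3, k4, k5, k6, k7⟩ := P.two_spare H O hR hs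
      rcases hw with hw | ⟨i₀, hw⟩
      · exact ⟨i, i', k1, k2, k3, k4, k5, k6, k7, Or.inl hw⟩
      · by_cases h : a i₀ = a i
        · exact ⟨i', i, k1.symm, k3, k2, k5, k4, k7, k6, Or.inr ⟨i₀, h ▸ k1, hw⟩⟩
        · exact ⟨i, i', k1, k2, k3, k4, k5, k6, k7, Or.inr ⟨i₀, h, hw⟩⟩
    obtain ⟨i, i', k1, k2, k3, k4, k5, k6, k7, k8⟩ := hex
    have M : Mv inf a b Y j i := ⟨j1, k2, k4.trans j2.symm, k6⟩
    have M' : Mv inf a b Y j i' := ⟨j1, k3, k5.trans j2.symm, k7⟩
    have P' := M.picks P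
    have hne := M.tail_ne H O
    have par : ∀ v, Odd (cY a (mv Y j i) v) → v = a j ∨ v = a i := by
      intro v hv
      by_contra hc
      push Not at hc
      have := cY_mv M.m1 M.m2 a v
      simp only [hc.1.symm, hc.2.symm, if_false, add_zero] at this
      exact ho v (this ▸ hv)
    refine ⟨mv Y j i, P', fun K hK => P'.dryA_three H O (Or.inr ⟨a i, ?_⟩) hK, fun K hK => ?_⟩
    · have h1 := cY_mv M.m1 M.m2 a (a i)
      have h2 := ho (a i)
      simp only [hne, if_true, if_false] at h1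
      rw [Nat.odd_iff] at h2 ⊢
      omega
    have t1 : ∀ x ∈ K, Free inf a b (a x) → a x = a i := by
      intro x hx hf
      rcases par _ (P'.odd_of_dry O hK hx hf) with h | h
      · exfalso
        have hj := hK.2.1 x hx j (M.old_mem H O P) h
        have hi' : i' ∈ K := hK.2.2.1 j hj i' (opt_mem_B H O (by
          rw [mem_mv]; rintro (rfl | h)
          · exact k1 rfl
          · exact k3 h.2) (k5 ▸ hs) k7) (j2.trans k5.symm)
        rcases par _ (P'.odd_of_dry O hK hi' k7) with h | h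
        · exact M'.tail_ne H O h.symm
        · exact k1 h.symm
      · exact h
    have t2 : ∀ x ∈ K, b x ∉ S := by
      intro x hx hxS
      obtain ⟨p, q, q1, q2, q3, q4, q5, q6, q7⟩ := P'.two_spare H O hR hxS
      exact q1 ((t1 p (hK.2.2.1 x hx p (opt_mem_B H O q2 (q4 ▸ hxS) q6) q4.symm) q6).trans
        (t1 q (hK.2.2.1 x hx q (opt_mem_B H O q3 (q5 ▸ hxS) q7) q5.symm) q7).symm)
    have t3 : ∀ x ∈ K, a x ≠ inf := by
      intro x hx hx'
      rcases k8 with h | ⟨i₀, h1, h2, h3, l, l1, l2⟩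
      · exact t2 x hx (h x hx')
      · exact h1 (t1 i₀ (P'.wit_mem H O hK hx hx' h2 h3 l1 l2) h2)
    have hZ := P'.sealed H O hK t2 t3
    by_contra hne
    obtain ⟨x, hx⟩ := Finset.nonempty_iff_ne_empty.2 hne
    obtain ⟨y, y1, y2⟩ := O.other_in H (hK.2.2.2 x hx) x
    have hy := hZ.cb x hx y y2
    exact y1 (H.simple O.hab ((t1 y hy (hN K hZ y hy)).trans (t1 x hx (hN K hZ x hx)).symm) y2)

end Pool.Agent.MP_29e935_co

end

section

set_option autoImplicit false

/-! The case `m ≥ 5`: both parts can be made connected to `inf`. -/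

namespace Pool.Agent.MP_29e935_co

open Finset

variable {I W : Type*} [Fintype I] [DecidableEq I] [Fintype W] [DecidableEq W]
variable {ends : I → Sym2 W} {inf : W} {m : ℕ} {S : Finset W} {a b : I → W}

/-- `X` does not separate the tails of two picked edges with the same head -/
def Sep (a b : I → W) (Y : Finset I) (X : Finset W) : Prop :=
  ∀ j ∈ Y, ∀ j' ∈ Y, b j = b j' → (a j ∈ X ↔ a j' ∈ X)

/-- the same, ignoring the head `s` -/
def Sep0 (a b : I → W) (Y : Finset I) (s : W) (X : Finset W) : Prop :=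
  ∀ j ∈ Y, ∀ j' ∈ Y, b j = b j' → b j ≠ s → (a j ∈ X ↔ a j' ∈ X)

/-- every vertex of `X` is the tail of an even number of picked edges -/
def Ev (a : I → W) (Y : Finset I) (X : Finset W) : Prop := ∀ v ∈ X, Even (cY a Y v)

/-- no closed even part -/
def Att (a b : I → W) (Y : Finset I) : Prop :=
  ∀ X, Sep a b Y X → Ev a Y X → ∀ j ∈ Y, a j ∉ X

/-- the two picked edges at a vertex of `S` -/
structure Two (b : I → W) (Y : Finset I) (j k : I) : Prop where
  m1 : j ∈ Y
  m2 : k ∈ Y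
  ne : j ≠ k
  hb : b k = b j
  all : ∀ i ∈ Y, b i = b j → i = j ∨ i = k

theorem Two.symm {Y : Finset I} {j k : I} (T : Two b Y j k) : Two b Y k j :=
  ⟨T.m2, T.m1, T.ne.symm, T.hb.symm, fun i h1 h2 => (T.all i h1 (h2.trans T.hb)).symm⟩

theorem Picks.two {Y : Finset I} (h3 : m ≠ 3) (P : Picks inf m S a b Y) {j : I} (hj : j ∈ Y) :
    ∃ k, Two b Y j k := by
  have h := P.num _ (P.opt j hj).1
  simp only [h3, if_false, cY] at h
  obtain ⟨x, y, hxy, e⟩ := Finset.card_eq_two.1 h
  have e' : ∀ i, (i ∈ Y ∧ b i = b j) ↔ i = x ∨ i = y := fun i => by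
    rw [← mem_filter (p := fun i => b i = b j), e]; simp
  rcases (e' j).1 ⟨hj, rfl⟩ with rfl | rfl
  · exact ⟨y, hj, ((e' y).2 (Or.inr rfl)).1, hxy, ((e' y).2 (Or.inr rfl)).2,
      fun i h1 h2 => (e' i).1 ⟨h1, h2⟩⟩
  · exact ⟨x, hj, ((e' x).2 (Or.inl rfl)).1, hxy.symm, ((e' x).2 (Or.inl rfl)).2,
      fun i h1 h2 => ((e' i).1 ⟨h1, h2⟩).symm⟩

theorem Sep.sep0 {Y : Finset I} {X : Finset W} (h : Sep a b Y X) (s : W) : Sep0 a b Y s X :=
  fun j h1 j' h2 h3 _ => h j h1 j' h2 h3

theorem Two.sep_iff {Y : Finset I} {j k : I} (T : Two b Y j k) {X : Finset W} :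
    Sep a b Y X ↔ Sep0 a b Y (b j) X ∧ (a j ∈ X ↔ a k ∈ X) := by
  refine ⟨fun h => ⟨h.sep0 _, h j T.m1 k T.m2 T.hb.symm⟩, fun h x h1 y h2 h3 => ?_⟩
  by_cases hs : b x = b j
  · rcases T.all x h1 hs with rfl | rfl <;> rcases T.all y h2 (h3.symm.trans hs) with rfl | rfl
    · rfl
    · exact h.2
    · exact h.2.symm
    · rfl
  · exact h.1 x h1 y h2 h3 hs

theorem Mv.sep0_iff {Y : Finset I} {j j' : I} (M : Mv inf a b Y j j') {X : Finset W} :
    Sep0 a b (mv Y j j') (b j) X ↔ Sep0 a b Y (b j) X := by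
  have k : ∀ x, b x ≠ b j → (x ∈ mv Y j j' ↔ x ∈ Y) := by
    intro x hx
    rw [mem_mv]
    constructor
    · rintro (rfl | h)
      · exact absurd M.hb hx
      · exact h.2
    · exact fun h => Or.inr ⟨by rintro rfl; exact hx rfl, h⟩
  constructor
  · intro h x h1 y h2 h3 h4
    exact h x ((k x h4).2 h1) y ((k y (h3 ▸ h4)).2 h2) h3 h4
  · intro h x h1 y h2 h3 h4
    exact h x ((k x h4).1 h1) y ((k y (h3 ▸ h4)).1 h2) h3 h4

theorem Mv.two {Y : Finset I} {j j' k : I} (M : Mv inf a b Y j j') (T : Two b Y j k) :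
    Two b (mv Y j j') j' k := by
  refine ⟨mem_mv.2 (Or.inl rfl), mem_mv.2 (Or.inr ⟨T.ne.symm, T.m2⟩), ?_, T.hb.trans M.hb.symm, ?_⟩
  · rintro rfl; exact M.m2 T.m2
  · intro i h1 h2
    rcases mem_mv.1 h1 with h | h
    · exact Or.inl h
    · exact Or.inr ((T.all i h.2 (h2.trans M.hb)).resolve_left h.1)

theorem Mv.sep_iff {Y : Finset I} {j j' k : I} (M : Mv inf a b Y j j') (T : Two b Y j k)
    {X : Finset W} : Sep a b (mv Y j j') X ↔ Sep0 a b Y (b j) X ∧ (a j' ∈ X ↔ a k ∈ X) := by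
  rw [(M.two T).sep_iff, M.hb, M.sep0_iff]

theorem Mv.cY_eq {Y : Finset I} {j j' : I} (M : Mv inf a b Y j j') {v : W} (h1 : v ≠ a j)
    (h2 : v ≠ a j') : cY a (mv Y j j') v = cY a Y v := by
  have := cY_mv M.m1 M.m2 a v
  simpa [h1.symm, h2.symm] using this

theorem Mv.cY_old {Y : Finset I} {j j' : I} (H : Setup ends inf m) (O : Ori ends inf m S a b)
    (M : Mv inf a b Y j j') : cY a (mv Y j j') (a j) + 1 = cY a Y (a j) := by
  have := cY_mv M.m1 M.m2 a (a j)
  simpa [(M.tail_ne H O).symm] using this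

theorem Two.cyc {Y : Finset I} {j k : I} (h3 : m ≠ 3) (P : Picks inf m S a b Y) (T : Two b Y j k)
    {X X' : Finset W} (h1 : Sep a b Y X) (h2 : Ev a Y X) (hj : a j ∈ X)
    (h : Sep0 a b Y (b j) X') : a j ∈ X' ↔ a k ∈ X' := by
  have main : ∀ j k, Two b Y j k → a j ∈ X → Sep0 a b Y (b j) X' → a j ∈ X' → a k ∈ X' := by
    intro j k T hj h hj'
    by_contra hk
    apply parity_contra a b (Y.filter (fun i => a i ∈ X ∧ a i ∈ X')) (b j)
    · intro v
      by_cases hv : v ∈ X ∧ v ∈ X'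
      · have : (Y.filter (fun i => a i ∈ X ∧ a i ∈ X')).filter (fun i => a i = v) =
            Y.filter (fun i => a i = v) := by
          ext i
          simp only [mem_filter]
          exact ⟨fun h => ⟨h.1.1, h.2⟩, fun h => ⟨⟨h.1, h.2 ▸ hv⟩, h.2⟩⟩
        rw [this]; exact h2 v hv.1
      · exact even_of_none (fun x hx e => hv (e ▸ (mem_filter.1 hx).2))
    · intro v hv
      by_cases he : ∃ x ∈ Y.filter (fun i => a i ∈ X ∧ a i ∈ X'), b x = v
      · obtain ⟨x, hx, rfl⟩ := he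
        rw [mem_filter] at hx
        have : (Y.filter (fun i => a i ∈ X ∧ a i ∈ X')).filter (fun i => b i = b x) =
            Y.filter (fun i => b i = b x) := by
          ext i
          simp only [mem_filter]
          exact ⟨fun h => ⟨h.1.1, h.2⟩, fun k => ⟨⟨k.1, (h1 x hx.1 i k.1 k.2.symm).1 hx.2.1,
            (h x hx.1 i k.1 k.2.symm hv).1 hx.2.2⟩, k.2⟩⟩
        have e := P.num _ (P.opt x hx.1).1
        simp only [h3, if_false, cY] at e
        rw [this, e]; simp
      · push Not at he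
        exact even_of_none he
    · have : (Y.filter (fun i => a i ∈ X ∧ a i ∈ X')).filter (fun i => b i = b j) = {j} := by
        ext i
        simp only [mem_filter, mem_singleton]
        constructor
        · rintro ⟨⟨k1, -, k2⟩, k3⟩
          rcases T.all i k1 k3 with rfl | rfl
          · rfl
          · exact absurd k2 hk
        · rintro rfl
          exact ⟨⟨T.m1, hj, hj'⟩, rfl⟩
      rw [this]; simp
  exact ⟨main j k T hj h, main k j T.symm ((h1 j T.m1 k T.m2 T.hb.symm).1 hj) (T.hb ▸ h)⟩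

theorem Mv.sep_back {Y : Finset I} {j j' : I} (h3 : m ≠ 3) (P : Picks inf m S a b Y)
    (M : Mv inf a b Y j j') {X X' : Finset W} (h1 : Sep a b Y X) (h2 : Ev a Y X) (hj : a j ∈ X)
    (h : Sep a b (mv Y j j') X') : Sep a b Y X' := by
  obtain ⟨k, T⟩ := P.two h3 M.m1
  have := ((M.sep_iff T).1 h).1
  exact T.sep_iff.2 ⟨this, T.cyc h3 P h1 h2 hj this⟩

theorem Mv.ev_back {Y : Finset I} {j j' : I} (M : Mv inf a b Y j j') {X : Finset W}
    (h : Ev a (mv Y j j') X) (h1 : a j ∉ X) (h2 : a j' ∉ X) : Ev a Y X := fun v hv =>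
  M.cY_eq (v := v) (by rintro rfl; exact h1 hv) (by rintro rfl; exact h2 hv) ▸ h v hv

theorem Mv.back {Y : Finset I} {j j' : I} (H : Setup ends inf m) (O : Ori ends inf m S a b)
    (h3 : m ≠ 3) (P : Picks inf m S a b Y) (M : Mv inf a b Y j j') {X X' : Finset W}
    (h1 : Sep a b Y X) (h2 : Ev a Y X) (hj : a j ∈ X) (h : Sep a b (mv Y j j') X')
    (h' : Ev a (mv Y j j') X') : Sep a b Y X' ∧ Ev a Y X' ∧ a j ∉ X' ∧ a j' ∉ X' := by
  have k1 := M.sep_back h3 P h1 h2 hj h
  have k2 : a j ∉ X' := fun k => by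
    have p1 := h2 _ hj
    have p2 := h' _ k
    have p3 := M.cY_old H O
    rw [Nat.even_iff] at p1 p2
    omega
  obtain ⟨k, T⟩ := P.two h3 M.m1
  have k3 : a j' ∉ X' := fun e => k2 ((T.sep_iff.1 k1).2.2 (((M.sep_iff T).1 h).2.1 e))
  exact ⟨k1, M.ev_back h' k2 k3, k2, k3⟩

theorem Picks.spare_opt {Y Pr : Finset I} (H : Setup ends inf m) (h3 : m ≠ 3)
    (P : Picks inf m S a b Y)
    (g : ∀ s ∈ S, ∃ T : Finset I, m - 2 ≤ T.card ∧ ∀ i ∈ T, b i = s ∧ Free inf a b (a i) ∧ i ∉ Pr)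
    {s : W} (hs : s ∈ S) : ∃ i, i ∉ Y ∧ b i = s ∧ Free inf a b (a i) ∧ i ∉ Pr := by
  obtain ⟨T, h1, h2⟩ := g s hs
  have h4 := P.spare hs (fun i hi => (h2 i hi).1)
  simp only [h3, if_false] at h4
  have := H.three
  obtain ⟨k, hk⟩ := H.odd
  obtain ⟨i, hi⟩ := Finset.card_pos.1 (show 0 < (T \ Y).card by omega)
  rw [mem_sdiff] at hi
  exact ⟨i, hi.2, h2 i hi.1⟩

theorem not_mem_mv {Y Pr : Finset I} {j j' : I} (h : ∀ i ∈ Y, i ∉ Pr) (h' : j' ∉ Pr) :
    ∀ i ∈ mv Y j j', i ∉ Pr := by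
  intro i hi
  rcases mem_mv.1 hi with rfl | k
  · exact h'
  · exact h i k.2

theorem exists_att {Pr : Finset I} (H : Setup ends inf m) (O : Ori ends inf m S a b) (h3 : m ≠ 3)
    (g : ∀ s ∈ S, ∃ T : Finset I, m - 2 ≤ T.card ∧ ∀ i ∈ T, b i = s ∧ Free inf a b (a i) ∧ i ∉ Pr) :
    ∃ Y, Picks inf m S a b Y ∧ (∀ j ∈ Y, j ∉ Pr) ∧ Att a b Y := by
  classical
  obtain ⟨Y₀, P₀, hY₀⟩ := exists_picks H Pr g
  obtain ⟨Y, hY, hmin⟩ := Finset.exists_min_image
    (univ.filter (fun Y : Finset I => Picks inf m S a b Y ∧ ∀ j ∈ Y, j ∉ Pr))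
    (fun Y => (univ.filter (fun v => ∃ X, Sep a b Y X ∧ Ev a Y X ∧ v ∈ X)).card)
    ⟨Y₀, by simp only [mem_filter, mem_univ, true_and]; exact ⟨P₀, hY₀⟩⟩
  simp only [mem_filter, mem_univ, true_and] at hY hmin
  obtain ⟨P, hh⟩ := hY
  refine ⟨Y, P, hh, fun X h1 h2 j hj hX => ?_⟩
  obtain ⟨i, i1, i2, i3, i4⟩ := P.spare_opt H h3 g (P.opt j hj).1
  have M : Mv inf a b Y j i := ⟨hj, i1, i2, i3⟩
  refine absurd (hmin _ ⟨M.picks P, not_mem_mv hh i4⟩) (not_le.2 (Finset.card_lt_card ?_))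
  rw [Finset.ssubset_iff_of_subset]
  · refine ⟨a j, by simp only [mem_filter, mem_univ, true_and]; exact ⟨X, h1, h2, hX⟩, ?_⟩
    simp only [mem_filter, mem_univ, true_and]
    rintro ⟨X', k1, k2, k3⟩
    exact (M.back H O h3 P h1 h2 hX k1 k2).2.2.1 k3
  · intro v
    simp only [mem_filter, mem_univ, true_and]
    rintro ⟨X', k1, k2, k3⟩
    obtain ⟨p1, p2, -⟩ := M.back H O h3 P h1 h2 hX k1 k2
    exact ⟨X', p1, p2, k3⟩

theorem Att.mv {Y : Finset I} {j j' : I} (hA : Att a b Y) (M : Mv inf a b Y j j') {X : Finset W}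
    (h1 : Sep a b Y X) (h2 : Ev a (mv Y j j') X) (h3 : a j ∉ X) (h4 : a j' ∉ X) :
    ∀ i ∈ mv Y j j', a i ∉ X := by
  intro i hi
  rcases mem_mv.1 hi with rfl | k
  · exact h4
  · exact hA X h1 (M.ev_back h2 h3 h4) i k.2

theorem Att.cycle {Y : Finset I} {j k i : I} (H : Setup ends inf m) (O : Ori ends inf m S a b)
    (hA : Att a b Y) (T : Two b Y j k) (M : Mv inf a b Y j i)
    (hc : ∀ X, Sep0 a b Y (b j) X → (a j ∈ X ↔ a k ∈ X)) :
    Att a b (Pool.Agent.MP_29e935_co.mv Y j i) ∨ Att a b (Pool.Agent.MP_29e935_co.mv Y k i) := by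
  have M' : Mv inf a b Y k i := ⟨T.m2, M.m2, M.hb.trans T.hb.symm, M.fr⟩
  have main : ∀ j k, Two b Y j k → Mv inf a b Y j i →
      (∀ X, Sep0 a b Y (b j) X → (a j ∈ X ↔ a k ∈ X)) →
      ¬ Att a b (Pool.Agent.MP_29e935_co.mv Y j i) →
      Even (cY a (Pool.Agent.MP_29e935_co.mv Y j i) (a j)) ∧
        Even (cY a (Pool.Agent.MP_29e935_co.mv Y j i) (a k)) := by
    intro j k T M hc hn
    unfold Att at hn
    push Not at hn
    obtain ⟨X, h1, h2, x, x1, x2⟩ := hn
    obtain ⟨k1, k2⟩ := (M.sep_iff T).1 h1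
    have k3 := hc X k1
    have k4 : a j ∈ X := by
      by_contra k4
      exact hA.mv M (T.sep_iff.2 ⟨k1, k3⟩) h2 k4 (fun e => k4 (k3.2 (k2.1 e))) x x1 x2
    exact ⟨h2 _ k4, h2 _ (k3.1 k4)⟩
  by_contra hn
  push Not at hn
  have p1 := (main j k T M hc hn.1).1
  have p2 := (main k j T.symm M' (fun X h => (hc X (T.hb ▸ h)).symm) hn.2).2
  have p3 := M.cY_old H O
  rw [M'.cY_eq (fun e => T.ne (H.simple O.hab e T.hb.symm)) (M.tail_ne H O)] at p2
  rw [Nat.even_iff] at p1 p2
  omega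

/-- number of closed sets of vertices -/
noncomputable def NS (a b : I → W) (Y : Finset I) : ℕ := by
  classical exact (univ.filter (fun X : Finset W => Sep a b Y X)).card

theorem NS_le {Y Y' : Finset I} (h : ∀ X, Sep a b Y' X → Sep a b Y X) : NS a b Y' ≤ NS a b Y := by
  unfold NS
  apply Finset.card_le_card
  intro X
  simp only [mem_filter, mem_univ, true_and]
  exact h X

theorem NS_lt {Y Y' : Finset I} (h : ∀ X, Sep a b Y' X → Sep a b Y X) {X : Finset W}
    (h1 : Sep a b Y X) (h2 : ¬ Sep a b Y' X) : NS a b Y' < NS a b Y := by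
  unfold NS
  apply Finset.card_lt_card
  rw [Finset.ssubset_iff_of_subset]
  · exact ⟨X, by simpa using h1, by simpa using h2⟩
  · intro X
    simp only [mem_filter, mem_univ, true_and]
    exact h X

theorem Mv.NS_bridge {Y : Finset I} {j k i : I} (T : Two b Y j k) (M : Mv inf a b Y j i)
    {X₀ : Finset W} (h0 : Sep0 a b Y (b j) X₀) (h1 : ¬ (a j ∈ X₀ ↔ a k ∈ X₀))
    (h2 : ¬ (a i ∈ X₀ ↔ a k ∈ X₀)) : NS a b (mv Y j i) ≤ NS a b Y := by
  classical
  unfold NS
  apply Finset.card_le_card_of_injOn (fun X => if (a j ∈ X ↔ a k ∈ X) then X else symmDiff X X₀)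
  · intro X hX
    simp only [coe_filter, mem_univ, true_and, Set.mem_ofPred_eq] at hX ⊢
    obtain ⟨k1, k2⟩ := (M.sep_iff T).1 hX
    split_ifs with h
    · exact T.sep_iff.2 ⟨k1, h⟩
    · refine T.sep_iff.2 ⟨fun x x1 y y1 e e' => ?_, ?_⟩
      · have p1 := k1 x x1 y y1 e e'
        have p2 := h0 x x1 y y1 e e'
        simp only [Finset.mem_symmDiff]
        tauto
      · simp only [Finset.mem_symmDiff]
        tauto
  · intro X hX X' hX' e
    simp only [coe_filter, mem_univ, true_and, Set.mem_ofPred_eq] at hX hX'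
    have k2 := ((M.sep_iff T).1 hX).2
    have k2' := ((M.sep_iff T).1 hX').2
    simp only at e
    split_ifs at e with p1 p2 p2
    · exact e
    · rw [e] at k2
      simp only [Finset.mem_symmDiff] at k2
      tauto
    · rw [← e] at k2'
      simp only [Finset.mem_symmDiff] at k2'
      tauto
    · exact symmDiff_left_injective X₀ e

theorem Att.dryA {Y K : Finset I} (O : Ori ends inf m S a b) (h3 : m ≠ 3)
    (P : Picks inf m S a b Y) (hA : Att a b Y) (hK : Dry inf a b (Aset inf S a b Y) K) : K = ∅ := by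
  have sub : ∀ x ∈ K, x ∈ Y := by
    intro x hx
    have := hK.1 hx
    simp only [Aset, mem_filter, mem_univ, true_and] at this
    rcases this with k | k | k
    · exact k
    · exact absurd k.1 (hK.2.2.2 x hx)
    · exact absurd k.2 (O.fr h3 x k.1)
  have inA : ∀ x ∈ Y, x ∈ Aset inf S a b Y := fun x hx => by simp [Aset, hx]
  have st : ∀ j ∈ Y, ∀ j' ∈ Y, b j = b j' → a j ∈ K.image a → a j' ∈ K.image a := by
    intro j h1 j' h2 e h
    obtain ⟨x, x1, x2⟩ := mem_image.1 h
    exact mem_image_of_mem a (hK.2.2.1 j (hK.2.1 x x1 j (inA j h1) x2) j' (inA j' h2) e)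
  by_contra hne
  obtain ⟨x, hx⟩ := Finset.nonempty_iff_ne_empty.2 hne
  refine hA (K.image a) (fun j h1 j' h2 e => ⟨st j h1 j' h2 e, st j' h2 j h1 e.symm⟩) ?_ x
    (sub x hx) (mem_image_of_mem a hx)
  intro v hv
  obtain ⟨y, y1, rfl⟩ := mem_image.1 hv
  obtain ⟨l, l1, l2⟩ := (P.opt y (sub y y1)).2
  by_contra ho
  rw [Nat.not_even_iff_odd] at ho
  exact hK.2.2.2 l (hK.2.1 y y1 l (by simp [Aset, l1, l2, ho]) l1.symm) l2

end Pool.Agent.MP_29e935_co

end
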