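import Pool.Agent.Mg.F29e935p.G1116f6

set_option autoImplicit false

/-! The extremal argument for `m ≥ 5` and the labelling for odd `m`. -/

namespace Pool.Agent.MP_29e935_co

open Finset

variable {I W : Type*} [Fintype I] [DecidableEq I] [Fintype W] [DecidableEq W]
variable {ends : I → Sym2 W} {inf : W} {m : ℕ} {S : Finset W} {a b : I → W}

theorem mv_mv {Y : Finset I} {j k i : I} (T : Two b Y j k) (hi : i ∉ Y) :
    mv (mv Y j i) k j = mv Y k i := by
  ext x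
  simp only [mem_mv]
  constructor
  · rintro (rfl | ⟨h1, rfl | h2⟩)
    · exact Or.inr ⟨T.ne, T.m1⟩
    · exact Or.inl rfl
    · exact Or.inr ⟨h1, h2.2⟩
  · rintro (rfl | h)
    · exact Or.inr ⟨by rintro rfl; exact hi T.m2, Or.inl rfl⟩
    · by_cases e : x = j
      · exact Or.inl e
      · exact Or.inr ⟨h.1, Or.inr ⟨e, h.2⟩⟩

theorem exists_no_head {Y : Finset I} {j k i : I} (H : Setup ends inf m) (O : Ori ends inf m S a b)
    (P : Picks inf m S a b Y) (T : Two b Y j k) (M : Mv inf a b Y j i) :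
    (∀ x ∈ Ud inf a b (Aset inf S a b (mv Y j i))ᶜ, b x ≠ b j) ∨
      ∀ x ∈ Ud inf a b (Aset inf S a b (mv Y k i))ᶜ, b x ≠ b k := by
  by_cases h : ∀ x ∈ Ud inf a b (Aset inf S a b (mv Y j i))ᶜ, b x ≠ b j
  · exact Or.inl h
  push Not at h
  obtain ⟨x, x1, x2⟩ := h
  have hj := (dry_Ud _).2.2.1 x x1 j (M.old_mem H O P) x2
  have M' : Mv inf a b (mv Y j i) k j := ⟨mem_mv.2 (Or.inr ⟨T.ne.symm, T.m2⟩), by
    rw [mem_mv]; rintro (rfl | h)
    · exact M.m2 M.m1
    · exact h.1 rfl, T.hb.symm, (P.opt j M.m1).2⟩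
  have := (M'.no_head H O (M.picks P) (dry_Ud _) hj (dry_Ud _)).1
  rw [mv_mv T M.m2] at this
  exact Or.inr this

theorem good_five (H : Setup ends inf m) (O : Ori ends inf m S a b) (h3 : m ≠ 3)
    (hR : Rich ends inf m S) (hw : Wit inf S a b)
    (hN : ∀ Z, Sealed inf S a b Z → ∀ i ∈ Z, Free inf a b (a i)) :
    ∃ Y, Picks inf m S a b Y ∧ (∀ K, Dry inf a b (Aset inf S a b Y) K → K = ∅) ∧
      ∀ K, Dry inf a b (Aset inf S a b Y)ᶜ K → K = ∅ := by
  classical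
  obtain ⟨Pr, g1, g2⟩ := exists_guard H O hR hw hN
  obtain ⟨Y₀, P₀, hY₀, hA₀⟩ := exists_att H O h3 g2
  obtain ⟨Y, hY, hmin⟩ := Finset.exists_min_image
    (univ.filter (fun Y : Finset I => Picks inf m S a b Y ∧ (∀ j ∈ Y, j ∉ Pr) ∧ Att a b Y))
    (fun Y => toLex (NS a b Y, (Ud inf a b (Aset inf S a b Y)ᶜ).card))
    ⟨Y₀, by simp only [mem_filter, mem_univ, true_and]; exact ⟨P₀, hY₀, hA₀⟩⟩
  simp only [mem_filter, mem_univ, true_and, Prod.Lex.toLex_le_toLex] at hY hmin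
  obtain ⟨P, hP, hA⟩ := hY
  have noCE : ∀ j k i, Two b Y j k → Mv inf a b Y j i → i ∉ Pr →
      i ∈ Ud inf a b (Aset inf S a b Y)ᶜ →
      ¬ ∀ X, Sep0 a b Y (b j) X → (a j ∈ X ↔ a k ∈ X) := by
    intro j k i T M hi hU hc
    have M' : Mv inf a b Y k i := ⟨T.m2, M.m2, M.hb.trans T.hb.symm, M.fr⟩
    rcases hA.cycle H O T M hc with h | h
    · have p1 := hmin _ ⟨M.picks P, not_mem_mv hP hi, h⟩
      have p2 := Finset.card_lt_card (M.Ud_lt H O P hU)
      have p3 : NS a b (mv Y j i) ≤ NS a b Y := NS_le (fun X hX =>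
        T.sep_iff.2 ⟨((M.sep_iff T).1 hX).1, hc X ((M.sep_iff T).1 hX).1⟩)
      omega
    · have p1 := hmin _ ⟨M'.picks P, not_mem_mv hP hi, h⟩
      have p2 := Finset.card_lt_card (M'.Ud_lt H O P hU)
      have p3 : NS a b (mv Y k i) ≤ NS a b Y := NS_le (fun X hX =>
        T.sep_iff.2 ⟨T.hb ▸ ((M'.sep_iff T.symm).1 hX).1,
          hc X (T.hb ▸ ((M'.sep_iff T.symm).1 hX).1)⟩)
      omega
  have main : ∀ j k i X₀, Two b Y j k → Mv inf a b Y j i → i ∉ Pr →
      i ∈ Ud inf a b (Aset inf S a b Y)ᶜ → Sep0 a b Y (b j) X₀ → ¬ (a j ∈ X₀ ↔ a k ∈ X₀) →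
      ¬ (a i ∈ X₀ ↔ a k ∈ X₀) → False := by
    intro j k i X₀ T M hi hU h0 h1 h2
    have P₁ := M.picks P
    have hP₁ := not_mem_mv (j := j) hP hi
    have T₁ := M.two T
    have n1 := M.NS_bridge T h0 h1 h2
    have u1 := Finset.card_lt_card (M.Ud_lt H O P hU)
    have bad : ∀ X, Sep a b (mv Y j i) X → Ev a (mv Y j i) X → (∃ x ∈ mv Y j i, a x ∈ X) →
        a j ∈ X ∧ a k ∉ X ∧ a i ∉ X := by
      rintro X s1 s2 ⟨x, x1, x2⟩
      have k1 : a i ∉ X := fun e => h2 (T₁.cyc h3 P₁ s1 s2 e (M.hb ▸ M.sep0_iff.2 h0))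
      obtain ⟨k2, k3⟩ := (M.sep_iff T).1 s1
      have k4 : a k ∉ X := fun e => k1 (k3.2 e)
      refine ⟨?_, k4, k1⟩
      by_contra k5
      exact hA.mv M (T.sep_iff.2 ⟨k2, by tauto⟩) s2 k5 k1 x x1 x2
    have hn : ¬ Att a b (mv Y j i) := fun h => by
      have := hmin _ ⟨P₁, hP₁, h⟩
      omega
    unfold Att at hn
    push Not at hn
    obtain ⟨X, s1, s2, x₀, x1, x2⟩ := hn
    set C := (mv Y j i).filter (fun x => a x ∈ X) with hC
    have hX₂ : ∀ x ∈ mv Y j i, a x ∈ C.image a ↔ a x ∈ X := by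
      intro x hx
      constructor
      · intro h
        obtain ⟨y, y1, y2⟩ := mem_image.1 h
        exact y2 ▸ (mem_filter.1 y1).2
      · exact fun h => mem_image_of_mem a (mem_filter.2 ⟨hx, h⟩)
    have t1 : Sep a b (mv Y j i) (C.image a) := fun x hx y hy e => by
      rw [hX₂ x hx, hX₂ y hy]; exact s1 x hx y hy e
    have t2 : Ev a (mv Y j i) (C.image a) := fun v hv => by
      obtain ⟨y, y1, rfl⟩ := mem_image.1 hv
      exact s2 _ (mem_filter.1 y1).2
    obtain ⟨b1, b2, b3⟩ := bad _ t1 t2 ⟨x₀, x1, (hX₂ x₀ x1).2 x2⟩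
    have att2 : ∀ j' i', Mv inf a b (mv Y j i) j' i' → a j' ∈ C.image a →
        Att a b (mv (mv Y j i) j' i') := by
      intro j' i' M' hj' X' r1 r2 y y1 y2
      obtain ⟨q1, q2, q3, q4⟩ := M'.back H O h3 P₁ t1 t2 hj' r1 r2
      have y3 : y ∈ mv Y j i := by
        rcases mem_mv.1 y1 with rfl | e
        · exact absurd y2 q4
        · exact e.2
      have q5 := (bad X' q1 q2 ⟨y, y3, y2⟩).1
      have q6 := (bad (C.image a \ X') (fun x hx z hz e => by
        rw [mem_sdiff, mem_sdiff, t1 x hx z hz e, q1 x hx z hz e])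
        (fun v hv => t2 v (mem_sdiff.1 hv).1) ⟨j', M'.m1, mem_sdiff.2 ⟨hj', q3⟩⟩).1
      exact (mem_sdiff.1 q6).2 q5
    have step : ∀ s' ∈ C.image b, ∃ j' i' Q, Pend inf S a b (mv Y j i) j' i' Q ∧ b j' = s' ∧
        a j' ∈ C.image a ∧ a i' ∈ C.image a ∧ i' ∉ Pr := by
      intro s' hs'
      obtain ⟨x, hx, rfl⟩ := mem_image.1 hs'
      have hx1 := (mem_filter.1 hx).1
      have hx2 : a x ∈ C.image a := mem_image_of_mem a hx
      obtain ⟨y, T'⟩ := P₁.two h3 hx1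
      obtain ⟨i', i1, i2, i3, i4⟩ := P₁.spare_opt H h3 g2 (P₁.opt x hx1).1
      have fin : ∀ x y, Two b (mv Y j i) x y → Mv inf a b (mv Y j i) x i' → a x ∈ C.image a →
          (∀ z ∈ Ud inf a b (Aset inf S a b (mv (mv Y j i) x i'))ᶜ, b z ≠ b x) →
          a i' ∈ C.image a ∧ ∃ Q, Pend inf S a b (mv Y j i) x i' Q := by
        intro x y T' M' hx hz
        have p1 := hmin _ ⟨M'.picks P₁, not_mem_mv hP₁ i4, att2 x i' M' hx⟩
        have p2 : ∀ X', Sep a b (mv (mv Y j i) x i') X' → Sep a b (mv Y j i) X' :=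
          fun X' h => M'.sep_back h3 P₁ t1 t2 hx h
        have p3 := NS_le p2
        constructor
        · by_contra hc
          have := NS_lt p2 t1 (fun h => hc (((M'.sep_iff T').1 h).2.2
            ((t1 x T'.m1 y T'.m2 T'.hb.symm).1 hx)))
          omega
        · refine ⟨_, M', dry_Ud _, hz, ?_⟩
          by_contra hc
          push Not at hc
          have := Finset.card_le_card (M'.dry_back H O P₁ (dry_Ud _) hz hc).sub_Ud
          omega
      have Mx : Mv inf a b (mv Y j i) x i' := ⟨hx1, i1, i2, i3⟩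
      have My : Mv inf a b (mv Y j i) y i' := ⟨T'.m2, i1, i2.trans T'.hb.symm, i3⟩
      have hy2 : a y ∈ C.image a := (t1 x hx1 y T'.m2 T'.hb.symm).1 hx2
      rcases exists_no_head H O P₁ T' Mx with h | h
      · obtain ⟨r1, Q, r2⟩ := fin x y T' Mx hx2 h
        exact ⟨x, i', Q, r2, rfl, hx2, r1, i4⟩
      · obtain ⟨r1, Q, r2⟩ := fin y x T'.symm My hy2 h
        exact ⟨y, i', Q, r2, T'.hb, hy2, r1, i4⟩
    have : Nonempty I := ⟨j⟩
    choose! fj fi fQ f1 f2 f3 f4 f5 using step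
    have c1 : 2 * (C.image a).card ≤ C.card := by
      apply Finset.mul_card_image_le_card
      intro v hv
      have e1 := t2 v hv
      obtain ⟨y, y1, rfl⟩ := mem_image.1 hv
      have e2 : C.filter (fun x => a x = a y) = (mv Y j i).filter (fun x => a x = a y) := by
        ext z
        simp only [hC, mem_filter] at y1 ⊢
        exact ⟨fun h => ⟨h.1.1, h.2⟩, fun h => ⟨⟨h.1, h.2 ▸ y1.2⟩, h.2⟩⟩
      have e3 : 0 < cY a (mv Y j i) (a y) :=
        Finset.card_pos.2 ⟨y, mem_filter.2 ⟨(mem_filter.1 y1).1, rfl⟩⟩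
      rw [e2]
      rw [Nat.even_iff] at e1
      unfold cY at e1 e3
      omega
    have c2 : C.card ≤ 2 * (C.image b).card := by
      apply Finset.card_le_mul_card_image
      intro v hv
      obtain ⟨y, y1, rfl⟩ := mem_image.1 hv
      have e := P₁.num _ (P₁.opt y (mem_filter.1 y1).1).1
      simp only [h3, if_false, cY] at e
      rw [← e]
      exact Finset.card_le_card (Finset.filter_subset_filter _ (filter_subset _ _))
    have hex : ∃ s' ∈ C.image b, a (fi s') = a j := by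
      by_contra hc
      push Not at hc
      have c3 : (C.image b).card ≤ ((C.image a).erase (a j)).card := by
        apply Finset.card_le_card_of_injOn (fun s' => a (fi s'))
        · intro s' hs'
          exact mem_coe.2 (mem_erase.2 ⟨hc s' hs', f4 s' hs'⟩)
        · intro s' hs' s'' hs'' e
          by_contra hne
          exact (f1 s' hs').unique H O P₁ (f1 s'' hs'') e (by rwa [f2 s' hs', f2 s'' hs''])
      have c4 := Finset.card_erase_lt_of_mem b1
      omega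
    obtain ⟨s', hs', e⟩ := hex
    have hp := f1 s' hs'
    have hb : b (fj s') ≠ b j := by
      intro h
      rcases T₁.all _ hp.hmv.m1 (h.trans M.hb.symm) with r | r
      · exact b3 (r ▸ f3 s' hs')
      · exact b2 (r ▸ f3 s' hs')
    have hl := Pend.last H O P M (dry_Ud _) hU hp e hb
    have memY : ∀ z, b z ≠ b j → (z ∈ mv Y j i ↔ z ∈ Y) := by
      intro z hz
      rw [mem_mv]
      constructor
      · rintro (rfl | h)
        · exact absurd M.hb hz
        · exact h.2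
      · exact fun h => Or.inr ⟨by rintro rfl; exact hz rfl, h⟩
    obtain ⟨y, T'⟩ := P₁.two h3 hp.hmv.m1
    have TY : Two b Y (fj s') y := ⟨(memY _ hb).1 T'.m1, (memY _ (T'.hb ▸ hb)).1 T'.m2, T'.ne, T'.hb,
      fun z z1 z2 => T'.all z ((memY z (z2 ▸ hb)).2 z1) z2⟩
    refine noCE (fj s') y (fi s') TY ⟨TY.m1, fun h => hp.hmv.m2
      ((memY _ (hp.hmv.hb ▸ hb)).2 h), hp.hmv.hb, hp.hmv.fr⟩ (f5 s' hs') hl (fun X' hX' => ?_)
    have hy2 : a y ∈ C.image a := (t1 _ T'.m1 y T'.m2 T'.hb.symm).1 (f3 s' hs')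
    have := T'.cyc h3 P₁ t1 t2 (f3 s' hs') (X' := X' ∩ C.image a) (by
      intro x hx z hz e1 e2
      rw [mem_inter, mem_inter, t1 x hx z hz e1]
      by_cases e3 : b x = b j
      · have : a z ∉ C.image a := by
          rcases T₁.all z hz ((e1.symm.trans e3).trans M.hb.symm) with rfl | rfl
          · exact b3
          · exact b2
        simp [this]
      · rw [hX' x ((memY x e3).1 hx) z ((memY z (e1 ▸ e3)).1 hz) e1 e2])
    simpa only [mem_inter, f3 s' hs', hy2, and_true] using this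
  refine ⟨Y, P, fun K hK => hA.dryA O h3 P hK, fun K hK => ?_⟩
  by_contra hne
  obtain ⟨x, x1, x2⟩ := g1 Y P hP K hK (Finset.nonempty_iff_ne_empty.2 hne)
  obtain ⟨j, j1, j2⟩ := P.exists_pick x2
  obtain ⟨k, T⟩ := P.two h3 j1
  obtain ⟨i, i1, i2, i3, i4⟩ := P.spare_opt H h3 g2 x2
  have M : Mv inf a b Y j i := ⟨j1, i1, i2.trans j2.symm, i3⟩
  have M' : Mv inf a b Y k i := ⟨T.m2, M.m2, M.hb.trans T.hb.symm, M.fr⟩
  have hi := hK.sub_Ud (hK.2.2.1 x x1 i (opt_mem_B H O i1 (i2 ▸ x2) i3) i2.symm)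
  have hc := noCE j k i T M i4 hi
  push Not at hc
  obtain ⟨X₀, h0, h1⟩ := hc
  by_cases h2 : a i ∈ X₀ ↔ a k ∈ X₀
  · exact main k j i X₀ T.symm M' i4 hi (T.hb ▸ h0) (by tauto) (by tauto)
  · exact main j k i X₀ T M i4 hi h0 (by tauto) h2

theorem magic_odd (H : Setup ends inf m) : ∃ (lab : I → ℕ) (k : ℕ), Function.Injective lab ∧
    (∀ x, 1 ≤ lab x ∧ lab x ≤ Fintype.card I) ∧
    ∀ v, v ≠ inf → ∑ x ∈ univ.filter (fun x => v ∈ ends x), lab x = k := by
  obtain ⟨S, ⟨a₀, b₀, O₀⟩, hR, hRe⟩ := exists_ori H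
  obtain ⟨a₁, b₁, O₁, w₁⟩ := exists_wit H hRe O₀
  obtain ⟨a, b, O, hw, hN⟩ := exists_nice H O₁ w₁
  have hY : ∃ Y, Picks inf m S a b Y ∧ (∀ K, Dry inf a b (Aset inf S a b Y) K → K = ∅) ∧
      ∀ K, Dry inf a b (Aset inf S a b Y)ᶜ K → K = ∅ := by
    by_cases h3 : m = 3
    · subst h3
      exact good_three H O hR hw hN
    · exact good_five H O h3 hR hw hN
  obtain ⟨Y, P, hA, hB⟩ := hY
  have h3 := H.three
  obtain ⟨t, ht⟩ := H.odd
  obtain ⟨lab, C, l1, l2, l3⟩ := exists_nested (inf := inf) a b (Aset inf S a b Y)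
    (fun w hw => P.fibA_a H O hw)
    (fun w hw => by rw [P.fibA_b H O hw]; split_ifs <;> simp)
    (fun w hw => P.fibB_a H O hw)
    (fun w hw => by rw [P.fibB_b H O hw, Nat.even_iff]; split_ifs <;> omega) hA hB
  refine ⟨lab, m * C + 3 * t + 1, l1, l2, fun v hv => ?_⟩
  obtain ⟨e1, e2⟩ := l3 v hv
  rw [O.ca H hv] at e1
  rw [P.fibA_b H O hv, P.fibB_b H O hv] at e2
  rw [sum_deg H.nd O.hab]
  obtain ⟨u, rfl⟩ : ∃ u, t = u + 1 := ⟨t - 1, by omega⟩
  subst ht
  split_ifs at e1 e2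
  · have r1 : 2 * (u + 1) + 1 - 3 = 2 * u := by omega
    rw [r1] at e1
    nlinarith
  · have r1 : 2 * (u + 1) + 1 - 1 = 2 * u + 2 := by omega
    rw [r1] at e2
    nlinarith

end Pool.Agent.MP_29e935_co
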