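import Pool.Agent.Mg.F29e935p.G68b5d2
import Pool.Agent.Mg.F29e935p.G0b5bfc
import Pool.Agent.Mg.F29e935p.Ga94940
import Pool.Agent.Mg.F29e935p.G0f118d
import Pool.Agent.Mg.F29e935p.Ge4f975
import Pool.Agent.Mg.F29e935p.G7e70ad
import Pool.Agent.Mg.F29e935p.Gd92503
import Pool.Agent.Mg.F29e935p.G22c004

/-!
Every disjoint union of cycles outside a short list of exceptions has a labeling of type `T 4`.
-/

set_option autoImplicit false

namespace Pool.Agent.MP_29e935_co.Four

theorem good_block {g : List ℕ} (h : g ∈ blockL) : Good (g : Multiset ℕ) := by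
  have e : blockL = block0.map (·.1) := by decide +kernel
  rw [e] at h
  obtain ⟨e, he, rfl⟩ := List.mem_map.1 h
  exact blockOK_sound (List.all_eq_true.1 block0_ok e he)

theorem fin_T {S : List ℕ} (h : S ∈ finL) : T 4 (S : Multiset ℕ) := by
  have e : finL = [] :: (base0 ++ base1 ++ base2 ++ base3).map (·.1) := by decide +kernel
  rw [e] at h
  rcases List.mem_cons.1 h with rfl | h
  · exact T.zero _
  · obtain ⟨e, he, rfl⟩ := List.mem_map.1 h
    have : (base0 ++ base1 ++ base2 ++ base3).all baseOK = true := by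
      simp only [List.all_append, base0_ok, base1_ok, base2_ok, base3_ok, Bool.and_self]
    exact baseOK_sound (List.all_eq_true.1 this e he)

/-- A sum of blocks. -/
inductive BS : Multiset ℕ → Prop
  | zero : BS 0
  | add {g : List ℕ} {G : Multiset ℕ} : g ∈ blockL → BS G → BS (g + G)

theorem BS.good {G : Multiset ℕ} (h : BS G) : Good G := by
  induction h with
  | zero => exact Good.zero
  | add hg _ ih => exact (good_block hg).add ih

theorem BS.getD {G : Multiset ℕ} (h : BS G) (i : ℕ) : BS ((blockL.getD i [] : List ℕ) + G) := by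
  rcases Nat.lt_or_ge i blockL.length with hi | hi
  · rw [List.getD_eq_getElem _ _ hi]
    exact h.add (List.getElem_mem hi)
  · rw [List.getD_eq_default _ _ hi]
    simpa using h

theorem certOK_sound {tab : List (List ℕ)} {X : List ℕ} {w : ℕ} (h : certOK tab X w = true)
    {G : Multiset ℕ} (hG : BS G) : ∃ S ∈ tab, ∃ H, BS H ∧ G + X = H + S := by
  simp only [certOK, Bool.and_eq_true, Nat.blt_eq, List.isPerm_iff] at h
  refine ⟨tab.getD (w % 1024) [], ?_, _, (hG.getD (w / 262144 % 256)).getD (w / 1024 % 256), ?_⟩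
  · rw [List.getD_eq_getElem _ _ h.1]
    exact List.getElem_mem _
  · rw [← Multiset.coe_eq_coe.2 h.2, ← Multiset.coe_add, ← Multiset.coe_add]
    abel

theorem certs_sound {tab alt : List (List ℕ)} {R : List ℕ} : ∀ (L : List (List ℕ)) (w : ℕ),
    certs tab alt R L w = true → ∀ g ∈ L, ∀ G, BS G →
      (∃ S ∈ tab, ∃ H, BS H ∧ G + (g + R) = H + S) ∨ ∃ X ∈ alt, (g + R : Multiset ℕ) = X
  | [], _, _, g, hg, _, _ => absurd hg (by simp)
  | a :: L, w, h, g, hg, G, hG => by
    simp only [certs, Bool.and_eq_true, Bool.or_eq_true, List.any_eq_true, List.isPerm_iff] at h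
    rcases List.mem_cons.1 hg with rfl | hg
    · rw [Multiset.coe_add]
      exact h.1.imp (fun h => certOK_sound h hG)
        fun ⟨X, hX, e⟩ => ⟨X, hX, (Multiset.coe_eq_coe.2 e).symm⟩
    · exact certs_sound L _ h.2 g hg G hG

theorem certAll_sound {tab alt L : List (List ℕ)} : ∀ (S : List (List ℕ)) (W : List ℕ),
    certAll tab alt L S W = true → ∀ R ∈ S, ∃ w, certs tab alt R L w = true
  | [], _, _, R, hR => absurd hR (by simp)
  | _ :: _, [], h, _, _ => absurd h (by simp [certAll])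
  | a :: S, w :: W, h, R, hR => by
    simp only [certAll, Bool.and_eq_true] at h
    rcases List.mem_cons.1 hR with rfl | hR
    · exact ⟨w, h.1⟩
    · exact certAll_sound S W h.2 R hR

theorem split (B : Multiset ℕ) (h : ∀ x ∈ B, 3 ≤ x ∧ x < 16) :
    ∃ R ∈ irrL, ∃ G, BS G ∧ B = G + R := by
  induction B using Multiset.induction_on with
  | empty => exact ⟨[], by decide +kernel, 0, BS.zero, rfl⟩
  | cons a B ih =>
    obtain ⟨R, hR, G, hG, rfl⟩ := ih fun x hx => h x (Multiset.mem_cons_of_mem hx)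
    have ha := h a (Multiset.mem_cons_self _ _)
    obtain ⟨w, hw⟩ := certAll_sound _ _ irr_cert R hR
    rcases certs_sound _ _ hw [a] (List.mem_map.2 ⟨a - 3, List.mem_range.2 (by omega), by
      rw [show 3 + (a - 3) = a by omega]⟩) G hG with ⟨S, hS, H, hH, e⟩ | ⟨X, hX, -⟩
    · refine ⟨S, hS, H, hH, ?_⟩
      rw [← e, Multiset.coe_singleton, Multiset.singleton_add, Multiset.add_cons]
    · exact absurd hX (by simp)

theorem exc_add {G : Multiset ℕ} (hG : BS G) : ∀ X ∈ excL,
    (∃ Y ∈ excL, G + X = (Y : Multiset ℕ)) ∨ T 4 (G + X) := by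
  induction hG with
  | zero => exact fun X hX => Or.inl ⟨X, hX, by simp⟩
  | @add g G hg hG ih =>
    intro X hX
    obtain ⟨w, hw⟩ := certAll_sound _ _ exc_cert X hX
    rw [add_comm (g : Multiset ℕ), add_assoc]
    rcases certs_sound _ _ hw g hg G hG with ⟨S, hS, H, hH, e⟩ | ⟨Y, hY, e⟩
    · rw [e]; exact Or.inr (hH.good _ (fin_T hS))
    · rw [e]; exact ih Y hY

def startC (e : SE) (RA RB : ℕ) : Prop :=
  RA + e.al = shf e.v 0 + 2 ∧ RB + e.be = shf e.v 1 + 2 ∧ e.R.sum = RA + RB ∧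
  (shf e.v 0 + 2 * shf e.v 1) % 3 = 1 ∧ RB ≤ RA + 11 ∧ RA ≤ RB + 20 ∧ e.al ≤ 10 ∧ e.be ≤ 10 ∧
  2 * e.be + RB ≤ 22 + RA ∧ 2 * e.al + RA ≤ 33 + RB ∧ (e.al ≤ 6 ∨ e.al + RA ≤ 11 + RB) ∧
  (e.be ≤ 6 ∨ e.be + RB ≤ RA + 2) ∧ RA + 2 * e.al ≤ RB + 23 ∧ RB + 2 * e.be ≤ RA + 12 ∧
  ∀ j < 6, (RA + 2 * e.al ≤ RB + (16 + j) + 1 ∧ RB + 2 * e.be + 10 ≤ RA + (16 + j)) ∨
    e.R ++ [16 + j] ∈ extraL

instance (e : SE) (RA RB : ℕ) : Decidable (startC e RA RB) := by unfold startC; infer_instance

theorem long_T {R : List ℕ} (hR : R ∈ irrL) {l : ℕ} {L : Multiset ℕ} (hl : 16 ≤ l)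
    (hL : ∀ c ∈ L, 16 ≤ c ∧ c ≤ l) : T 4 (l ::ₘ (L + R)) := by
  have e : irrL = (start0 ++ start1).map (·.R) := by decide +kernel
  rw [e] at hR
  obtain ⟨e, he, rfl⟩ := List.mem_map.1 hR
  have h1 : (start0 ++ start1).all startOK = true := by
    simp only [List.all_append, start0_ok, start1_ok, Bool.and_self]
  have h2 : ∀ e ∈ start0 ++ start1, startC e (shf e.v 0 + 2 - e.al) (shf e.v 1 + 2 - e.be) := by
    decide +kernel
  have h3 := h2 e he
  generalize shf e.v 0 + 2 - e.al = RA, shf e.v 1 + 2 - e.be = RB at h3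
  obtain ⟨k1, k2, k3, k4, c1, c2, c3, c4, c5, c6, c7, c8, c9, c10, c11⟩ := h3
  have hW : W (RA + RB + L.sum + l) RA RB e.R e.al e.be :=
    ⟨_, _, startOK_sound (List.all_eq_true.1 h1 e he) _, k1.symm, k2.symm, by simpa using k3, k4⟩
  by_cases h : L = 0 ∧ l < 22
  · rcases c11 (l - 16) (by omega) with h' | h' <;> rw [show 16 + (l - 16) = l by omega] at h'
    · exact long hl hL hW c1 c2 c3 c4 c5 c6 c7 c8 fun _ => h'
    · have := fin_T (List.contains_iff_mem.1 (List.all_eq_true.1 extra_fin _ h'))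
      rw [← Multiset.coe_add, Multiset.coe_singleton, add_comm, Multiset.singleton_add] at this
      rw [h.1, zero_add]
      exact this
  · exact long hl hL hW c1 c2 c3 c4 c5 c6 c7 c8 fun h' => by
      have : ¬ l < 22 := fun h'' => h ⟨h', h''⟩
      omega

theorem T_all (M : Multiset ℕ) (h : ∀ x ∈ M, 3 ≤ x) :
    (∃ X ∈ excL, M = (X : Multiset ℕ)) ∨ T 4 M := by
  have e := Multiset.filter_add_not (fun x => 16 ≤ x) M
  obtain ⟨R, hR, G, hG, e2⟩ := split (M.filter fun x => ¬ 16 ≤ x) fun x hx => by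
    have := Multiset.mem_filter.1 hx
    exact ⟨h x this.1, by omega⟩
  have hL : ∀ x ∈ M.filter (fun x => 16 ≤ x), 16 ≤ x := fun x hx => (Multiset.mem_filter.1 hx).2
  rw [e2] at e
  generalize M.filter (fun x => 16 ≤ x) = L at e hL
  subst e
  rcases eq_or_ne L 0 with rfl | h0
  · rw [zero_add]
    have := List.all_eq_true.1 irr_fin R hR
    simp only [Bool.or_eq_true, List.contains_iff_mem] at this
    rcases this with h1 | h1
    · exact exc_add hG R h1
    · exact Or.inr (hG.good _ (fin_T h1))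
  · obtain ⟨l, hl, hm⟩ := Multiset.exists_max_image id h0
    obtain ⟨L', rfl⟩ := Multiset.exists_cons_of_mem hl
    have := hG.good _ (long_T hR (hL l hl) (L := L') fun c hc =>
      ⟨hL c (Multiset.mem_cons_of_mem hc), hm c (Multiset.mem_cons_of_mem hc)⟩)
    right
    convert this using 1
    simp only [← Multiset.singleton_add]
    abel

end Pool.Agent.MP_29e935_co.Four
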