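import Mathlib

section

/-!
Vertex-magic total labelings of disjoint unions of cycles: the basic objects and the
soundness of a small checking machine.
-/

set_option autoImplicit false

namespace Pool.Agent.MP_29e935_co.Two

open Finset

/-- The multiset of the first `n` values of `x`. -/
def vals {α : Type} (n : ℕ) (x : ℕ → α) : Multiset α := ∑ j ∈ range n, {x j}

theorem vals_succ {α : Type} (n : ℕ) (x : ℕ → α) : vals (n + 1) x = x n ::ₘ vals n x := by
  simp [vals, sum_range_succ, add_comm]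

theorem vals_congr {α : Type} {n : ℕ} {x y : ℕ → α} (h : ∀ j < n, x j = y j) :
    vals n x = vals n y :=
  sum_congr rfl fun j hj => by rw [h j (mem_range.1 hj)]

theorem vals_reflect {α : Type} (n : ℕ) (x : ℕ → α) :
    vals n (fun j => x (n - 1 - j)) = vals n x :=
  sum_range_reflect (fun j => ({x j} : Multiset α)) n

theorem card_vals {α : Type} (n : ℕ) (x : ℕ → α) : Multiset.card (vals n x) = n := by
  induction n with
  | zero => simp [vals]
  | succ n ih => simp [vals_succ, ih]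

theorem map_vals {α β : Type} (f : α → β) (n : ℕ) (x : ℕ → α) :
    (vals n x).map f = vals n (fun j => f (x j)) := by
  induction n with
  | zero => simp [vals]
  | succ n ih => simp [vals_succ, ih]

/-- A labelled cycle: length, vertex labels, edge labels. -/
structure Cyc (α : Type) : Type where
  n : ℕ
  x : ℕ → α
  e : ℕ → α

/-- Vertex `j` lies between the edges `j` and `j + 1`. -/
def Cyc.ok {α : Type} (V : α → α → α → Prop) (c : Cyc α) : Prop :=
  c.e c.n = c.e 0 ∧ ∀ j < c.n, V (c.e j) (c.x j) (c.e (j + 1))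

def Cyc.lines {α : Type} (c : Cyc α) : Multiset α := vals c.n c.x + vals c.n c.e

/-- Cycles of lengths `M`, valid for `V`, using the labels `D`. -/
def Cycles {α : Type} (V : α → α → α → Prop) (M : Multiset ℕ) (D : Multiset α) : Prop :=
  ∃ C : Multiset (Cyc α), (∀ c ∈ C, c.ok V) ∧ C.map Cyc.n = M ∧ (C.map Cyc.lines).sum = D

theorem Cycles.nil {α : Type} (V : α → α → α → Prop) : Cycles V 0 0 := ⟨0, by simp, by simp, by simp⟩

theorem Cycles.cons {α : Type} {V : α → α → α → Prop} {M : Multiset ℕ} {D : Multiset α}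
    (h : Cycles V M D) (c : Cyc α) (hc : c.ok V) : Cycles V (c.n ::ₘ M) (D + c.lines) := by
  obtain ⟨C, h1, h2, h3⟩ := h
  refine ⟨c ::ₘ C, ?_, by simp [h2], by simp [h3, add_comm]⟩
  intro d hd
  rcases Multiset.mem_cons.1 hd with rfl | hd
  · exact hc
  · exact h1 d hd

theorem Cycles.card {α : Type} {V : α → α → α → Prop} {M : Multiset ℕ} {D : Multiset α}
    (h : Cycles V M D) : Multiset.card D = 2 * M.sum := by
  obtain ⟨C, -, rfl, rfl⟩ := h
  induction C using Multiset.induction_on with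
  | empty => simp
  | cons c C ih =>
    simp only [Multiset.map_cons, Multiset.sum_cons, Multiset.card_add, ih]
    simp only [Cyc.lines, Multiset.card_add, card_vals]; ring

theorem Cycles.map {α β : Type} {V : α → α → α → Prop} {W : β → β → β → Prop} (f : α → β)
    {M : Multiset ℕ} {D : Multiset α} (h : Cycles V M D)
    (hf : ∀ p ∈ D, ∀ x ∈ D, ∀ q ∈ D, V p x q → W (f p) (f x) (f q)) :
    Cycles W M (D.map f) := by
  obtain ⟨C, h1, rfl, rfl⟩ := h
  refine ⟨C.map fun c => ⟨c.n, fun j => f (c.x j), fun j => f (c.e j)⟩, ?_, by simp, ?_⟩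
  · intro d hd
    obtain ⟨c, hc, rfl⟩ := Multiset.mem_map.1 hd
    have hle : c.lines ≤ (C.map Cyc.lines).sum :=
      Multiset.single_le_sum (fun _ _ => Multiset.zero_le _) _ (Multiset.mem_map_of_mem _ hc)
    have hx : ∀ j < c.n, c.x j ∈ (C.map Cyc.lines).sum := fun j hj =>
      Multiset.mem_of_le hle (by
        simp only [Cyc.lines, vals, Multiset.mem_add, Multiset.mem_sum, Multiset.mem_singleton]
        exact Or.inl ⟨j, mem_range.2 hj, rfl⟩)
    have he : ∀ j < c.n, c.e j ∈ (C.map Cyc.lines).sum := fun j hj =>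
      Multiset.mem_of_le hle (by
        simp only [Cyc.lines, vals, Multiset.mem_add, Multiset.mem_sum, Multiset.mem_singleton]
        exact Or.inr ⟨j, mem_range.2 hj, rfl⟩)
    refine ⟨congrArg f (h1 c hc).1, fun j hj => hf _ (he j hj) _ (hx j hj) _ ?_ ((h1 c hc).2 j hj)⟩
    rcases Nat.lt_or_ge (j + 1) c.n with h | h
    · exact he _ h
    · have : j + 1 = c.n := le_antisymm hj h
      rw [this, (h1 c hc).1]
      exact he 0 (by omega)
  · clear h1 hf
    induction C using Multiset.induction_on with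
    | empty => simp
    | cons c C ih =>
      simp only [Multiset.map_cons, Multiset.sum_cons, Multiset.map_add, ih]
      simp only [Cyc.lines, Multiset.map_add, map_vals]

/-- The disjoint union of cycles of lengths `M` has a vertex-magic total labeling. -/
def Lab (M : Multiset ℕ) : Prop :=
  ∃ (k : ℕ) (D : Multiset ℕ), Cycles (fun p x q => p + x + q = k) M D ∧ D.Nodup ∧
    ∀ l ∈ D, 1 ≤ l ∧ l ≤ 2 * M.sum

/-- Signed position of a line: family `4` runs downwards. -/
def sv (l : ℕ × ℕ) : ℤ := if l.1 = 4 then -(l.2 : ℤ) else l.2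

/-- The three lines through a point of chain `A` (families 0, 1, 4) or `B` (families 2, 3, 4). -/
def Pt (A B : ℤ) (p x q : ℕ × ℕ) : Prop :=
  (2 ^ p.1 + 2 ^ x.1 + 2 ^ q.1 = 19 ∧ sv p + sv x + sv q = A) ∨
    (2 ^ p.1 + 2 ^ x.1 + 2 ^ q.1 = 28 ∧ sv p + sv x + sv q = B)

theorem Pt.symm {A B : ℤ} {p x q : ℕ × ℕ} (h : Pt A B p x q) : Pt A B q x p := by
  unfold Pt at *
  rcases h with ⟨h1, h2⟩ | ⟨h1, h2⟩
  · exact Or.inl ⟨by omega, by omega⟩
  · exact Or.inr ⟨by omega, by omega⟩

/-- Machine state. -/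
structure St : Type where
  la : ℕ
  lb : ℕ
  th : ℕ
  m : ℕ
  ex : ℕ

def absl (b : ℕ → ℕ) (c : ℕ) : ℕ × ℕ := (c / 64, b (c / 64) + c % 64)

def Core (s : St) (b : ℕ → ℕ) (A B : ℤ) (D : Multiset (ℕ × ℕ)) : Prop :=
  (s.la : ℤ) = 20 + A + b 4 - b 0 - b 1 ∧ (s.lb : ℤ) = 20 + B + b 4 - b 2 - b 3 ∧
  (s.th : ℤ) = 20 + A - B - (b 0 - b 1) - (b 2 - b 3) ∧ D.Nodup ∧
  (∀ l ∈ D, l.1 < 5 ∧ (l.2 < b l.1 ∨ ∃ c < 320, l = absl b c ∧ s.m.testBit c = true)) ∧
  Multiset.card D = b 0 + b 1 + b 2 + b 3 + b 4 + s.ex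

def alloc (s : St) (c : ℕ) : St := ⟨s.la, s.lb, s.th, s.m ||| 2 ^ c, s.ex + 1⟩

def fresh (s : St) (c : ℕ) : Bool := Nat.blt c 320 && !s.m.testBit c

theorem Core.alloc {s : St} {b : ℕ → ℕ} {A B : ℤ} {D : Multiset (ℕ × ℕ)} (h : Core s b A B D)
    {c : ℕ} (hc : fresh s c = true) : Core (alloc s c) b A B (absl b c ::ₘ D) := by
  obtain ⟨h1, h2, h3, h4, h5, h6⟩ := h
  simp only [fresh, Bool.and_eq_true, Nat.blt_eq, Bool.not_eq_true'] at hc
  refine ⟨h1, h2, h3, Multiset.nodup_cons.2 ⟨fun hm => ?_, h4⟩, fun l hl => ?_, ?_⟩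
  · rcases (h5 _ hm).2 with h | ⟨d, -, hd, ht⟩
    · simp only [absl] at h; omega
    · simp only [absl, Prod.mk.injEq] at hd
      obtain ⟨e1, e2⟩ := hd
      rw [e1] at e2
      have : c = d := by omega
      rw [this, ht] at hc
      exact absurd hc.2 (by simp)
  · rcases Multiset.mem_cons.1 hl with rfl | hl
    · refine ⟨by simp only [absl]; omega, Or.inr ⟨c, hc.1, rfl, ?_⟩⟩
      simp [Two.alloc, Nat.testBit_or]
    · refine ⟨(h5 l hl).1, (h5 l hl).2.imp id fun ⟨d, hd, e, ht⟩ => ⟨d, hd, e, ?_⟩⟩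
      simp [Two.alloc, Nat.testBit_or, ht]
  · simp only [Multiset.card_cons, h6, Two.alloc]; omega

def pv (c : ℕ) : ℕ := cond (Nat.beq (c / 64) 4) 0 (c % 64)
def nv (c : ℕ) : ℕ := cond (Nat.beq (c / 64) 4) (c % 64) 0

def ptOK (s : St) (p x q : ℕ) : Bool :=
  (Nat.beq (2 ^ (p / 64) + 2 ^ (x / 64) + 2 ^ (q / 64)) 19 &&
      Nat.beq (pv p + pv x + pv q + 20) (nv p + nv x + nv q + s.la)) ||
    (Nat.beq (2 ^ (p / 64) + 2 ^ (x / 64) + 2 ^ (q / 64)) 28 &&
      Nat.beq (pv p + pv x + pv q + 20) (nv p + nv x + nv q + s.lb))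

theorem lt_five {a u v n : ℕ} (h : 2 ^ a + u + v = n) (hn : n < 32) : a < 5 := by
  by_contra hc
  have : 2 ^ 5 ≤ 2 ^ a := Nat.pow_le_pow_right (by norm_num) (by omega)
  generalize 2 ^ a = z at *
  omega

theorem sv_absl (b : ℕ → ℕ) (c : ℕ) :
    sv (absl b c) = (pv c : ℤ) - nv c + (if c / 64 = 4 then -(b 4 : ℤ) else b (c / 64)) := by
  by_cases h : c / 64 = 4
  · simp [sv, absl, pv, nv, h]
  · have : Nat.beq (c / 64) 4 = false := by
      cases hb : Nat.beq (c / 64) 4
      · rfl
      · exact absurd (Nat.eq_of_beq_eq_true hb) h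
    simp [sv, absl, pv, nv, h, this, add_comm]

theorem Core.pt {s : St} {b : ℕ → ℕ} {A B : ℤ} {D : Multiset (ℕ × ℕ)} (h : Core s b A B D)
    {p x q : ℕ} (hp : ptOK s p x q = true) : Pt A B (absl b p) (absl b x) (absl b q) := by
  obtain ⟨h1, h2, -⟩ := h
  simp only [ptOK, Bool.or_eq_true, Bool.and_eq_true, Nat.beq_eq] at hp
  unfold Pt
  rw [sv_absl, sv_absl, sv_absl]
  simp only [absl]
  generalize p / 64 = f1 at *
  generalize x / 64 = f2 at *
  generalize q / 64 = f3 at *
  have k1 : f1 < 5 := by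
    rcases hp with ⟨h, -⟩ | ⟨h, -⟩ <;> exact lt_five h (by norm_num)
  have k2 : f2 < 5 := by
    rcases hp with ⟨h, -⟩ | ⟨h, -⟩ <;>
      exact lt_five ((add_comm (2 ^ f1) (2 ^ f2)) ▸ h) (by norm_num)
  have k3 : f3 < 5 := by
    rcases hp with ⟨h, -⟩ | ⟨h, -⟩ <;>
      exact lt_five (u := 2 ^ f1) (v := 2 ^ f2) (((add_rotate _ _ _).trans (add_rotate _ _ _)).symm.trans h)
        (by norm_num)
  rcases hp with ⟨h, h'⟩ | ⟨h, h'⟩
  · refine Or.inl ⟨h, ?_⟩
    interval_cases f1 <;> interval_cases f2 <;> interval_cases f3 <;> simp at h ⊢ <;> omega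
  · refine Or.inr ⟨h, ?_⟩
    interval_cases f1 <;> interval_cases f2 <;> interval_cases f3 <;> simp at h ⊢ <;> omega

/-- Shift amounts, packed in base 64. -/
def shf (w f : ℕ) : ℕ := w / 64 ^ f % 64

def shiftOK (s : St) (w : ℕ) (t : St) : Bool :=
  Nat.beq (t.la + shf w 0 + shf w 1) (s.la + shf w 4) &&
  Nat.beq (t.lb + shf w 2 + shf w 3) (s.lb + shf w 4) &&
  Nat.beq (t.th + shf w 0 + shf w 2) (s.th + shf w 1 + shf w 3) &&
  Nat.beq (t.ex + shf w 0 + shf w 1 + shf w 2 + shf w 3 + shf w 4) s.ex &&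
  (List.range 320).all fun c =>
    !s.m.testBit c || Nat.blt (c % 64) (shf w (c / 64)) || t.m.testBit (c - shf w (c / 64))

theorem absl_shift (b : ℕ → ℕ) (w : ℕ) {c d : ℕ} (h1 : d / 64 = c / 64)
    (h2 : d + shf w (c / 64) = c) : absl (fun f => b f + shf w f) d = absl b c := by
  simp only [absl, h1, Prod.mk.injEq, true_and]
  omega

theorem Core.shift {s t : St} {b : ℕ → ℕ} {A B : ℤ} {D : Multiset (ℕ × ℕ)} (h : Core s b A B D)
    {w : ℕ} (hw : shiftOK s w t = true) : Core t (fun f => b f + shf w f) A B D := by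
  obtain ⟨h1, h2, h3, h4, h5, h6⟩ := h
  simp only [shiftOK, Bool.and_eq_true, Nat.beq_eq, List.all_eq_true, List.mem_range,
    Bool.or_eq_true, Bool.not_eq_true', Nat.blt_eq] at hw
  obtain ⟨⟨⟨⟨w1, w2⟩, w3⟩, w4⟩, w5⟩ := hw
  refine ⟨by push_cast; omega, by push_cast; omega, by push_cast; omega, h4, fun l hl => ?_,
    by simp only []; omega⟩
  refine ⟨(h5 l hl).1, ?_⟩
  rcases (h5 l hl).2 with h | ⟨c, hc, rfl, ht⟩
  · left; simp only []; omega
  · by_cases hs : c % 64 < shf w (c / 64)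
    · left; simp only [absl]; omega
    · right
      rcases w5 c hc with (h | h) | h
      · rw [ht] at h; exact absurd h (by simp)
      · exact absurd h hs
      · exact ⟨_, by omega, (absl_shift b w (by omega) (by omega)).symm, h⟩

/-- All cycles closed. -/
def RealC (s : St) (M : Multiset ℕ) : Prop :=
  ∃ (b : ℕ → ℕ) (A B : ℤ) (D : Multiset (ℕ × ℕ)), Core s b A B D ∧ Cycles (Pt A B) M D

/-- One path with `n` vertices is open, from the line `h` to the line `t`. -/
def RealO (s : St) (h t : ℕ) (M : Multiset ℕ) (n : ℕ) : Prop :=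
  ∃ (b : ℕ → ℕ) (A B : ℤ) (D : Multiset (ℕ × ℕ)) (x e : ℕ → ℕ × ℕ),
    Core s b A B (D + (vals n x + vals (n + 1) e)) ∧ Cycles (Pt A B) M D ∧
    (∀ j < n, Pt A B (e j) (x j) (e (j + 1))) ∧ e 0 = absl b h ∧ e n = absl b t

theorem RealC.init (la lb th : ℕ) (h : th + lb = la + 20) : RealC ⟨la, lb, th, 0, 0⟩ 0 :=
  ⟨fun _ => 0, (la : ℤ) - 20, (lb : ℤ) - 20, 0,
    ⟨by simp, by simp, by simp only []; push_cast; omega, by simp, by simp, by simp⟩, Cycles.nil _⟩

theorem RealC.start {s : St} {M : Multiset ℕ} (h : RealC s M) {p : ℕ} (hp : fresh s p = true) :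
    RealO (alloc s p) p p M 0 := by
  obtain ⟨b, A, B, D, h1, h2⟩ := h
  refine ⟨b, A, B, D, fun _ => absl b p, fun _ => absl b p, ?_, h2, by simp, rfl, rfl⟩
  have := h1.alloc hp
  convert this using 1
  simp only [vals, ← Multiset.singleton_add, range_zero, sum_empty, zero_add, range_one,
    sum_singleton]
  abel

theorem RealO.rev {s : St} {h t n : ℕ} {M : Multiset ℕ} (H : RealO s h t M n) :
    RealO s t h M n := by
  obtain ⟨b, A, B, D, x, e, h1, h2, h3, h4, h5⟩ := H
  refine ⟨b, A, B, D, fun j => x (n - 1 - j), fun j => e (n + 1 - 1 - j), ?_, h2, fun j hj => ?_,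
    by simpa using h5, by simpa using h4⟩
  · rw [vals_reflect, vals_reflect]; exact h1
  · have := (h3 (n - 1 - j) (by omega)).symm
    have e1 : n - 1 - j + 1 = n + 1 - 1 - j := by omega
    have e2 : n - 1 - j = n + 1 - 1 - (j + 1) := by omega
    rw [e1] at this
    simp only []
    rw [← e2]
    exact this

def good (s : St) (t x q : ℕ) : Bool := ptOK s t x q && fresh s x && fresh (alloc s x) q

theorem RealO.ext {s : St} {h t n : ℕ} {M : Multiset ℕ} (H : RealO s h t M n) {x q : ℕ}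
    (hg : good s t x q = true) : RealO (alloc (alloc s x) q) h q M (n + 1) := by
  obtain ⟨b, A, B, D, X, e, h1, h2, h3, h4, h5⟩ := H
  simp only [good, Bool.and_eq_true] at hg
  obtain ⟨⟨g1, g2⟩, g3⟩ := hg
  refine ⟨b, A, B, D, Function.update X n (absl b x), Function.update e (n + 1) (absl b q), ?_, h2,
    fun j hj => ?_, by simpa using h4, by simp⟩
  · have := (h1.alloc g2).alloc g3
    rw [vals_succ n, vals_succ (n + 1), Function.update_self, Function.update_self,
      vals_congr (n := n) (y := X) (fun j hj => Function.update_of_ne (by omega) _ _),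
      vals_congr (n := n + 1) (y := e) (fun j hj => Function.update_of_ne (by omega) _ _)]
    convert this using 1
    simp only [← Multiset.singleton_add]
    abel
  · rcases Nat.lt_or_ge j n with hn | hn
    · rw [Function.update_of_ne (by omega), Function.update_of_ne (by omega),
        Function.update_of_ne (by omega)]
      exact h3 j hn
    · have : j = n := by omega
      subst this
      rw [Function.update_of_ne (by omega), Function.update_self, Function.update_self, h5]
      exact h1.pt g1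

theorem RealO.close {s : St} {h t n : ℕ} {M : Multiset ℕ} (H : RealO s h t M n) {x : ℕ}
    (g1 : ptOK s t x h = true) (g2 : fresh s x = true) : RealC (alloc s x) ((n + 1) ::ₘ M) := by
  obtain ⟨b, A, B, D, X, e, h1, h2, h3, h4, h5⟩ := H
  have hc : (⟨n + 1, Function.update X n (absl b x), Function.update e (n + 1) (absl b h)⟩ :
      Cyc (ℕ × ℕ)).ok (Pt A B) := by
    refine ⟨by simp [h4], fun j hj => ?_⟩
    simp only [] at hj ⊢
    rcases Nat.lt_or_ge j n with hn | hn
    · rw [Function.update_of_ne (by omega), Function.update_of_ne (by omega),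
        Function.update_of_ne (by omega)]
      exact h3 j hn
    · have : j = n := by omega
      subst this
      rw [Function.update_of_ne (by omega), Function.update_self, Function.update_self, h5]
      exact h1.pt g1
  refine ⟨b, A, B, _, ?_, h2.cons _ hc⟩
  have := h1.alloc g2
  simp only [Cyc.lines]
  rw [vals_succ n, Function.update_self,
    vals_congr (n := n) (y := X) (fun j hj => Function.update_of_ne (by omega) _ _),
    vals_congr (n := n + 1) (y := e) (fun j hj => Function.update_of_ne (by omega) _ _)]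
  convert this using 1
  simp only [← Multiset.singleton_add]
  abel

theorem RealC.shift {s t : St} {M : Multiset ℕ} (h : RealC s M) {w : ℕ}
    (hw : shiftOK s w t = true) : RealC t M := by
  obtain ⟨b, A, B, D, h1, h2⟩ := h
  exact ⟨_, A, B, D, h1.shift hw, h2⟩

def mv (w c d : ℕ) : Bool := Nat.beq (d / 64) (c / 64) && Nat.beq (d + shf w (c / 64)) c

theorem RealO.shift {s s' : St} {h t h' t' n : ℕ} {M : Multiset ℕ} (H : RealO s h t M n) {w : ℕ}
    (hw : shiftOK s w s' = true) (m1 : mv w h h' = true) (m2 : mv w t t' = true) :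
    RealO s' h' t' M n := by
  obtain ⟨b, A, B, D, X, e, h1, h2, h3, h4, h5⟩ := H
  simp only [mv, Bool.and_eq_true, Nat.beq_eq] at m1 m2
  exact ⟨_, A, B, D, X, e, h1.shift hw, h2, h3, by rw [h4, absl_shift b w m1.1 m1.2],
    by rw [h5, absl_shift b w m2.1 m2.2]⟩

/-- The final labels. -/
def lbl (b : ℕ → ℕ) (l : ℕ × ℕ) : ℕ :=
  if l.1 = 0 then 1 + l.2 else if l.1 = 2 then 1 + b 0 + l.2
  else if l.1 = 3 then 1 + b 0 + b 2 + l.2 else if l.1 = 1 then 1 + b 0 + b 2 + b 3 + l.2
  else b 0 + b 1 + b 2 + b 3 + b 4 - l.2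

theorem RealC.lab {la lb th : ℕ} {M : Multiset ℕ} (h : RealC ⟨la, lb, th, 0, 0⟩ M)
    (hf : th + la = lb + 20) : Lab M := by
  obtain ⟨b, A, B, D, ⟨h1, h2, h3, h4, h5, h6⟩, hc⟩ := h
  simp only [Nat.zero_testBit, Bool.false_eq_true, and_false, exists_false, or_false] at h1 h2 h3 h5 h6
  have hcard := hc.card
  refine ⟨(2 + b 0 + b 2 + b 3 + (b 0 + b 1 + b 2 + b 3 + b 4) + A).toNat, D.map (lbl b),
    hc.map _ ?_, h4.map_on ?_, ?_⟩
  · rintro ⟨f1, i1⟩ m1 ⟨f2, i2⟩ m2 ⟨f3, i3⟩ m3 hp
    obtain ⟨k1, j1⟩ := h5 _ m1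
    obtain ⟨k2, j2⟩ := h5 _ m2
    obtain ⟨k3, j3⟩ := h5 _ m3
    simp only [Pt, sv] at hp k1 k2 k3 j1 j2 j3
    simp only [lbl]
    interval_cases f1 <;> interval_cases f2 <;> interval_cases f3 <;> simp at hp ⊢ <;> omega
  · rintro ⟨f1, i1⟩ m1 ⟨f2, i2⟩ m2 hp
    obtain ⟨k1, j1⟩ := h5 _ m1
    obtain ⟨k2, j2⟩ := h5 _ m2
    simp only [lbl] at hp k1 k2 j1 j2
    interval_cases f1 <;> interval_cases f2 <;> simp at hp ⊢ <;> omega
  · intro l hl
    obtain ⟨⟨f, i⟩, m1, rfl⟩ := Multiset.mem_map.1 hl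
    obtain ⟨k1, j1⟩ := h5 _ m1
    simp only [lbl] at k1 j1 ⊢
    interval_cases f <;> simp <;> omega

end Pool.Agent.MP_29e935_co.Two

end

section

/-!
Labelings of disjoint unions of cycles by an interval whose sums form a transversal of the
mirror pairs of an interval twice as long: basic objects and gluing.
-/

set_option autoImplicit false

namespace Pool.Agent.MP_29e935_co.Four

open Pool.Agent.MP_29e935_co.Two

theorem cycles_add {α : Type} {V : α → α → α → Prop} {M M' : Multiset ℕ} {D D' : Multiset α}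
    (h : Cycles V M D) (h' : Cycles V M' D') : Cycles V (M + M') (D + D') := by
  obtain ⟨C, h1, rfl, rfl⟩ := h
  obtain ⟨C', h2, rfl, rfl⟩ := h'
  refine ⟨C + C', fun c hc => ?_, by simp, by simp⟩
  rcases Multiset.mem_add.1 hc with hc | hc
  · exact h1 c hc
  · exact h2 c hc

theorem cycles_all {α : Type} {V : α → α → α → Prop} {M : Multiset ℕ} {D : Multiset α}
    {R : α → Prop} (h : Cycles V M D) (hR : ∀ p x q, V p x q → R p ∧ R x) : ∀ l ∈ D, R l := by
  obtain ⟨C, h1, -, rfl⟩ := h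
  intro l hl
  obtain ⟨c, hc, hl⟩ := Multiset.mem_bind.1 (show l ∈ C.bind Cyc.lines from hl)
  simp only [Cyc.lines, vals, Multiset.mem_add, Multiset.mem_sum, Multiset.mem_singleton,
    Finset.mem_range] at hl
  rcases hl with ⟨j, hj, rfl⟩ | ⟨j, hj, rfl⟩
  · exact (hR _ _ _ ((h1 c hc).2 j hj)).2
  · exact (hR _ _ _ ((h1 c hc).2 j hj)).1

/-- Edge labels `p, q < n`; the line `x = n + w` stands for the pair `a + w`, `a + 2n - 1 - w`. -/
def Vr (n : ℕ) (a : ℤ) (p x q : ℕ) : Prop :=
  p < n ∧ q < n ∧ n ≤ x ∧ x < 2 * n ∧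
    ((p : ℤ) + q + n = x + a ∨ (p : ℤ) + q + x + 1 = 3 * n + a)

def T (a : ℤ) (M : Multiset ℕ) : Prop := ∃ D, Cycles (Vr M.sum a) M D ∧ D.Nodup

theorem T.zero (a : ℤ) : T a 0 := ⟨0, Cycles.nil _, by simp⟩

theorem T.symm {a : ℤ} {M : Multiset ℕ} (h : T a M) : T (-a - 1) M := by
  obtain ⟨D, h1, h2⟩ := h
  refine ⟨D.map fun l => if l < M.sum then M.sum - 1 - l else l, h1.map _ ?_, h2.map ?_⟩
  · rintro p - x - q - ⟨k1, k2, k3, k4, k5⟩
    simp only [Vr, if_pos k1, if_pos k2, if_neg (not_lt.2 k3)]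
    omega
  · intro u v h
    simp only at h
    split_ifs at h <;> omega

/-- The label of an abstract line: family `0` counts upwards, family `1` downwards. -/
def lab (n : ℕ) (l : ℕ × ℕ) : ℤ := if l.1 = 0 then l.2 else (n : ℤ) - 1 - l.2

def Pt (n : ℕ) (p x q : ℕ × ℕ) : Prop :=
  p.1 < 2 ∧ q.1 < 2 ∧ x.1 = 2 ∧
    (lab n p + lab n q = x.2 + 4 ∨ lab n p + lab n q + x.2 + 1 = 2 * n + 4)

theorem Pt.symm {n : ℕ} {p x q : ℕ × ℕ} (h : Pt n p x q) : Pt n q x p := by
  unfold Pt at *
  omega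

theorem glue {n PA PB : ℕ} {G M : Multiset ℕ} {D : Multiset (ℕ × ℕ)} (hc : Cycles (Pt n) G D)
    (hn : D.Nodup)
    (hb : ∀ l ∈ D, (l.1 = 0 → l.2 < PA) ∧ (l.1 = 1 → l.2 < PB) ∧ (l.1 = 2 → l.2 < PA + PB))
    (hG : G.sum = PA + PB) (hs : n = PA + PB + M.sum) (h : T (4 + PB - PA) M) : T 4 (G + M) := by
  obtain ⟨E, h1, h2⟩ := h
  have h3 := cycles_all (R := fun l => l.1 < 3) hc fun p x q h => by unfold Pt at h; omega
  have h4 := cycles_all (R := fun l => l < 2 * M.sum) h1 fun p x q h => by unfold Vr at h; omega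
  have hsum : (G + M).sum = n := by rw [Multiset.sum_add]; omega
  refine ⟨D.map (fun l => if l.1 = 0 then l.2 else if l.1 = 1 then n - 1 - l.2 else n + l.2) +
    E.map (fun l => if l < M.sum then l + PA else l + 2 * (PA + PB)),
    cycles_add (hc.map _ ?_) (h1.map _ ?_), ?_⟩
  · rintro ⟨f1, i1⟩ m1 ⟨f2, i2⟩ m2 ⟨f3, i3⟩ m3 ⟨k1, k2, k3, k4⟩
    have j1 := hb _ m1
    have j2 := hb _ m2
    have j3 := hb _ m3
    simp only [lab] at k1 k2 k3 k4 j1 j2 j3
    subst k3
    rw [hsum]
    simp only [Vr]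
    interval_cases f1 <;> interval_cases f3 <;> simp at k4 j1 j2 j3 ⊢ <;> omega
  · rintro p - x - q - ⟨k1, k2, k3, k4, k5⟩
    rw [hsum]
    simp only [Vr, if_pos k1, if_pos k2, if_neg (not_lt.2 k3)]
    omega
  · rw [Multiset.nodup_add]
    refine ⟨hn.map_on ?_, h2.map ?_, ?_⟩
    · rintro ⟨f1, i1⟩ m1 ⟨f2, i2⟩ m2 hp
      have j1 := hb _ m1
      have j2 := hb _ m2
      have k1 := h3 _ m1
      have k2 := h3 _ m2
      simp only at k1 k2 j1 j2 hp
      interval_cases f1 <;> interval_cases f2 <;> simp at hp j1 j2 ⊢ <;> omega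
    · intro u v h
      simp only at h
      split_ifs at h <;> omega
    · rw [Multiset.disjoint_left]
      intro z hz hz'
      obtain ⟨⟨f1, i1⟩, m1, e1⟩ := Multiset.mem_map.1 hz
      obtain ⟨u, m2, e2⟩ := Multiset.mem_map.1 hz'
      have j1 := hb _ m1
      have k1 := h3 _ m1
      have k2 := h4 _ m2
      simp only at k1 j1 e1
      interval_cases f1 <;> simp at e1 j1 <;> split_ifs at e2 <;> omega

/-- An open path from the line `h` to the line `t` with `n` vertices. -/
inductive Path {α : Type} (V : α → α → α → Prop) : α → α → ℕ → Multiset α → Prop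
  | one (h : α) : Path V h h 0 {h}
  | snoc {h t x q : α} {n : ℕ} {D : Multiset α} :
      Path V h t n D → V t x q → Path V h q (n + 1) (x ::ₘ q ::ₘ D)

theorem Path.join {α : Type} {V : α → α → α → Prop} {h t x h' t' : α} {n n' : ℕ}
    {D D' : Multiset α} (H : Path V h t n D) (hx : V t x h') (H' : Path V h' t' n' D') :
    Path V h t' (n + n' + 1) (x ::ₘ (D + D')) := by
  induction H' with
  | one =>
    have := H.snoc hx
    convert this using 1
    simp only [← Multiset.singleton_add]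
    abel
  | snoc _ hv ih =>
    have := ih.snoc hv
    convert this using 1
    · omega
    · simp only [← Multiset.singleton_add]
      abel

theorem Path.rev {α : Type} {V : α → α → α → Prop} (hV : ∀ p x q, V p x q → V q x p) {h t : α}
    {n : ℕ} {D : Multiset α} (H : Path V h t n D) : Path V t h n D := by
  induction H with
  | one => exact Path.one _
  | snoc _ hv ih =>
    have := (Path.one _).join (hV _ _ _ hv) ih
    rw [Nat.zero_add, Multiset.singleton_add] at this
    exact this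

theorem Path.fn {α : Type} {V : α → α → α → Prop} {h t : α} {n : ℕ} {D : Multiset α}
    (H : Path V h t n D) : ∃ x e : ℕ → α, (∀ j < n, V (e j) (x j) (e (j + 1))) ∧ e 0 = h ∧
      e n = t ∧ D = vals n x + vals (n + 1) e := by
  induction H with
  | one => exact ⟨fun _ => h, fun _ => h, by simp, rfl, rfl, by simp [vals]⟩
  | @snoc t x q n D _ hv ih =>
    obtain ⟨X, e, h3, h4, h5, rfl⟩ := ih
    refine ⟨Function.update X n x, Function.update e (n + 1) q, fun j hj => ?_,
      by simpa using h4, by simp, ?_⟩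
    · rcases Nat.lt_or_ge j n with hn | hn
      · rw [Function.update_of_ne (by omega), Function.update_of_ne (by omega),
          Function.update_of_ne (by omega)]
        exact h3 j hn
      · have : j = n := by omega
        subst this
        rw [Function.update_of_ne (by omega), Function.update_self, Function.update_self, h5]
        exact hv
    · rw [vals_succ n (Function.update X n x), vals_succ (n + 1), Function.update_self,
        Function.update_self, vals_congr (n := n) (x := Function.update X n x) (y := X)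
          (fun j hj => Function.update_of_ne (by omega) _ _),
        vals_congr (n := n + 1) (x := Function.update e (n + 1) q) (y := e)
          (fun j hj => Function.update_of_ne (by omega) _ _)]
      simp only [← Multiset.singleton_add]
      abel

theorem Path.close {α : Type} {V : α → α → α → Prop} {h t x : α} {n : ℕ} {D E : Multiset α}
    {M : Multiset ℕ} (H : Path V h t n D) (hx : V t x h) (hc : Cycles V M E) :
    Cycles V ((n + 1) ::ₘ M) (E + x ::ₘ D) := by
  obtain ⟨X, e, h3, h4, h5, h6⟩ := (H.snoc hx).fn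
  have := hc.cons ⟨n + 1, X, e⟩ ⟨h5.trans h4.symm, h3⟩
  convert this using 2
  rw [vals_succ (n + 1), h5, Multiset.add_cons, Multiset.cons_swap, Multiset.cons_inj_right] at h6
  exact h6

def Paths {α : Type} (V : α → α → α → Prop) : List (α × α × ℕ) → Multiset α → Prop
  | [], D => D = 0
  | p :: L, D => ∃ D1 D2, Path V p.1 p.2.1 p.2.2 D1 ∧ Paths V L D2 ∧ D = D1 + D2

end Pool.Agent.MP_29e935_co.Four

end
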