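import Pool.Agent.Mg.F29e935p.G0b13cc
import Pool.Agent.Mg.F29e935p.G0f118d

/-!
Every disjoint union of cycles other than two triangles has a vertex-magic total labeling.
-/

set_option autoImplicit false

namespace Pool.Agent.MP_29e935_co.Two

def baseL : List (List ℕ) := baseT.map (·.1)
def blockL : List (List ℕ) := blockT.map (·.1)
def dirL : List (List ℕ) := dirT.map (·.1)

theorem reach_base {L : List ℕ} (h : L ∈ baseL) : Reach (L : Multiset ℕ) := by
  obtain ⟨e, he, rfl⟩ := List.mem_map.1 h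
  exact baseOK_sound (List.all_eq_true.1 baseT_ok e he)

theorem good_block {L : List ℕ} (h : L ∈ blockL) : Good (L : Multiset ℕ) := by
  obtain ⟨e, he, rfl⟩ := List.mem_map.1 h
  exact blockOK_sound (List.all_eq_true.1 blockT_ok e he)

theorem lab_dir {L : List ℕ} (h : L ∈ dirL) : Lab (L : Multiset ℕ) := by
  obtain ⟨e, he, rfl⟩ := List.mem_map.1 h
  exact dirOK_sound (List.all_eq_true.1 dirT_ok e he)

theorem good_long {l : ℕ} (h : 14 ≤ l) : Good {l} := by
  have hc : ∀ a < 6, 14 + a ∈ longT.map (·.1) := by decide +kernel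
  obtain ⟨e, he, h2⟩ := List.mem_map.1 (hc ((l - 14) % 6) (Nat.mod_lt _ (by norm_num)))
  have := longOK_sound (List.all_eq_true.1 longT_ok e he) ((l - 14) / 6)
  rwa [h2, show 14 + (l - 14) % 6 + 6 * ((l - 14) / 6) = l by omega] at this

theorem reach_long {l : ℕ} (h : 14 ≤ l) {X : List ℕ} (hX : X ∈ [[], [3, 4], [5], [3, 5], [6]]) :
    Reach (l ::ₘ (X : Multiset ℕ)) := by
  have hc : ∀ X ∈ [[], [3, 4], [5], [3, 5], [6]], ∀ a < 6,
      (X, 14 + a) ∈ lbaseT.map (fun e => (e.1, e.2.1)) := by decide +kernel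
  obtain ⟨e, he, h2⟩ := List.mem_map.1 (hc X hX ((l - 14) % 6) (Nat.mod_lt _ (by norm_num)))
  have := lbaseOK_sound (List.all_eq_true.1 lbaseT_ok e he) ((l - 14) / 6)
  obtain ⟨h3, h4⟩ := Prod.mk.inj h2
  rwa [h3, h4, show 14 + (l - 14) % 6 + 6 * ((l - 14) / 6) = l by omega] at this

def E4 : List (List ℕ) := [[], [4], [5], [6], [4, 4]]

def S4 : List (List ℕ) := [
  [7], [8], [4, 5], [9], [4, 6], [5, 5], [10], [4, 7], [5, 6], [11], [4, 4, 4], [4, 8], [5, 7],
  [6, 6], [12], [4, 4, 5], [4, 9], [5, 8], [6, 7], [13], [4, 4, 6], [4, 5, 5], [4, 10], [5, 9],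
  [6, 8], [7, 7], [4, 5, 6], [4, 11], [5, 5, 5], [5, 10], [6, 9], [7, 8], [4, 4, 4, 4],
  [4, 5, 7], [4, 6, 6], [4, 12], [5, 5, 6], [5, 11], [6, 10], [7, 9], [8, 8], [4, 5, 8],
  [4, 6, 7], [4, 13], [5, 5, 7], [5, 6, 6], [5, 12], [6, 11], [7, 10], [8, 9], [4, 5, 9],
  [4, 6, 8], [4, 7, 7], [5, 5, 8], [5, 6, 7], [5, 13], [6, 6, 6], [6, 12], [7, 11], [8, 10],
  [9, 9], [4, 5, 5, 5], [4, 5, 10], [4, 6, 9], [5, 5, 9], [5, 6, 8], [5, 7, 7], [6, 6, 7],
  [6, 13], [7, 12], [8, 11], [9, 10], [4, 5, 5, 6], [4, 5, 11], [4, 6, 10], [5, 5, 5, 5],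
  [5, 5, 10], [5, 6, 9], [5, 7, 8], [6, 6, 8], [6, 7, 7], [7, 13], [8, 12], [9, 11], [10, 10],
  [4, 5, 5, 7], [4, 5, 6, 6], [4, 5, 12], [4, 6, 11], [5, 5, 5, 6], [5, 5, 11], [5, 6, 10],
  [5, 8, 8], [6, 6, 9], [6, 7, 8], [7, 7, 7], [8, 13], [9, 12], [10, 11], [4, 5, 6, 7],
  [4, 5, 13], [4, 6, 6, 6], [4, 6, 12], [5, 5, 5, 7], [5, 5, 6, 6], [5, 5, 12], [5, 6, 11],
  [6, 6, 10], [6, 8, 8], [9, 13], [10, 12], [11, 11], [4, 6, 13], [5, 5, 5, 8], [5, 5, 6, 7],
  [5, 5, 13], [5, 6, 6, 6], [5, 6, 12], [6, 6, 11], [7, 7, 9], [10, 13], [11, 12],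
  [4, 5, 5, 5, 5], [5, 5, 6, 8], [5, 5, 7, 7], [5, 6, 6, 7], [5, 6, 13], [6, 6, 6, 6],
  [6, 6, 12], [7, 7, 10], [11, 13], [12, 12], [4, 5, 5, 5, 6], [5, 5, 5, 5, 5], [5, 6, 6, 8],
  [6, 6, 13], [12, 13], [5, 5, 5, 5, 6], [13, 13], [5, 5, 5, 6, 6]]

def Reach2 (B : Multiset ℕ) : Prop := Reach B ∧ Reach (3 ::ₘ B)

theorem Reach2.add {G B : Multiset ℕ} (g : Good G) (h : Reach2 B) : Reach2 (G + B) :=
  ⟨g _ h.1, by rw [← Multiset.add_cons]; exact g _ h.2⟩

theorem reach2_S4 {R : List ℕ} (h : R ∈ S4) : Reach2 (R : Multiset ℕ) := by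
  have hc : ∀ R ∈ S4, R ∈ baseL ∧ (3 :: R) ∈ baseL := by decide +kernel
  exact ⟨reach_base (hc R h).1, reach_base (hc R h).2⟩

def sub? : List ℕ → List ℕ → Option (List ℕ)
  | [], L => some L
  | a :: g, L => if a ∈ L then sub? g (L.erase a) else none

theorem sub?_sound : ∀ (g L R : List ℕ), sub? g L = some R →
    (L : Multiset ℕ) = (g : Multiset ℕ) + R
  | [], L, R, h => by
    simp only [sub?, Option.some.injEq] at h
    simp [h]
  | a :: g, L, R, h => by
    simp only [sub?] at h
    split_ifs at h with ha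
    have := sub?_sound g _ R h
    rw [← Multiset.cons_coe, Multiset.cons_add, ← this, ← Multiset.coe_erase,
      Multiset.cons_erase (Multiset.mem_coe.2 ha)]

def red : ℕ → List ℕ → Bool
  | 0, L => decide (L ∈ S4)
  | n + 1, L => decide (L ∈ S4) || blockL.any fun g =>
      match sub? g L with
      | none => false
      | some R => red n R

def Split (B : Multiset ℕ) : Prop := ∃ R ∈ S4, ∃ G, Good G ∧ B = G + (R : Multiset ℕ)

theorem Split.add {G B : Multiset ℕ} (g : Good G) (h : Split B) : Split (G + B) := by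
  obtain ⟨R, hR, H, hH, rfl⟩ := h
  exact ⟨R, hR, G + H, g.add hH, by rw [add_assoc]⟩

theorem red_sound : ∀ (n : ℕ) (L : List ℕ), red n L = true → Split (L : Multiset ℕ)
  | 0, L, h => ⟨L, by simpa [red] using h, 0, Good.zero, by simp⟩
  | n + 1, L, h => by
    simp only [red, Bool.or_eq_true, decide_eq_true_eq, List.any_eq_true] at h
    rcases h with h | ⟨g, hg, h⟩
    · exact ⟨L, h, 0, Good.zero, by simp⟩
    · cases hs : sub? g L with
      | none => rw [hs] at h; exact absurd h (by simp)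
      | some R =>
        rw [hs] at h
        rw [sub?_sound g L R hs]
        exact (red_sound n R h).add (good_block hg)

theorem closure_S4 : ∀ R ∈ S4, ∀ a < 10, red 2 (R.orderedInsert (· ≤ ·) (4 + a)) = true := by
  decide +kernel

theorem closure_E4 : ∀ R ∈ E4, ∀ a < 10, R.orderedInsert (· ≤ ·) (4 + a) ∈ E4 ∨
    red 2 (R.orderedInsert (· ≤ ·) (4 + a)) = true := by
  decide +kernel

theorem coe_ins (R : List ℕ) (a : ℕ) :
    ((R.orderedInsert (· ≤ ·) a : List ℕ) : Multiset ℕ) = a ::ₘ (R : Multiset ℕ) :=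
  Multiset.coe_eq_coe.2 (List.perm_orderedInsert _ a R)

theorem small (B : Multiset ℕ) (h : ∀ x ∈ B, 4 ≤ x ∧ x < 14) :
    (∃ R ∈ E4, B = (R : Multiset ℕ)) ∨ Split B := by
  induction B using Multiset.induction_on with
  | empty => exact Or.inl ⟨[], by simp [E4], rfl⟩
  | cons a B ih =>
    have ha := h a (Multiset.mem_cons_self _ _)
    obtain ⟨c, rfl⟩ : ∃ c, a = 4 + c := ⟨a - 4, by omega⟩
    rcases ih (fun x hx => h x (Multiset.mem_cons_of_mem hx)) with ⟨R, hR, rfl⟩ | ⟨R, hR, G, hG, rfl⟩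
    · rw [← coe_ins]
      rcases closure_E4 R hR c (by omega) with h1 | h1
      · exact Or.inl ⟨_, h1, rfl⟩
      · exact Or.inr (red_sound _ _ h1)
    · right
      rw [← Multiset.add_cons, ← coe_ins]
      exact (red_sound _ _ (closure_S4 R hR c (by omega))).add hG

theorem Split.reach2 {B : Multiset ℕ} (h : Split B) : Reach2 B := by
  obtain ⟨R, hR, G, hG, rfl⟩ := h
  exact (reach2_S4 hR).add hG

theorem reach2_long {l : ℕ} (h : 14 ≤ l) {X : List ℕ} (hX : X ∈ E4) :
    Reach2 (l ::ₘ (X : Multiset ℕ)) := by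
  have g := good_long h
  have h0 : Reach2 (l ::ₘ (([] : List ℕ) : Multiset ℕ)) :=
    ⟨reach_long h (by simp), by
      rw [Multiset.cons_swap]; exact g _ (reach_base (L := [3]) (by decide +kernel))⟩
  simp only [E4, List.mem_cons, List.not_mem_nil, or_false] at hX
  rcases hX with rfl | rfl | rfl | rfl | rfl
  · exact h0
  · exact ⟨g _ (reach_base (L := [4]) (by decide +kernel)), by
      rw [Multiset.cons_swap]; exact reach_long h (X := [3, 4]) (by simp)⟩
  · exact ⟨reach_long h (by simp), by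
      rw [Multiset.cons_swap]; exact reach_long h (X := [3, 5]) (by simp)⟩
  · exact ⟨reach_long h (by simp), by
      rw [Multiset.cons_swap]; exact g _ (reach_base (L := [3, 6]) (by decide +kernel))⟩
  · have := h0.add (good_block (L := [4, 4]) (by decide +kernel))
    rwa [Multiset.add_cons, Multiset.coe_nil, add_zero] at this

theorem big (S : Multiset ℕ) (hS : ∀ x ∈ S, 4 ≤ x ∧ x < 14) (L : Multiset ℕ) (h : ∀ x ∈ L, 14 ≤ x) :
    (∃ R ∈ E4, L + S = (R : Multiset ℕ)) ∨ Reach2 (L + S) := by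
  induction L using Multiset.induction_on with
  | empty => simpa using (small S hS).imp id Split.reach2
  | cons a L ih =>
    have ha := h a (Multiset.mem_cons_self _ _)
    right
    rw [Multiset.cons_add]
    rcases ih (fun x hx => h x (Multiset.mem_cons_of_mem hx)) with ⟨R, hR, e⟩ | h2
    · rw [e]; exact reach2_long ha hR
    · exact h2.add (good_long ha)

theorem nontri (B : Multiset ℕ) (h : ∀ x ∈ B, 4 ≤ x) :
    (∃ R ∈ E4, B = (R : Multiset ℕ)) ∨ Reach2 B := by
  have := big (B.filter fun x => ¬ 14 ≤ x) (fun x hx => by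
    have := Multiset.mem_filter.1 hx
    exact ⟨h x this.1, by omega⟩) (B.filter fun x => 14 ≤ x) (fun x hx => (Multiset.mem_filter.1 hx).2)
  rwa [Multiset.filter_add_not] at this

open Multiset in
theorem step2 {a : ℕ} {B : Multiset ℕ} (h : Reach (replicate a 3 + B)) (j : ℕ) :
    Reach (replicate (a + 2 * j) 3 + B) := by
  induction j with
  | zero => exact h
  | succ j ih =>
    have := good_block (L := [3, 3]) (by decide +kernel) _ ih
    rwa [← add_assoc, show ((([3, 3] : List ℕ)) : Multiset ℕ) = replicate 2 3 from rfl,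
      ← replicate_add, show 2 + (a + 2 * j) = a + 2 * (j + 1) by ring] at this

open Multiset in
theorem step1 {a : ℕ} {B : Multiset ℕ} (h : Reach (replicate a 3 + B))
    (h' : Reach (replicate (a + 1) 3 + B)) {s : ℕ} (hs : a ≤ s) : Lab (replicate s 3 + B) := by
  rcases Nat.even_or_odd' (s - a) with ⟨j, hj | hj⟩
  · have := step2 h j
    rw [show a + 2 * j = s by omega] at this
    exact this.lab
  · have := step2 h' j
    rw [show a + 1 + 2 * j = s by omega] at this
    exact this.lab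

open Multiset in
theorem step6 {t : St} (hl : ∀ M, RealC t M → RealC t (replicate 6 3 + M)) {a : ℕ}
    (h : RealC t (replicate a 3 + 0)) (j : ℕ) : RealC t (replicate (a + 6 * j) 3 + 0) := by
  induction j with
  | zero => exact h
  | succ j ih =>
    have := hl _ ih
    rwa [← add_assoc, ← replicate_add, show 6 + (a + 6 * j) = a + 6 * (j + 1) by ring] at this

open Multiset in
theorem triangles (s : ℕ) (hs : s ≠ 2) : Lab (replicate s 3 + 0) := by
  rcases Nat.even_or_odd' s with ⟨j, hj | hj⟩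
  · rcases Nat.lt_or_ge s 10 with h | h
    · have : s = 0 ∨ s = 4 ∨ s = 6 ∨ s = 8 := by omega
      rcases this with rfl | rfl | rfl | rfl
      · exact RealC.lab (RealC.init 20 20 20 rfl) rfl
      · exact lab_dir (L := [3, 3, 3, 3]) (by decide +kernel)
      · exact lab_dir (L := [3, 3, 3, 3, 3, 3]) (by decide +kernel)
      · exact lab_dir (L := [3, 3, 3, 3, 3, 3, 3, 3]) (by decide +kernel)
    · have : s = 10 + 6 * ((s - 10) / 6) ∨ s = 12 + 6 * ((s - 12) / 6) ∨
          s = 14 + 6 * ((s - 14) / 6) := by omega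
      rcases this with e | e | e <;> rw [e]
      · exact RealC.lab (step6 (fun _ => loop1) (tri10 (RealC.init _ _ _ rfl)) _) rfl
      · exact RealC.lab (step6 (fun _ => loop1) (tri12 (RealC.init _ _ _ rfl)) _) rfl
      · exact RealC.lab (step6 (fun _ => loop2) (tri14 (RealC.init _ _ _ rfl)) _) rfl
  · have := step2 (a := 1) (B := 0) (reach_base (L := [3]) (by decide +kernel)) j
    rw [show 1 + 2 * j = s by omega] at this
    exact this.lab

open Multiset in
theorem lab_split (s : ℕ) (B : Multiset ℕ) (h : ∀ x ∈ B, 4 ≤ x) (hne : ¬ (s = 2 ∧ B = 0)) :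
    Lab (replicate s 3 + B) := by
  rcases nontri B h with ⟨R, hR, rfl⟩ | h2
  · simp only [E4, List.mem_cons, List.not_mem_nil, or_false] at hR
    rcases hR with rfl | rfl | rfl | rfl | rfl
    · exact triangles s fun e => hne ⟨e, rfl⟩
    · rcases Nat.lt_or_ge s 2 with hs | hs
      · interval_cases s
        · exact (reach_base (L := [4]) (by decide +kernel)).lab
        · exact lab_dir (L := [3, 4]) (by decide +kernel)
      · exact step1 (a := 2) (step2 (a := 0) (reach_base (L := [4]) (by decide +kernel)) 1)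
          (reach_base (L := [3, 3, 3, 4]) (by decide +kernel)) hs
    · rcases Nat.lt_or_ge s 4 with hs | hs
      · interval_cases s
        · exact lab_dir (L := [5]) (by decide +kernel)
        · exact lab_dir (L := [3, 5]) (by decide +kernel)
        · exact lab_dir (L := [3, 3, 5]) (by decide +kernel)
        · exact lab_dir (L := [3, 3, 3, 5]) (by decide +kernel)
      · exact step1 (a := 4) (reach_base (L := [3, 3, 3, 3, 5]) (by decide +kernel))
          (reach_base (L := [3, 3, 3, 3, 3, 5]) (by decide +kernel)) hs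
    · rcases Nat.lt_or_ge s 1 with hs | hs
      · interval_cases s
        exact lab_dir (L := [6]) (by decide +kernel)
      · exact step1 (a := 1) (reach_base (L := [3, 6]) (by decide +kernel))
          (reach_base (L := [3, 3, 6]) (by decide +kernel)) hs
    · rcases Nat.lt_or_ge s 1 with hs | hs
      · interval_cases s
        exact lab_dir (L := [4, 4]) (by decide +kernel)
      · exact step1 (a := 1) (reach_base (L := [3, 4, 4]) (by decide +kernel))
          (reach_base (L := [3, 3, 4, 4]) (by decide +kernel)) hs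
  · exact step1 (a := 0) (by simpa using h2.1) (by simpa using h2.2) (Nat.zero_le s)

/-- Every multiset of cycle lengths other than two triangles can be labelled. -/
theorem lab_all (M : Multiset ℕ) (h : ∀ x ∈ M, 3 ≤ x) (hne : M ≠ {3, 3}) : Lab M := by
  have e := Multiset.filter_add_not (fun x => 3 = x) M
  rw [Multiset.filter_eq] at e
  rw [← e]
  refine lab_split _ _ (fun x hx => ?_) fun ⟨h1, h2⟩ => hne ?_
  · have := Multiset.mem_filter.1 hx
    have := h x this.1
    omega
  · rw [← e, h1, h2]; rfl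

end Pool.Agent.MP_29e935_co.Two
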