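import Pool.Agent.Mg.F29e935p.G30e52c
import Pool.Agent.Mg.F29e935p.G6d4c34

section

/-!
From labelled cycles to labelings of the orbits of a permutation; decomposition of a regular
graph of even degree into permutations; assembly of a vertex-magic total labeling.
-/

set_option autoImplicit false

namespace Pool.Agent.MP_29e935_co.Two

open Finset

theorem Cycles.index {ι : Type} [DecidableEq ι] {W : ℕ → ℕ → ℕ → Prop} (l : ι → ℕ) (A : Finset ι) :
    ∀ {D : Multiset ℕ}, Cycles W (A.val.map l) D →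
      ∃ c : ι → Cyc ℕ, (∀ i ∈ A, (c i).n = l i ∧ (c i).ok W) ∧ D = ∑ i ∈ A, (c i).lines := by
  classical
  induction A using Finset.induction_on with
  | empty =>
    rintro D ⟨C, -, h2, rfl⟩
    have : C = 0 := by simpa using h2
    exact ⟨fun _ => ⟨0, id, id⟩, by simp, by simp [this]⟩
  | insert a A ha ih =>
    rintro D ⟨C, h1, h2, rfl⟩
    rw [Finset.insert_val_of_notMem ha, Multiset.map_cons] at h2
    obtain ⟨c0, hc0, e1, e2⟩ := (Multiset.map_eq_cons _ _ _ _).2 h2
    obtain ⟨c, hc, e3⟩ := ih ⟨C.erase c0, fun d hd => h1 d (Multiset.mem_of_mem_erase hd), e2, rfl⟩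
    refine ⟨Function.update c a c0, fun i hi => ?_, ?_⟩
    · rcases Finset.mem_insert.1 hi with hi | hi
      · rw [hi, Function.update_self]; exact ⟨e1, h1 c0 hc0⟩
      · rw [Function.update_of_ne (ne_of_mem_of_not_mem hi ha)]; exact hc i hi
    · rw [Finset.sum_insert ha, Function.update_self, ← Multiset.cons_erase hc0, Multiset.map_cons,
        Multiset.sum_cons, e3]
      congr 1
      exact Finset.sum_congr rfl fun i hi => by
        rw [Function.update_of_ne (ne_of_mem_of_not_mem hi ha)]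

/-- The orbits of a permutation. -/
abbrev Orb {V : Type} (σ : Equiv.Perm V) : Type := Quotient (Equiv.Perm.SameCycle.setoid σ)

/-- The length of an orbit. -/
noncomputable def olen {V : Type} (σ : Equiv.Perm V) (o : Orb σ) : ℕ :=
  Function.minimalPeriod σ o.out

theorem olen_pos {V : Type} [Finite V] (σ : Equiv.Perm V) (o : Orb σ) : 0 < olen σ o :=
  Function.minimalPeriod_pos_of_mem_periodicPts (σ.injective.mem_periodicPts _)

/-- The point number `j` of an orbit. -/
noncomputable def opt {V : Type} (σ : Equiv.Perm V) (p : Σ o : Orb σ, Fin (olen σ o)) : V :=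
  σ^[p.2] p.1.out

theorem opt_bij {V : Type} [Fintype V] [DecidableEq V] (σ : Equiv.Perm V) :
    Function.Bijective (opt σ) := by
  have hq : ∀ (o : Orb σ) (j : ℕ), (⟦σ^[j] o.out⟧ : Orb σ) = o := fun o j => by
    conv_rhs => rw [← o.out_eq]
    refine Quotient.sound (Equiv.Perm.SameCycle.symm ⟨(j : ℤ), ?_⟩)
    rw [zpow_natCast, Equiv.Perm.iterate_eq_pow]
  constructor
  · rintro ⟨o, i⟩ ⟨o', j⟩ h
    simp only [opt] at h
    have e : o = o' := by rw [← hq o i, h, hq]
    subst e
    have := Function.iterate_injOn_Iio_minimalPeriod (f := σ) (x := o.out) i.2 j.2 h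
    rw [Fin.ext this]
  · intro v
    have h : σ.SameCycle (⟦v⟧ : Orb σ).out v :=
      Quotient.exact (s := Equiv.Perm.SameCycle.setoid σ) (Quotient.out_eq (⟦v⟧ : Orb σ))
    obtain ⟨n, -, hn⟩ := h.exists_pow_eq'
    refine ⟨⟨⟦v⟧, ⟨n % olen σ ⟦v⟧, Nat.mod_lt _ (olen_pos σ _)⟩⟩, ?_⟩
    simp only [opt, olen]
    rw [Function.iterate_mod_minimalPeriod_eq, Equiv.Perm.iterate_eq_pow]
    exact hn

noncomputable instance {V : Type} [Finite V] (σ : Equiv.Perm V) : Fintype (Orb σ) :=
  Fintype.ofFinite _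

/-- The multiset of orbit lengths. -/
noncomputable def otype {V : Type} [Finite V] (σ : Equiv.Perm V) : Multiset ℕ :=
  (univ : Finset (Orb σ)).val.map (olen σ)

theorem otype_sum {V : Type} [Fintype V] [DecidableEq V] (σ : Equiv.Perm V) :
    (otype σ).sum = Fintype.card V := by
  rw [← Fintype.card_of_bijective (opt_bij σ)]
  simp [otype]

theorem otype_three {V : Type} [Fintype V] (σ : Equiv.Perm V) (h : ∀ v, σ (σ v) ≠ v) :
    ∀ x ∈ otype σ, 3 ≤ x := by
  intro x hx
  obtain ⟨o, -, rfl⟩ := Multiset.mem_map.1 hx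
  have h0 := olen_pos σ o
  have h1 : σ^[olen σ o] o.out = o.out := Function.iterate_minimalPeriod
  by_contra hc
  have : olen σ o = 1 ∨ olen σ o = 2 := by omega
  rcases this with e | e <;> rw [e] at h1
  · apply h o.out
    simp only [Function.iterate_one] at h1
    rw [h1, h1]
  · exact h o.out h1

theorem perm_label {V : Type} [Fintype V] [DecidableEq V] (σ : Equiv.Perm V)
    {W : ℕ → ℕ → ℕ → Prop} {D : Multiset ℕ} (h : Cycles W (otype σ) D) :
    ∃ x e : V → ℕ, (∀ v, W (e v) (x v) (e (σ v))) ∧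
      D = (univ : Finset V).val.map x + (univ : Finset V).val.map e := by
  classical
  obtain ⟨c, hc, rfl⟩ := Cycles.index (olen σ) univ h
  let φ := Equiv.ofBijective _ (opt_bij σ)
  let F : (Orb σ → ℕ → ℕ) → (Σ o : Orb σ, Fin (olen σ o)) → ℕ := fun y p => y p.1 p.2
  refine ⟨fun v => F (fun o => (c o).x) (φ.symm v), fun v => F (fun o => (c o).e) (φ.symm v),
    fun v => ?_, ?_⟩
  · obtain ⟨⟨o, j⟩, rfl⟩ := φ.surjective v
    have e : σ (φ ⟨o, j⟩) = φ ⟨o, ⟨(j + 1) % olen σ o, Nat.mod_lt _ (olen_pos σ _)⟩⟩ := by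
      change σ (σ^[j] o.out) = σ^[(j + 1) % Function.minimalPeriod σ o.out] o.out
      rw [Function.iterate_mod_minimalPeriod_eq, Function.iterate_succ_apply']
    rw [e]
    simp only [Equiv.symm_apply_apply, F]
    obtain ⟨h1, h2, h3⟩ := hc o (mem_univ _)
    have h4 := h3 j (by rw [h1]; exact j.2)
    rcases Nat.lt_or_ge (j + 1) (olen σ o) with hj | hj
    · rwa [Nat.mod_eq_of_lt hj]
    · have : (j : ℕ) + 1 = olen σ o := le_antisymm j.2 hj
      rw [this, Nat.mod_self, ← h2, h1]
      rwa [this] at h4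
  · have key : ∀ y : Orb σ → ℕ → ℕ, (univ : Finset V).val.map
        (fun v => F y (φ.symm v)) = ∑ o, vals (olen σ o) (y o) := fun y => by
      rw [← Multiset.sum_map_singleton ((univ : Finset V).val.map _), Multiset.map_map,
        ← Finset.sum_eq_multiset_sum, ← Equiv.sum_comp φ]
      simp only [Function.comp, Equiv.symm_apply_apply]
      rw [Fintype.sum_sigma]
      exact Finset.sum_congr rfl fun o _ =>
        Fin.sum_univ_eq_sum_range (fun j => ({y o j} : Multiset ℕ)) _
    rw [key (fun o => (c o).x), key (fun o => (c o).e), ← Finset.sum_add_distrib]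
    exact Finset.sum_congr rfl fun o _ => by rw [Cyc.lines, (hc o (mem_univ _)).1]

/-- Hall's theorem for a regular relation. -/
theorem hall_regular {α β : Type} [Fintype α] [Fintype β] (r : α → β → Prop) [DecidableRel r]
    {d : ℕ} (hd : 0 < d) (ha : ∀ a, d ≤ #{b | r a b}) (hb : ∀ b, #{a | r a b} ≤ d) :
    ∃ f : α → β, Function.Injective f ∧ ∀ a, r a (f a) := by
  classical
  rw [← Fintype.all_card_le_filter_rel_iff_exists_injective]
  intro A
  refine Nat.le_of_mul_le_mul_right (Finset.card_mul_le_card_mul r (fun a haA => ?_)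
    (fun b _ => ?_)) hd
  · refine (ha a).trans (Finset.card_le_card fun b hb => ?_)
    simp only [Finset.bipartiteAbove, mem_filter, mem_univ, true_and] at hb ⊢
    exact ⟨⟨a, haA, hb⟩, hb⟩
  · refine le_trans (Finset.card_le_card fun a ha => ?_) (hb b)
    simp only [Finset.bipartiteBelow, mem_filter, mem_univ, true_and] at ha ⊢
    exact ha.2

theorem split_perms {V : Type} [Fintype V] [DecidableEq V] : ∀ (t : ℕ) (D : V → V → Prop)
    [DecidableRel D], (∀ v, #{w | D v w} = t) → (∀ v, #{u | D u v} = t) →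
    ∃ σ : Fin t → Equiv.Perm V, (∀ i v, D v (σ i v)) ∧ ∀ v i j, σ i v = σ j v → i = j
  | 0, _, _, _, _ => ⟨Fin.elim0, fun i => i.elim0, fun _ i => i.elim0⟩
  | t + 1, D, _, h1, h2 => by
    obtain ⟨f, hf, hD⟩ := hall_regular D (Nat.succ_pos t) (fun a => (h1 a).ge) (fun b => (h2 b).le)
    let τ : Equiv.Perm V := Equiv.ofBijective f (Finite.injective_iff_bijective.1 hf)
    obtain ⟨σ, s1, s2⟩ := split_perms t (fun v w => D v w ∧ w ≠ τ v) (fun v => by
      have : ({w | D v w ∧ w ≠ τ v} : Finset V) = ({w | D v w} : Finset V).erase (τ v) := by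
        ext w; simp [and_comm]
      rw [this, Finset.card_erase_of_mem (a := τ v) (s := ({w | D v w} : Finset V))
        (mem_filter.2 ⟨mem_univ _, hD v⟩), h1]; rfl) (fun v => by
      have : ({u | D u v ∧ v ≠ τ u} : Finset V) = ({u | D u v} : Finset V).erase (τ.symm v) := by
        ext u
        simp only [mem_filter, mem_univ, true_and, mem_erase, and_comm, ne_eq]
        rw [Equiv.eq_symm_apply, eq_comm]
      rw [this, Finset.card_erase_of_mem (by
        have := hD (τ.symm v)
        rw [show f (τ.symm v) = v from τ.apply_symm_apply v] at this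
        simpa using this), h2]; rfl)
    refine ⟨Fin.cons τ σ, fun i v => ?_, fun v i j => ?_⟩
    · refine Fin.cases ?_ (fun i => ?_) i
      · exact hD v
      · exact (s1 i v).1
    · refine Fin.cases ?_ (fun i => ?_) i <;> refine Fin.cases ?_ (fun j => ?_) j
      · intro _; rfl
      · intro h; exact absurd h.symm (s1 j v).2
      · intro h; exact absurd h (s1 i v).2
      · intro h; rw [s2 v i j h]

theorem card_edges {V : Type} [Fintype V] [DecidableEq V] (G : SimpleGraph V) [DecidableRel G.Adj]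
    {t : ℕ} (hG : G.IsRegularOfDegree (2 * t)) : Fintype.card G.edgeSet = Fintype.card V * t := by
  have h := G.sum_degrees_eq_twice_card_edges
  rw [Finset.sum_congr rfl fun v _ => hG v, Finset.sum_const, Finset.card_univ, smul_eq_mul,
    SimpleGraph.edgeFinset_card] at h
  nlinarith

/-- A balanced orientation. -/
theorem orient {V : Type} [Fintype V] [DecidableEq V] (G : SimpleGraph V) [DecidableRel G.Adj]
    {t : ℕ} (ht : 0 < t) (hG : G.IsRegularOfDegree (2 * t)) :
    ∃ D : V → V → Prop, ∃ _ : DecidableRel D, (∀ u v, D u v → G.Adj u v) ∧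
      (∀ u v, D u v → ¬ D v u) ∧ (∀ v, #{w | D v w} = t) ∧ ∀ v, #{u | D u v} = t := by
  classical
  obtain ⟨f, hf, hm⟩ := hall_regular (fun (e : G.edgeSet) (p : V × Fin t) => p.1 ∈ e.1)
    (d := 2 * t) (by omega) (fun e => by
      obtain ⟨e, he⟩ := e
      induction e using Sym2.ind with
      | _ u v =>
        have : ({p | p.1 ∈ s(u, v)} : Finset (V × Fin t)) = ({u, v} : Finset V) ×ˢ univ := by
          ext p; simp
        simp only [this]
        rw [Finset.card_product, Finset.card_pair (G.ne_of_adj he)]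
        simp) (fun p => by
      rw [← hG p.1, ← SimpleGraph.card_incidenceFinset_eq_degree]
      refine Finset.card_le_card_of_injOn (fun e => e.1) (fun e he => ?_)
        (Subtype.val_injective.injOn)
      have he' : p.1 ∈ e.1 := (mem_filter.1 (Finset.mem_coe.1 he)).2
      exact Finset.mem_coe.2 ((G.mem_incidenceFinset _ _).2 ⟨e.2, he'⟩))
  have hb : Function.Bijective f := (Fintype.bijective_iff_injective_and_card f).2
    ⟨hf, by rw [card_edges G hG]; simp⟩
  let D : V → V → Prop := fun u v => ∃ h : G.Adj u v, (f ⟨s(u, v), h⟩).1 = v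
  have hin : ∀ v, #{u | D u v} = t := fun v => by
    symm
    conv_lhs => rw [← Fintype.card_fin t, ← Finset.card_univ]
    symm
    refine Finset.card_bij (fun u hu => (f ⟨s(u, v), (mem_filter.1 hu).2.1⟩).2)
      (fun _ _ => mem_univ _) (fun u hu w hw h => ?_) (fun i _ => ?_)
    · have e : f ⟨s(u, v), (mem_filter.1 hu).2.1⟩ = f ⟨s(w, v), (mem_filter.1 hw).2.1⟩ :=
        Prod.ext ((mem_filter.1 hu).2.2.trans (mem_filter.1 hw).2.2.symm) h
      have := congrArg Subtype.val (hf e)
      exact Sym2.congr_left.1 this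
    · obtain ⟨⟨e, he⟩, h⟩ := hb.2 (v, i)
      have hv : v ∈ e := by have := hm ⟨e, he⟩; rwa [h] at this
      obtain ⟨u, rfl⟩ : ∃ u, e = s(u, v) := ⟨Sym2.Mem.other hv, by
        rw [Sym2.eq_swap, Sym2.other_spec]⟩
      exact ⟨u, mem_filter.2 ⟨mem_univ _, he, by rw [h]⟩, by rw [h]⟩
  have hasym : ∀ u v, D u v → ¬ D v u := by
    rintro u v ⟨h1, e1⟩ ⟨h2, e2⟩
    have : (⟨s(u, v), h1⟩ : G.edgeSet) = ⟨s(v, u), h2⟩ := Subtype.ext Sym2.eq_swap
    rw [this, e2] at e1
    exact h1.ne e1
  refine ⟨D, inferInstance, fun u v h => h.1, hasym, fun v => ?_, hin⟩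
  have hu : G.neighborFinset v = ({w | D v w} : Finset V) ∪ ({u | D u v} : Finset V) := by
    ext w
    simp only [SimpleGraph.mem_neighborFinset, mem_union, mem_filter, mem_univ, true_and]
    constructor
    · intro h
      have := hm ⟨s(v, w), h⟩
      rcases Sym2.mem_iff.1 this with e | e
      · refine Or.inr ⟨h.symm, ?_⟩
        have e' : (⟨s(w, v), h.symm⟩ : G.edgeSet) = ⟨s(v, w), h⟩ := Subtype.ext Sym2.eq_swap
        rw [e', e]
      · exact Or.inl ⟨h, e⟩
    · rintro (h | h)
      · exact h.1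
      · exact h.1.symm
  have hc := congrArg Finset.card hu
  rw [Finset.card_union_of_disjoint (Finset.disjoint_filter.2 fun w _ h => hasym v w h),
    SimpleGraph.card_neighborFinset_eq_degree, hG v, hin v] at hc
  have h2 : ∀ a : ℕ, 2 * t = a + t → a = t := fun a h => by omega
  convert h2 _ hc

/-- The permutations of a decomposition into 2-factors. -/
def Factors {V : Type} (G : SimpleGraph V) {t : ℕ} (σ : Fin t → Equiv.Perm V) : Prop :=
  (∀ i v, G.Adj v (σ i v)) ∧ (∀ v i j, σ i v = σ j v → i = j) ∧ ∀ v i j, σ i (σ j v) ≠ v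

theorem petersen {V : Type} [Fintype V] [DecidableEq V] (G : SimpleGraph V) [DecidableRel G.Adj]
    {t : ℕ} (ht : 0 < t) (hG : G.IsRegularOfDegree (2 * t)) :
    ∃ σ : Fin t → Equiv.Perm V, Factors G σ := by
  obtain ⟨D, _, h1, h2, h3, h4⟩ := orient G ht hG
  obtain ⟨σ, s1, s2⟩ := split_perms t D h3 h4
  refine ⟨σ, fun i v => h1 _ _ (s1 i v), s2, fun v i j h => h2 _ _ (s1 j v) ?_⟩
  have := s1 i (σ j v)
  rwa [h] at this

theorem Factors.nbr {V : Type} [Fintype V] [DecidableEq V] {G : SimpleGraph V} [DecidableRel G.Adj]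
    {t : ℕ} (hG : G.IsRegularOfDegree (2 * t)) {σ : Fin t → Equiv.Perm V} (h : Factors G σ)
    (v : V) : Function.Injective (Sum.elim (fun i => σ i v) (fun i => (σ i).symm v)) ∧
      G.neighborFinset v = univ.image (Sum.elim (fun i => σ i v) (fun i => (σ i).symm v)) := by
  have hi : Function.Injective (Sum.elim (fun i => σ i v) (fun i => (σ i).symm v)) := by
    rintro (i | i) (j | j) e <;> simp only [Sum.elim_inl, Sum.elim_inr] at e
    · rw [h.2.1 v i j e]
    · exact absurd (by rw [e]; simp) (h.2.2 v j i)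
    · exact absurd (by rw [← e]; simp) (h.2.2 v i j)
    · rw [h.2.1 ((σ i).symm v) i j (by rw [Equiv.apply_symm_apply, e, Equiv.apply_symm_apply])]
  refine ⟨hi, (Finset.eq_of_subset_of_card_le (fun w hw => ?_) ?_).symm⟩
  · obtain ⟨i | i, -, rfl⟩ := Finset.mem_image.1 hw
    · simpa using h.1 i v
    · have := (h.1 i ((σ i).symm v)).symm
      simpa using this
  · rw [Finset.card_image_of_injective _ hi, SimpleGraph.card_neighborFinset_eq_degree, hG v]
    simp [two_mul]

/-- Assembly of the labeling: `a i v` labels the edge from `v` to `σ i v`. -/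
theorem assemble {V : Type} [Fintype V] [DecidableEq V] {G : SimpleGraph V} [DecidableRel G.Adj]
    {t : ℕ} (hG : G.IsRegularOfDegree (2 * t)) {σ : Fin t → Equiv.Perm V} (h : Factors G σ)
    (L : V ⊕ Fin t × V → ℕ) (k : ℕ) (hL : Function.Injective L)
    (hr : ∀ z, 1 ≤ L z ∧ L z ≤ Fintype.card V * (t + 1))
    (hs : ∀ v, L (.inl v) + ∑ i, (L (.inr (i, v)) + L (.inr (i, (σ i).symm v))) = k) :
    ∃ (h : V → ℕ) (g : Sym2 V → ℕ) (k : ℕ),
      Function.Injective h ∧ Set.InjOn g G.edgeSet ∧
      (∀ v, ∀ e ∈ G.edgeSet, h v ≠ g e) ∧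
      (∀ v, 1 ≤ h v ∧ h v ≤ Fintype.card V + Fintype.card G.edgeSet) ∧
      (∀ e ∈ G.edgeSet, 1 ≤ g e ∧ g e ≤ Fintype.card V + Fintype.card G.edgeSet) ∧
      ∀ v, h v + ∑ w ∈ G.neighborFinset v, g s(v, w) = k := by
  let ψ : Fin t × V → Sym2 V := fun p => s(p.2, σ p.1 p.2)
  have hψ : Function.Injective ψ := by
    rintro ⟨i, v⟩ ⟨j, w⟩ e
    rcases Sym2.eq_iff.1 e with ⟨rfl, e2⟩ | ⟨e1, e2⟩
    · rw [h.2.1 _ i j e2]
    · simp only at e1 e2
      exact absurd (by rw [e2, ← e1]) (h.2.2 v j i)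
  have hsurj : ∀ e ∈ G.edgeSet, ∃ p, ψ p = e := by
    intro e he
    induction e using Sym2.ind with
    | _ v w =>
      have : w ∈ G.neighborFinset v := by simpa using he
      rw [(h.nbr hG v).2] at this
      obtain ⟨i | i, -, rfl⟩ := Finset.mem_image.1 this
      · exact ⟨(i, v), rfl⟩
      · exact ⟨(i, (σ i).symm v), by simp [ψ, Sym2.eq_swap]⟩
  have hg : ∀ p, Function.extend ψ (fun p => L (.inr p)) 0 (ψ p) = L (.inr p) :=
    fun p => hψ.extend_apply _ _ p
  have hc : Fintype.card V + Fintype.card G.edgeSet = Fintype.card V * (t + 1) := by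
    rw [card_edges G hG]; ring
  refine ⟨fun v => L (.inl v), Function.extend ψ (fun p => L (.inr p)) 0, k,
    fun u v e => Sum.inl_injective (hL e), fun e he e' he' hh => ?_, fun v e he => ?_,
    fun v => hc ▸ hr _, fun e he => ?_, fun v => ?_⟩
  · obtain ⟨p, rfl⟩ := hsurj e he
    obtain ⟨q, rfl⟩ := hsurj e' he'
    rw [hg, hg] at hh
    rw [Sum.inr_injective (hL hh)]
  · obtain ⟨p, rfl⟩ := hsurj e he
    rw [hg]
    intro hh
    exact absurd (hL hh) (by simp)
  · obtain ⟨p, rfl⟩ := hsurj e he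
    rw [hg, hc]; exact hr _
  · rw [(h.nbr hG v).2, Finset.sum_image (h.nbr hG v).1.injOn, Fintype.sum_sum_type, ← hs v,
      Finset.sum_add_distrib]
    congr 2
    · exact Finset.sum_congr rfl fun i _ => hg (i, v)
    · refine Finset.sum_congr rfl fun i _ => ?_
      rw [← hg (i, (σ i).symm v)]
      simp [ψ, Sym2.eq_swap]

end Pool.Agent.MP_29e935_co.Two

end

section

/-!
Assembly of a vertex-magic total labeling from a labeling of one 2-factor and a chain of layers.
-/

set_option autoImplicit false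

namespace Pool.Agent.MP_29e935_co.Four

open Pool.Agent.MP_29e935_co.Two Finset

/-- The vertex whose layer values are used by the edge leaving `v` in the factor `i`. -/
def src {V : Type} (s : ℕ → Equiv.Perm V) : ℕ → Equiv.Perm V
  | 0 => 1
  | 1 => 1
  | i + 2 => src s (i + 1) * (s (i + 1))⁻¹

theorem chain {V : Type} [Fintype V] [DecidableEq V] {G : SimpleGraph V} [DecidableRel G.Adj]
    {t : ℕ} (ht : 0 < t) (hG : G.IsRegularOfDegree (2 * t)) {σ : Fin t → Equiv.Perm V}
    (h : Factors G σ) (F : ℕ → V → ℕ) (k : ℕ → ℕ)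
    (h1 : ∀ v, F 0 v + F 0 ((σ ⟨0, ht⟩).symm v) + F 1 v = k 0)
    (h2 : ∀ i, 1 ≤ i → i < t → ∀ v, F i v + F (i + 1) v = k i)
    (h3 : ∀ i ≤ t, ∀ j ≤ t, ∀ u v, F i u = F j v → i = j ∧ u = v)
    (h4 : ∀ i ≤ t, ∀ v, 1 ≤ F i v ∧ F i v ≤ Fintype.card V * (t + 1)) :
    ∃ (h : V → ℕ) (g : Sym2 V → ℕ) (k : ℕ),
      Function.Injective h ∧ Set.InjOn g G.edgeSet ∧
      (∀ v, ∀ e ∈ G.edgeSet, h v ≠ g e) ∧
      (∀ v, 1 ≤ h v ∧ h v ≤ Fintype.card V + Fintype.card G.edgeSet) ∧
      (∀ e ∈ G.edgeSet, 1 ≤ g e ∧ g e ≤ Fintype.card V + Fintype.card G.edgeSet) ∧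
      ∀ v, h v + ∑ w ∈ G.neighborFinset v, g s(v, w) = k := by
  let s : ℕ → Equiv.Perm V := fun i => if hi : i < t then σ ⟨i, hi⟩ else 1
  let a : ℕ → V → ℕ := fun i v => F i (src s i v)
  have key : ∀ m, m < t → ∀ v, a (m + 1) v + ∑ i ∈ range (m + 1), (a i v + a i ((s i).symm v)) =
      ∑ i ∈ range (m + 1), k i := by
    intro m
    induction m with
    | zero =>
      intro _ v
      have := h1 v
      simp only [a, s, src, range_one, sum_singleton, zero_add, dif_pos ht, Equiv.Perm.one_apply]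
      omega
    | succ m ih =>
      intro hm v
      have e1 := ih (by omega) v
      have e2 := h2 (m + 1) (by omega) hm (src s (m + 1) ((s (m + 1)).symm v))
      rw [sum_range_succ _ (m + 1), sum_range_succ _ (m + 1), ← e1, ← e2]
      have e3 : a (m + 1 + 1) v = F (m + 1 + 1) (src s (m + 1) ((s (m + 1)).symm v)) := rfl
      simp only [a] at e3 ⊢
      omega
  refine assemble hG h (Sum.elim (a t) fun p => a p.1 p.2) (∑ i ∈ range t, k i) ?_ ?_ fun v => ?_
  · rintro (u | ⟨i, u⟩) (v | ⟨j, v⟩) e <;> simp only [Sum.elim_inl, Sum.elim_inr, a] at e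
    · rw [(src s t).injective (h3 t le_rfl t le_rfl _ _ e).2]
    · exact absurd (h3 t le_rfl j j.2.le _ _ e).1 j.2.ne'
    · exact absurd (h3 i i.2.le t le_rfl _ _ e).1 i.2.ne
    · obtain ⟨e1, e2⟩ := h3 i i.2.le j j.2.le _ _ e
      obtain rfl := Fin.ext e1
      rw [(src s i).injective e2]
  · rintro (u | ⟨i, u⟩)
    · exact h4 t le_rfl _
    · exact h4 i i.2.le _
  · obtain ⟨m, rfl⟩ : ∃ m, t = m + 1 := ⟨t - 1, by omega⟩
    rw [← key m (by omega) v, ← Fin.sum_univ_eq_sum_range (fun i => a i v + a i ((s i).symm v))]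
    simp only [Sum.elim_inl, Sum.elim_inr, s, Fin.is_lt, dif_pos, Fin.eta]

end Pool.Agent.MP_29e935_co.Four

end

section

/-!
Every 2-regular graph other than two disjoint triangles has a vertex-magic total labeling.
-/

set_option autoImplicit false

namespace Pool.Agent.MP_29e935_co.Two

open Finset

theorem sameCycle_of_reachable {V : Type} [Fintype V] [DecidableEq V] {G : SimpleGraph V}
    [DecidableRel G.Adj] (hG : G.IsRegularOfDegree (2 * 1)) {σ : Fin 1 → Equiv.Perm V}
    (h : Factors G σ) {u v : V} (r : G.Reachable u v) :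
    Equiv.Perm.SameCycle (σ 0).symm u v := by
  obtain ⟨p⟩ := r
  induction p with
  | nil => exact Equiv.Perm.SameCycle.refl _ _
  | @cons a b c hab p ih =>
    refine Equiv.Perm.SameCycle.trans ?_ ih
    have : b ∈ G.neighborFinset a := by simpa using hab
    rw [(h.nbr hG a).2] at this
    obtain ⟨i | i, -, rfl⟩ := Finset.mem_image.1 this
    · obtain rfl : i = 0 := Subsingleton.elim _ _
      exact ⟨-1, by simp [Equiv.Perm.inv_def]⟩
    · obtain rfl : i = 0 := Subsingleton.elim _ _
      exact ⟨1, by simp⟩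

/-- The case `r = 2` of the conjecture. -/
theorem two_regular (V : Type) [Fintype V] [DecidableEq V] (G : SimpleGraph V) [DecidableRel G.Adj]
    (hG : G.IsRegularOfDegree 2) (hne : ¬ (Fintype.card V = 6 ∧ ¬ G.Connected)) :
    ∃ (h : V → ℕ) (g : Sym2 V → ℕ) (k : ℕ),
      Function.Injective h ∧ Set.InjOn g G.edgeSet ∧
      (∀ v, ∀ e ∈ G.edgeSet, h v ≠ g e) ∧
      (∀ v, 1 ≤ h v ∧ h v ≤ Fintype.card V + Fintype.card G.edgeSet) ∧
      (∀ e ∈ G.edgeSet, 1 ≤ g e ∧ g e ≤ Fintype.card V + Fintype.card G.edgeSet) ∧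
      ∀ v, h v + ∑ w ∈ G.neighborFinset v, g s(v, w) = k := by
  have hG' : G.IsRegularOfDegree (2 * 1) := hG
  obtain ⟨σ, hσ⟩ := petersen G Nat.one_pos hG'
  have h3 : ∀ v, (σ 0).symm ((σ 0).symm v) ≠ v := fun v h => by
    apply hσ.2.2 v 0 0
    conv_lhs => rw [← h]
    simp
  have hM : otype (σ 0).symm ≠ {3, 3} := fun h => hne ⟨by rw [← otype_sum (σ 0).symm, h]; rfl,
    fun hc => by
      have h1 : Subsingleton (Orb (σ 0).symm) := ⟨fun a b => by
        induction a using Quotient.ind
        induction b using Quotient.ind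
        exact Quotient.sound (sameCycle_of_reachable hG' hσ (hc.preconnected _ _))⟩
      have h2 := congrArg Multiset.card h
      simp only [otype, Multiset.card_map, Finset.card_val, Finset.card_univ] at h2
      have := Fintype.card_le_one_iff_subsingleton.2 h1
      rw [h2] at this
      exact absurd this (by decide)⟩
  obtain ⟨k, D, hc, hn, hr⟩ := lab_all _ (otype_three _ h3) hM
  obtain ⟨x, e, hs, rfl⟩ := perm_label _ hc
  rw [otype_sum] at hr
  have hD : (univ : Finset V).val.map x + (univ : Finset V).val.map e =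
      (univ : Finset (V ⊕ V)).val.map (Sum.elim x e) := by
    rw [← Finset.univ_disjSum_univ, Finset.val_disjSum, Multiset.disjSum]
    simp
  rw [hD] at hn hr
  have hi : Function.Injective (Sum.elim x e) := fun a b h =>
    Multiset.inj_on_of_nodup_map hn a (mem_univ _) b (mem_univ _) h
  refine assemble hG' hσ (fun z => Sum.elim x e (Sum.map id Prod.snd z)) k
    (hi.comp (Sum.map_injective.2 ⟨Function.injective_id, fun a b h =>
      Prod.ext (Subsingleton.elim _ _) h⟩)) (fun z => ?_) (fun v => ?_)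
  · have := hr _ (Multiset.mem_map_of_mem _ (mem_univ (Sum.map id Prod.snd z)))
    omega
  · have := hs v
    simp only [Sum.map_inl, id, Sum.elim_inl, Sum.map_inr, Sum.elim_inr, Fin.sum_univ_one]
    omega

end Pool.Agent.MP_29e935_co.Two

end
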