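import Pool.Agent.Mg.F29e935p.G2ee928
import Pool.Agent.Mg.F29e935p.Gda7ce1
import Pool.Agent.Mg.F29e935p.G0b13cc

/-!
Every regular graph whose degree is a positive multiple of four has a vertex-magic total labeling.
-/

set_option autoImplicit false

namespace Pool.Agent.MP_29e935_co.Four

open Pool.Agent.MP_29e935_co.Two Finset

def Wt (B K a : ℕ) (p x q : ℕ) : Prop :=
  p < B ∧ B ≤ x ∧ x ≤ B + K ∧ (p + q + B = x + a ∨ p + q + x = B + K + a)

/-- The label given by the line `l` in the layer `i`. -/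
def lay (B K c b i l : ℕ) : ℕ :=
  if i = 0 then l else c + b * ((i - 1) / 2) + if i % 2 = 1 then K + B - l else l - B

def Tile (t : ℕ) (M : Multiset ℕ) : Prop :=
  ∃ (B K a c b : ℕ) (D : Multiset ℕ), Cycles (Wt B K a) M D ∧ D.Nodup ∧
    (∀ l ∈ D, ∀ i ≤ t, (i = 0 ↔ l < B) → lay B K c b i l < M.sum * (t + 1)) ∧
    ∀ l ∈ D, ∀ l' ∈ D, ∀ i ≤ t, ∀ j ≤ t, (i = 0 ↔ l < B) → (j = 0 ↔ l' < B) →
      lay B K c b i l = lay B K c b j l' → i = j ∧ l = l'

theorem T.tile {M : Multiset ℕ} (h : T 4 M) (s : ℕ) : Tile (2 * s) M := by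
  obtain ⟨D, h1, h2⟩ := h
  have h3 := cycles_all (R := fun l => l < 2 * M.sum) h1 fun p x q h => by unfold Vr at h; omega
  refine ⟨M.sum, 2 * M.sum - 1, 4, M.sum, 2 * M.sum, D, ?_, h2, fun l hl i hi h0 => ?_,
    fun l hl l' hl' i hi j hj h0 h0' e => ?_⟩
  · have := h1.map (W := Wt M.sum (2 * M.sum - 1) 4) id fun p _ x _ q _ h => by
      simp only [Vr, Wt, id] at h ⊢
      omega
    rwa [Multiset.map_id] at this
  · have := h3 l hl
    have e1 : M.sum * (2 * s + 1) = 2 * M.sum * s + M.sum := by ring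
    unfold lay
    by_cases hi0 : i = 0
    · rw [if_pos hi0]; omega
    · have e2 : 2 * M.sum * ((i - 1) / 2 + 1) ≤ 2 * M.sum * s := Nat.mul_le_mul_left _ (by omega)
      rw [Nat.mul_succ] at e2
      rw [if_neg hi0]
      split_ifs <;> omega
  · have k1 := h3 l hl
    have k2 := h3 l' hl'
    unfold lay at e
    by_cases hi0 : i = 0 <;> by_cases hj0 : j = 0
    · rw [if_pos hi0, if_pos hj0] at e; omega
    · rw [if_pos hi0, if_neg hj0] at e; omega
    · rw [if_neg hi0, if_pos hj0] at e; omega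
    · rw [if_neg hi0, if_neg hj0] at e
      rcases lt_trichotomy ((i - 1) / 2) ((j - 1) / 2) with h | h | h
      · have e2 := Nat.mul_le_mul_left (2 * M.sum) (Nat.succ_le_of_lt h)
        rw [Nat.mul_succ] at e2
        split_ifs at e <;> omega
      · rw [h] at e
        split_ifs at e <;> omega
      · have e2 := Nat.mul_le_mul_left (2 * M.sum) (Nat.succ_le_of_lt h)
        rw [Nat.mul_succ] at e2
        split_ifs at e <;> omega

structure TE : Type where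
  M : List ℕ
  t : ℕ
  B : ℕ
  K : ℕ
  a : ℕ
  c : ℕ
  b : ℕ
  C : List (List (ℕ × ℕ))

def TE.D (e : TE) : Multiset ℕ := (((e.C.map mkCyc : List (Cyc ℕ)) : Multiset (Cyc ℕ)).map Cyc.lines).sum

instance (B K a p x q : ℕ) : Decidable (Wt B K a p x q) := by unfold Wt; infer_instance

def TE.inj (e : TE) (l l' i j : ℕ) : Prop :=
  (i = 0 ↔ l < e.B) → (j = 0 ↔ l' < e.B) → lay e.B e.K e.c e.b i l = lay e.B e.K e.c e.b j l' →
    i = j ∧ l = l'

instance (e : TE) (l l' i j : ℕ) : Decidable (e.inj l l' i j) := by unfold TE.inj; infer_instance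

def tileOK (e : TE) : Bool :=
  decide (e.C.map List.length = e.M) &&
  (e.C.all fun c => (List.range c.length).all fun j =>
    decide (Wt e.B e.K e.a ((mkCyc c).e j) ((mkCyc c).x j) ((mkCyc c).e (j + 1)))) &&
  decide e.D.Nodup &&
  decide (∀ l ∈ e.D, ∀ i ≤ e.t, (i = 0 ↔ l < e.B) → lay e.B e.K e.c e.b i l < e.M.sum * (e.t + 1)) &&
  decide (∀ l ∈ e.D, ∀ l' ∈ e.D, ∀ i ≤ e.t, ∀ j ≤ e.t, e.inj l l' i j)

theorem tileOK_sound {e : TE} (h : tileOK e = true) : Tile e.t (e.M : Multiset ℕ) := by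
  simp only [tileOK, Bool.and_eq_true, decide_eq_true_eq, List.all_eq_true, List.mem_range] at h
  obtain ⟨⟨⟨⟨h1, h2⟩, h3⟩, h4⟩, h5⟩ := h
  refine ⟨e.B, e.K, e.a, e.c, e.b, e.D, ⟨(e.C.map mkCyc : List (Cyc ℕ)), fun c hc => ?_, ?_, rfl⟩,
    h3, by simpa using h4, h5⟩
  · obtain ⟨d, hd, rfl⟩ := List.mem_map.1 (Multiset.mem_coe.1 hc)
    exact ⟨by simp [mkCyc], h2 d hd⟩
  · rw [← h1, Multiset.map_coe, List.map_map]
    rfl

def tileT : List TE := [
  ⟨[5], 2, 5, 9, 2, 5, 10,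
    [[(6, 0), (7, 3), (8, 1), (9, 4), (5, 2)]]⟩,
  ⟨[3, 3], 2, 6, 11, 1, 6, 12,
    [[(6, 0), (8, 1), (7, 2)], [(11, 3), (9, 4), (10, 5)]]⟩,
  ⟨[6], 2, 6, 11, 2, 6, 12,
    [[(6, 0), (7, 2), (8, 1), (11, 3), (10, 4), (9, 5)]]⟩,
  ⟨[3, 4], 2, 100, 16, 16, 1, 1,
    [[(100, 7), (111, 9), (109, 18)], [(103, 0), (114, 19), (115, 11), (104, 20)]]⟩,
  ⟨[7], 2, 7, 13, 3, 7, 14,
    [[(7, 0), (8, 3), (9, 1), (13, 4), (11, 5), (12, 2), (10, 6)]]⟩,
  ⟨[3, 5], 2, 100, 17, 4, 6, 8,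
    [[(101, 2), (104, 3), (103, 5)], [(100, 0), (115, 4), (112, 15), (111, 1), (110, 14)]]⟩,
  ⟨[4, 4], 2, 8, 15, 2, 8, 16,
    [[(8, 0), (9, 2), (11, 1), (10, 4)], [(14, 3), (13, 5), (12, 7), (15, 6)]]⟩,
  ⟨[8], 2, 8, 15, 2, 8, 16,
    [[(8, 0), (14, 2), (12, 6), (13, 7), (15, 5), (11, 4), (10, 1), (9, 3)]]⟩,
  ⟨[3, 3, 4], 2, 100, 21, 1, 8, 10,
    [[(107, 2), (112, 6), (108, 7)], [(106, 3), (121, 4), (120, 18)], [(104, 0), (105, 5), (119, 1), (118, 19)]]⟩,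
  ⟨[3, 3, 4], 4, 100, 40, 13, 4, 5,
    [[(115, 2), (140, 26), (116, 27)], [(104, 3), (139, 14), (128, 38)], [(102, 0), (103, 15), (127, 1), (126, 39)]]⟩,
  ⟨[3, 3, 5], 2, 100, 22, 3, 10, 11,
    [[(100, 0), (121, 3), (118, 21)], [(102, 1), (106, 4), (103, 5)], [(105, 2), (110, 6), (113, 7), (114, 9), (107, 8)]]⟩,
  ⟨[3, 3, 5], 4, 100, 35, 5, 8, 11,
    [[(101, 1), (107, 5), (103, 7)], [(105, 4), (133, 6), (131, 32)], [(125, 0), (127, 30), (100, 2), (129, 3), (126, 31)]]⟩,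
  ⟨[3, 3, 3, 3], 2, 12, 23, 1, 12, 24,
    [[(12, 0), (14, 1), (13, 2)], [(18, 3), (20, 4), (19, 5)], [(23, 6), (21, 7), (22, 8)], [(17, 9), (15, 10), (16, 11)]]⟩,
  ⟨[3, 3, 3, 3], 4, 12, 23, 1, 12, 24,
    [[(12, 0), (14, 1), (13, 2)], [(18, 3), (20, 4), (19, 5)], [(23, 6), (21, 7), (22, 8)], [(17, 9), (15, 10), (16, 11)]]⟩,
  ⟨[3, 3, 3, 3, 3], 2, 15, 29, 1, 15, 30,
    [[(15, 0), (17, 1), (16, 2)], [(21, 3), (23, 4), (22, 5)], [(27, 6), (29, 7), (28, 8)], [(26, 9), (24, 10), (25, 11)], [(20, 12), (18, 13), (19, 14)]]⟩,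
  ⟨[3, 3, 3, 3, 3], 4, 15, 29, 1, 15, 30,
    [[(15, 0), (17, 1), (16, 2)], [(21, 3), (23, 4), (22, 5)], [(27, 6), (29, 7), (28, 8)], [(26, 9), (24, 10), (25, 11)], [(20, 12), (18, 13), (19, 14)]]⟩,
  ⟨[3, 3, 3, 3, 3], 6, 15, 29, 1, 15, 30,
    [[(15, 0), (17, 1), (16, 2)], [(21, 3), (23, 4), (22, 5)], [(27, 6), (29, 7), (28, 8)], [(26, 9), (24, 10), (25, 11)], [(20, 12), (18, 13), (19, 14)]]⟩]

theorem tileT_ok : tileT.all tileOK = true := by decide +kernel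

theorem tile_cover : (excL.all fun X => decide (X.sum < 16) && (List.range 4).all fun s =>
    decide (s = 0) || decide (X.sum ≤ 4 * s) ||
      tileT.any fun e => decide (e.M = X) && decide (e.t = 2 * s)) = true := by decide +kernel

theorem tile_all (M : Multiset ℕ) (h : ∀ x ∈ M, 3 ≤ x) (s : ℕ) (h0 : 0 < s) (hs : 4 * s < M.sum) :
    Tile (2 * s) M := by
  rcases T_all M h with ⟨X, hX, rfl⟩ | h1
  · have hc := List.all_eq_true.1 tile_cover X hX
    simp only [Bool.and_eq_true, Bool.or_eq_true, decide_eq_true_eq, List.all_eq_true,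
      List.any_eq_true, List.mem_range] at hc
    rw [Multiset.sum_coe] at hs
    rcases hc.2 s (by omega) with (h1 | h1) | ⟨e, he, e2, e3⟩
    · omega
    · omega
    rw [← e2, ← e3]
    exact tileOK_sound (List.all_eq_true.1 tileT_ok e he)
  · exact h1.tile s

/-- The case of degree divisible by four. -/
theorem four_regular (V : Type) [Fintype V] [DecidableEq V] (G : SimpleGraph V) [DecidableRel G.Adj]
    {r : ℕ} (h0 : 0 < r) (h4 : r % 4 = 0) (hG : G.IsRegularOfDegree r) :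
    ∃ (h : V → ℕ) (g : Sym2 V → ℕ) (k : ℕ),
      Function.Injective h ∧ Set.InjOn g G.edgeSet ∧
      (∀ v, ∀ e ∈ G.edgeSet, h v ≠ g e) ∧
      (∀ v, 1 ≤ h v ∧ h v ≤ Fintype.card V + Fintype.card G.edgeSet) ∧
      (∀ e ∈ G.edgeSet, 1 ≤ g e ∧ g e ≤ Fintype.card V + Fintype.card G.edgeSet) ∧
      ∀ v, h v + ∑ w ∈ G.neighborFinset v, g s(v, w) = k := by
  obtain ⟨s, rfl⟩ : ∃ s, r = 2 * (2 * s) := ⟨r / 4, by omega⟩
  have ht : 0 < 2 * s := by omega
  obtain ⟨σ, hσ⟩ := petersen G ht hG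
  rcases isEmpty_or_nonempty V with hV | ⟨⟨v0⟩⟩
  · exact chain ht hG hσ (fun _ _ => 0) (fun _ => 0) (fun v => isEmptyElim v)
      (fun _ _ _ v => isEmptyElim v) (fun _ _ _ _ v => isEmptyElim v) fun _ _ v => isEmptyElim v
  have h3 : ∀ v, (σ ⟨0, ht⟩).symm ((σ ⟨0, ht⟩).symm v) ≠ v := fun v h => by
    apply hσ.2.2 v ⟨0, ht⟩ ⟨0, ht⟩
    conv_lhs => rw [← h]
    simp
  have hn := G.degree_lt_card_verts v0
  rw [hG v0, ← otype_sum (σ ⟨0, ht⟩).symm] at hn
  obtain ⟨B, K, a, c, b, D, hc, hn, hr, hi⟩ :=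
    tile_all _ (otype_three _ h3) s (by omega) (by omega)
  obtain ⟨x, e, hs, rfl⟩ := perm_label _ hc
  rw [otype_sum] at hr
  obtain ⟨n1, n2, -⟩ := Multiset.nodup_add.1 hn
  have ix : Function.Injective x := fun a b h =>
    Multiset.inj_on_of_nodup_map n1 a (mem_univ _) b (mem_univ _) h
  have ie : Function.Injective e := fun a b h =>
    Multiset.inj_on_of_nodup_map n2 a (mem_univ _) b (mem_univ _) h
  let z : ℕ → V → ℕ := fun i v => if i = 0 then e v else x v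
  let u : ℕ → V → ℕ := fun i v =>
    if i = 0 ∨ e v + e ((σ ⟨0, ht⟩).symm v) + B = x v + a then i
    else if i % 2 = 1 then i + 1 else i - 1
  have hz : ∀ i v, z i v ∈ (univ : Finset V).val.map x + (univ : Finset V).val.map e := fun i v => by
    simp only [z]
    split_ifs
    · exact Multiset.mem_add.2 (Or.inr (Multiset.mem_map_of_mem _ (mem_univ v)))
    · exact Multiset.mem_add.2 (Or.inl (Multiset.mem_map_of_mem _ (mem_univ v)))
  have hu : ∀ i ≤ 2 * s, ∀ v, u i v ≤ 2 * s ∧ (u i v = 0 ↔ z i v < B) ∧ (u i v = 0 ↔ i = 0) :=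
    fun i hi v => by
      have := hs v
      simp only [u, z, Wt] at this ⊢
      split_ifs <;> refine ⟨?_, ⟨fun _ => ?_, fun _ => ?_⟩, fun _ => ?_, fun _ => ?_⟩ <;>
        first | omega | contradiction
  refine chain ht hG hσ (fun i v => 1 + lay B K c b (u i v) (z i v))
    (fun i => if i = 0 then 3 + a + c + K else 2 + 2 * c + b * ((i - 1) / 2) + b * (i / 2) + K)
    (fun v => ?_) (fun i h1 h2 v => ?_) (fun i hi' j hj v w h => ?_) fun i hi' v => ?_
  · have := hs v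
    simp only [u, z, Wt, lay] at this ⊢
    by_cases h : e v + e ((σ ⟨0, ht⟩).symm v) + B = x v + a <;>
      simp only [h, true_or, or_true, or_false, if_true, if_false, Nat.succ_ne_zero, Nat.reduceMod,
        Nat.reduceAdd, Nat.reduceSub, Nat.reduceDiv, Nat.mul_zero, Nat.zero_ne_one,
        one_ne_zero] <;> omega
  · have := hs v
    have e1 : i ≠ 0 := by omega
    simp only [u, z, Wt, lay] at this ⊢
    rcases Nat.even_or_odd' i with ⟨j, rfl | rfl⟩
    · have e2 : (2 * j - 1 - 1) / 2 = (2 * j - 1) / 2 := by omega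
      have e3 : (2 * j + 1) / 2 = 2 * j / 2 := by omega
      have e4 : (2 * j - 1) % 2 = 1 := by omega
      have e5 : 2 * j - 1 ≠ 0 := by omega
      have e6 : (2 * j + 1) % 2 = 1 := by omega
      have e7 : ¬ (2 * j + 1 + 1) % 2 = 1 := by omega
      by_cases h : e v + e ((σ ⟨0, ht⟩).symm v) + B = x v + a <;>
        simp only [h, e1, e2, e3, e4, e5, e6, e7, or_true, or_false, if_true, if_false,
          Nat.succ_ne_zero, Nat.add_sub_cancel, Nat.mul_mod_right, Nat.zero_ne_one] <;> omega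
    · have e2 : (2 * j + 1) / 2 = 2 * j / 2 := by omega
      have e6 : (2 * j + 1) % 2 = 1 := by omega
      have e7 : ¬ (2 * j + 1 + 1) % 2 = 1 := by omega
      by_cases h : e v + e ((σ ⟨0, ht⟩).symm v) + B = x v + a <;>
        simp only [h, e2, e6, e7, or_true, or_false, if_true, if_false,
          Nat.succ_ne_zero, Nat.add_sub_cancel] <;> omega
  · obtain ⟨k1, k2, k3⟩ := hu i hi' v
    obtain ⟨k4, k5, k6⟩ := hu j hj w
    obtain ⟨e1, e2⟩ := hi _ (hz i v) _ (hz j w) _ k1 _ k4 k2 k5 (by omega)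
    have e3 : v = w := by
      simp only [z] at e2
      by_cases hi0 : i = 0
      · rw [if_pos hi0, if_pos (by omega)] at e2; exact ie e2
      · rw [if_neg hi0, if_neg (by omega)] at e2; exact ix e2
    subst e3
    refine ⟨?_, rfl⟩
    simp only [u] at e1
    split_ifs at e1 <;> omega
  · obtain ⟨k1, k2, -⟩ := hu i hi' v
    have := hr _ (hz i v) _ k1 k2
    omega

end Pool.Agent.MP_29e935_co.Four
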