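import Pool.Agent.Mg.F29e935p.Gfc185c

section

/-!
Steps of the two chains and the ways to finish in the middle.
-/

set_option autoImplicit false

namespace Pool.Agent.MP_29e935_co.Four

variable {n bA bB p q : ℕ} {M : Multiset ℕ}

theorem loopA (H : OO n bA bB M p q) :
    OO n (bA + 3) bB M (p + 3) q := by
  have := endO_sound (k := 4) (w := 2220526818703334966280)
    (v := 98307) (C := []) (l1 := (1, 0, 3)) (l2 := (0, 1, 0)) H.rc (by decide +kernel)
  simpa [Len.ev, shf] using this

theorem swA6 (H : OO n bA bB M p q) :
    OO n (bA + 12) bB ((p + 6) ::ₘ M) 6 q := by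
  have := endO_sound (k := 15) (w := 362472673341516646949512109164627465795544990731894979885320934719183224582439944)
    (v := 393228) (C := [(1, 0, 6)]) (l1 := (0, 0, 6)) (l2 := (0, 1, 0)) H.rc (by decide +kernel)
  simpa [Len.ev, shf] using this

theorem swA7 (H : OO n bA bB M p q) :
    OO n (bA + 12) bB ((p + 7) ::ₘ M) 5 q := by
  have := endO_sound (k := 14) (w := 7678462918868198112779305387727911580578214605057231898909465202199542978577416)
    (v := 393228) (C := [(1, 0, 7)]) (l1 := (0, 0, 5)) (l2 := (0, 1, 0)) H.rc (by decide +kernel)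
  simpa [Len.ev, shf] using this

theorem swA8 (H : OO n bA bB M p q) :
    OO n (bA + 12) bB ((p + 8) ::ₘ M) 4 q := by
  have := endO_sound (k := 15) (w := 362472673338064055832241013709545939343408560438458004061928204169213514447062024)
    (v := 393228) (C := [(1, 0, 8)]) (l1 := (0, 0, 4)) (l2 := (0, 1, 0)) H.rc (by decide +kernel)
  simpa [Len.ev, shf] using this

theorem loopB (H : OO n bA bB M p q) :
    OO n bA (bB + 3) M p (q + 3) := by
  have := endO_sound (k := 6) (w := 169560308682159529652012449796)
    (v := 12583296) (C := []) (l1 := (1, 0, 0)) (l2 := (0, 1, 3)) H.rc (by decide +kernel)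
  simpa [Len.ev, shf] using this

theorem swB6 (H : OO n bA bB M p q) :
    OO n bA (bB + 12) ((q + 6) ::ₘ M) p 6 := by
  have := endO_sound (k := 17) (w := 130370507631431843067051696947647184875323971250662094589623723256975055748017045693679009796)
    (v := 50333184) (C := [(0, 1, 6)]) (l1 := (1, 0, 0)) (l2 := (0, 0, 6)) H.rc (by decide +kernel)
  simpa [Len.ev, shf] using this

theorem swB7 (H : OO n bA bB M p q) :
    OO n bA (bB + 12) ((q + 7) ::ₘ M) p 5 := by
  have := endO_sound (k := 16) (w := 268288455143648724856046176236191672665484785803879033917166597081692959976304534355972)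
    (v := 50333184) (C := [(0, 1, 7)]) (l1 := (1, 0, 0)) (l2 := (0, 0, 5)) H.rc (by decide +kernel)
  simpa [Len.ev, shf] using this

theorem swB8 (H : OO n bA bB M p q) :
    OO n bA (bB + 12) ((q + 8) ::ₘ M) p 4 := by
  have := endO_sound (k := 16) (w := 268287506574853692761779851562216508731808386475461584456582522542463002693615078080516)
    (v := 50333184) (C := [(0, 1, 8)]) (l1 := (1, 0, 0)) (l2 := (0, 0, 4)) H.rc (by decide +kernel)
  simpa [Len.ev, shf] using this

def joinT : List (ℕ × ℕ × ℕ × ℕ × ℕ) := [
  (61, 6, 5, 9, 8873282536177041470956419958255296725446824035336),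
  (61, 7, 5, 10, 3118909121345498494763433329883183214800390193336550408),
  (61, 8, 6, 11, 1710919399991538273422404909640468241813680608533478782413880),
  (67, 6, 5, 9, 5948852098137558830841374784406140047083383555080),
  (67, 7, 5, 7, 32945427813877202968169031765176878088),
  (67, 8, 6, 8, 17447202432443994121051321434315229673554952)]

theorem joinT_ok : joinT.all (fun e => joinOK e.1 e.2.1 e.2.2.1 e.2.2.2.1 e.2.2.2.2) = true := by
  decide +kernel

def twoT : List (ℕ × ℕ × ℕ × ℕ × ℕ × ℕ) := [
  (43, 6, 11, 10, 17, 50136239629201436740524755016566824314625530509738605480297883467156370947596351499403289166856),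
  (37, 7, 9, 10, 16, 95627291934121527128204078829050203161102735907971393533450171833070231861055374713947144),
  (43, 5, 10, 9, 15, 138759106443862565399837180549480569030902943259481615190306607910045664719837070344),
  (43, 6, 10, 10, 16, 72749732471998096228256183645199044637468647409911742464321659460567094065573061317362696),
  (37, 7, 8, 9, 15, 146349896652224512710843124123501587581425340444348383727220107824105570847351112712),
  (43, 5, 9, 9, 14, 349700341184001545026039680991930055910320460702341275257851443274086860456968),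
  (43, 6, 9, 9, 15, 182394584527620528537671474097335720907659009106491913975248005215648386867248759816),
  (43, 7, 10, 10, 17, 38141812733167294809481367944828448685733355079245890018663602183499038766658611712024446501896),
  (43, 5, 8, 8, 13, 663547567022824251852515428091462831085322775113633949883268090256425992),
  (43, 6, 8, 9, 14, 266417154262995705060108719262467630509442896779436519041689684968731691713544),
  (55, 4, 12, 10, 16, 66781853662870811845438963897371945173665704993639395066150820181059650733498640541680648),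
  (43, 5, 7, 8, 12, 976014221016643792019200752332613911570026240765992443019610031112),
  (43, 6, 7, 8, 13, 508152079934774572673462712983350408729239307599692983259219360961528840),
  (55, 4, 11, 9, 15, 127376277280557635702454593532794228476287017609878921101037498351462162978438120456),
  (61, 2, 12, 9, 14, 233905594773966672976508028192048625812382769443888045930429377099284224296504),
  (43, 6, 6, 8, 12, 976014145328388392009619922766820585317951864269382212277168505864),
  (55, 4, 10, 9, 14, 242950975229315612277408616881028633146353134081283002547731366442614235595784),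
  (61, 2, 11, 8, 13, 446139134652644975626890389947186075779273548605703624710292033749655048),
  (61, 3, 11, 9, 14, 233905594773973258196453050186679266755699329495168869891153935619374714985992),
  (55, 4, 9, 8, 13, 463391861603572834925452009375886885054706758992785565008447728093496328),
  (61, 2, 10, 8, 12, 850942881084303508256068539424910182246725994780259696667750579264),
  (61, 3, 10, 8, 13, 663547909480605152072044395655284220168980499307929113667979059245614088),
  (55, 4, 8, 8, 12, 883850548877018457335257973261583007740003821200189415335043007496),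
  (61, 2, 9, 7, 11, 1623046105666826108848801868529589275643754565997194149639224),
  (61, 3, 9, 8, 12, 850943596649404607484862332750841871376005897729397328070985129480),
  (55, 4, 7, 7, 11, 2426532272592833589092368107318668678435041224641852058108936),
  (61, 2, 8, 7, 10, 3095714770635273196819426073307164398802450028346487864),
  (61, 3, 8, 7, 11, 1623046272570128848159489846269331331671568129134425425460288),
  (55, 4, 6, 7, 10, 3239386271858603678581887240193579949633311042724430856),
  (61, 2, 7, 6, 9, 5904602370128124631097435980108302633587832925248),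
  (61, 3, 7, 7, 10, 3095714770635444646129408186682334950680033281007689224),
  (55, 4, 5, 6, 9, 8781978317254240768878177504789012559790803518472),
  (67, 2, 9, 7, 11, 2413973375150296634520241629155507003052041682221856891864072),
  (61, 3, 6, 6, 9, 8781983459558834380650714570792448965845224260616),
  (61, 4, 7, 7, 11, 1697991411330215812779393745132558170428450316433895853130760),
  (67, 2, 8, 7, 10, 3118909121395759605357307665258178064432429822397907976),
  (61, 3, 5, 6, 8, 11694974594598880140684148780594288960472072),
  (61, 4, 6, 7, 10, 3095712167430259816236578101583992879268965386331106352),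
  (61, 5, 7, 8, 12, 850942868524017220624467792403312490554250953267184984565722791472),
  (61, 6, 7, 8, 13, 446139141237211347935327490784375983146665796739485280853932643203427376),
  (61, 4, 5, 6, 9, 5904602282973641086576869277691054263924450014264),
  (61, 5, 6, 7, 11, 1623046272570128848159500817816323033354540913407937610784264),
  (61, 6, 6, 8, 12, 850942893644660154993934383320226849589584128199247850812209110536),
  (61, 4, 4, 6, 8, 11262144728371896123821772904234404976667704),
  (61, 5, 5, 7, 10, 3095715088933983597655105848115037607574293009458541624),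
  (61, 4, 3, 5, 7, 21480836656931343760197389062422801456),
  (67, 5, 7, 8, 12, 850746847203285263586840040677687885197457607412260968797084589624),
  (73, 3, 8, 7, 11, 2426532008482587682423456823374381589390217006423372476857952),
  (67, 5, 6, 7, 11, 2426532176072615127086644654894681742060582592574802387672640),
  (61, 6, 4, 7, 10, 3095712121736032946982383839972475685274568227236617736),
  (67, 4, 5, 6, 9, 5903180781958913942776248380669463858709197370416),
  (73, 3, 6, 6, 9, 8827678035057342145617914636236486495411323798536),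
  (73, 4, 7, 7, 11, 2426533661452313336271427012432491030980238490058816541950984),
  (67, 5, 5, 7, 10, 3118909121411965083864129026022014056233342605392358448),
  (61, 7, 3, 7, 10, 4628245661639001367846753809526632030480062418719343624),
  (73, 5, 7, 8, 12, 1272202480295629385650029805594779446387412345010801737185701671984),
  (61, 6, 2, 6, 8, 11262145055343116744834013251701281287967800),
  (67, 5, 3, 6, 8, 16750304144990218693555025232557526113846280),
  (67, 6, 4, 7, 10, 4604288816716045092543086585810715180956935644629835320),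
  (61, 7, 2, 6, 9, 8827672631161385114162249764056277531687580075016),
  (67, 6, 3, 6, 9, 8827678035046536814298673274023509852695713291832),
  (67, 7, 4, 7, 11, 2413973351964806216034266518126157453770998055913996702326336),
  (61, 8, 2, 7, 10, 3095714860512434974577412077617739407050963244560815664),
  (67, 7, 3, 7, 10, 4628242782835716577403968648335463707386219176772240392),
  (67, 8, 4, 8, 12, 1272202555214595255305678065693958285609320909655358377971431783488),
  (61, 9, 2, 7, 11, 1623046152785466132439838212498307638053746121491064702506552),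
  (67, 8, 3, 7, 11, 2426533661449114717150271721205051438145297838268959527285816),
  (79, 6, 7, 8, 13, 667000493989172585141170878275703495142567789908633212175727978243687432),
  (67, 7, 2, 6, 9, 8827672108486999557265440078339838627566395203120),
  (73, 6, 3, 6, 9, 8827678206560314313633397673215453886341447681032),
  (73, 7, 4, 7, 11, 2426533804352371458884877713197354359897549712447283151242248),
  (73, 8, 5, 8, 13, 667000039630641861836243331229178831930260383318500448736719775878758000),
  (73, 7, 3, 7, 10, 4604288544050318817997947520831840778441804811467890232),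
  (79, 8, 7, 9, 15, 183343699718357813201997113534048612475043093222211289107269024915363721945018281008),
  (67, 9, 2, 7, 11, 2426532032366140586831974653411719419610410163601653459059720),
  (73, 8, 3, 7, 11, 2426533709366135759270535572433957979419258034663939716940808),
  (79, 9, 7, 10, 16, 96124908249087656124083946733989973251762776597957046753478121854606476008612421527678000),
  (67, 10, 2, 8, 12, 1272201626185203061231788356601335399924401200906167755577325782024),
  (73, 9, 3, 8, 12, 1272202505416152584957857366288996049032969319830419190073358550024),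
  (73, 10, 4, 9, 14, 349700375591251532966379631623308767496259773833306033637103898981953035043848),
  (67, 11, 2, 8, 13, 667000046189387767254672283514013011537483307386507058753662401936098312),
  (73, 10, 3, 8, 13, 667000507159623804761548205778645115257813103235812002643702145534133256),
  (73, 11, 4, 9, 15, 183343710519114625385203391187224641054154923388066358373360237549006420920779146248),
  (79, 9, 5, 9, 14, 349700375591751756785938940049898468501553446146945745418374909420376934056968),
  (73, 11, 3, 9, 14, 349700361897704845300581419539702141937791600778033132699394369679534799717384),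
  (79, 9, 4, 8, 13, 667000533275669216238114899026400868412846619078834958631182285320238096),
  (79, 10, 5, 9, 15, 183343712327223674582806249576675535321558266890839863916887360352387354025164689040),
  (79, 9, 3, 8, 12, 1265617197954788777710203961600091951046036988451739975434868098056),
  (79, 10, 4, 9, 14, 349700375591719058709745795790215585184792829571258878848151143848940713018376),
  (79, 11, 5, 10, 16, 96124907301121343286723805834714935648403153346838148609060391237409458291382200962272920),
  (79, 10, 3, 8, 13, 667000507159623806486330365682954673967327730794069579845407447357326344),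
  (79, 11, 4, 9, 15, 183343712327220333207860035047124362595696664901890342512839077962024854261948630032),
  (79, 12, 5, 10, 17, 50397135896335792692014345212257425658840586560758237853577349502968530460662181542644389250056),
  (79, 11, 3, 9, 14, 349700361897704846254680673533532449131511992404177926162042246959981035265688),
  (79, 12, 4, 10, 16, 96124907301108737070907280564218680351668509031519229603857209861326820561354654994144920),
  (91, 10, 8, 11, 18, 26422611767431891676063171519691358139329417223193881765457971072403920077617172467898151153711449096)]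

theorem twoT_ok :
    twoT.all (fun e => twoOK e.1 e.2.1 e.2.2.1 e.2.2.2.1 e.2.2.2.2.1 e.2.2.2.2.2) = true := by
  decide +kernel

end Pool.Agent.MP_29e935_co.Four

end

section

/-!
Long cycles: the two chains are run independently and meet in the middle.
-/

set_option autoImplicit false

namespace Pool.Agent.MP_29e935_co.Four

/-- The running state after closed cycles of total lengths `SA` and `SB` in the two chains. -/
def W (n SA SB : ℕ) (M : Multiset ℕ) (p q : ℕ) : Prop :=
  ∃ bA bB, OO n bA bB M p q ∧ bA + 2 = SA + p ∧ bB + 2 = SB + q ∧ M.sum = SA + SB ∧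
    (bA + 2 * bB) % 3 = 1

variable {n SA SB p q : ℕ} {M : Multiset ℕ}

theorem W.loopA (H : W n SA SB M p q) (k : ℕ) : W n SA SB M (p + 3 * k) q := by
  induction k with
  | zero => exact H
  | succ k ih =>
    obtain ⟨bA, bB, h1, h2, h3, h4, h5⟩ := ih
    exact ⟨_, _, Four.loopA h1, by omega, h3, h4, by omega⟩

theorem W.loopB (H : W n SA SB M p q) (k : ℕ) : W n SA SB M p (q + 3 * k) := by
  induction k with
  | zero => exact H
  | succ k ih =>
    obtain ⟨bA, bB, h1, h2, h3, h4, h5⟩ := ih
    exact ⟨_, _, Four.loopB h1, h2, by omega, h4, by omega⟩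

theorem W.letA (H : W n SA SB M p q) {c : ℕ} (hc : p + 6 ≤ c) :
    ∃ p' ≤ 6, W n (SA + c) SB (c ::ₘ M) p' q := by
  obtain ⟨bA, bB, h1, h2, h3, h4, h5⟩ := H.loopA ((c - p - 6) / 3)
  have hs : (c ::ₘ M).sum = SA + c + SB := by rw [Multiset.sum_cons]; omega
  have : p + 3 * ((c - p - 6) / 3) + 6 = c ∨ p + 3 * ((c - p - 6) / 3) + 7 = c ∨
    p + 3 * ((c - p - 6) / 3) + 8 = c := by omega
  rcases this with e | e | e
  · exact ⟨6, by omega, _, _, e ▸ swA6 h1, by omega, h3, hs, by omega⟩
  · exact ⟨5, by omega, _, _, e ▸ swA7 h1, by omega, h3, hs, by omega⟩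
  · exact ⟨4, by omega, _, _, e ▸ swA8 h1, by omega, h3, hs, by omega⟩

theorem W.letB (H : W n SA SB M p q) {c : ℕ} (hc : q + 6 ≤ c) :
    ∃ q' ≤ 6, W n SA (SB + c) (c ::ₘ M) p q' := by
  obtain ⟨bA, bB, h1, h2, h3, h4, h5⟩ := H.loopB ((c - q - 6) / 3)
  have hs : (c ::ₘ M).sum = SA + (SB + c) := by rw [Multiset.sum_cons]; omega
  have : q + 3 * ((c - q - 6) / 3) + 6 = c ∨ q + 3 * ((c - q - 6) / 3) + 7 = c ∨
    q + 3 * ((c - q - 6) / 3) + 8 = c := by omega
  rcases this with e | e | e
  · exact ⟨6, by omega, _, _, e ▸ swB6 h1, h2, by omega, hs, by omega⟩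
  · exact ⟨5, by omega, _, _, e ▸ swB7 h1, h2, by omega, hs, by omega⟩
  · exact ⟨4, by omega, _, _, e ▸ swB8 h1, h2, by omega, hs, by omega⟩

theorem W.runA (H : W n SA SB M p q) (hp : p ≤ 10) (L : Multiset ℕ) (hL : ∀ c ∈ L, 16 ≤ c) :
    ∃ p', ((L = 0 ∧ p' = p) ∨ (16 ≤ L.sum ∧ p' ≤ 6)) ∧ W n (SA + L.sum) SB (L + M) p' q := by
  induction L using Multiset.induction_on with
  | empty => exact ⟨p, Or.inl ⟨rfl, rfl⟩, by simpa using H⟩
  | cons c L ih =>
    obtain ⟨p', h1, h2⟩ := ih fun x hx => hL x (Multiset.mem_cons_of_mem hx)
    have hc := hL c (Multiset.mem_cons_self _ _)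
    obtain ⟨r, h3, h4⟩ := h2.letA (c := c) (by omega)
    refine ⟨r, Or.inr ⟨by rw [Multiset.sum_cons]; omega, h3⟩, ?_⟩
    rw [Multiset.sum_cons, Multiset.cons_add, add_comm c, ← add_assoc]
    exact h4

theorem W.runB (H : W n SA SB M p q) (hp : q ≤ 10) (L : Multiset ℕ) (hL : ∀ c ∈ L, 16 ≤ c) :
    ∃ q', ((L = 0 ∧ q' = q) ∨ (16 ≤ L.sum ∧ q' ≤ 6)) ∧ W n SA (SB + L.sum) (L + M) p q' := by
  induction L using Multiset.induction_on with
  | empty => exact ⟨q, Or.inl ⟨rfl, rfl⟩, by simpa using H⟩
  | cons c L ih =>
    obtain ⟨p', h1, h2⟩ := ih fun x hx => hL x (Multiset.mem_cons_of_mem hx)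
    have hc := hL c (Multiset.mem_cons_self _ _)
    obtain ⟨r, h3, h4⟩ := h2.letB (c := c) (by omega)
    refine ⟨r, Or.inr ⟨by rw [Multiset.sum_cons]; omega, h3⟩, ?_⟩
    rw [Multiset.sum_cons, Multiset.cons_add, add_comm c, ← add_assoc]
    exact h4

theorem W.join (H : W n SA SB M p q) {l : ℕ} (hn : n = SA + SB + l) (hA : SA + 2 * p ≤ SB + l + 1)
    (hB : SB + 2 * q + 10 ≤ SA + l) : T 4 (l ::ₘ M) := by
  have hc : ∀ d < 2, ∀ r < 3, ∃ e ∈ joinT, e.1 = 61 + 6 * d ∧ e.2.1 = 6 + r := by decide +kernel
  have h0 : (SA + p + 2 * (SB + q)) % 3 = 1 := by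
    obtain ⟨bA, bB, -, h2, h3, -, h5⟩ := H
    omega
  obtain ⟨e, he, e1, e2⟩ := hc (((l - p - q - 6) / 3 + (SA + p + 5 * (SB + q) + 2) / 3) % 2)
    (by omega) ((l - p - q - 6) % 3) (by omega)
  obtain ⟨kA, kB, k1, k2⟩ : ∃ kA kB, p + 3 * kA + (q + 3 * kB) + e.2.1 = l ∧
      2 * (SA + p + 3 * kA) + 53 = 2 * (SB + q + 3 * kB) + e.1 :=
    ⟨(2 * (l - p - q - e.2.1) + e.1 + 2 * (SB + q) - 53 - 2 * (SA + p)) / 12,
      (2 * (l - p - q - e.2.1) + 53 + 2 * (SA + p) - e.1 - 2 * (SB + q)) / 12, by omega⟩
  obtain ⟨bA, bB, h1, h2, h3, h4, -⟩ := (H.loopA kA).loopB kB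
  rw [← k1]
  exact joinOK_sound (List.all_eq_true.1 joinT_ok e he) h1 (by omega) (by omega) (by omega)

def key (y r a i j : ℕ) : Prop :=
  i % 3 = r ∧ a % 3 = 1 ∧ a + 2 * i = 33 + 2 * y + 2 * j ∧ i ≤ 12 ∧ j ≤ 12 ∧ (y ≤ 14 → i ≤ 8) ∧
    (15 ≤ y → j ≤ 8)

instance (y r a i j : ℕ) : Decidable (key y r a i j) := by unfold key; infer_instance

theorem W.two (H : W n SA SB M p q) {c d : ℕ} (hn : n = SA + c + (SB + d))
    (h1 : SB + d ≤ SA + c + 10) (h2 : SA + c ≤ SB + d + 21)
    (h3 : (SA + c ≤ SB + d + 4 ∧ p + 6 ≤ c ∧ q + 10 ≤ d) ∨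
      (SB + d + 5 ≤ SA + c ∧ p + 10 ≤ c ∧ q + 6 ≤ d)) : T 4 (d ::ₘ c ::ₘ M) := by
  have hc : ∀ y < 32, ∀ r < 3, ∃ e ∈ twoT, key y r e.1 e.2.1 e.2.2.1 := by decide +kernel
  have h0 : (SA + p + 2 * (SB + q)) % 3 = 1 := by
    obtain ⟨bA, bB, -, h2, h3, -, h5⟩ := H
    omega
  obtain ⟨e, he, e1, e2, e3, e4, e5, e6, e7⟩ := hc (SA + c + 10 - (SB + d)) (by omega)
    ((c - p) % 3) (by omega)
  obtain ⟨bA, bB, j1, j2, j3, j4, -⟩ := (H.loopA ((c - p - e.2.1) / 3)).loopB ((d - q - e.2.2.1) / 3)
  have k1 : p + 3 * ((c - p - e.2.1) / 3) + e.2.1 = c := by omega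
  have k2 : q + 3 * ((d - q - e.2.2.1) / 3) + e.2.2.1 = d := by omega
  have := twoOK_sound (List.all_eq_true.1 twoT_ok e he) j1 (by omega) (by omega) (by omega)
  rwa [k1, k2] at this

theorem balance (RA RB l : ℕ) (h1 : RA ≤ RB + l + 4) (h2 : RB + 5 ≤ RA + l) (L : Multiset ℕ)
    (hL : ∀ c ∈ L, c ≤ l) : ∃ LA LB : Multiset ℕ, L = LA + LB ∧
      RA + LA.sum ≤ RB + LB.sum + l + 4 ∧ RB + LB.sum + 5 ≤ RA + LA.sum + l := by
  induction L using Multiset.induction_on with
  | empty => exact ⟨0, 0, rfl, by simpa using h1, by simpa using h2⟩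
  | cons c L ih =>
    obtain ⟨LA, LB, rfl, h3, h4⟩ := ih fun x hx => hL x (Multiset.mem_cons_of_mem hx)
    have hc := hL c (Multiset.mem_cons_self _ _)
    by_cases h : RA + LA.sum ≤ RB + LB.sum + 4
    · exact ⟨c ::ₘ LA, LB, by simp, by rw [Multiset.sum_cons]; omega,
        by rw [Multiset.sum_cons]; omega⟩
    · exact ⟨LA, c ::ₘ LB, by simp, by rw [Multiset.sum_cons]; omega,
        by rw [Multiset.sum_cons]; omega⟩

/-- All long cycles after a start; `l` is the longest one. -/
theorem long {RA RB al be l : ℕ} {R L : Multiset ℕ} (hl : 16 ≤ l)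
    (hL : ∀ c ∈ L, 16 ≤ c ∧ c ≤ l) (H : W (RA + RB + L.sum + l) RA RB R al be)
    (c1 : RB ≤ RA + 11) (c2 : RA ≤ RB + 20) (c3 : al ≤ 10) (c4 : be ≤ 10)
    (c5 : 2 * be + RB ≤ 22 + RA) (c6 : 2 * al + RA ≤ 33 + RB)
    (c7 : al ≤ 6 ∨ al + RA ≤ 11 + RB) (c8 : be ≤ 6 ∨ be + RB ≤ RA + 2)
    (c9 : L = 0 → RA + 2 * al ≤ RB + l + 1 ∧ RB + 2 * be + 10 ≤ RA + l) :
    T 4 (l ::ₘ (L + R)) := by
  obtain ⟨LA, LB, rfl, h1, h2⟩ := balance RA RB l (by omega) (by omega) L fun c hc => (hL c hc).2
  have hA : ∀ c ∈ LA, 16 ≤ c := fun c hc => (hL c (Multiset.mem_add.2 (Or.inl hc))).1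
  have hB : ∀ c ∈ LB, 16 ≤ c := fun c hc => (hL c (Multiset.mem_add.2 (Or.inr hc))).1
  rw [Multiset.sum_add] at H
  obtain ⟨p, p1, HA⟩ := H.runA c3 LA hA
  obtain ⟨q, q1, HB⟩ := HA.runB c4 LB hB
  have z0 : LA = 0 → LA.sum = 0 := fun h => by rw [h]; rfl
  have z1 : LB = 0 → LB.sum = 0 := fun h => by rw [h]; rfl
  have z2 : LA = 0 → LB = 0 → LA + LB = 0 := fun h h' => by rw [h, h']; rfl
  by_cases kA : RA + LA.sum + 2 * p ≤ RB + LB.sum + l + 1
  · by_cases kB : RB + LB.sum + 2 * q + 10 ≤ RA + LA.sum + l
    · have := HB.join (l := l) (by omega) kA kB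
      rwa [← add_assoc, add_comm LB] at this
    · have hq : 16 ≤ LB.sum ∧ q ≤ 6 := by
        rcases q1 with ⟨e, rfl⟩ | q1
        · have := z1 e
          rcases p1 with ⟨e', -⟩ | p1
          · have := z0 e'
            have := c9 (z2 e' e)
            omega
          · omega
        · exact q1
      obtain ⟨c, hc⟩ : ∃ c, c ∈ LB := Multiset.exists_mem_of_ne_zero fun e => by
        have := z1 e; omega
      obtain ⟨L', rfl⟩ := Multiset.exists_cons_of_mem hc
      obtain ⟨r, r1, HC⟩ := HA.runB c4 L' fun x hx => hB x (Multiset.mem_cons_of_mem hx)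
      have := hB c hc
      rw [Multiset.sum_cons] at *
      have hp : p + 10 ≤ l := by
        rcases p1 with ⟨e', rfl⟩ | p1
        · have := z0 e'
          omega
        · omega
      have := HC.two (c := l) (d := c) (by omega) (by omega) (by omega) (Or.inr (by omega))
      convert this using 1
      simp only [← Multiset.singleton_add]
      abel
  · have hp : 16 ≤ LA.sum ∧ p ≤ 6 := by
      rcases p1 with ⟨e, rfl⟩ | p1
      · have := z0 e
        rcases q1 with ⟨e', -⟩ | q1
        · have := z1 e'
          have := c9 (z2 e e')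
          omega
        · omega
      · exact p1
    obtain ⟨c, hc⟩ : ∃ c, c ∈ LA := Multiset.exists_mem_of_ne_zero fun e => by
      have := z0 e; omega
    obtain ⟨L', rfl⟩ := Multiset.exists_cons_of_mem hc
    obtain ⟨r, r1, HC⟩ := H.runA c3 L' fun x hx => hA x (Multiset.mem_cons_of_mem hx)
    obtain ⟨s, s1, HD⟩ := HC.runB c4 LB hB
    have := hA c hc
    rw [Multiset.sum_cons] at *
    have hs : s + 10 ≤ l := by
      rcases s1 with ⟨e', rfl⟩ | s1
      · have := z1 e'
        omega
      · omega
    have := HD.two (c := c) (d := l) (by omega) (by omega) (by omega) (Or.inl (by omega))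
    convert this using 1
    simp only [← Multiset.singleton_add]
    abel

end Pool.Agent.MP_29e935_co.Four

end
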