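import Pool.Agent.Mg.F29e935p.Gda7ce1
import Pool.Agent.Mg.F29e935p.G30e52c
import Pool.Agent.Mg.F29e935p.G0b13cc
import Pool.Agent.MP_29e935_co.SixDef

section

/-!
A regular graph of even degree at least four has a decomposition into 2-factors whose first
factor is not a union of triangles.
-/

set_option autoImplicit false

namespace Pool.Agent.MP_29e935_co.Six

open Pool.Agent.MP_29e935_co.Two Finset

variable {V : Type} [Fintype V] [DecidableEq V]

theorem orb_three {a : Equiv.Perm V} (h : ∀ v, a (a (a v)) = v) (u v : V) :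
    (⟦u⟧ : Orb a) = ⟦v⟧ ↔ v = u ∨ v = a u ∨ v = a (a u) := by
  rw [Quotient.eq]
  change a.SameCycle u v ↔ _
  constructor
  · intro hs
    obtain ⟨n, -, rfl⟩ := hs.exists_pow_eq'
    induction n with
    | zero => exact Or.inl rfl
    | succ n ih =>
      rw [pow_succ', Equiv.Perm.mul_apply]
      rcases ih ⟨n, by simp⟩ with e | e | e <;> rw [e]
      · exact Or.inr (Or.inl rfl)
      · exact Or.inr (Or.inr rfl)
      · exact Or.inl (h u)
  · rintro (rfl | rfl | rfl)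
    · exact Equiv.Perm.SameCycle.refl _ _
    · exact ⟨1, by simp⟩
    · exact ⟨2, by rw [zpow_two]; rfl⟩

theorem cube_of_otype {a : Equiv.Perm V} (h : ∀ x ∈ otype a, x = 3) (v : V) : a (a (a v)) = v := by
  obtain ⟨⟨o, j⟩, rfl⟩ := (opt_bij a).2 v
  have h1 : a^[olen a o] o.out = o.out := Function.iterate_minimalPeriod
  rw [h _ (Multiset.mem_map_of_mem _ (mem_univ o))] at h1
  change a^[3] (a^[j] o.out) = a^[j] o.out
  rw [← Function.iterate_add_apply, add_comm, Function.iterate_add_apply, h1]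

theorem card_orb {a : Equiv.Perm V} (h : ∀ x ∈ otype a, x = 3) :
    3 * Fintype.card (Orb a) = Fintype.card V := by
  rw [← otype_sum a, Multiset.eq_replicate_of_mem h]
  simp [otype, mul_comm]

theorem fibre {a b : Equiv.Perm V} (ha : ∀ v, a (a (a v)) = v) (hb : ∀ v, b (b (b v)) = v)
    (h1 : ∀ v, a v ≠ v) (h2 : ∀ v, a v ≠ b v ∧ a v ≠ b (b v)) [DecidableEq (Orb b)] (x : Orb a)
    (S : Finset (Orb b)) (hS : ∀ y, y ∈ S ↔ ∃ v, (⟦v⟧ : Orb a) = x ∧ (⟦v⟧ : Orb b) = y) :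
    #S = 3 := by
  induction x using Quotient.inductionOn with
  | _ u =>
    have key : ∀ v, (⟦v⟧ : Orb b) ≠ ⟦a v⟧ := fun v e => by
      rcases (orb_three hb _ _).1 e with e | e | e
      · exact h1 v e
      · exact (h2 v).1 e
      · exact (h2 v).2 e
    refine Finset.card_eq_three.2 ⟨⟦u⟧, ⟦a u⟧, ⟦a (a u)⟧, key u, ?_, key _, ?_⟩
    · have := key (a (a u))
      rw [ha] at this
      exact this.symm
    · ext y
      simp only [hS, mem_insert, mem_singleton]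
      constructor
      · rintro ⟨v, e, rfl⟩
        rcases (orb_three ha _ _).1 e.symm with rfl | rfl | rfl <;> simp
      · rintro (rfl | rfl | rfl)
        · exact ⟨u, rfl, rfl⟩
        · exact ⟨a u, ((orb_three ha _ _).2 (by simp)).symm, rfl⟩
        · exact ⟨a (a u), ((orb_three ha _ _).2 (by simp)).symm, rfl⟩

theorem colour {a b : Equiv.Perm V} (ha : ∀ x ∈ otype a, x = 3) (hb : ∀ x ∈ otype b, x = 3)
    (h1 : ∀ v, a v ≠ v ∧ b v ≠ v) (h2 : ∀ v, a v ≠ b v ∧ a v ≠ b (b v) ∧ b v ≠ a (a v)) :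
    ∃ c : V → Fin 3, ∀ v, c (a v) ≠ c v ∧ c (b v) ≠ c v := by
  classical
  have ha' := cube_of_otype ha
  have hb' := cube_of_otype hb
  let e : Orb b ≃ Orb a := Fintype.equivOfCardEq (by have := card_orb ha; have := card_orb hb; omega)
  obtain ⟨σ, s1, s2⟩ := split_perms 3 (fun x y : Orb a => ∃ v, (⟦v⟧ : Orb a) = x ∧ e ⟦v⟧ = y)
    (fun x => by
      rw [← Finset.card_map e.symm.toEmbedding]
      refine fibre ha' hb' (fun v => (h1 v).1) (fun v => ⟨(h2 v).1, (h2 v).2.1⟩) x _ fun y => ?_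
      simp [Finset.mem_map_equiv])
    (fun y => by
      refine fibre hb' ha' (fun v => (h1 v).2) (fun v => ⟨(h2 v).1.symm, (h2 v).2.2⟩) (e.symm y) _
        fun x => ?_
      simp only [mem_filter, mem_univ, true_and, Equiv.eq_symm_apply, and_comm])
  have hc : ∀ v, ∃ i, σ i ⟦v⟧ = e ⟦v⟧ := fun v => by
    have hS := fibre ha' hb' (fun v => (h1 v).1) (fun v => ⟨(h2 v).1, (h2 v).2.1⟩) ⟦v⟧
      {y | ∃ w, (⟦w⟧ : Orb a) = ⟦v⟧ ∧ (⟦w⟧ : Orb b) = y} (by simp)
    have : (univ : Finset (Fin 3)).image (fun i => e.symm (σ i ⟦v⟧)) =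
        ({y | ∃ w, (⟦w⟧ : Orb a) = ⟦v⟧ ∧ (⟦w⟧ : Orb b) = y} : Finset (Orb b)) := by
      refine Finset.eq_of_subset_of_card_le (fun y hy => ?_) ?_
      · obtain ⟨i, -, rfl⟩ := Finset.mem_image.1 hy
        obtain ⟨w, e1, e2⟩ := s1 i ⟦v⟧
        exact mem_filter.2 ⟨mem_univ _, w, e1, by rw [← e2]; simp⟩
      · rw [hS, Finset.card_image_of_injective _ fun i j h => s2 _ i j (e.symm.injective h)]
        simp
    have hv : (⟦v⟧ : Orb b) ∈ (univ : Finset (Fin 3)).image (fun i => e.symm (σ i ⟦v⟧)) := by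
      rw [this]; exact mem_filter.2 ⟨mem_univ _, v, rfl, rfl⟩
    obtain ⟨i, -, hi⟩ := Finset.mem_image.1 hv
    exact ⟨i, by rw [← hi]; simp⟩
  choose c hc using hc
  refine ⟨c, fun v => ⟨fun h => ?_, fun h => ?_⟩⟩
  · have e1 : (⟦v⟧ : Orb a) = ⟦a v⟧ := (orb_three ha' _ _).2 (by simp)
    have e2 := hc (a v)
    rw [h, ← e1, hc v] at e2
    rcases (orb_three hb' _ _).1 (e.injective e2) with e | e | e
    · exact (h1 v).1 e
    · exact (h2 v).1 e
    · exact (h2 v).2.1 e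
  · have e1 : (⟦v⟧ : Orb b) = ⟦b v⟧ := (orb_three hb' _ _).2 (by simp)
    have e2 := hc (b v)
    rw [h, ← e1, ← hc v] at e2
    rcases (orb_three ha' _ _).1 ((σ _).injective e2).symm with e | e | e
    · exact (h1 v).2 e
    · exact (h2 v).1 e.symm
    · exact (h2 v).2.2 e

/-- The neighbour in the triangle with the next colour. -/
def nxt (a : Equiv.Perm V) (c : V → Fin 3) (v : V) : V := if c (a v) = c v + 1 then a v else a (a v)

omit [Fintype V] [DecidableEq V] in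
theorem nxt_col {a : Equiv.Perm V} {c : V → Fin 3} (ha : ∀ v, a (a (a v)) = v)
    (hc : ∀ v, c (a v) ≠ c v) (v : V) : c (nxt a c v) = c v + 1 := by
  unfold nxt
  split_ifs with h
  · exact h
  · have h1 := hc v
    have h2 := hc (a v)
    have h3 := hc (a (a v))
    rw [ha] at h3
    omega

omit [Fintype V] [DecidableEq V] in
theorem nxt_inj {a : Equiv.Perm V} {c : V → Fin 3} (hc : ∀ v, c (a v) ≠ c v) {u v : V}
    (h : nxt a c u = nxt a c v) (e : c u = c v) : u = v := by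
  unfold nxt at h
  split_ifs at h
  · exact a.injective h
  · exact absurd (by rw [← a.injective h, e]) (hc v)
  · exact absurd (by rw [a.injective h, e]) (hc u)
  · exact a.injective (a.injective h)

omit [Fintype V] [DecidableEq V] in
theorem nxt_cases (a : Equiv.Perm V) (c : V → Fin 3) (v : V) :
    nxt a c v = a v ∨ nxt a c v = a (a v) := by
  unfold nxt
  split_ifs <;> simp

omit [Fintype V] [DecidableEq V] in
theorem nxt_cube {a : Equiv.Perm V} {c : V → Fin 3} (ha : ∀ v, a (a (a v)) = v)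
    (hc : ∀ v, c (a v) ≠ c v) (u : V) : nxt a c (nxt a c (nxt a c u)) = u := by
  have key : ∀ w, (w = u ∨ w = a u ∨ w = a (a u)) →
      (nxt a c w = u ∨ nxt a c w = a u ∨ nxt a c w = a (a u)) := fun w hw => by
    rcases nxt_cases a c w with e | e <;> rw [e] <;> rcases hw with rfl | rfl | rfl <;> simp [ha]
  have e := nxt_col ha hc (nxt a c (nxt a c u))
  rw [nxt_col ha hc (nxt a c u), nxt_col ha hc u] at e
  have h1 := hc u
  have h3 := hc (a (a u))
  rw [ha] at h3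
  rcases key _ (key _ (key u (Or.inl rfl))) with h | h | h
  · exact h
  · rw [h] at e; omega
  · rw [h] at e; omega

/-- The switch of two factors at the vertices of colour zero. -/
noncomputable def sw {a b : Equiv.Perm V} {c : V → Fin 3} (ha : ∀ v, a (a (a v)) = v)
    (hb : ∀ v, b (b (b v)) = v) (h1 : ∀ v, c (a v) ≠ c v) (h2 : ∀ v, c (b v) ≠ c v) :
    Equiv.Perm V :=
  Equiv.ofBijective (fun v => if c v = 0 then nxt b c v else nxt a c v)
    (Finite.injective_iff_bijective.1 fun u v h => by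
      have e := congrArg c h
      have e1 : c u = c v := by
        split_ifs at e <;> simp only [nxt_col ha h1, nxt_col hb h2] at e <;> omega
      simp only [e1] at h
      split_ifs at h
      · exact nxt_inj h2 h e1
      · exact nxt_inj h1 h e1)

theorem refactor {G : SimpleGraph V} [DecidableRel G.Adj] {t : ℕ} (ht : 1 < t)
    (hG : G.IsRegularOfDegree (2 * t)) (v0 : V) :
    ∃ σ : Fin t → Equiv.Perm V, Factors G σ ∧ ∃ x ∈ otype (σ ⟨0, by omega⟩).symm, x ≠ 3 := by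
  obtain ⟨σ, hσ⟩ := petersen G (by omega) hG
  let i0 : Fin t := ⟨0, by omega⟩
  let i1 : Fin t := ⟨1, ht⟩
  have h01 : i0 ≠ i1 := by simp [i0, i1]
  by_contra! hc
  have ha := hc σ hσ
  have hb : ∀ x ∈ otype (σ i1).symm, x = 3 := by
    have := hc (fun i => σ (Equiv.swap i0 i1 i)) ⟨fun i v => hσ.1 _ v,
      fun v i j h => (Equiv.swap i0 i1).injective (hσ.2.1 v _ _ h), fun v i j => hσ.2.2 v _ _⟩
    rwa [Equiv.swap_apply_left] at this
  have ha' := cube_of_otype ha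
  have hb' := cube_of_otype hb
  have sq : ∀ i, (∀ v, (σ i).symm ((σ i).symm ((σ i).symm v)) = v) →
      ∀ v, (σ i).symm ((σ i).symm v) = σ i v := fun i h v => by
    conv_rhs => rw [← h v]
    simp
  have n1 : ∀ i j v, (σ i).symm v ≠ σ j v := fun i j v h => hσ.2.2 v i j (by rw [← h]; simp)
  have n2 : ∀ i j v, (σ i).symm v = (σ j).symm v → i = j := fun i j v h =>
    hσ.2.1 ((σ i).symm v) i j (by rw [Equiv.apply_symm_apply, h, Equiv.apply_symm_apply])
  have n3 : ∀ i v, (σ i).symm v ≠ v := fun i v h => by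
    have := hσ.1 i ((σ i).symm v)
    rw [Equiv.apply_symm_apply, h] at this
    exact this.ne rfl
  obtain ⟨c, hcol⟩ := colour ha hb (fun v => ⟨n3 _ v, n3 _ v⟩) fun v =>
    ⟨fun h => h01 (n2 _ _ v h), by rw [sq _ hb']; exact n1 _ _ v, by rw [sq _ ha']; exact n1 _ _ v⟩
  have c0 := fun v => (hcol v).1
  have c1 := fun v => (hcol v).2
  have q0 : ∀ v, nxt (σ i0).symm c v = σ i0 v ∨ σ i0 (nxt (σ i0).symm c v) = v := fun v => by
    rcases nxt_cases (σ i0).symm c v with e | e <;> rw [e]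
    · simp
    · exact Or.inl (sq _ ha' v)
  have q1 : ∀ v, nxt (σ i1).symm c v = σ i1 v ∨ σ i1 (nxt (σ i1).symm c v) = v := fun v => by
    rcases nxt_cases (σ i1).symm c v with e | e <;> rw [e]
    · simp
    · exact Or.inl (sq _ hb' v)
  have q2 : ∀ v, nxt (σ i0).symm c v ≠ nxt (σ i1).symm c v := fun v h => by
    rcases q0 v with e | e <;> rcases q1 v with e' | e'
    · exact h01 (hσ.2.1 v _ _ (by rw [← e, h, e']))
    · exact hσ.2.2 v i1 i0 (by rw [← e, h, e'])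
    · exact hσ.2.2 v i0 i1 (by rw [← e', ← h, e])
    · exact h01 (hσ.2.1 _ _ _ (by rw [e, h, e']))
  let τ : Fin t → Equiv.Perm V := fun i =>
    if i = i0 then sw ha' hb' c0 c1 else if i = i1 then sw hb' ha' c1 c0 else σ i
  have p0 : ∀ v, τ i0 v = if c v = 0 then nxt (σ i1).symm c v else nxt (σ i0).symm c v := fun v => by
    simp only [τ, if_true]; rfl
  have p1 : ∀ v, τ i1 v = if c v = 0 then nxt (σ i0).symm c v else nxt (σ i1).symm c v := fun v => by
    simp only [τ, if_true, if_neg h01.symm]; rfl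
  have p2 : ∀ i, i ≠ i0 → i ≠ i1 → τ i = σ i := fun i h h' => by simp only [τ, if_neg h, if_neg h']
  have p3 : ∀ i v, (i = i0 ∨ i = i1) → c (τ i v) = c v + 1 ∧
      ∃ j, (j = i0 ∨ j = i1) ∧ (τ i v = σ j v ∨ σ j (τ i v) = v) := by
    rintro i v (rfl | rfl)
    · rw [p0]
      split_ifs
      · exact ⟨nxt_col hb' c1 v, i1, Or.inr rfl, q1 v⟩
      · exact ⟨nxt_col ha' c0 v, i0, Or.inl rfl, q0 v⟩
    · rw [p1]
      split_ifs
      · exact ⟨nxt_col ha' c0 v, i0, Or.inl rfl, q0 v⟩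
      · exact ⟨nxt_col hb' c1 v, i1, Or.inr rfl, q1 v⟩
  have p4 : ∀ i j v, (i = i0 ∨ i = i1) → ¬ (j = i0 ∨ j = i1) → τ i v ≠ σ j v ∧ σ j (τ i v) ≠ v := by
    intro i j v hi hj
    obtain ⟨-, k, hk, e | e⟩ := p3 i v hi
    · exact ⟨fun h => hj (hσ.2.1 v k j (by rw [← e, h]) ▸ hk), by rw [e]; exact hσ.2.2 v j k⟩
    · exact ⟨fun h => hσ.2.2 v k j (by rw [← h, e]),
        fun h => hj (hσ.2.1 (τ i v) k j (by rw [e, h]) ▸ hk)⟩
  have hτ : Factors G τ := by
    refine ⟨fun i v => ?_, fun v i j h => ?_, fun v i j h => ?_⟩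
    · by_cases hi : i = i0 ∨ i = i1
      · obtain ⟨-, k, -, e | e⟩ := p3 i v hi
        · rw [e]; exact hσ.1 k v
        · have := hσ.1 k (τ i v)
          rw [e] at this
          exact this.symm
      · rw [p2 i (fun h => hi (Or.inl h)) fun h => hi (Or.inr h)]; exact hσ.1 i v
    · by_cases hi : i = i0 ∨ i = i1 <;> by_cases hj : j = i0 ∨ j = i1
      · rcases hi with rfl | rfl <;> rcases hj with rfl | rfl
        · rfl
        · rw [p0, p1] at h
          split_ifs at h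
          · exact absurd h.symm (q2 v)
          · exact absurd h (q2 v)
        · rw [p0, p1] at h
          split_ifs at h
          · exact absurd h (q2 v)
          · exact absurd h.symm (q2 v)
        · rfl
      · rw [p2 j (fun h => hj (Or.inl h)) fun h => hj (Or.inr h)] at h
        exact absurd h (p4 i j v hi hj).1
      · rw [p2 i (fun h => hi (Or.inl h)) fun h => hi (Or.inr h)] at h
        exact absurd h.symm (p4 j i v hj hi).1
      · rw [p2 i (fun h => hi (Or.inl h)) fun h => hi (Or.inr h),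
          p2 j (fun h => hj (Or.inl h)) fun h => hj (Or.inr h)] at h
        exact hσ.2.1 v i j h
    · by_cases hi : i = i0 ∨ i = i1 <;> by_cases hj : j = i0 ∨ j = i1
      · have e1 := (p3 i (τ j v) hi).1
        rw [h, (p3 j v hj).1] at e1
        omega
      · rw [p2 j (fun h => hj (Or.inl h)) fun h => hj (Or.inr h)] at h
        have e := (p4 i j (σ j v) hi hj).2
        rw [h] at e
        exact e rfl
      · rw [p2 i (fun h => hi (Or.inl h)) fun h => hi (Or.inr h)] at h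
        exact (p4 j i v hj hi).2 h
      · rw [p2 i (fun h => hi (Or.inl h)) fun h => hi (Or.inr h),
          p2 j (fun h => hj (Or.inl h)) fun h => hj (Or.inr h)] at h
        exact hσ.2.2 v i j h
  have hcube := cube_of_otype (hc τ hτ)
  obtain ⟨v, hv⟩ : ∃ v, c v = 0 := by
    have e1 := (p3 i0 v0 (Or.inl rfl)).1
    have e2 := (p3 i0 (τ i0 v0) (Or.inl rfl)).1
    by_contra! hn
    have := hn v0
    have := hn (τ i0 v0)
    have := hn (τ i0 (τ i0 v0))
    omega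
  have e0 : τ i0 (τ i0 (τ i0 v)) = v := by
    conv_lhs => rw [← hcube v]
    simp [i0]
  have e1 := (p3 i0 v (Or.inl rfl)).1
  have e2 := (p3 i0 (τ i0 v) (Or.inl rfl)).1
  rw [p0 (τ i0 (τ i0 v)), if_neg (by omega), p0 (τ i0 v), if_neg (by omega)] at e0
  apply q2 v
  have e3 : τ i0 v = nxt (σ i1).symm c v := by rw [p0, if_pos hv]
  rw [← e3]
  conv_lhs => rw [← e0]
  exact nxt_cube ha' c0 _

end Pool.Agent.MP_29e935_co.Six

end

section

/-!
Degrees congruent to two modulo four: reduction to mirror labelings of unions of cycles.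
-/

set_option autoImplicit false

namespace Pool.Agent.MP_29e935_co.Six

open Pool.Agent.MP_29e935_co.Two Pool.Agent.MP_29e935_co.Four Finset

def GV (t B : ℕ) (k : ℕ → ℕ) (F : ℕ → ℕ → ℕ) (p x q : ℕ) : Prop :=
  p < B ∧ B ≤ x ∧ F 0 p + F 0 q + F 1 x = k 0 ∧ ∀ i < t, 1 ≤ i → F i x + F (i + 1) x = k i

/-- A labeling of the cycles `M` together with `t` further layers tiling an interval. -/
def GT (t : ℕ) (M : Multiset ℕ) : Prop :=
  ∃ (B : ℕ) (k : ℕ → ℕ) (F : ℕ → ℕ → ℕ) (D : Multiset ℕ), Cycles (GV t B k F) M D ∧ D.Nodup ∧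
    (∀ l ∈ D, ∀ i ≤ t, (i = 0 ↔ l < B) → 1 ≤ F i l ∧ F i l ≤ M.sum * (t + 1)) ∧
    ∀ l ∈ D, ∀ l' ∈ D, ∀ i ≤ t, ∀ j ≤ t, (i = 0 ↔ l < B) → (j = 0 ↔ l' < B) →
      F i l = F j l' → i = j ∧ l = l'

theorem GT.vmtl {V : Type} [Fintype V] [DecidableEq V] {G : SimpleGraph V} [DecidableRel G.Adj]
    {t : ℕ} (ht : 0 < t) (hG : G.IsRegularOfDegree (2 * t)) {σ : Fin t → Equiv.Perm V}
    (hσ : Factors G σ) (h : GT t (otype (σ ⟨0, ht⟩).symm)) :
    ∃ (h : V → ℕ) (g : Sym2 V → ℕ) (k : ℕ),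
      Function.Injective h ∧ Set.InjOn g G.edgeSet ∧
      (∀ v, ∀ e ∈ G.edgeSet, h v ≠ g e) ∧
      (∀ v, 1 ≤ h v ∧ h v ≤ Fintype.card V + Fintype.card G.edgeSet) ∧
      (∀ e ∈ G.edgeSet, 1 ≤ g e ∧ g e ≤ Fintype.card V + Fintype.card G.edgeSet) ∧
      ∀ v, h v + ∑ w ∈ G.neighborFinset v, g s(v, w) = k := by
  obtain ⟨B, k, F, D, hc, hn, hr, hi⟩ := h
  obtain ⟨x, e, hs, rfl⟩ := perm_label _ hc
  rw [otype_sum] at hr
  obtain ⟨n1, n2, -⟩ := Multiset.nodup_add.1 hn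
  have ix : Function.Injective x := fun a b h =>
    Multiset.inj_on_of_nodup_map n1 a (mem_univ _) b (mem_univ _) h
  have ie : Function.Injective e := fun a b h =>
    Multiset.inj_on_of_nodup_map n2 a (mem_univ _) b (mem_univ _) h
  let z : ℕ → V → ℕ := fun i v => if i = 0 then e v else x v
  have hz : ∀ i v, z i v ∈ (univ : Finset V).val.map x + (univ : Finset V).val.map e ∧
      (i = 0 ↔ z i v < B) := fun i v => by
    have := hs v
    simp only [z, GV] at this ⊢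
    split_ifs with h
    · exact ⟨Multiset.mem_add.2 (Or.inr (Multiset.mem_map_of_mem _ (mem_univ v))), by omega⟩
    · exact ⟨Multiset.mem_add.2 (Or.inl (Multiset.mem_map_of_mem _ (mem_univ v))), by omega⟩
  refine chain ht hG hσ (fun i v => F i (z i v)) k (fun v => (hs v).2.2.1) (fun i h1 h2 v => ?_)
    (fun i hi' j hj v w h => ?_) fun i hi' v => hr _ (hz i v).1 _ hi' (hz i v).2
  · simp only [z, if_neg (show i ≠ 0 by omega), if_neg (Nat.succ_ne_zero i)]
    exact (hs v).2.2.2 i h2 h1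
  · obtain ⟨rfl, e2⟩ := hi _ (hz i v).1 _ (hz j w).1 _ hi' _ hj (hz i v).2 (hz j w).2 h
    refine ⟨rfl, ?_⟩
    simp only [z] at e2
    split_ifs at e2
    · exact ie e2
    · exact ix e2

/-- The signed value of the magnitude `m`. -/
def sg (s : ℕ → Bool) (m : ℕ) : ℤ := if s m = true then m else -1 - m

def MV (n : ℕ) (s : ℕ → Bool) (c : ℤ) (p x q : ℕ) : Prop :=
  p < n ∧ q < n ∧ n ≤ x ∧ x < 2 * n ∧ sg s p + sg s q = sg s (x - n) + c

/-- Mirror labelings: the line `m < n` is an edge, the line `n + m` is a target. -/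
def Mir (M : Multiset ℕ) : Prop :=
  ∃ (s : ℕ → Bool) (c : ℤ) (D : Multiset ℕ), Cycles (MV M.sum s c) M D ∧ D.Nodup

def mlay (n : ℕ) (s : ℕ → Bool) (i l : ℕ) : ℕ :=
  2 * n * (i / 2) + if (i % 2 = 0 ↔ s (if i = 0 then l else l - n) = true)
    then n + (if i = 0 then l else l - n) + 1 else n - (if i = 0 then l else l - n)

theorem Mir.gt {M : Multiset ℕ} (h : Mir M) (u : ℕ) : GT (2 * u + 1) M := by
  obtain ⟨s, c, D, h1, h2⟩ := h
  have h3 := cycles_all (R := fun l => l < 2 * M.sum) h1 fun p x q h => by unfold MV at h; omega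
  refine ⟨M.sum, fun i => if i = 0 then (3 * M.sum + 2 + c : ℤ).toNat else
    2 * M.sum * (i / 2) + 2 * M.sum * ((i + 1) / 2) + 2 * M.sum + 1, mlay M.sum s, D, ?_, h2,
    fun l hl i hi h0 => ?_, fun l hl l' hl' i hi j hj h0 h0' e => ?_⟩
  · have := h1.map (W := GV (2 * u + 1) M.sum (fun i => if i = 0 then (3 * M.sum + 2 + c : ℤ).toNat
        else 2 * M.sum * (i / 2) + 2 * M.sum * ((i + 1) / 2) + 2 * M.sum + 1) (mlay M.sum s)) id
      fun p _ x _ q _ h => by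
        obtain ⟨k1, k2, k3, k4, k5⟩ := h
        refine ⟨k1, k3, ?_, fun i _ hi => ?_⟩
        · simp only [sg, mlay, id] at k5 ⊢
          generalize M.sum = n at *
          cases h1 : s p <;> cases h2 : s q <;> cases h3 : s (x - n) <;>
            simp [h1, h2, h3] at k5 ⊢ <;> omega
        · simp only [mlay, id, if_neg (show i ≠ 0 by omega), if_neg (Nat.succ_ne_zero i)]
          cases s (x - M.sum) <;> simp only [Bool.false_eq_true, iff_false, iff_true] <;>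
            split_ifs <;> omega
    rwa [Multiset.map_id] at this
  · have := h3 l hl
    have e1 : M.sum * (2 * u + 1 + 1) = 2 * M.sum * u + 2 * M.sum := by ring
    have e2 : 2 * M.sum * (i / 2) ≤ 2 * M.sum * u := Nat.mul_le_mul_left _ (by omega)
    unfold mlay
    split_ifs <;> omega
  · have k1 := h3 l hl
    have k2 := h3 l' hl'
    unfold mlay at e
    rcases lt_trichotomy (i / 2) (j / 2) with h | h | h
    · have e2 := Nat.mul_le_mul_left (2 * M.sum) (Nat.succ_le_of_lt h)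
      rw [Nat.mul_succ] at e2
      split_ifs at e <;> omega
    · rw [h] at e
      have e3 : (if i = 0 then l else l - M.sum) = if j = 0 then l' else l' - M.sum := by
        split_ifs at e ⊢ <;> omega
      rw [e3] at e
      have e4 : i = j := by
        generalize (if j = 0 then l' else l' - M.sum) = m at e
        cases hm : s m <;> simp only [hm, Bool.false_eq_true, iff_false, iff_true] at e <;>
          split_ifs at e <;> omega
      subst e4
      refine ⟨rfl, ?_⟩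
      split_ifs at e3 <;> omega
    · have e2 := Nat.mul_le_mul_left (2 * M.sum) (Nat.succ_le_of_lt h)
      rw [Nat.mul_succ] at e2
      split_ifs at e <;> omega

structure GE : Type where
  M : List ℕ
  t : ℕ
  k : ℕ
  c : List ℕ
  C : List (List (ℕ × ℕ))

def GE.D (e : GE) : Multiset ℕ :=
  (((e.C.map mkCyc : List (Cyc ℕ)) : Multiset (Cyc ℕ)).map Cyc.lines).sum

def GE.F (e : GE) (i l : ℕ) : ℕ :=
  if i = 0 then l + 1 else if i % 2 = 1 then e.c.getD i 0 + (l - 100) else e.c.getD i 0 - (l - 100)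

def GE.K (e : GE) (i : ℕ) : ℕ := if i = 0 then e.k else e.c.getD i 0 + e.c.getD (i + 1) 0

instance (t B : ℕ) (k : ℕ → ℕ) (F : ℕ → ℕ → ℕ) (p x q : ℕ) : Decidable (GV t B k F p x q) := by
  unfold GV; infer_instance

def GE.inj (e : GE) (l l' i j : ℕ) : Prop :=
  (i = 0 ↔ l < 100) → (j = 0 ↔ l' < 100) → e.F i l = e.F j l' → i = j ∧ l = l'

instance (e : GE) (l l' i j : ℕ) : Decidable (e.inj l l' i j) := by unfold GE.inj; infer_instance

def gtOK (e : GE) : Bool :=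
  decide (e.C.map List.length = e.M) &&
  (e.C.all fun c => (List.range c.length).all fun j =>
    decide (GV e.t 100 e.K e.F ((mkCyc c).e j) ((mkCyc c).x j) ((mkCyc c).e (j + 1)))) &&
  decide e.D.Nodup &&
  decide (∀ l ∈ e.D, ∀ i ≤ e.t, (i = 0 ↔ l < 100) → 1 ≤ e.F i l ∧ e.F i l ≤ e.M.sum * (e.t + 1)) &&
  decide (∀ l ∈ e.D, ∀ l' ∈ e.D, ∀ i ≤ e.t, ∀ j ≤ e.t, e.inj l l' i j)

theorem gtOK_sound {e : GE} (h : gtOK e = true) : GT e.t (e.M : Multiset ℕ) := by
  simp only [gtOK, Bool.and_eq_true, decide_eq_true_eq, List.all_eq_true, List.mem_range] at h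
  obtain ⟨⟨⟨⟨h1, h2⟩, h3⟩, h4⟩, h5⟩ := h
  refine ⟨100, e.K, e.F, e.D, ⟨(e.C.map mkCyc : List (Cyc ℕ)), fun c hc => ?_, ?_, rfl⟩,
    h3, by simpa using h4, h5⟩
  · obtain ⟨d, hd, rfl⟩ := List.mem_map.1 (Multiset.mem_coe.1 hc)
    exact ⟨by simp [mkCyc], h2 d hd⟩
  · rw [← h1, Multiset.map_coe, List.map_map]
    rfl

def gtT : List GE := [
  ⟨[3, 4], 3, 63, [0, 16, 14, 1],
    [[(110, 14), (100, 21), (107, 24)], [(112, 16), (105, 17), (104, 23), (111, 18)]]⟩,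
  ⟨[3, 5], 3, 56, [0, 11, 23, 4],
    [[(120, 9), (100, 14), (105, 29)], [(117, 0), (101, 26), (121, 16), (109, 6), (115, 28)]]⟩,
  ⟨[3, 3, 5], 3, 97, [0, 24, 22, 1],
    [[(119, 22), (106, 30), (114, 35)], [(120, 25), (117, 26), (118, 28)],
      [(116, 24), (113, 31), (111, 27), (100, 33), (109, 38)]]⟩,
  ⟨[3, 3, 5], 5, 163, [0, 46, 22, 1, 44, 23],
    [[(119, 44), (106, 52), (114, 57)], [(120, 47), (117, 48), (118, 50)],
      [(116, 46), (113, 53), (111, 49), (100, 55), (109, 60)]]⟩]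

theorem gtT_ok : gtT.all gtOK = true := by decide +kernel

theorem gt_get (i : Fin 4) : GT (gtT.get i).t ((gtT.get i).M : Multiset ℕ) :=
  gtOK_sound (List.all_eq_true.1 gtT_ok _ (List.get_mem _ _))

/-- The statement to be proved about mirror labelings. -/
def MirAll : Prop :=
  ∀ M : Multiset ℕ, (∀ x ∈ M, 3 ≤ x) → 7 ≤ M.sum → (∃ x ∈ M, x ≠ 3) → M ≠ {3, 4} → M ≠ {3, 5} →
    M ≠ {3, 3, 5} → Mir M

/-- The case of degree two modulo four, at least six. -/
theorem six_regular (H : MirAll) (V : Type) [Fintype V] [DecidableEq V] (G : SimpleGraph V)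
    [DecidableRel G.Adj] {r : ℕ} (h0 : 2 < r) (h4 : r % 4 = 2) (hG : G.IsRegularOfDegree r) :
    ∃ (h : V → ℕ) (g : Sym2 V → ℕ) (k : ℕ),
      Function.Injective h ∧ Set.InjOn g G.edgeSet ∧
      (∀ v, ∀ e ∈ G.edgeSet, h v ≠ g e) ∧
      (∀ v, 1 ≤ h v ∧ h v ≤ Fintype.card V + Fintype.card G.edgeSet) ∧
      (∀ e ∈ G.edgeSet, 1 ≤ g e ∧ g e ≤ Fintype.card V + Fintype.card G.edgeSet) ∧
      ∀ v, h v + ∑ w ∈ G.neighborFinset v, g s(v, w) = k := by
  obtain ⟨u, rfl⟩ : ∃ u, r = 2 * (2 * u + 1) := ⟨r / 4, by omega⟩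
  have ht : 0 < 2 * u + 1 := by omega
  rcases isEmpty_or_nonempty V with hV | ⟨⟨v0⟩⟩
  · obtain ⟨σ, hσ⟩ := petersen G ht hG
    exact chain ht hG hσ (fun _ _ => 0) (fun _ => 0) (fun v => isEmptyElim v)
      (fun _ _ _ v => isEmptyElim v) (fun _ _ _ _ v => isEmptyElim v) fun _ _ v => isEmptyElim v
  obtain ⟨σ, hσ, hx⟩ := refactor (show 1 < 2 * u + 1 by omega) hG v0
  have h3 : ∀ v, (σ ⟨0, ht⟩).symm ((σ ⟨0, ht⟩).symm v) ≠ v := fun v h => by
    apply hσ.2.2 v ⟨0, ht⟩ ⟨0, ht⟩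
    conv_lhs => rw [← h]
    simp
  have hn := G.degree_lt_card_verts v0
  rw [hG v0, ← otype_sum (σ ⟨0, ht⟩).symm] at hn
  refine GT.vmtl ht hG hσ ?_
  have h5 := otype_three _ h3
  generalize otype (σ ⟨0, ht⟩).symm = M at hn hx h5
  by_cases e1 : M = {3, 4}
  · subst e1
    obtain rfl : u = 1 := by simp at hn; omega
    exact gt_get 0
  by_cases e2 : M = {3, 5}
  · subst e2
    obtain rfl : u = 1 := by simp at hn; omega
    exact gt_get 1
  by_cases e3 : M = {3, 3, 5}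
  · subst e3
    obtain rfl | rfl : u = 1 ∨ u = 2 := by simp at hn; omega
    · exact gt_get 2
    · exact gt_get 3
  exact (H M h5 (by omega) hx e1 e2 e3).gt u

end Pool.Agent.MP_29e935_co.Six

end

section

/-!
Partial mirror labelings: closed cycles and open paths on tagged integer lines.
-/

set_option autoImplicit false

namespace Pool.Agent.MP_29e935_co.Six

open Pool.Agent.MP_29e935_co.Two Pool.Agent.MP_29e935_co.Four

/-- A line is a tag and a value; tags below `16` modulo `32` are edges, the others targets. -/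
def Vz (c : ℤ) (p x q : ℕ × ℤ) : Prop :=
  p.1 % 32 < 16 ∧ q.1 % 32 < 16 ∧ 16 ≤ x.1 % 32 ∧ p.2 + q.2 = x.2 + c

def PathsV (c : ℤ) : List (ℤ × ℤ × ℕ) → Multiset (ℕ × ℤ) → Prop
  | [], D => D = 0
  | P :: L, D => ∃ h t D1 D2, h.2 = P.1 ∧ t.2 = P.2.1 ∧ h.1 % 32 < 16 ∧ t.1 % 32 < 16 ∧
      Path (Vz c) h t P.2.2 D1 ∧ PathsV c L D2 ∧ D = D1 + D2

/-- Closed cycles of lengths `M`, open paths with end values and lengths `L`, lines in `Q`. -/
def Hold (c : ℤ) (Q : ℕ × ℤ → Prop) (M : Multiset ℕ) (L : List (ℤ × ℤ × ℕ)) : Prop :=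
  ∃ D E, (D + E).Nodup ∧ Cycles (Vz c) M D ∧ PathsV c L E ∧ ∀ l ∈ D + E, Q l

variable {c : ℤ} {Q Q' : ℕ × ℤ → Prop} {M : Multiset ℕ} {L : List (ℤ × ℤ × ℕ)}

theorem Hold.nil (c : ℤ) (Q : ℕ × ℤ → Prop) : Hold c Q 0 [] :=
  ⟨0, 0, by simp, Cycles.nil _, rfl, by simp⟩

theorem Hold.mono (H : Hold c Q M L) (h : ∀ l, Q l → Q' l) : Hold c Q' M L := by
  obtain ⟨D, E, h1, h2, h3, h4⟩ := H
  exact ⟨D, E, h1, h2, h3, fun l hl => h l (h4 l hl)⟩

theorem add_line {D : Multiset (ℕ × ℤ)} {x : ℕ × ℤ} (h1 : D.Nodup) (h4 : ∀ l ∈ D, Q l)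
    (hx : ¬ Q x) (h : ∀ l, Q l → Q' l) (h' : Q' x) :
    (x ::ₘ D).Nodup ∧ ∀ l ∈ x ::ₘ D, Q' l :=
  ⟨Multiset.nodup_cons.2 ⟨fun hm => hx (h4 _ hm), h1⟩, fun l hl => by
    rcases Multiset.mem_cons.1 hl with rfl | hl
    · exact h'
    · exact h l (h4 l hl)⟩

theorem Hold.start (H : Hold c Q M L) {p : ℕ × ℤ} (hp : p.1 % 32 < 16) (hx : ¬ Q p)
    (h : ∀ l, Q l → Q' l) (h' : Q' p) : Hold c Q' M ((p.2, p.2, 0) :: L) := by
  obtain ⟨D, E, h1, h2, h3, h4⟩ := H
  have e : D + ({p} + E) = p ::ₘ (D + E) := by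
    simp only [← Multiset.singleton_add]; abel
  obtain ⟨k1, k2⟩ := add_line h1 h4 hx h h'
  exact ⟨D, _, e ▸ k1, h2, ⟨p, p, _, E, rfl, rfl, hp, hp, Path.one p, h3, rfl⟩, e ▸ k2⟩

theorem Hold.close {h t : ℤ} {k : ℕ} (H : Hold c Q M ((h, t, k) :: L)) {x : ℕ × ℤ}
    (hp : 16 ≤ x.1 % 32) (he : t + h = x.2 + c) (hx : ¬ Q x)
    (hq : ∀ l, Q l → Q' l) (h' : Q' x) : Hold c Q' ((k + 1) ::ₘ M) L := by
  obtain ⟨D, E, h1, h2, ⟨a, b, D1, D2, rfl, rfl, j1, j2, j3, j4, rfl⟩, h4⟩ := H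
  have e : D + x ::ₘ D1 + D2 = x ::ₘ (D + (D1 + D2)) := by
    simp only [← Multiset.singleton_add]; abel
  obtain ⟨k1, k2⟩ := add_line h1 h4 hx hq h'
  exact ⟨_, D2, e ▸ k1, j3.close ⟨j2, j1, hp, he⟩ h2, j4, e ▸ k2⟩

theorem Hold.join {h t h' t' : ℤ} {k k' : ℕ} (H : Hold c Q M ((h, t, k) :: (h', t', k') :: L))
    {x : ℕ × ℤ} (hp : 16 ≤ x.1 % 32) (he : t + h' = x.2 + c) (hx : ¬ Q x)
    (hq : ∀ l, Q l → Q' l) (hx' : Q' x) : Hold c Q' M ((h, t', k + k' + 1) :: L) := by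
  obtain ⟨D, E, h1, h2, ⟨a, b, D1, _, rfl, rfl, j1, j2, j3,
    ⟨a', b', D2, D3, rfl, rfl, i1, i2, i3, i4, rfl⟩, rfl⟩, h4⟩ := H
  have e : D + (x ::ₘ (D1 + D2) + D3) = x ::ₘ (D + (D1 + (D2 + D3))) := by
    simp only [← Multiset.singleton_add]; abel
  obtain ⟨k1, k2⟩ := add_line h1 h4 hx hq hx'
  exact ⟨D, _, e ▸ k1, h2, ⟨a, b', _, D3, rfl, rfl, j1, i2, j3.join ⟨j2, i1, hp, he⟩ i3, i4, rfl⟩,
    e ▸ k2⟩

theorem Hold.rev {h t : ℤ} {k : ℕ} (H : Hold c Q M ((h, t, k) :: L)) :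
    Hold c Q M ((t, h, k) :: L) := by
  obtain ⟨D, E, h1, h2, ⟨a, b, D1, D2, rfl, rfl, j1, j2, j3, j4, rfl⟩, h4⟩ := H
  exact ⟨D, _, h1, h2, ⟨b, a, D1, D2, rfl, rfl, j2, j1,
    j3.rev (fun p x q h => by unfold Vz at *; omega), j4, rfl⟩, h4⟩

theorem PathsV.perm {L L' : List (ℤ × ℤ × ℕ)} (h : L.Perm L') :
    ∀ {E : Multiset (ℕ × ℤ)}, PathsV c L E → PathsV c L' E := by
  induction h with
  | nil => exact id
  | cons _ _ ih =>
    rintro _ ⟨a, b, D1, D2, j0, j1, j2, j3, j4, j5, rfl⟩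
    exact ⟨a, b, D1, D2, j0, j1, j2, j3, j4, ih j5, rfl⟩
  | swap =>
    rintro _ ⟨a, b, D1, _, j0, j1, j2, j3, j4, ⟨a', b', D2, D3, i0, i1, i2, i3, i4, i5, rfl⟩, rfl⟩
    exact ⟨a', b', D2, _, i0, i1, i2, i3, i4, ⟨a, b, D1, D3, j0, j1, j2, j3, j4, i5, rfl⟩,
      add_left_comm _ _ _⟩
  | trans _ _ i1 i2 => exact fun h => i2 (i1 h)

theorem Hold.perm {L' : List (ℤ × ℤ × ℕ)} (H : Hold c Q M L) (h : L.Perm L') : Hold c Q M L' := by
  obtain ⟨D, E, h1, h2, h3, h4⟩ := H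
  exact ⟨D, E, h1, h2, h3.perm h, h4⟩

theorem path_map {α : Type} {V : α → α → α → Prop} {f : α → α}
    (hf : ∀ p x q, V p x q → V (f p) (f x) (f q)) {h t : α} {n : ℕ} {D : Multiset α}
    (H : Path V h t n D) : Path V (f h) (f t) n (D.map f) := by
  induction H with
  | one => simpa using Path.one _
  | snoc _ hv ih => simpa using ih.snoc (hf _ _ _ hv)

theorem PathsV.map {f : ℕ × ℤ → ℕ × ℤ} (h1 : ∀ l, (f l).2 = l.2)
    (h2 : ∀ l, (f l).1 % 32 < 16 ↔ l.1 % 32 < 16) :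
    ∀ {L : List (ℤ × ℤ × ℕ)} {E : Multiset (ℕ × ℤ)}, PathsV c L E → PathsV c L (E.map f)
  | [], _, h => by simp only [PathsV] at h ⊢; simp [h]
  | _ :: _, _, ⟨a, b, D1, D2, j0, j1, j2, j3, j4, j5, e⟩ =>
    ⟨f a, f b, _, _, (h1 a).trans j0, (h1 b).trans j1, (h2 a).2 j2, (h2 b).2 j3,
      path_map (fun p x q h => by
        have := h2 p; have := h2 q; have := h2 x
        simp only [Vz, h1] at h ⊢; omega) j4, PathsV.map h1 h2 j5, by rw [e, Multiset.map_add]⟩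

/-- One line changes its tag. -/
theorem Hold.rename (H : Hold c Q M L) {u v : ℕ × ℤ} (h1 : v.2 = u.2)
    (h2 : v.1 % 32 < 16 ↔ u.1 % 32 < 16) (hv : ¬ Q v) (hq : ∀ l, Q l → l ≠ u → Q' l)
    (hv' : Q' v) : Hold c Q' M L := by
  obtain ⟨D, E, k1, k2, k3, k4⟩ := H
  have f1 : ∀ l, (if l = u then v else l).2 = l.2 := fun l => by
    split_ifs with h
    · rw [h, h1]
    · rfl
  have f2 : ∀ l, (if l = u then v else l).1 % 32 < 16 ↔ l.1 % 32 < 16 := fun l => by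
    split_ifs with h
    · rw [h, h2]
    · rfl
  refine ⟨D.map fun l => if l = u then v else l, E.map fun l => if l = u then v else l, ?_,
    k2.map _ fun p _ x _ q _ h => ?_, k3.map f1 f2, fun l hl => ?_⟩
  · rw [← Multiset.map_add]
    refine k1.map_on fun a ha b hb e => ?_
    have := k4 a ha
    have := k4 b hb
    split_ifs at e <;> simp_all
  · have := f2 p; have := f2 q; have := f2 x
    simp only [Vz, f1] at h ⊢; omega
  · rw [← Multiset.map_add] at hl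
    obtain ⟨a, ha, rfl⟩ := Multiset.mem_map.1 hl
    split_ifs with h
    · exact hv'
    · exact hq a (k4 a ha) h

def GTu (M : Multiset ℕ) : Prop := ∀ u, GT (2 * u + 1) M

def glay (n : ℕ) (h : ℤ) (i x : ℕ) : ℕ :=
  2 * n * (i / 2) + if i = 0 then x + 1 else if i % 2 = 0 then x - 2 * n + 1
    else if i = 1 then (4 * n - x + h).toNat else 4 * n - x

theorem Hold.gt (H : Hold c Q M []) (h : ℤ)
    (h0 : ∀ l, Q l → l.1 % 32 < 16 → -(M.sum : ℤ) ≤ l.2 + h ∧ l.2 + h < M.sum)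
    (h1 : ∀ l, Q l → 16 ≤ l.1 % 32 → (-(M.sum : ℤ) ≤ l.2 ∧ l.2 < M.sum) ∧
      -(M.sum : ℤ) ≤ -1 - l.2 + h ∧ -1 - l.2 + h < M.sum)
    (h2 : ∀ l l', Q l → Q l' → (l.1 % 32 < 16 ↔ l'.1 % 32 < 16) → l.2 = l'.2 → l = l')
    (h3 : ∀ l l', Q l → Q l' → 16 ≤ l'.1 % 32 → l.2 + l'.2 ≠ -1) : GTu M := fun u => by
  obtain ⟨D, E, k1, k2, rfl, k4⟩ := H
  rw [add_zero] at k1 k4
  generalize hn : M.sum = n at h0 h1
  let cd : ℕ × ℤ → ℕ := fun l =>
    if l.1 % 32 < 16 then (l.2 + h + n).toNat else 2 * n + (l.2 + n).toNat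
  have hc : ∀ l ∈ D, (l.1 % 32 < 16 ∧ (cd l : ℤ) = l.2 + h + n ∧ cd l < 2 * n) ∨
      (16 ≤ l.1 % 32 ∧ (cd l : ℤ) = l.2 + 3 * n ∧ 2 * n ≤ cd l ∧ cd l < 4 * n ∧
        1 ≤ 4 * n - cd l + h ∧ 4 * n - cd l + h ≤ 2 * n) := fun l hl => by
    have a := h0 l (k4 l hl)
    have b := h1 l (k4 l hl)
    simp only [cd]
    split_ifs <;> omega
  refine ⟨2 * n, fun i => if i = 0 then (c + 3 * n + 3 * h + 2).toNat else
    2 * n * (i / 2) + 2 * n * ((i + 1) / 2) + if i = 1 then (2 * n + 1 + h).toNat else 2 * n + 1,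
    glay n h, D.map cd, k2.map _ fun p hp x hx q hq v => ?_, k1.map_on fun a ha b hb e => ?_,
    fun l hl i hi j0 => ?_, fun l hl l' hl' i hi j hj j0 j1 e => ?_⟩
  · obtain ⟨j1, j2, j3, j4⟩ := v
    have a1 := hc p hp
    have a2 := hc q hq
    have a3 := hc x hx
    generalize cd p = p' at *
    generalize cd q = q' at *
    generalize cd x = x' at *
    refine ⟨by omega, by omega, ?_, fun i _ hi => ?_⟩
    · simp [glay]; omega
    · simp only [glay, if_neg (show i ≠ 0 by omega), if_neg (Nat.succ_ne_zero i)]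
      split_ifs <;> omega
  · have a1 := hc a ha
    have a2 := hc b hb
    exact h2 a b (k4 a ha) (k4 b hb) (by omega) (by omega)
  · obtain ⟨a, ha, rfl⟩ := Multiset.mem_map.1 hl
    have a1 := hc a ha
    have e1 : n * (2 * u + 1 + 1) = 2 * n * u + 2 * n := by ring
    have e2 : 2 * n * (i / 2) ≤ 2 * n * u := Nat.mul_le_mul_left _ (by omega)
    rw [hn]
    unfold glay
    split_ifs <;> omega
  · obtain ⟨a, ha, rfl⟩ := Multiset.mem_map.1 hl
    obtain ⟨b, hb, rfl⟩ := Multiset.mem_map.1 hl'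
    have a1 := hc a ha
    have a2 := hc b hb
    have a3 := h3 a b (k4 a ha) (k4 b hb)
    have a4 := h3 b a (k4 b hb) (k4 a ha)
    generalize cd a = p at *
    generalize cd b = q at *
    unfold glay at e
    rcases lt_trichotomy (i / 2) (j / 2) with t | t | t
    · have e2 := Nat.mul_le_mul_left (2 * n) (Nat.succ_le_of_lt t)
      rw [Nat.mul_succ] at e2
      split_ifs at e <;> omega
    · rw [t] at e
      split_ifs at e <;> omega
    · have e2 := Nat.mul_le_mul_left (2 * n) (Nat.succ_le_of_lt t)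
      rw [Nat.mul_succ] at e2
      split_ifs at e <;> omega

end Pool.Agent.MP_29e935_co.Six

end

section

/-!
Soundness of the checking machine inside a frame.
-/

set_option autoImplicit false

namespace Pool.Agent.MP_29e935_co.Six

theorem or_add_and (a : ℕ) : ∀ b : ℕ, (a ||| b) + (a &&& b) = a + b := by
  induction a using Nat.strong_induction_on with
  | _ a ih =>
    intro b
    rcases Nat.eq_zero_or_pos a with rfl | h
    · simp
    · have h1 := ih (a / 2) (by omega) (b / 2)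
      rw [← Nat.or_div_two, ← Nat.and_div_two] at h1
      have h2 := @Nat.or_mod_two_eq_one a b
      have h3 := @Nat.and_mod_two_eq_one a b
      omega

theorem so_step {S O : ℕ} (b : ℕ) (h : O ≤ S) :
    O ||| b ≤ S + b ∧ (S + b = O ||| b → S = O ∧ O &&& b = 0) := by
  have := or_add_and O b
  omega

theorem bit_of_and {O b x : ℕ} (h : O &&& b = 0) (hx : b.testBit x = true) :
    O.testBit x = false := by
  have := congrArg (fun n => Nat.testBit n x) h
  simpa [hx] using this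

theorem two_bits {p q : ℕ} (hp : 0 < p) : 2 ^ q + 2 ^ (p + q) = 2 ^ q ||| 2 ^ (p + q) := by
  have : 2 ^ q &&& 2 ^ (p + q) = 0 := Nat.eq_of_testBit_eq fun i => by
    simp only [Nat.testBit_and, Nat.testBit_two_pow, Nat.zero_testBit, Bool.and_eq_false_imp,
      decide_eq_true_eq, decide_eq_false_iff_not]
    omega
  have h := or_add_and (2 ^ q) (2 ^ (p + q))
  omega

/-- A frame reads codes as lines and masks as sets of lines. -/
structure Fr : Type where
  c : ℤ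
  sem : ℕ → ℕ × ℤ
  Q : ℕ → ℕ × ℤ → Prop
  J : ℕ → Prop
  ev : ℕ → Prop

def Fr.ok (F : Fr) (B : ℕ) : Prop :=
  (∀ O b, F.J O → F.J (O ||| b)) ∧ (∀ O b l, F.Q O l → F.Q (O ||| b) l) ∧
  (∀ O x, F.J O → O.testBit x = false → x < 2 * B →
    ¬ F.Q O (F.sem x) ∧ F.Q (O ||| 2 ^ x) (F.sem x)) ∧
  (∀ O q, F.J O → O.testBit q = false → q < B → F.ev q) ∧
  (∀ q, F.ev q → 0 < q ∧ q < B ∧ (F.sem q).1 % 32 < 16) ∧
  ∀ O p q, F.J O → F.ev p → F.ev q → O.testBit (p + q) = false →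
    16 ≤ (F.sem (p + q)).1 % 32 ∧ (F.sem p).2 + (F.sem q).2 = (F.sem (p + q)).2 + F.c

def Fr.H (F : Fr) (O : ℕ) (M : Multiset ℕ) (L : PL) : Prop :=
  F.J O ∧ (∀ P ∈ L, F.ev P.1 ∧ F.ev P.2.1) ∧
    Hold F.c (F.Q O) M (L.map fun P => ((F.sem P.1).2, (F.sem P.2.1).2, P.2.2))

variable {F : Fr} {B O : ℕ} {M : Multiset ℕ} {L : PL}

theorem Fr.H.start (H : F.H O M L) (ok : F.ok B) {q : ℕ} (hq : q < B) (h : O.testBit q = false) :
    F.H (O ||| 2 ^ q) M ((q, q, 0) :: L) := by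
  obtain ⟨a1, a2, a3, a4, a5, -⟩ := ok
  obtain ⟨h1, h2, h3⟩ := H
  have e := a4 O q h1 h hq
  have k := a3 O q h1 h (by omega)
  exact ⟨a1 _ _ h1, List.forall_mem_cons.2 ⟨⟨e, e⟩, h2⟩,
    h3.start (a5 q e).2.2 k.1 (a2 _ _) k.2⟩

theorem Fr.H.close {h t k : ℕ} (H : F.H O M ((h, t, k) :: L)) (ok : F.ok B)
    (hb : O.testBit (t + h) = false) : F.H (O ||| 2 ^ (t + h)) ((k + 1) ::ₘ M) L := by
  obtain ⟨a1, a2, a3, a4, a5, a6⟩ := ok
  obtain ⟨h1, h2, h3⟩ := H
  obtain ⟨⟨e1, e2⟩, h4⟩ := List.forall_mem_cons.1 h2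
  have j1 := a5 h e1
  have j2 := a5 t e2
  have k := a3 O (t + h) h1 hb (by omega)
  have k' := a6 O t h h1 e2 e1 hb
  exact ⟨a1 _ _ h1, h4, Hold.close h3 k'.1 k'.2 k.1 (a2 _ _) k.2⟩

theorem Fr.H.join {h t k h' t' k' : ℕ} (H : F.H O M ((h, t, k) :: (h', t', k') :: L))
    (ok : F.ok B) (hb : O.testBit (t + h') = false) :
    F.H (O ||| 2 ^ (t + h')) M ((h, t', k + k' + 1) :: L) := by
  obtain ⟨a1, a2, a3, a4, a5, a6⟩ := ok
  obtain ⟨h1, h2, h3⟩ := H
  obtain ⟨⟨e1, e2⟩, h4⟩ := List.forall_mem_cons.1 h2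
  obtain ⟨⟨e3, e4⟩, h5⟩ := List.forall_mem_cons.1 h4
  have j1 := a5 h' e3
  have j2 := a5 t e2
  have k := a3 O (t + h') h1 hb (by omega)
  have k' := a6 O t h' h1 e2 e3 hb
  exact ⟨a1 _ _ h1, List.forall_mem_cons.2 ⟨⟨e1, e4⟩, h5⟩,
    Hold.join h3 k'.1 k'.2 k.1 (a2 _ _) k.2⟩

theorem Fr.H.perm {L' : PL} (H : F.H O M L) (h : L.Perm L') : F.H O M L' :=
  ⟨H.1, fun P hP => H.2.1 P (h.mem_iff.2 hP), H.2.2.perm (h.map _)⟩

theorem Fr.H.rev {h t k : ℕ} (H : F.H O M ((h, t, k) :: L)) : F.H O M ((t, h, k) :: L) := by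
  obtain ⟨h1, h2, h3⟩ := H
  obtain ⟨⟨e1, e2⟩, h4⟩ := List.forall_mem_cons.1 h2
  exact ⟨h1, List.forall_mem_cons.2 ⟨⟨e2, e1⟩, h4⟩, Hold.rev h3⟩

theorem Fr.H.ext {h p k q : ℕ} (H : F.H O M ((h, p, k) :: L)) (ok : F.ok B) (hq : q < B)
    (hb : O &&& (2 ^ q + 2 ^ (p + q)) = 0) :
    F.H (O ||| (2 ^ q + 2 ^ (p + q))) M ((h, q, k + 1) :: L) := by
  have hp := (ok.2.2.2.2.1 p (H.2.1 _ List.mem_cons_self).2).1
  rw [two_bits hp] at hb ⊢
  have h1 := bit_of_and hb (x := q) (by simp)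
  have h2 := bit_of_and hb (x := p + q) (by simp)
  rw [← Nat.or_assoc]
  exact ((H.start ok hq h1).perm (List.Perm.swap _ _ _)).join ok
    (by rw [Nat.testBit_or, h2, Nat.testBit_two_pow_of_ne (by omega)]; rfl)

theorem walk_sound {k : ℕ → ℕ → ℕ → ℕ → Bool} (hB : 0 < B) (P : ℕ → ℕ → ℕ → ℕ → Prop)
    (hP : ∀ i p S O q, q < B → P i p S O →
      P (i + 1) q (S + (2 ^ q + 2 ^ (p + q))) (O ||| (2 ^ q + 2 ^ (p + q)))) :
    ∀ n i p w S O, walk B k n p w S O = true → P i p S O →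
      ∃ p' w' S' O', k p' w' S' O' = true ∧ P (i + n) p' S' O'
  | 0, _, p, w, S, O, h, H => ⟨p, w, S, O, h, H⟩
  | n + 1, i, p, w, S, O, h, H => by
    have h' : walk B k n (w % B) (w / B) (S + (1 <<< (w % B) + 1 <<< (p + w % B)))
      (O ||| (1 <<< (w % B) + 1 <<< (p + w % B))) = true := h
    simp only [Nat.one_shiftLeft] at h'
    obtain ⟨p', w', S', O', h1, h2⟩ :=
      walk_sound hB P hP n (i + 1) _ _ _ _ h' (hP i p S O _ (Nat.mod_lt _ hB) H)
    exact ⟨p', w', S', O', h1, by rwa [show i + (n + 1) = i + 1 + n by omega]⟩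

/-- The symbol `2 a` stands for the length `a`, the symbol `2 a + 1` for `a + l`. -/
def ev (l s : ℕ) : ℕ := s / 2 + s % 2 * l

def enc (X : Multiset ℕ) : ℕ := (X.map fun s => 2 ^ (6 * s)).sum

def evL (l : ℕ) (L : PL) : PL := L.map fun P => (P.1, P.2.1, ev l P.2.2)

def lsum (L : PL) : ℕ := (L.map fun P => P.2.2).sum

abbrev Ses : Type := ℕ → ℕ → Fr → Multiset ℕ → Prop

/-- The meaning of a configuration. -/
def RC (Z : Ses) (a : ℕ → ℕ) (f S O : ℕ) (L : PL) (cv e u : ℕ) : Prop :=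
  O ≤ S ∧ (S = O → ∃ X, enc X = cv ∧ Multiset.card X + f ≤ 63 ∧ ∀ l,
    (X.map (ev l)).sum + lsum (evL l L) + 600 = e + 6 * u + a l ∧
      ∀ F M0, Z l u F M0 → F.H O (M0 + X.map (ev l)) (evL l L))

variable {Z : Ses} {a : ℕ → ℕ} {f S cv e u : ℕ}

theorem RC.next (H : RC Z a f S O L cv e u) (hZ : ∀ l T F M, Z l T F M → F.ok B) (b : ℕ) {L2 : PL}
    (Y : Multiset ℕ) {f2 : ℕ} (d : ℕ) (hf : Multiset.card Y + f2 ≤ f)
    (h : O &&& b = 0 → ∀ l, (Y.map (ev l)).sum + lsum (evL l L2) = lsum (evL l L) + d ∧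
      ∀ F M, Fr.ok F B → F.H O M (evL l L) → F.H (O ||| b) (Y.map (ev l) + M) (evL l L2)) :
    RC Z a f2 (S + b) (O ||| b) L2 (cv + enc Y) (e + d) u := by
  obtain ⟨h1, h2⟩ := so_step b H.1
  refine ⟨h1, fun e1 => ?_⟩
  obtain ⟨X, rfl, k1, k2⟩ := H.2 (h2 e1).1
  refine ⟨X + Y, by simp [enc], by rw [Multiset.card_add]; omega, fun l => ?_⟩
  obtain ⟨j1, j2⟩ := h (h2 e1).2 l
  obtain ⟨t1, t2⟩ := k2 l
  refine ⟨by rw [Multiset.map_add, Multiset.sum_add]; omega, fun F M0 hF => ?_⟩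
  have := j2 F _ (hZ _ _ F M0 hF) (t2 F M0 hF)
  rwa [add_comm, add_assoc, ← Multiset.map_add] at this

theorem RC.next0 (H : RC Z a f S O L cv e u) (hZ : ∀ l T F M, Z l T F M → F.ok B) (b : ℕ) {L2 : PL}
    (d : ℕ) (h : O &&& b = 0 → ∀ l, lsum (evL l L2) = lsum (evL l L) + d ∧
      ∀ F M, Fr.ok F B → F.H O M (evL l L) → F.H (O ||| b) M (evL l L2)) :
    RC Z a f (S + b) (O ||| b) L2 cv (e + d) u :=
  H.next hZ b 0 d (by simp) fun hb l => by simpa using h hb l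

theorem RC.fuel (H : RC Z a (f + 1) S O L cv e u) : RC Z a f S O L cv e u :=
  ⟨H.1, fun h => (H.2 h).imp fun _ k => ⟨k.1, by have := k.2.1; omega, k.2.2⟩⟩

theorem lsum_cons (l x y s : ℕ) (L : PL) :
    lsum (evL l ((x, y, s) :: L)) = ev l s + lsum (evL l L) := rfl

theorem ev_two (l s : ℕ) : ev l (s + 2) = ev l s + 1 := by
  simp only [ev, Nat.add_mod_right]; omega

theorem ev_add {s t : ℕ} (h : s % 2 + t % 2 ≤ 1) (l : ℕ) : ev l (s + t + 2) = ev l s + ev l t + 1 := by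
  rw [ev_two, ev, ev, ev, show (s + t) % 2 = s % 2 + t % 2 by omega, add_mul]; omega

theorem RC.start (H : RC Z a f S O L cv e u) (hZ : ∀ l T F M, Z l T F M → F.ok B) {q : ℕ}
    (hq : q < B) : RC Z a f (S + 2 ^ q) (O ||| 2 ^ q) ((q, q, 0) :: L) cv e u :=
  H.next0 hZ _ 0 fun hb l => ⟨by simp [lsum_cons, ev], fun F M ok H => by
    simpa [evL, ev] using H.start ok hq (bit_of_and hb (by simp))⟩

theorem RC.ext {h p s : ℕ} (H : RC Z a f S O ((h, p, s) :: L) cv e u)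
    (hZ : ∀ l T F M, Z l T F M → F.ok B) {q : ℕ} (hq : q < B) :
    RC Z a f (S + (2 ^ q + 2 ^ (p + q))) (O ||| (2 ^ q + 2 ^ (p + q))) ((h, q, s + 2) :: L) cv
      (e + 1) u :=
  H.next0 hZ _ 1 fun hb l => ⟨by simp only [lsum_cons, ev_two]; omega, fun F M ok H => by
    have := Fr.H.ext (L := evL l L) H ok hq hb
    rwa [← ev_two] at this⟩

theorem RC.close {h t s : ℕ} (H : RC Z a (f + 1) S O ((h, t, s) :: L) cv e u)
    (hZ : ∀ l T F M, Z l T F M → F.ok B) :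
    RC Z a f (S + 2 ^ (t + h)) (O ||| 2 ^ (t + h)) L (cv + 2 ^ (6 * (s + 2))) (e + 1) u := by
  have := H.next hZ (2 ^ (t + h)) (L2 := L) {s + 2} (f2 := f) 1 (by simp; omega)
    fun hb l => ⟨by simp [lsum_cons, ev_two]; omega, fun F M ok H => by
      simpa [ev_two] using Fr.H.close (L := evL l L) H ok (bit_of_and hb (by simp))⟩
  simpa [enc] using this

theorem RC.join {h t s h' t' s' : ℕ} (H : RC Z a f S O ((h, t, s) :: (h', t', s') :: L) cv e u)
    (hZ : ∀ l T F M, Z l T F M → F.ok B) (hs : s % 2 + s' % 2 ≤ 1) :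
    RC Z a f (S + 2 ^ (t + h')) (O ||| 2 ^ (t + h')) ((h, t', s + s' + 2) :: L) cv (e + 1) u :=
  H.next0 hZ _ 1 fun hb l => ⟨by simp only [lsum_cons, ev_add hs]; omega, fun F M ok H => by
    have := Fr.H.join (L := evL l L) H ok (bit_of_and hb (by simp))
    rwa [← ev_add hs] at this⟩

theorem RC.same (H : RC Z a f S O L cv e u) (hZ : ∀ l T F M, Z l T F M → F.ok B) {L2 : PL}
    (h : ∀ l, lsum (evL l L2) = lsum (evL l L) ∧
      ∀ (F : Fr) M, F.H O M (evL l L) → F.H O M (evL l L2)) : RC Z a f S O L2 cv e u := by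
  have := H.next0 hZ 0 (L2 := L2) 0 fun _ l => ⟨(h l).1, fun F M _ H => by
    simpa using (h l).2 F M H⟩
  simpa using this

theorem RC.perm (H : RC Z a f S O L cv e u) (hZ : ∀ l T F M, Z l T F M → F.ok B) {L2 : PL}
    (h : L.Perm L2) : RC Z a f S O L2 cv e u :=
  H.same hZ fun _ => ⟨((h.map _).map _).sum_eq.symm, fun _ _ H => H.perm (h.map _)⟩

theorem RC.walk {k : ℕ → ℕ → ℕ → ℕ → Bool} {h p s n w : ℕ} (hB : 0 < B)
    (H : RC Z a f S O ((h, p, s) :: L) cv e u) (hZ : ∀ l T F M, Z l T F M → F.ok B)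
    (hw : walk B k n p w S O = true) : ∃ p' w' S' O', k p' w' S' O' = true ∧
      RC Z a f S' O' ((h, p', s + 2 * n) :: L) cv (e + n) u := by
  have := walk_sound hB (fun i p S O => RC Z a f S O ((h, p, s + 2 * i) :: L) cv (e + i) u)
    (fun i p S O q hq H => H.ext hZ hq) n 0 p w S O hw H
  simpa using this

/-- Closure of a session under the passage to later frames. -/
def Ses.sh (Z : Ses) : Prop :=
  ∀ l k b F' M0, Z l (b + k) F' M0 → ∃ F, Z l b F M0 ∧ ∀ O O' M L, subm (ret k O) O' = true →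
    (∀ P ∈ L, rcOK k P.1 = true ∧ rcOK k P.2.1 = true) → F.H O M L →
      F'.H O' M (L.map fun P => (rc k P.1, rc k P.2.1, P.2.2))

theorem subm_self (a : ℕ) : subm a a = true := by simp [subm]

theorem RC.shift {k : ℕ → PL → Bool} {n : ℕ} (H : RC Z a f S O L cv e u) (hs : Z.sh)
    (h : opShift k n S O L e = true) :
    ∃ O' L', k O' L' = true ∧ RC Z a f O' O' L' cv (e - 6 * n) (u + n) := by
  simp only [opShift, Bool.and_eq_true, Nat.beq_eq, Nat.ble_eq, List.all_eq_true, Nat.mul_eq] at h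
  obtain ⟨⟨⟨rfl, h1⟩, h2⟩, h3⟩ := h
  refine ⟨_, _, h3, le_rfl, fun _ => ?_⟩
  obtain ⟨X, k0, k1, k2⟩ := H.2 rfl
  refine ⟨X, k0, k1, fun l => ⟨?_, fun F' M0 hF => ?_⟩⟩
  · have := (k2 l).1
    simp only [lsum, evL, List.map_map, Function.comp_def] at this ⊢
    omega
  obtain ⟨F, z1, z2⟩ := hs l n _ F' M0 hF
  have := z2 _ _ _ _ (subm_self _) (fun P hP => by
    obtain ⟨R, r1, rfl⟩ := List.mem_map.1 hP
    exact h2 R r1) ((k2 l).2 F M0 z1)
  simpa only [evL, List.map_map, Function.comp_def] using this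

theorem run_sound {bm : Bool} {k : Kont} (hB : 0 < B) (hZ : ∀ l T F M, Z l T F M → F.ok B)
    (hs : bm = true → Z.sh) : ∀ f w S O L cv e u, run B bm k f w S O L cv e u = true →
      RC Z a f S O L cv e u →
      ∃ f w S O L cv e u', k f w S O L cv e u' = true ∧ RC Z a f S O L cv e u' ∧
        (bm = false → u' = u)
  | 0, _, _, _, _, _, _, _, h, _ => absurd h (by simp [run])
  | f + 1, w, S, O, L, cv, e, u, h, H => by
    have ih := run_sound hB hZ hs (k := k) f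
    have H' := H.fuel
    have hp := Nat.mod_lt (w / B) hB
    unfold run at h
    simp only [] at h
    generalize Nat.div (Nat.mod w B) 16 = n at h
    generalize Nat.mod (Nat.mod w B) 16 = o at h
    change sel o (k f (w / B) S O L cv e u) _ = true at h
    rcases o with _ | _ | _ | _ | _ | _ | _ | _ | _ | o
    · exact ⟨_, _, _, _, _, _, _, _, h, H', fun _ => rfl⟩
    · have h' : walk B _ n (w / B % B) (w / B / B) (S + 1 <<< (w / B % B))
        (O ||| 1 <<< (w / B % B)) = true := h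
      rw [Nat.one_shiftLeft] at h'
      obtain ⟨p, w', S', O', j1, j2⟩ := (H.start hZ hp).walk hB hZ h'
      refine ih _ _ _ _ _ _ _ j1 ?_
      have := j2.close hZ
      rw [show 6 * (0 + 2 * n + 2) = 12 * (n + 1) by omega] at this
      simp only [← Nat.one_shiftLeft] at this
      exact this
    · have h' : walk B _ n (w / B % B) (w / B / B) (S + 1 <<< (w / B % B))
        (O ||| 1 <<< (w / B % B)) = true := h
      rw [Nat.one_shiftLeft] at h'
      obtain ⟨p, w', S', O', j1, j2⟩ := (H'.start hZ hp).walk hB hZ h'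
      rw [Nat.zero_add] at j2
      exact ih _ _ _ _ _ _ _ j1 j2
    · rcases L with _ | ⟨⟨x, y, s⟩, L⟩
      · exact absurd h (by simp [sel, opExt])
      · obtain ⟨p, w', S', O', j1, j2⟩ := H'.walk hB hZ (k := _) h
        exact ih _ _ _ _ _ _ _ j1 j2
    · rcases L with _ | ⟨⟨x, y, s⟩, L⟩
      · exact absurd h (by simp [sel, opClose])
      · refine ih _ _ _ _ _ _ _ h ?_
        simpa [Nat.one_shiftLeft] using H.close hZ
    · rcases L with _ | ⟨⟨x, y, s⟩, _ | ⟨⟨x', y', s'⟩, L⟩⟩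
      · exact absurd h (by simp [sel, opJoin])
      · exact absurd h (by simp [sel, opJoin])
      · have h' : (Nat.ble (s % 2 + s' % 2) 1 && _) = true := h
        rw [Bool.and_eq_true, Nat.ble_eq] at h'
        refine ih _ _ _ _ _ _ _ h'.2 ?_
        simpa [Nat.one_shiftLeft] using H'.join hZ h'.1
    · rcases L with _ | ⟨⟨x, y, s⟩, L⟩
      · exact absurd h (by simp [sel, opRev])
      · exact ih _ _ _ _ _ _ _ h (H'.same hZ fun l => ⟨rfl, fun F M H => Fr.H.rev H⟩)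
    · rcases L with _ | ⟨⟨x, y, s⟩, _ | ⟨⟨x', y', s'⟩, L⟩⟩
      · exact absurd h (by simp [sel, opSwap])
      · exact absurd h (by simp [sel, opSwap])
      · exact ih _ _ _ _ _ _ _ h (H'.perm hZ (List.Perm.swap _ _ _))
    · rcases L with _ | ⟨⟨x, y, s⟩, L⟩
      · exact absurd h (by simp [sel, opRot])
      · exact ih _ _ _ _ _ _ _ h (H'.perm hZ (List.perm_append_singleton _ _).symm)
    · have h' : (bm && opShift _ n S O L e) = true := h
      rw [Bool.and_eq_true] at h'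
      obtain ⟨O', L', j1, j2⟩ := H'.shift (hs h'.1) h'.2
      obtain ⟨f, w, S, O, L, cv, e, u, k1, k2, -⟩ := ih _ _ _ _ _ _ _ j1 j2
      exact ⟨f, w, S, O, L, cv, e, u, k1, k2, fun e => by simp [e] at h'⟩

end Pool.Agent.MP_29e935_co.Six

end

section

/-!
Frames moving along ten tracks; blocks.
-/

set_option autoImplicit false

namespace Pool.Agent.MP_29e935_co.Six

def kE (k : ℕ) : Prop := k = 8 ∨ k = 10 ∨ k = 12 ∨ k = 14 ∨ k = 9
def kT (k : ℕ) : Prop := k = 22 ∨ k = 17 ∨ k = 19 ∨ k = 21 ∨ k = 23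
def dk (k : ℕ) : ℤ := if k = 9 then -2 else if k = 22 then 2 else if k < 16 then 1 else -1
def wd (k : ℕ) : ℕ := if k < 16 then 64 else 128

/-- The value `z` on track `k` is behind the window or marked. -/
def Used (s : ℤ) (O : ℕ) (b : ℕ → ℤ) (k : ℕ) (z : ℤ) : Prop :=
  kE k ∨ kT k → ∀ a : ℤ, z = b k + s * a → (a < 0 ∧ 0 < dk k) ∨ (wd k ≤ a ∧ dk k < 0) ∨
    ∃ i : ℕ, a = i ∧ i < wd k ∧ O.testBit (128 * k + i) = true

def Add (c : ℤ) (b : ℕ → ℤ) : Prop :=
  b 8 + b 14 = b 22 + c ∧ b 10 + b 12 = b 22 + c ∧ b 8 + b 9 = b 17 + c ∧ b 10 + b 9 = b 19 + c ∧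
    b 12 + b 9 = b 21 + c ∧ b 14 + b 9 = b 23 + c

def adv (s : ℤ) (b : ℕ → ℤ) (n : ℕ) : ℕ → ℤ := fun k => b k + s * (dk k * n)

variable {c s : ℤ} {b : ℕ → ℤ}

theorem adv_zero (s : ℤ) (b : ℕ → ℤ) : adv s b 0 = b := by funext k; simp [adv]

theorem adv_adv (s : ℤ) (b : ℕ → ℤ) (m n : ℕ) : adv s (adv s b m) n = adv s b (m + n) := by
  funext k; simp only [adv]; push_cast; ring

theorem Add.adv (h : Add c b) (s : ℤ) (n : ℕ) : Add c (adv s b n) := by
  simp only [Add, Six.adv, dk] at h ⊢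
  norm_num [mul_left_comm s 2]
  omega

theorem pos_eq (hs : 0 < s) {x a a' : ℤ} (h : x + s * a = x + s * a') : a = a' :=
  mul_left_cancel₀ hs.ne' (add_left_cancel h)

def bF (c s : ℤ) (P : ℕ × ℤ → Prop) (b : ℕ → ℤ) : Fr :=
  ⟨c, fun x => (64 + x / 128, b (x / 128) + s * (x % 128 : ℕ)),
    fun O l => P l ∧ (64 ≤ l.1 → Used s O b (l.1 - 64) l.2),
    fun O => (∀ x, mI.testBit x = true → O.testBit x = true) ∧
      ∀ l, 64 ≤ l.1 → ¬ P l → Used s O b (l.1 - 64) l.2,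
    fun x => kE (x / 128) ∧ x % 128 < 64⟩

theorem lane_bit (k w x : ℕ) : (lane k w).testBit x = true ↔ 128 * k ≤ x ∧ x < 128 * k + w := by
  simp only [lane, Nat.shiftLeft_eq', Nat.one_shiftLeft, Nat.sub_eq, Nat.mul_eq,
    Nat.testBit_shiftLeft, Nat.testBit_two_pow_sub_one, Bool.and_eq_true, decide_eq_true_eq]
  omega

theorem dnL_bit (k w i x : ℕ) :
    (dnL k w i).testBit x = true ↔ 128 * k + i ≤ x ∧ x < 128 * k + w := by
  simp only [dnL, Nat.shiftLeft_eq', Nat.one_shiftLeft, Nat.sub_eq, Nat.mul_eq, Nat.add_eq,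
    Nat.testBit_shiftLeft, Nat.testBit_two_pow_sub_one, Bool.and_eq_true, decide_eq_true_eq]
  omega

theorem mI_bit (x : ℕ) : mI.testBit x = true ↔
    x < 4096 ∧ ¬ ((kE (x / 128) ∧ x % 128 < 64) ∨ kT (x / 128)) := by
  have : ∀ a b : Bool, (a ^^ b) = true ↔ ¬ (a = true ↔ b = true) := by decide
  simp only [mI, mU, mZ, mT, mS, Nat.lor_eq, Nat.xor_eq, Nat.testBit_xor, Nat.testBit_or, this,
    Bool.or_eq_true, lane_bit, kE, kT]
  omega

theorem Used.mono {O O' k : ℕ} {z : ℤ} (h : Used s O b k z)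
    (hO : ∀ x, O.testBit x = true → O'.testBit x = true) : Used s O' b k z := fun hk a ha =>
  (h hk a ha).imp id (Or.imp id fun ⟨i, h1, h2, h3⟩ => ⟨i, h1, h2, hO _ h3⟩)

theorem subm_bit {a b x : ℕ} (h : subm a b = true) (hx : a.testBit x = true) :
    b.testBit x = true := by
  simp only [subm, Nat.beq_eq, Nat.lor_eq] at h
  rw [← h, Nat.testBit_or, hx, Bool.true_or]

theorem not_used {O x : ℕ} (h1 : O.testBit x = false)
    (h2 : (kE (x / 128) ∧ x % 128 < 64) ∨ kT (x / 128)) :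
    ¬ Used s O b (x / 128) (b (x / 128) + s * (x % 128 : ℕ)) := fun h => by
  rcases h (h2.imp And.left id) _ rfl with h | h | ⟨i, h3, -, h4⟩
  · omega
  · simp only [wd, kE, kT] at h h2; split_ifs at h <;> omega
  · rw [show 128 * (x / 128) + i = x by omega, h1] at h4; exact absurd h4 (by simp)

theorem used_new (hs : 0 < s) {O x : ℕ} (h1 : O.testBit x = true)
    (h2 : (kE (x / 128) ∧ x % 128 < 64) ∨ kT (x / 128)) :
    Used s O b (x / 128) (b (x / 128) + s * (x % 128 : ℕ)) := fun _ a ha =>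
  Or.inr (Or.inr ⟨x % 128, (pos_eq hs ha).symm, by simp only [wd, kE, kT] at h2 ⊢; split_ifs <;> omega,
    by rwa [Nat.div_add_mod]⟩)

theorem bF_ok (P : ℕ × ℤ → Prop) (hs : 0 < s) (hb : Add c b) : (bF c s P b).ok 2048 := by
  have val : ∀ O x, (bF c s P b).J O → O.testBit x = false → x < 4096 →
      (kE (x / 128) ∧ x % 128 < 64) ∨ kT (x / 128) := fun O x h1 h2 h3 => by
    by_contra h
    have := h1.1 x ((mI_bit x).2 ⟨h3, h⟩)
    rw [h2] at this; exact absurd this (by simp)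
  have up : ∀ O m x : ℕ, O.testBit x = true → (O ||| m).testBit x = true := fun O m x h => by
    simp [h]
  refine ⟨fun O m h => ⟨fun x hx => up _ _ _ (h.1 x hx), fun l h1 h2 => (h.2 l h1 h2).mono (up _ _)⟩,
    fun O m l h => ⟨h.1, fun h1 => (h.2 h1).mono (up _ _)⟩, fun O x h1 h2 h3 => ?_,
    fun O q h1 h2 h3 => ?_, fun q h => ?_, fun O p q h1 h2 h3 h4 => ?_⟩
  · have v := val O x h1 h2 h3
    have nu := not_used (s := s) (b := b) h2 v
    refine ⟨fun h => nu (by simpa [bF] using h.2), ?_, fun _ => ?_⟩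
    · by_contra h
      exact nu (by simpa [bF] using h1.2 _ (by simp [bF]) h)
    · simpa [bF] using used_new hs (b := b) (O := O ||| 2 ^ x) (by simp) v
  · have v := val O q h1 h2 (by omega)
    simp only [bF, kT] at v ⊢
    exact v.resolve_right (by omega)
  · simp only [bF, kE] at h ⊢; omega
  · have v := val O (p + q) h1 h4 (by simp only [bF, kE] at h2 h3; omega)
    obtain ⟨a1, a2, a3, a4, a5, a6⟩ := hb
    simp only [bF, kE, kT] at h2 h3 v ⊢
    have e1 : (p + q) / 128 = p / 128 + q / 128 := by omega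
    have e2 : (p + q) % 128 = p % 128 + q % 128 := by omega
    rw [e1] at v
    rw [e1, e2, Nat.cast_add, mul_add]
    generalize s * ((p % 128 : ℕ) : ℤ) = y
    generalize s * ((q % 128 : ℕ) : ℤ) = z
    generalize p / 128 = r at *
    generalize q / 128 = t at *
    obtain ⟨h2, -⟩ := h2
    obtain ⟨h3, -⟩ := h3
    rcases h2 with rfl | rfl | rfl | rfl | rfl <;> rcases h3 with rfl | rfl | rfl | rfl | rfl <;>
      simp only [Nat.reduceAdd] at v ⊢ <;> omega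

theorem ret_used {O O' n k : ℕ} {z : ℤ} (hs : subm (ret n O) O' = true)
    (h : Used s O b k z) : Used s O' (adv s b n) k z := fun hk a ha => by
  have h1 := h hk (a + dk k * n) (by rw [ha, adv]; ring)
  have key : ∀ i j : ℕ, j < wd k → i < wd k → (i : ℤ) = j + dk k * n →
      O.testBit (128 * k + i) = true → (ret n O).testBit (128 * k + j) = true := by
    intro i j h2 h3 h4 h5
    simp only [ret, mU, mZ, mT, mS, Nat.lor_eq, Nat.land_eq, Nat.shiftRight_eq, Nat.shiftLeft_eq',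
      Nat.mul_eq, Nat.testBit_or, Nat.testBit_and, Nat.testBit_shiftRight, Nat.testBit_shiftLeft,
      Bool.or_eq_true, Bool.and_eq_true, lane_bit, decide_eq_true_eq]
    simp only [kE, kT] at hk
    rcases hk with (rfl | rfl | rfl | rfl | rfl) | rfl | rfl | rfl | rfl | rfl <;>
      simp only [wd, dk] at h2 h3 h4 <;> norm_num at h2 h3 h4
    iterate 4 exact Or.inl (Or.inr (Or.inl
      ⟨⟨by rw [← h5]; congr 1; omega, by omega⟩, by omega⟩))
    · exact Or.inr (Or.inl ⟨⟨by omega, by rw [← h5]; congr 1; omega, by omega⟩, by omega⟩)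
    · exact Or.inl (Or.inr (Or.inr ⟨⟨by rw [← h5]; congr 1; omega, by omega⟩, by omega⟩))
    all_goals exact Or.inr (Or.inr ⟨⟨by omega, by rw [← h5]; congr 1; omega, by omega⟩, by omega⟩)
  have hd : (0 < dk k ∧ 0 ≤ dk k * n) ∨ (dk k < 0 ∧ dk k * n ≤ 0) := by
    unfold dk; split_ifs <;> omega
  generalize dk k * n = m at *
  by_cases h2 : 0 ≤ a ∧ a < wd k
  · rcases h1 with h1 | h1 | ⟨i, h3, h4, h5⟩
    · omega
    · omega
    · exact Or.inr (Or.inr ⟨a.toNat, by omega, by omega,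
        subm_bit hs (key i _ (by omega) h4 (by omega) h5)⟩)
  · rcases h1 with h1 | h1 | ⟨i, h3, h4, h5⟩ <;> omega

theorem ret_mI {n O x : ℕ} (h : mI.testBit x = true) : (ret n O).testBit x = true := by
  simp [ret, h]

theorem rc_sem {n y : ℕ} {P : ℕ × ℤ → Prop} (h : (bF c s P b).ev y)
    (h' : rcOK n y = true) : (bF c s P (adv s b n)).ev (rc n y) ∧
      ((bF c s P (adv s b n)).sem (rc n y)).2 = ((bF c s P b).sem y).2 := by
  have key : rc n y / 128 = y / 128 ∧ rc n y % 128 < 64 ∧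
      dk (y / 128) * n + (rc n y % 128 : ℕ) = (y % 128 : ℕ) := by
    simp only [bF, kE, rcOK, rc, dk, Bool.cond_eq_ite, Nat.beq_eq, Nat.add_eq, Nat.mul_eq,
      Nat.sub_eq, Bool.ite_eq_true_distrib, Nat.ble_eq, show Nat.div y 128 = y / 128 from rfl,
      show Nat.mod y 128 = y % 128 from rfl] at h h' ⊢
    split_ifs at h' ⊢ <;> omega
  simp only [bF, adv, key.1]
  exact ⟨⟨h.1, key.2.1⟩, by rw [← key.2.2]; ring⟩

theorem bF_shift {n O O' : ℕ} {P : ℕ × ℤ → Prop} {M : Multiset ℕ} {L : PL}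
    (hs : subm (ret n O) O' = true) (hL : ∀ R ∈ L, rcOK n R.1 = true ∧ rcOK n R.2.1 = true)
    (H : (bF c s P b).H O M L) :
    (bF c s P (adv s b n)).H O' M (L.map fun R => (rc n R.1, rc n R.2.1, R.2.2)) := by
  obtain ⟨h1, h2, h3⟩ := H
  refine ⟨⟨fun x hx => subm_bit hs (ret_mI hx), fun l a1 a2 => ret_used hs (h1.2 l a1 a2)⟩,
    fun R hR => ?_, ?_⟩
  · obtain ⟨R', hR', rfl⟩ := List.mem_map.1 hR
    exact ⟨(rc_sem (h2 R' hR').1 (hL R' hR').1).1, (rc_sem (h2 R' hR').2 (hL R' hR').2).1⟩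
  · rw [List.map_map, List.map_congr_left (g := fun R => (((bF c s P b).sem R.1).2,
      ((bF c s P b).sem R.2.1).2, R.2.2)) fun R hR => by
        simp only [Function.comp, (rc_sem (h2 R hR).1 (hL R hR).1).2,
          (rc_sem (h2 R hR).2 (hL R hR).2).2]]
    exact h3.mono fun l hl => ⟨hl.1, fun a => ret_used hs (hl.2 a)⟩

/-- Sessions in moving frames. -/
def zB (I : ℕ → ℤ → ℤ → (ℕ × ℤ → Prop) → (ℕ → ℤ) → Multiset ℕ → Prop) : Ses := fun l T F M =>
  ∃ c s P b, 0 < s ∧ Add c b ∧ F = bF c s P (adv s b T) ∧ I l c s P b M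

theorem zB_ok (I : ℕ → ℤ → ℤ → (ℕ × ℤ → Prop) → (ℕ → ℤ) → Multiset ℕ → Prop) (l T : ℕ) (F : Fr)
    (M : Multiset ℕ) : zB I l T F M → F.ok 2048 := by
  rintro ⟨c, s, P, b, h1, h2, rfl, -⟩
  exact bF_ok P h1 (h2.adv _ _)

theorem zB_sh (I : ℕ → ℤ → ℤ → (ℕ × ℤ → Prop) → (ℕ → ℤ) → Multiset ℕ → Prop) : (zB I).sh := by
  rintro l k y F M ⟨c, s, P, b, h1, h2, rfl, h3⟩
  refine ⟨_, ⟨c, s, P, b, h1, h2, rfl, h3⟩, fun O O' M L a1 a2 H => ?_⟩
  rw [← adv_adv]
  exact bF_shift a1 a2 H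

theorem Fr.H.sub {O O' : ℕ} {P : ℕ × ℤ → Prop} {M : Multiset ℕ} {L : PL}
    (H : (bF c s P b).H O M L) (h : subm O O' = true) : (bF c s P b).H O' M L :=
  ⟨⟨fun x hx => subm_bit h (H.1.1 x hx), fun l a1 a2 => (H.1.2 l a1 a2).mono fun _ => subm_bit h⟩,
    H.2.1, H.2.2.mono fun _ hl => ⟨hl.1, fun a => (hl.2 a).mono fun _ => subm_bit h⟩⟩

/-- From the state `a` with an open path of length `l` the cycles `M` lead to the state `a'`. -/
def Run (a l a' l' : ℕ) (M : Multiset ℕ) : Prop :=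
  ∃ k, M.sum + lsum (pth a' l') + sE a = lsum (pth a l) + sE a' + 6 * k ∧
    ∀ c s P b M0, 0 < s → Add c b → (bF c s P b).H (sM a) M0 (pth a l) →
      (bF c s P (adv s b k)).H (sM a') (M0 + M) (pth a' l')

theorem Run.refl (a l : ℕ) : Run a l a l 0 :=
  ⟨0, by simp, fun c s P b M _ _ h => by simpa [adv_zero] using h⟩

theorem Run.trans {a l a' l' a'' l'' : ℕ} {G H : Multiset ℕ} (g : Run a l a' l' G)
    (h : Run a' l' a'' l'' H) : Run a l a'' l'' (G + H) := by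
  obtain ⟨k, g1, g2⟩ := g
  obtain ⟨m, h1, h2⟩ := h
  refine ⟨k + m, by rw [Multiset.sum_add]; omega, fun c s P b M a1 a2 H => ?_⟩
  rw [← adv_adv, ← add_assoc]
  exact h2 c s P _ _ a1 (a2.adv s k) (g2 c s P b M a1 a2 H)

theorem pth_nil {a : ℕ} (h : sH a = 0) (l : ℕ) : pth a l = [] := by simp [pth, h]

theorem Run.left {a l a' l' : ℕ} {M : Multiset ℕ} (h : Run a l a' l' M) (ha : sH a = 0) (m : ℕ) :
    Run a m a' l' M := by
  simpa only [Run, pth_nil ha] using h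

theorem Run.right {a l a' l' : ℕ} {M : Multiset ℕ} (h : Run a l a' l' M) (ha : sH a' = 0) (m : ℕ) :
    Run a l a' m M := by
  simpa only [Run, pth_nil ha] using h

theorem evL_pth (l a s : ℕ) : evL l (pth a s) = pth a (ev l s) := by
  unfold pth; cases Nat.beq (sH a) 0 <;> rfl

theorem isP_eq {a l : ℕ} : ∀ {L : PL}, isP a l L = true → L = pth a l
  | [], h => (pth_nil (Nat.eq_of_beq_eq_true h) l).symm
  | (x, y, z) :: L, h => by
    simp only [isP, Bool.and_eq_true, Nat.beq_eq, List.isEmpty_iff, Bool.not_eq_true'] at h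
    obtain ⟨⟨⟨⟨h1, rfl⟩, rfl⟩, rfl⟩, rfl⟩ := h
    simp [pth, h1]

/-- The digits of the key are the multiplicities of the symbols. -/
def Ky (X : Multiset ℕ) (s : ℕ) : Prop := ∀ i, X.count i = s / 64 ^ i % 64

theorem dgt_add {a b : ℕ} (h : ∀ i, a / 64 ^ i % 64 + b / 64 ^ i % 64 < 64) (i : ℕ) :
    (a + b) / 64 ^ i = a / 64 ^ i + b / 64 ^ i := by
  induction i with
  | zero => simp
  | succ i ih =>
    have := h i
    simp only [pow_succ, ← Nat.div_div_eq_div_mul, ih]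
    omega

theorem Ky.add {X Y : Multiset ℕ} {a b : ℕ} (h1 : Ky X a) (h2 : Ky Y b)
    (h : ∀ i, X.count i + Y.count i < 64) : Ky (X + Y) (a + b) := fun i => by
  have := h i
  rw [Multiset.count_add, dgt_add (fun j => by rw [← h1 j, ← h2 j]; exact h j) i, h1 i, h2 i]
  rw [h1 i, h2 i] at this
  omega

theorem ky_one (s : ℕ) : Ky {s} (2 ^ (6 * s)) := fun i => by
  rw [pow_mul, show 2 ^ 6 = 64 from rfl, Multiset.count_singleton]
  split_ifs with h
  · rw [h, Nat.div_self (by positivity)]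
  · rcases Nat.lt_or_gt_of_ne h with h | h
    · rw [Nat.pow_div h.le (by norm_num), show s - i = s - i - 1 + 1 by omega, pow_succ]
      simp
    · rw [Nat.div_eq_of_lt (Nat.pow_lt_pow_right (by norm_num) h)]

theorem ky_enc (X : Multiset ℕ) (h : Multiset.card X < 64) : Ky X (enc X) := by
  induction X using Multiset.induction_on with
  | empty => intro i; simp [enc]
  | cons s X ih =>
    rw [Multiset.card_cons] at h
    have := (ky_one s).add (ih (by omega)) fun i => by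
      have := Multiset.count_le_card i X
      have := Multiset.count_le_card i {s}
      simp only [Multiset.card_singleton] at this
      omega
    simpa [enc] using this

theorem Ky.eq {X Y : Multiset ℕ} {s : ℕ} (h1 : Ky X s) (h2 : Ky Y s) : X = Y :=
  Multiset.ext.2 fun i => (h1 i).trans (h2 i).symm

theorem RC.fin {Z : Ses} {a : ℕ → ℕ} {f O cv e u : ℕ} {L : PL} (H : RC Z a f O O L cv e u)
    {X : Multiset ℕ} (hX : Ky X cv) (l : ℕ) :
    (X.map (ev l)).sum + lsum (evL l L) + 600 = e + 6 * u + a l ∧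
      ∀ F M0, Z l u F M0 → F.H O (M0 + X.map (ev l)) (evL l L) := by
  obtain ⟨Y, rfl, k1, k2⟩ := H.2 rfl
  obtain rfl := hX.eq (ky_enc Y (by omega))
  exact k2 l

theorem RC.init {Z : Ses} {O : ℕ} {L : PL} (h : ∀ l F M, Z l 0 F M → F.H O M (evL l L)) :
    RC Z (fun l => lsum (evL l L)) 63 O O L 0 600 0 :=
  ⟨le_rfl, fun _ => ⟨0, rfl, le_rfl, fun l => ⟨by simp [add_comm], fun F M hF => by
    simpa using h l F M hF⟩⟩⟩

theorem segOK_sound {a a' key sy w : ℕ} (h : segOK a a' key sy w = true) {X : Multiset ℕ}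
    (hX : Ky X key) (l : ℕ) : Run a l a' (ev l sy) (X.map (ev l)) := by
  have e1 : ∀ l, evL l (pth a 1) = pth a l := fun l => by rw [evL_pth]; simp [ev]
  obtain ⟨f, w, S, O, L, cv, e, u, h, H, -⟩ := run_sound (by norm_num)
    (zB_ok fun l c s P b M => (bF c s P b).H (sM a) M (pth a l))
    (fun _ => zB_sh _) _ _ _ _ _ _ _ _ h (RC.init (by
      rintro l F M ⟨c, s, P, b, -, -, rfl, h⟩
      rwa [adv_zero, e1]))
  simp only [Bool.and_eq_true, Nat.beq_eq, Nat.add_eq] at h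
  obtain ⟨⟨⟨⟨rfl, h1⟩, h2⟩, rfl⟩, h3⟩ := h
  obtain ⟨t1, t2⟩ := H.fin hX l
  rw [isP_eq h2, evL_pth] at t1 t2
  rw [e1] at t1
  exact ⟨u, by omega, fun c s P b M0 a1 a2 a3 => (t2 _ M0 ⟨c, s, P, b, a1, a2, rfl, a3⟩).sub h1⟩

end Pool.Agent.MP_29e935_co.Six

end

section

/-!
The final picture: clusters, zones and the arithmetic of the geometry check.
-/

set_option autoImplicit false

namespace Pool.Agent.MP_29e935_co.Six

def gc (g : ℕ) : ℤ := dg g 0 - 32

/-- The displacement of the cluster `j`. -/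
def cl (g K : ℕ) (j : ℤ) : ℤ := dg g 1 * ((j - dg g 2) * K)

def vW (g K x : ℕ) : ℤ :=
  if x < 32768 then (x % 2048 : ℕ) - 512 + cl g K ((x / 2048 : ℕ) - 9)
  else (x % 2048 : ℕ) - 992 - dg g 0 + cl g K ((x / 2048 : ℕ) - 18 - dg g 2)

def sW (g K x : ℕ) : ℕ × ℤ := (32 + x / 2048, vW g K x)

def InO (g K O : ℕ) (l : ℕ × ℤ) : Prop := ∃ x, x < 65536 ∧ O.testBit x = true ∧ l = sW g K x

def InW (g K O : ℕ) (l : ℕ × ℤ) : Prop :=
  ∃ x, x < 65536 ∧ O.testBit x = true ∧ mW.testBit x = false ∧ l = sW g K x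

def wF (g K : ℕ) : Fr :=
  ⟨gc g, sW g K, InW g K, fun O => ∀ x, mW.testBit x = true → O.testBit x = true,
    fun x => 18432 ≤ x ∧ x < 32768 ∧ x % 2048 < 1024⟩

variable {g K : ℕ}

theorem sW_inj {x y : ℕ} (h : sW g K x = sW g K y) : x = y := by
  simp only [sW, Prod.mk.injEq, vW] at h
  have e : x / 2048 = y / 2048 := by omega
  rw [e] at h
  split_ifs at h <;> omega

theorem mW_bit (x : ℕ) : mW.testBit x = true ↔ x < 18432 ∨ (x < 32768 ∧ 1024 ≤ x % 2048) := by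
  simp only [mW, Nat.lor_eq, Nat.testBit_or, Bool.or_eq_true, lane_bit]
  omega

theorem wF_ok (g K : ℕ) : (wF g K).ok 32768 := by
  have val : ∀ O x, (wF g K).J O → O.testBit x = false → mW.testBit x = false :=
    fun O x h1 h2 => by
      by_contra h
      rw [h1 x (by simpa using h)] at h2
      exact absurd h2 (by simp)
  refine ⟨fun O b h x h1 => by simp [h x h1],
    fun O b l ⟨x, h1, h2, h3⟩ => ⟨x, h1, by simp [h2], h3⟩,
    fun O x h1 h2 h3 => ⟨?_, x, h3, by simp, val O x h1 h2, rfl⟩,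
    fun O q h1 h2 h3 => ?_, fun q h => ?_, fun O p q _ h2 h3 _ => ?_⟩
  · rintro ⟨y, -, h, -, e⟩
    rw [sW_inj e, h] at h2; exact absurd h2 (by simp)
  · have := val O q h1 h2
    rw [← Bool.not_eq_true, mW_bit] at this
    simp only [wF]; omega
  · simp only [wF, sW] at h ⊢; omega
  · simp only [wF, sW, vW, gc, cl] at h2 h3 ⊢
    rw [if_pos h2.2.1, if_pos h3.2.1, if_neg (by omega),
      show (p + q) / 2048 = p / 2048 + q / 2048 by omega,
      show (p + q) % 2048 = p % 2048 + q % 2048 by omega]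
    exact ⟨by omega, by push_cast; ring⟩

theorem flat_used {s : ℤ} (hs : 0 < s) {i : ℕ → ℕ} (hi : ∀ k, kE k ∨ kT k → i k ≤ wd k) {k : ℕ}
    (hk : kE k ∨ kT k) (b : ℕ → ℤ) (a : ℤ) : Used s (flat i) b k (b k + s * a) ↔
      (0 < dk k → a < i k) ∧ (dk k < 0 → i k ≤ a) := by
  have key : ∀ j < wd k, ((flat i).testBit (128 * k + j) = true ↔
      (0 < dk k → j < i k) ∧ (dk k < 0 → i k ≤ j)) := fun j hj => by
    have h8 := hi 8 (by simp [kE])
    have h10 := hi 10 (by simp [kE])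
    have h12 := hi 12 (by simp [kE])
    have h14 := hi 14 (by simp [kE])
    have h22 := hi 22 (by simp [kT])
    simp only [flat, Nat.lor_eq, Nat.testBit_or, Bool.or_eq_true, lane_bit, dnL_bit, mI_bit]
    simp only [kE, kT] at hk ⊢
    rcases hk with (rfl | rfl | rfl | rfl | rfl) | rfl | rfl | rfl | rfl | rfl <;>
      simp only [wd, dk] at * <;> norm_num at * <;> omega
  have h1 := hi k hk
  have h2 : 0 < dk k ∨ dk k < 0 := by unfold dk; split_ifs <;> omega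
  constructor
  · intro h
    rcases h hk a rfl with h | h | ⟨j, h3, h4, h5⟩
    · omega
    · omega
    · have := (key j h4).1 h5; omega
  · intro h _ a' e
    obtain rfl := pos_eq hs e
    by_cases h3 : 0 ≤ a ∧ a < wd k
    · exact Or.inr (Or.inr ⟨a.toNat, by omega, by omega, (key _ (by omega)).2 (by omega)⟩)
    · omega

theorem flat_mI (i : ℕ → ℕ) (x : ℕ) (h : mI.testBit x = true) : (flat i).testBit x = true := by
  simp [flat, h]

theorem not_used_ex {s : ℤ} {O k : ℕ} {b : ℕ → ℤ} {z : ℤ} (h : ¬ Used s O b k z) :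
    (kE k ∨ kT k) ∧ ∃ a, z = b k + s * a := by
  by_contra h'
  exact h fun hk a ha => absurd ⟨hk, a, ha⟩ h'

def b0 (g K k : ℕ) : ℤ := w0 g k - dg g 1 * i0 g k - 512 + cl g K (jS g k)

theorem allLt_sound {p : ℕ → Bool} : ∀ n, allLt p n = true → ∀ i < n, p i = true
  | 0, _, _, h => absurd h (by simp)
  | n + 1, h, i, hi => by
    have h' : (p n && allLt p n) = true := h
    rw [Bool.and_eq_true] at h'
    rcases Nat.lt_succ_iff_lt_or_eq.1 hi with hi | rfl
    · exact allLt_sound n h'.2 i hi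
    · exact h'.1

theorem geo_pos (h : geoOK g = true) : dg g 1 * dg g 2 = 6 ∧ dg g 2 ≤ 3 ∧ 0 < dg g 1 := by
  simp only [geoOK, Bool.and_eq_true, Nat.beq_eq, Nat.ble_eq, Nat.mul_eq] at h
  exact ⟨h.1.1.1.1, h.1.1.1.2, Nat.pos_of_ne_zero fun e => by simp [e] at h⟩

theorem geo_tr (h : geoOK g = true) {k : ℕ} (hk : kE k ∨ kT k) : trOK g k = true := by
  simp only [geoOK, Bool.and_eq_true] at h
  have h := h.1.1.2
  rcases hk with (rfl | rfl | rfl | rfl | rfl) | rfl | rfl | rfl | rfl | rfl <;> simp only [h]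

theorem key_val {k : ℕ} (hk : kE k ∨ kT k) : (rt k = 1 ∨ rt k = 2) ∧
    ((isUp k = true ∧ dk k = rt k) ∨ (isUp k = false ∧ dk k = -rt k)) ∧
    wd k = cond (Nat.ble k 15) 64 128 ∧ (Nat.ble k 15 = true ↔ kE k) ∧ k < 32 ∧ (kE k ↔ k < 16) := by
  unfold kE
  rcases hk with (rfl | rfl | rfl | rfl | rfl) | rfl | rfl | rfl | rfl | rfl <;> decide

theorem geo_key (h : geoOK g = true) {k : ℕ} (hk : kE k ∨ kT k) :
    i0 g k ≤ wd k ∧ (jE g k : ℤ) = jS g k + dk k ∧ jL g k + rt k ≤ 2 * dg g 2 ∧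
      jS g k ≤ 2 * dg g 2 ∧ jE g k ≤ 2 * dg g 2 ∧ (0 < dk k → jL g k = jS g k) ∧
      (dk k < 0 → jL g k = jE g k) := by
  have h1 := geo_tr h hk
  obtain ⟨k1, k2, k3, -⟩ := key_val hk
  simp only [trOK, Bool.and_eq_true, Bool.or_eq_true, Nat.ble_eq] at h1
  have h2 : jL g k + rt k ≤ 2 * dg g 2 := by
    have := h1.2
    cases e : Nat.ble k 15 <;> simp only [e, znOK, cond_true, cond_false, Bool.and_eq_true,
      Nat.ble_eq, Nat.add_eq, Nat.mul_eq] at this <;> omega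
  have h3 := h1.1.1
  have h4 : i0 g k ≤ wd k := k3 ▸ h1.1.2
  rcases k2 with ⟨k2, k4⟩ | ⟨k2, k4⟩ <;>
    simp only [jE, jL, k2, cond_true, cond_false, Nat.add_eq, Nat.sub_eq, Bool.false_eq_true,
      false_or, true_or, implies_true, true_and, and_true] at h2 h3 ⊢ <;> omega

theorem geo_add (h : geoOK g = true) (K : ℕ) : Add (gc g) (b0 g K) := by
  simp only [geoOK, Bool.and_eq_true] at h
  have h := h.1.2
  have key : ∀ p q x, adOK g p q x = true → b0 g K p + b0 g K q = b0 g K x + gc g :=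
    fun p q x e => by
      simp only [adOK, Bool.and_eq_true, Nat.beq_eq, Nat.add_eq, Nat.mul_eq] at e
      obtain ⟨e1, e2⟩ := e
      simp only [b0, gc, cl]
      zify at e1 e2
      linear_combination e1 + dg g 1 * K * e2
  exact ⟨key _ _ _ h.1.1.1.1.1, key _ _ _ h.1.1.1.1.2, key _ _ _ h.1.1.1.2, key _ _ _ h.1.1.2,
    key _ _ _ h.1.2, key _ _ _ h.2⟩

def ct (g o r j : ℕ) : ℕ := dg g (o + r * (2 * dg g 2 + 2) + j)

def bd (g o K r i : ℕ) : ℤ := ct g o r ((i + 1) / 2) - 512 + cl g K (i / 2 : ℕ)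

def res (g : ℕ) (z : ℤ) : ℕ := ((z + 512) % dg g 1).toNat

/-- The value `z` lies in the cell with the name `t` of the picture `o`. -/
def Sp (g o K : ℕ) (z : ℤ) (t : ℕ) : Prop :=
  ∃ i ≤ 4 * dg g 2, bd g o K (res g z) i ≤ z ∧ z < bd g o K (res g z) (i + 1) ∧
    t = if i % 2 = 0 then i else 64 + ct g (72 + o) (res g z) ((i + 1) / 2)

def Chn (g o lo hi : ℕ) : Prop :=
  ∀ r < dg g 1, lo ≤ ct g o r 0 + dg g 3 ∧ (ct g o r (2 * dg g 2 + 1) + hi ≤ 527 + dg g 3 + dg g 1 ∧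
    ct g o r (2 * dg g 2 + 1) % dg g 1 = r) ∧ ∀ j < 2 * dg g 2 + 1, ct g o r j ≤ ct g o r (j + 1)

theorem ix_eq (o w j : ℕ) : dg g (ix g o w j) = ct g o (w % dg g 1) j := rfl

theorem chOK_sound {o lo hi : ℕ} (h : chOK g o lo hi = true) : Chn g o lo hi := fun r hr => by
  have := allLt_sound _ h r hr
  simp only [Bool.and_eq_true, Nat.ble_eq, Nat.beq_eq, ix_eq, Nat.mod_eq_of_lt hr] at this
  exact ⟨this.1.1, this.1.2, fun j hj => Nat.le_of_ble_eq_true (allLt_sound _ this.2 j hj)⟩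

theorem cl_step (i : ℤ) : cl g K (i + 1) = cl g K i + dg g 1 * K := by unfold cl; ring

theorem bd_mono {o lo hi r : ℕ} (h : Chn g o lo hi) (hr : r < dg g 1) {i j : ℕ} (hij : i ≤ j)
    (hj : j ≤ 4 * dg g 2 + 1) : bd g o K r i ≤ bd g o K r j := by
  induction j, hij using Nat.le_induction with
  | base => exact le_rfl
  | succ j _ ih =>
    refine (ih (by omega)).trans ?_
    unfold bd
    rcases Nat.even_or_odd' j with ⟨m, rfl | rfl⟩
    · have := (h r hr).2.2 m (by omega)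
      rw [show (2 * m + 1 + 1) / 2 = m + 1 by omega, show (2 * m + 1) / 2 = m by omega,
        show 2 * m / 2 = m by omega]
      omega
    · rw [show (2 * m + 1 + 1 + 1) / 2 = m + 1 by omega, show (2 * m + 1 + 1) / 2 = m + 1 by omega,
        show (2 * m + 1) / 2 = m by omega, Nat.cast_succ m, cl_step]
      have : (0 : ℤ) ≤ dg g 1 * K := by positivity
      omega

theorem res_lt (hs : 0 < dg g 1) (z : ℤ) : res g z < dg g 1 := by
  have := Int.emod_lt_of_pos (z + 512) (b := dg g 1) (by omega)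
  unfold res; omega

theorem Sp.eq {o lo hi t t' : ℕ} {z : ℤ} (h : Chn g o lo hi) (hs : 0 < dg g 1) (a : Sp g o K z t)
    (b : Sp g o K z t') : t = t' := by
  obtain ⟨i, a1, a2, a3, rfl⟩ := a
  obtain ⟨j, b1, b2, b3, rfl⟩ := b
  obtain rfl : i = j := by
    rcases lt_trichotomy i j with c | c | c
    · have := bd_mono (K := K) h (res_lt hs z) (show i + 1 ≤ j from c) (by omega); omega
    · exact c
    · have := bd_mono (K := K) h (res_lt hs z) (show j + 1 ≤ i from c) (by omega); omega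
  rfl

theorem Sp.bound {o lo hi t : ℕ} {z : ℤ} (h : Chn g o lo hi) (hg : geoOK g = true)
    (a : Sp g o K z t) : lo ≤ z + 512 + dg g 3 + 6 * K ∧ z + hi < 16 + dg g 3 + 6 * K := by
  obtain ⟨g1, -, hs⟩ := geo_pos hg
  obtain ⟨i, a1, a2, a3, -⟩ := a
  have b1 := bd_mono (K := K) h (res_lt hs z) (Nat.zero_le i) (by omega)
  have b2 := bd_mono (K := K) h (res_lt hs z) (show i + 1 ≤ 4 * dg g 2 + 1 by omega) le_rfl
  have b3 := h _ (res_lt hs z)
  have c1 : cl g K (0 / 2 : ℕ) = -(6 * K) := by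
    zify at g1; unfold cl; push_cast; linear_combination -K * g1
  have c2 : cl g K ((4 * dg g 2 + 1) / 2 : ℕ) = 6 * K := by
    rw [show (4 * dg g 2 + 1) / 2 = 2 * dg g 2 by omega]
    zify at g1; unfold cl; push_cast; linear_combination K * g1
  rw [bd, c1] at b1
  rw [bd, bd, c2, show (4 * dg g 2 + 1 + 1) / 2 = 2 * dg g 2 + 1 by omega, ← bd] at b2
  simp only [Nat.reduceAdd, Nat.reduceDiv] at b1
  have d1 := Int.emod_add_mul_ediv (z + 512) (dg g 1)
  have d2 := Int.emod_nonneg (z + 512) (show (dg g 1 : ℤ) ≠ 0 by omega)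
  have d3 := Nat.mod_add_div (ct g o (res g z) (2 * dg g 2 + 1)) (dg g 1)
  have d4 : ((res g z : ℕ) : ℤ) = (z + 512) % dg g 1 := Int.toNat_of_nonneg d2
  generalize ct g o (res g z) (2 * dg g 2 + 1) = y at *
  have d5 := Int.le_of_dvd (a := dg g 1) (b := y + 6 * K - (z + 512)) (by omega)
    ⟨(y / dg g 1 : ℕ) + dg g 2 * K - (z + 512) / dg g 1, by
      rw [b3.2.1.2] at d3
      zify at g1 d3
      push_cast
      linear_combination d1 - d3 + d4 - K * g1⟩
  omega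

theorem res_eq {w : ℕ} {j a : ℤ} : res g (w - 512 + cl g K j + dg g 1 * a) = w % dg g 1 := by
  rw [res, cl, show (w : ℤ) - 512 + dg g 1 * ((j - dg g 2) * K) + dg g 1 * a + 512 =
    w + dg g 1 * ((j - dg g 2) * K + a) by ring, Int.add_mul_emod_self_left, ← Int.natCast_mod,
    Int.toNat_natCast]

theorem dg_lt (g i : ℕ) : dg g i < 1024 := Nat.mod_lt _ (by norm_num)

theorem ptOK_sound {o j w : ℕ} (h : ptOK g o j w = true) :
    j ≤ 2 * dg g 2 ∧ w < 1024 ∧ Sp g o K (w - 512 + cl g K j) (2 * j) := by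
  simp only [ptOK, Bool.and_eq_true, Nat.ble_eq, ix_eq, Nat.mul_eq, Nat.succ_eq_add_one] at h
  have e := res_eq (g := g) (K := K) (w := w) (j := j) (a := 0)
  rw [mul_zero, add_zero] at e
  have := dg_lt g (o + w % dg g 1 * (2 * dg g 2 + 2) + (j + 1))
  refine ⟨h.1.1, by unfold ct at h; omega, 2 * j, by omega, ?_, ?_, by simp⟩ <;> rw [e, bd]
  · rw [show (2 * j + 1) / 2 = j by omega, show 2 * j / 2 = j by omega]; omega
  · rw [show (2 * j + 1 + 1) / 2 = j + 1 by omega, show (2 * j + 1) / 2 = j by omega]; omega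

theorem pmOK_sound {o j w : ℕ} (h : pmOK g o j w = true) (hj : j ≤ 2 * dg g 2) (hw : w < 1024) :
    Sp g o K (-1 - (w - 512 + cl g K j)) (2 * (2 * dg g 2 - j)) := by
  have := (ptOK_sound (K := K) h).2.2
  simp only [Nat.sub_eq, Nat.mul_eq] at this
  convert this using 1
  rw [Nat.cast_sub hj, Nat.cast_sub (by omega)]
  unfold cl; push_cast; ring

theorem znOK_sound {o t w j r : ℕ} (hs : 0 < dg g 1) (h : znOK g o t w j r = true)
    (hr : r = 1 ∨ r = 2) {a : ℤ} (h1 : 0 ≤ a) (h2 : a < r * K) :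
    Sp g o K (w - 512 + cl g K j + dg g 1 * a) (64 + t) := by
  have e0 : ∀ i, dg g (72 + ix g o w i) = ct g (72 + o) (w % dg g 1) i := fun i => by
    simp only [ct, ix, Nat.add_eq, Nat.mul_eq, add_assoc]; rfl
  simp only [znOK, slOK, Bool.and_eq_true, Nat.ble_eq, Nat.beq_eq, ix_eq, Nat.mul_eq,
    Nat.succ_eq_add_one, Nat.add_eq, e0] at h
  have hs' : (0 : ℤ) < dg g 1 := by omega
  rcases lt_or_ge a K with c | c
  · have c1 := mul_nonneg hs'.le h1
    have c2 := mul_lt_mul_of_pos_left c hs'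
    refine ⟨2 * j + 1, by omega, ?_, ?_, ?_⟩ <;> rw [res_eq]
    · rw [bd, show (2 * j + 1 + 1) / 2 = j + 1 by omega, show (2 * j + 1) / 2 = j by omega]; omega
    · rw [bd, show (2 * j + 1 + 1 + 1) / 2 = j + 1 by omega,
        show (2 * j + 1 + 1) / 2 = j + 1 by omega, Nat.cast_succ j, cl_step]; omega
    · rw [if_neg (by omega), show (2 * j + 1 + 1) / 2 = j + 1 by omega, h.1.2.2]
  · obtain rfl : r = 2 := by rcases hr with rfl | rfl <;> omega
    have c1 := mul_le_mul_of_nonneg_left c hs'.le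
    have c2 := mul_lt_mul_of_pos_left (show a < K + K by omega) hs'
    rw [mul_add] at c2
    refine ⟨2 * j + 3, by omega, ?_, ?_, ?_⟩ <;> rw [res_eq]
    · rw [bd, show (2 * j + 3 + 1) / 2 = j + 2 by omega, show (2 * j + 3) / 2 = j + 1 by omega,
        Nat.cast_succ j, cl_step]; omega
    · rw [bd, show (2 * j + 3 + 1 + 1) / 2 = j + 2 by omega,
        show (2 * j + 3 + 1) / 2 = j + 1 + 1 by omega, Nat.cast_succ, Nat.cast_succ j, cl_step,
        cl_step]; omega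
    · rw [if_neg (by omega), show (2 * j + 3 + 1) / 2 = j + 2 by omega, h.2.2]

theorem zmOK_sound {o t k : ℕ} (hs : 0 < dg g 1) (h : zmOK g o t k = true)
    (hr : rt k = 1 ∨ rt k = 2) (hj : jL g k + rt k ≤ 2 * dg g 2) {a : ℤ} (h1 : 0 ≤ a)
    (h2 : a < rt k * K) : Sp g o K (-1 - (w0 g k - 512 + cl g K (jL g k) + dg g 1 * a)) (64 + t) := by
  have := znOK_sound (K := K) hs h hr (a := rt k * K - 1 - a) (by omega) (by omega)
  have hw : w0 g k < 1024 := dg_lt _ _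
  simp only [Nat.sub_eq, Nat.mul_eq, Nat.add_eq] at this
  convert this using 1
  rw [Nat.cast_sub hj, Nat.cast_sub (by omega)]
  unfold cl; push_cast; ring

theorem zone (h : geoOK g = true) {k : ℕ} {z : ℤ} (h1 : ¬ Used (dg g 1) (flat (i0 g)) (b0 g K) k z)
    (h2 : Used (dg g 1) (flat (i0 g)) (adv (dg g 1) (b0 g K) K) k z) : (kE k ∨ kT k) ∧
      ∃ a : ℤ, 0 ≤ a ∧ a < rt k * K ∧ z = w0 g k - 512 + cl g K (jL g k) + dg g 1 * a := by
  have hs : (0 : ℤ) < dg g 1 := by have := geo_pos h; omega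
  have u := fun k hk => flat_used hs (i := i0 g) (fun k hk => (geo_key h hk).1) (k := k) hk
  obtain ⟨hk, y, e⟩ := not_used_ex h1
  obtain ⟨-, k1, -, -, -, k2, k3⟩ := geo_key h hk
  have e2 : z = adv (dg g 1) (b0 g K) K k + dg g 1 * (y - dk k * K) := by rw [e, adv]; ring
  rw [e, u k hk] at h1
  rw [e2, u k hk] at h2
  refine ⟨hk, ?_⟩
  obtain ⟨k0, ⟨-, k4⟩ | ⟨-, k4⟩, -⟩ := key_val hk
  · rw [← k4]
    exact ⟨y - i0 g k, by omega, by omega, by rw [e, b0, k2 (by omega)]; ring⟩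
  · rw [k4, neg_mul] at h2
    exact ⟨y - i0 g k + rt k * K, by omega, by omega, by
      rw [e, b0, k3 (by omega), k1, k4]; unfold cl; ring⟩

theorem nb_bit {m x : ℕ} : nb m x = true ↔ m.testBit x = false := by
  simp only [nb, Nat.beq_eq, Nat.land_eq, Nat.shiftRight_eq, Nat.and_one_is_mod]
  rw [Nat.testBit_eq_decide_div_mod_eq, ← Nat.shiftRight_eq_div_pow, decide_eq_false_iff_not]
  omega

theorem mir_false {V x y i j : ℕ} (h1 : mirOK g V x = true) (h4 : V.testBit y = true)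
    (h5 : x / 2048 = i + if x < 32768 then 9 else 18 + dg g 2) (hy : 32768 ≤ y)
    (h6 : y / 2048 = j + (18 + dg g 2)) (h7 : i + j = 2 * dg g 2) :
    vW g K x + vW g K y ≠ -1 := fun e => by
  have key : cl g K i + cl g K j = 0 := by
    zify at h7; unfold cl; linear_combination dg g 1 * K * h7
  have no : ∀ u, nb V u = true → u ≠ y := fun u a e => by
    rw [← e, nb_bit.1 a] at h4; exact absurd h4 (by simp)
  simp only [mirOK, Bool.cond_eq_ite, Nat.ble_eq, Nat.sub_eq, Nat.add_eq, Nat.mul_eq] at h1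
  simp only [vW, if_neg (not_lt.2 hy)] at e
  rw [show ((y / 2048 : ℕ) : ℤ) - 18 - dg g 2 = j by omega] at e
  split_ifs at e h5 with hx
  · rw [show ((x / 2048 : ℕ) : ℤ) - 9 = i by omega] at e
    rw [if_pos (by omega)] at h1
    exact no _ h1 (by omega)
  · rw [show ((x / 2048 : ℕ) : ℤ) - 18 - dg g 2 = i by omega] at e
    rw [if_neg (by omega)] at h1
    exact no _ h1 (by omega)

end Pool.Agent.MP_29e935_co.Six

end

section

/-!
Passage between the moving frames and the final picture; soundness of the closing entries.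
-/

set_option autoImplicit false
set_option maxRecDepth 20000

namespace Pool.Agent.MP_29e935_co.Six

variable {g K : ℕ}

theorem bits_sound {p : ℕ → Bool} :
    ∀ r w m, bits p r w m = true → ∀ x, m.testBit x = true → p x = true
  | 0, _, _, h => fun x hx => by simp [Nat.eq_of_beq_eq_true h] at hx
  | r + 1, w, m, h => fun x hx => by
    have h' : (Bool.rec false (bits p r (w / 65536) (m ^^^ 1 <<< (w % 65536))) (p (w % 65536)) :
      Bool) = true := h
    cases e : p (w % 65536) <;> rw [e] at h'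
    · exact absurd h' (by simp)
    by_cases e2 : w % 65536 = x
    · exact e2 ▸ e
    · exact bits_sound r _ _ h' x (by simp [Nat.one_shiftLeft, hx, e2])

theorem cX_val {j y : ℕ} (h : cOK g j y = true) (hj : j ≤ 2 * dg g 2) (hb : dg g 2 ≤ 3) (K : ℕ) :
    cX g j y < 65536 ∧ (cX g j y / 2048 < 16 ↔ y / 128 < 16) ∧ 9 ≤ cX g j y / 2048 ∧
      vW g K (cX g j y) =
        w0 g (y / 128) - dg g 1 * i0 g (y / 128) - 512 + cl g K j + dg g 1 * (y % 128 : ℕ) := by
  have e : cX g j y = 2048 * cK g j (y / 128) + w0 g (y / 128) + (dg g 1 * (y % 128) +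
      cond (Nat.ble (y / 128) 15) 0 (dg g 0 + 480)) - dg g 1 * i0 g (y / 128) := by
    unfold cX
    simp only [Nat.sub_eq, Nat.add_eq, Nat.mul_eq]
    rfl
  have h' : cX g j y / 2048 = cK g j (y / 128) := Nat.eq_of_beq_eq_true h
  simp only [cK, Bool.cond_eq_ite, Nat.ble_eq, Nat.add_eq] at e h'
  rw [← Nat.cast_mul, ← Nat.cast_mul]
  generalize cX g j y = x at *
  generalize dg g 1 * (y % 128) = A at *
  generalize dg g 1 * i0 g (y / 128) = B at *
  simp only [vW]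
  split_ifs at h' e with hy
  · rw [if_pos (by omega), show ((x / 2048 : ℕ) : ℤ) - 9 = j by omega]
    omega
  · rw [if_neg (by omega), show ((x / 2048 : ℕ) : ℤ) - 18 - dg g 2 = j by omega]
    omega

theorem adv_b0 (h : geoOK g = true) {k : ℕ} (hk : kE k ∨ kT k) : adv (dg g 1) (b0 g K) K k =
    w0 g k - dg g 1 * i0 g k - 512 + cl g K (jE g k) := by
  rw [adv, b0, (geo_key h hk).2.1]; unfold cl; ring

theorem used_xor {s : ℤ} {X y k : ℕ} {b : ℕ → ℤ} {z : ℤ} (h : Used s X b k z)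
    (hne : kE k ∨ kT k → (64 + k, z) ≠ (64 + y / 128, b (y / 128) + s * (y % 128 : ℕ))) :
    Used s (X ^^^ 2 ^ y) b k z := fun hk a ha =>
  (h hk a ha).imp id (Or.imp id fun ⟨i, h1, h2, h3⟩ => ⟨i, h1, h2, by
    have hi : i < 128 := by unfold wd at h2; split_ifs at h2 <;> omega
    have : y ≠ 128 * k + i := fun e => hne hk (by
      rw [e, show (128 * k + i) / 128 = k by omega, show (128 * k + i) % 128 = i by omega, ha, h1])
    simp [h3, this]⟩)

/-- The lines of the final picture, with track lines marked in `X`. -/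
def lQ (g K X O : ℕ) (l : ℕ × ℤ) : Prop :=
  InO g K O l ∨ (64 ≤ l.1 ∧ ¬ Used (dg g 1) (flat (i0 g)) (b0 g K) (l.1 - 64) l.2 ∧
    Used (dg g 1) X (adv (dg g 1) (b0 g K) K) (l.1 - 64) l.2)

theorem convL_sound {k : ℕ → ℕ → ℕ → Bool} (hg : geoOK g = true) :
    ∀ r w X S O, convL g k r w X S O = true → O ≤ S → ∃ X' S' O', k X' S' O' = true ∧
      (S' = O' → S = O ∧ ∀ K M L, Hold (gc g) (lQ g K X O) M L → Hold (gc g) (lQ g K X' O') M L)
  | 0, _, X, S, O, h, _ => ⟨X, S, O, h, fun e => ⟨e, fun _ _ _ h => h⟩⟩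
  | r + 1, w, X, S, O, h, hS => by
    have h' : (cOK g (jE g (w % 4096 / 128)) (w % 4096) && convL g k r (w / 4096)
      (X ^^^ 1 <<< (w % 4096)) (S + 1 <<< cX g (jE g (w % 4096 / 128)) (w % 4096))
      (O ||| 1 <<< cX g (jE g (w % 4096 / 128)) (w % 4096))) = true := h
    generalize w % 4096 = y at h'
    simp only [Bool.and_eq_true, Nat.one_shiftLeft] at h'
    obtain ⟨s1, s2⟩ := so_step (2 ^ cX g (jE g (y / 128)) y) hS
    obtain ⟨X', S', O', k1, k2⟩ := convL_sound hg r _ _ _ _ h'.2 s1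
    refine ⟨X', S', O', k1, fun e => ⟨(s2 (k2 e).1).1, fun K M L j2 => (k2 e).2 K M L ?_⟩⟩
    have fr := bit_of_and (s2 (k2 e).1).2 Nat.testBit_two_pow_self
    have up : ∀ b l, InO g K O l → InO g K (O ||| b) l := fun b l ⟨x, a1, a2, a3⟩ =>
      ⟨x, a1, by simp [a2], a3⟩
    by_cases hy : kE (y / 128) ∨ kT (y / 128)
    · obtain ⟨c1, c2, c3, c4⟩ := cX_val h'.1 (geo_key hg hy).2.2.2.2.1 (geo_pos hg).2.1 K
      generalize cX g (jE g (y / 128)) y = x at *
      refine j2.rename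
        (u := (64 + y / 128, adv (dg g 1) (b0 g K) K (y / 128) + dg g 1 * (y % 128 : ℕ)))
        (v := sW g K x) (by rw [adv_b0 hg hy]; exact c4)
        (by simp only [sW, kE, kT] at hy ⊢; omega) ?_ ?_ (Or.inl ⟨x, c1, by simp, rfl⟩)
      · rintro (⟨x', -, a, e⟩ | a)
        · rw [sW_inj e, a] at fr; exact absurd fr (by simp)
        · simp only [sW] at a; omega
      · rintro l (a | a) ne
        · exact Or.inl (up _ _ a)
        · exact Or.inr ⟨a.1, a.2.1, used_xor a.2.2 fun _ => by rwa [Nat.add_sub_cancel' a.1]⟩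
    · exact j2.mono fun l a => a.imp (up _ _) fun a => ⟨a.1, a.2.1, used_xor a.2.2 fun hk e =>
        hy (by rw [← Nat.add_left_cancel (Prod.mk.inj e).1]; exact hk)⟩

/-- The frame at the start of the tracks. -/
def eF (g K : ℕ) (Q : ℕ × ℤ → Prop) : Fr :=
  bF (gc g) (dg g 1) (fun l => Q l ∨
    (64 ≤ l.1 ∧ ¬ Used (dg g 1) (flat (i0 g)) (b0 g K) (l.1 - 64) l.2)) (b0 g K)

theorem not_inW {X : ℕ} {l : ℕ × ℤ} (a : 64 ≤ l.1) : ¬ InW g K X l := by
  rintro ⟨x, b, -, -, rfl⟩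
  simp only [sW] at a; omega

theorem convE_sound {k : ℕ → ℕ → ℕ → ℕ → Bool} (hg : geoOK g = true) :
    ∀ r w X S O, convE g k r w X S O = true → O ≤ S → ∃ w' X' S' O', k w' X' S' O' = true ∧
      O' ≤ S' ∧ (S' = O' → S = O ∧ ∀ K M L, (eF g K (InW g K X)).J O →
        Hold (gc g) ((eF g K (InW g K X)).Q O) M L →
        (eF g K (InW g K X')).J O' ∧ Hold (gc g) ((eF g K (InW g K X')).Q O') M L)
  | 0, w, X, S, O, h, hS => ⟨w, X, S, O, h, hS, fun e => ⟨e, fun _ _ _ h1 h2 => ⟨h1, h2⟩⟩⟩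
  | r + 1, w, X, S, O, h, hS => by
    have h' : (cOK g (jS g (w % 4096 / 128)) (w % 4096) && convE g k r (w / 4096)
      (X ^^^ 1 <<< cX g (jS g (w % 4096 / 128)) (w % 4096)) (S + 1 <<< (w % 4096))
      (O ||| 1 <<< (w % 4096))) = true := h
    have hy4 : w % 4096 < 2 * 2048 := by omega
    generalize w % 4096 = y at h' hy4
    simp only [Bool.and_eq_true, Nat.one_shiftLeft] at h'
    obtain ⟨s1, s2⟩ := so_step (2 ^ y) hS
    obtain ⟨w', X', S', O', k1, k2, k3⟩ := convE_sound hg r _ _ _ _ h'.2 s1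
    refine ⟨w', X', S', O', k1, k2, fun e => ⟨(s2 (k3 e).1).1, fun K M L j1 j2 => ?_⟩⟩
    have fr := bit_of_and (s2 (k3 e).1).2 Nat.testBit_two_pow_self
    have up : ∀ x, O.testBit x = true → (O ||| 2 ^ y).testBit x = true := fun x h => by simp [h]
    have hy : (kE (y / 128) ∧ y % 128 < 64) ∨ kT (y / 128) := by
      by_contra hy
      rw [j1.1 y ((mI_bit y).2 ⟨hy4, hy⟩)] at fr
      exact absurd fr (by simp)
    obtain ⟨g1, g2, g3⟩ := geo_pos hg
    obtain ⟨c1, c2, c3, c4⟩ := cX_val h'.1 (geo_key hg (hy.imp And.left id)).2.2.2.1 g2 K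
    obtain ⟨n1, n2⟩ := (bF_ok _ (by omega) (geo_add hg K)).2.2.1 O y j1 fr hy4
    generalize cX g (jS g (y / 128)) y = x at *
    refine (k3 e).2 K M L ⟨fun x a => up x (j1.1 x a), fun l a b => (j1.2 l a fun c => b ?_).mono up⟩
      (j2.rename (u := sW g K x) c4.symm (by simp only [sW, bF, kE, kT] at hy ⊢; omega) n1
        (fun l a ne => ⟨a.1.imp ?_ id, fun b => (a.2 b).mono up⟩)
        ⟨n2.1.imp (fun a => absurd a (not_inW (by simp [bF]))) id, n2.2⟩)
    · exact c.imp (fun d => absurd d (not_inW a)) id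
    · rintro ⟨x', b1, b2, b3, rfl⟩
      have : x ≠ x' := fun e => ne (by rw [e])
      exact ⟨x', b1, by simp [b2, this], b3, rfl⟩

theorem okE_sound (hg : geoOK g = true) {y x : ℕ} (h : okE g y x = true) (K : ℕ)
    (Q : ℕ × ℤ → Prop) : (eF g K Q).ev y ∧ ((eF g K Q).sem y).2 = vW g K x := by
  simp only [okE, Bool.and_eq_true, Nat.beq_eq, Bool.not_eq_true', ← Bool.not_eq_true, nb_bit] at h
  have h1 := h.2
  simp only [mU, mZ, Nat.lor_eq, Nat.testBit_or,
    Bool.or_eq_true, lane_bit] at h1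
  have hy : kE (y / 128) ∧ y % 128 < 64 := by unfold kE; omega
  exact ⟨hy, h.1.2 ▸ (cX_val h.1.1 (geo_key hg (Or.inl hy.1)).2.2.2.1 (geo_pos hg).2.1 K).2.2.2.symm⟩

theorem convP_sound (hg : geoOK g = true) : ∀ (L : PL) (k : PL → ℕ → Bool) (w : ℕ),
    convP g L k w = true → ∃ L2 w, k L2 w = true ∧ ∀ l, lsum (evL l L2) = lsum (evL l L) ∧
      ∀ K Q, (∀ P ∈ evL l L2, (eF g K Q).ev P.1 ∧ (eF g K Q).ev P.2.1) ∧
        ((evL l L2).map fun P => (((eF g K Q).sem P.1).2, ((eF g K Q).sem P.2.1).2, P.2.2)) =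
          (evL l L).map fun P => (vW g K P.1, vW g K P.2.1, P.2.2)
  | [], _, w, h => ⟨[], w, h, fun _ => ⟨rfl, by simp [evL]⟩⟩
  | (x, y, z) :: L, k, w, h => by
    simp only [convP, Bool.and_eq_true] at h
    obtain ⟨L2, w', h1, h2⟩ := convP_sound hg L _ _ h.2
    refine ⟨_, w', h1, fun l => ⟨by simp only [lsum_cons, (h2 l).1], fun K Q => ?_⟩⟩
    have c1 := okE_sound hg h.1.1 K Q
    have c2 := okE_sound hg h.1.2 K Q
    have c3 := (h2 l).2 K Q
    simp only [evL, List.map_cons] at c3 ⊢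
    exact ⟨List.forall_mem_cons.2 ⟨⟨c1.1, c2.1⟩, c3.1⟩, by rw [c1.2, c2.2, c3.2]⟩

def ClE (g K V : ℕ) (l : ℕ × ℤ) : Prop :=
  l.1 % 32 < 16 ∧ ∃ t, Sp g 64 K l.2 t ∧ ((64 ≤ t ∧ l.1 = t) ∨ ∃ x j, mirOK g V x = true ∧
    x < 32768 ∧ x / 2048 = j + 9 ∧ l = sW g K x ∧ t = 2 * j ∧ j ≤ 6)

def ClT (g K V : ℕ) (l : ℕ × ℤ) : Prop :=
  16 ≤ l.1 % 32 ∧ ∃ t t1 t2, Sp g 100 K l.2 t ∧ Sp g 64 K (-1 - l.2) t1 ∧
    Sp g 100 K (-1 - l.2) t2 ∧ ((64 ≤ t ∧ t < 96 ∧ l.1 = t ∧ t1 = t ∧ t2 = t + 32) ∨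
      ∃ x j, mirOK g V x = true ∧ V.testBit x = true ∧ 32768 ≤ x ∧ x / 2048 = j + (18 + dg g 2) ∧
        l = sW g K x ∧ t = 2 * j ∧ t1 + t = 4 * dg g 2 ∧ t2 = t1)

theorem cls {V : ℕ} (hg : geoOK g = true) (hV : ∀ x, V.testBit x = true → bitOK g V x = true)
    {l : ℕ × ℤ} (h : lQ g K (flat (i0 g)) V l) : ClE g K V l ∨ ClT g K V l := by
  obtain ⟨g1, g2, g3⟩ := geo_pos hg
  rcases h with ⟨x, a, b, rfl⟩ | ⟨a, b, c⟩
  · have h := hV x b
    simp only [bitOK, Bool.cond_eq_ite, Nat.ble_eq, Bool.and_eq_true, Nat.add_eq, Nat.sub_eq,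
      show Nat.mod x 2048 = x % 2048 from rfl, show Nat.div x 2048 = x / 2048 from rfl] at h
    obtain ⟨h0, h⟩ := h
    split_ifs at h with hx <;> simp only [Bool.and_eq_true, Nat.ble_eq] at h
    · obtain ⟨p1, -, p3⟩ := ptOK_sound (K := K) h.2
      refine Or.inl ⟨by simp only [sW]; omega, _, ?_,
        Or.inr ⟨x, x / 2048 - 9, h0, by omega, by omega, rfl, rfl, by omega⟩⟩
      rwa [sW, vW, if_pos (by omega), ← show ((x / 2048 - 9 : ℕ) : ℤ) = (x / 2048 : ℕ) - 9 by omega]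
    · obtain ⟨p1, p2, p3⟩ := ptOK_sound (K := K) h.2.1.1
      have p4 := pmOK_sound (K := K) h.2.1.2 p1 p2
      have p5 := pmOK_sound (K := K) h.2.2 p1 p2
      have e : (sW g K x).2 = (x % 2048 - (dg g 0 + 480) : ℕ) - 512 +
          cl g K (x / 2048 - (18 + dg g 2) : ℕ) := by
        rw [sW, vW, if_neg (by omega), show ((x / 2048 - (18 + dg g 2) : ℕ) : ℤ) =
          (x / 2048 : ℕ) - 18 - dg g 2 by omega]
        simp only; omega
      rw [← e] at p3 p4 p5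
      exact Or.inr ⟨by simp only [sW]; omega, _, _, _, p3, p5, p4,
        Or.inr ⟨x, _, h0, b, by omega, by omega, rfl, rfl, by omega, rfl⟩⟩
  · obtain ⟨k, z⟩ := l
    obtain ⟨k, rfl⟩ := Nat.exists_eq_add_of_le a
    rw [Nat.add_sub_cancel_left] at b c
    obtain ⟨hk, y, y1, y2, e⟩ := zone hg b c
    obtain ⟨k1, -, -, k2, k3, k4⟩ := key_val hk
    have h := geo_tr hg hk
    have k5 := (geo_key hg hk).2.2.1
    simp only [trOK, Bool.and_eq_true] at h
    simp only at e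
    subst e
    cases e : Nat.ble k 15 <;> simp only [e, cond_true, cond_false, Bool.and_eq_true] at h
    · have : ¬ k < 16 := fun h => by simp [k2.2 (k4.2 h)] at e
      exact Or.inr ⟨by simp only; omega, _, _, _, znOK_sound g3 h.2.1.1 k1 y1 y2,
        zmOK_sound g3 h.2.2 k1 k5 y1 y2, zmOK_sound g3 h.2.1.2 k1 k5 y1 y2,
        Or.inl ⟨by omega, by omega, rfl, rfl, by simp only [Nat.add_eq]; omega⟩⟩
    · have := k4.1 (k2.1 e)
      exact Or.inl ⟨by simp only; omega, _, znOK_sound g3 h.2 k1 y1 y2, Or.inl ⟨by omega, rfl⟩⟩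

theorem glue {V : ℕ} {M : Multiset ℕ} (hg : geoOK g = true) (hn : M.sum = dg g 3 + 6 * K)
    (H : Hold (gc g) (fun l => ClE g K V l ∨ ClT g K V l) M []) : GTu M := by
  obtain ⟨g1, g2, g3⟩ := geo_pos hg
  obtain ⟨c0, c1, c2⟩ : dg g 4 ≤ 528 ∧ Chn g 64 (528 - dg g 4) (dg g 4) ∧ Chn g 100 512 16 := by
    simp only [geoOK, Bool.and_eq_true, Nat.ble_eq] at hg
    exact ⟨hg.2.1.1, chOK_sound hg.2.1.2, chOK_sound hg.2.2⟩
  refine H.gt (dg g 4 - 16) ?_ ?_ ?_ ?_
  · rintro l (⟨-, t, a, -⟩ | ⟨a, -⟩) h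
    · have := a.bound c1 hg; omega
    · omega
  · rintro l (⟨a, -⟩ | ⟨-, t, t1, t2, a1, a2, -⟩) h
    · omega
    · have := a1.bound c2 hg; have := a2.bound c1 hg; omega
  · rintro ⟨k, z⟩ ⟨k', _⟩ (⟨a0, t, a1, a2⟩ | ⟨a0, t, r1, r2, a1, -, -, a2⟩)
      (⟨b0, t', b1, b2⟩ | ⟨b0, t', s1, s2, b1, -, -, b2⟩) h rfl
    · obtain rfl := a1.eq c1 g3 b1
      rcases a2 with a2 | ⟨x, i, -, -, a2, a3, a4⟩ <;> rcases b2 with b2 | ⟨y, j, -, -, b2, b3, b4⟩ <;>
        simp only [sW, Prod.mk.injEq, and_true] at * <;> omega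
    · omega
    · omega
    · obtain rfl := a1.eq c2 g3 b1
      rcases a2 with a2 | ⟨x, i, -, -, -, a2, a3, a4⟩ <;>
        rcases b2 with b2 | ⟨y, j, -, -, -, b2, b3, b4⟩ <;>
        simp only [sW, Prod.mk.injEq, and_true] at * <;> omega
  · rintro l l' a (⟨b0, -⟩ | ⟨b0, t', t1, t2, -, b1, b2, b3⟩) h e
    · omega
    rw [show -1 - l'.2 = l.2 by omega] at b1 b2
    rcases a with ⟨a0, t, a1, a2⟩ | ⟨a0, t, r1, r2, a1, -, -, a2⟩
    · obtain rfl := a1.eq c1 g3 b1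
      rcases a2 with a2 | ⟨x, i, a2, a3, a4, rfl, a5⟩ <;>
        rcases b3 with b3 | ⟨y, j, -, b3, b4, b5, rfl, b6⟩
      iterate 3 omega
      exact mir_false a2 b3 (by rw [if_pos a3]; exact a4) b4 b5 (by omega) e
    · obtain rfl := a1.eq c2 g3 b2
      rcases a2 with a2 | ⟨x, i, a2, -, a3, a4, rfl, a5⟩ <;>
        rcases b3 with b3 | ⟨y, j, -, b3, b4, b5, rfl, b6⟩
      iterate 3 omega
      exact mir_false a2 b3 (by rw [if_neg (by omega)]; exact a4) b4 b5 (by omega) e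

def pE (g K V : ℕ) (l : ℕ × ℤ) : Prop :=
  InO g K V l ∨ (64 ≤ l.1 ∧ ¬ Used (dg g 1) (flat (i0 g)) (b0 g K) (l.1 - 64) l.2)

/-- Arrival at the state `a` completes the picture. -/
def End (g V a : ℕ) : Prop :=
  sH a = 0 ∧ ∀ K M, (bF (gc g) (dg g 1) (pE g K V) (adv (dg g 1) (b0 g K) K)).H (sM a) M [] →
    M.sum = dg g 3 + 6 * K → GTu M

theorem endOK_sound {V a r v w : ℕ} (hg : geoOK g = true)
    (h : endOK g V (flat (i0 g)) a r v w = true) : End g V a := by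
  simp only [endOK, Bool.and_eq_true, Nat.beq_eq] at h
  obtain ⟨X, S, O, h1, h2⟩ := convL_sound hg _ _ _ _ _ h.2 le_rfl
  simp only [Bool.and_eq_true, Nat.beq_eq] at h1
  refine ⟨h.1, fun K M H hn => glue hg hn ((((h2 h1.1.1).2 K M [] (H.2.2.mono fun l hl =>
    hl.1.imp id fun a => ⟨a.1, a.2, hl.2 a.1⟩)).mono fun l hl => cls hg (bits_sound _ _ _ h1.2)
      (hl.imp id fun a => ⟨a.1, a.2.1, a.2.2.mono fun _ => subm_bit h1.1.2⟩)))⟩

def zW (g : ℕ) : Ses := fun _ _ F M => M = 0 ∧ ∃ K, F = wF g K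

def zE (g V : ℕ) : Ses := zB fun _ c s P b M =>
  M = 0 ∧ ∃ K, c = gc g ∧ s = dg g 1 ∧ P = pE g K V ∧ b = b0 g K

theorem zW_ok (l T : ℕ) (F : Fr) (M : Multiset ℕ) : zW g l T F M → F.ok 32768 := by
  rintro ⟨-, K, rfl⟩
  exact wF_ok _ _

theorem zW_init : RC (zW g) (fun _ => 0) 63 mW mW [] 0 600 0 :=
  RC.init (L := []) (by
    rintro l F M ⟨rfl, K, rfl⟩
    exact ⟨fun _ h => h, by simp [evL], Hold.nil _ _⟩)

theorem conv_sound {V f O cv e w r : ℕ} {a : ℕ → ℕ} {L : PL} {k : ℕ → ℕ → PL → ℕ → Bool}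
    (hg : geoOK g = true) (H2 : RC (zW g) a f O O L cv e 0)
    (h : convE g (fun w Y S O => subm Y (V ||| mW) && convP g L (k S O) w) r w O
      (flat (i0 g)) (flat (i0 g)) = true) :
    ∃ S O L w, k S O L w = true ∧ RC (zE g V) a f S O L cv e 0 := by
  obtain ⟨w2, Y2, S2, O2, h, a3, a4⟩ := convE_sound hg _ _ _ _ _ h le_rfl
  simp only [Bool.and_eq_true] at h
  obtain ⟨L2, w3, h1, h2⟩ := convP_sound hg _ _ _ h.2
  refine ⟨_, _, _, _, h1, a3, fun e1 => ?_⟩
  obtain ⟨Xs, k0, k1, k2⟩ := H2.2 rfl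
  refine ⟨Xs, k0, k1, fun l => ⟨by rw [(h2 l).1]; exact (k2 l).1, ?_⟩⟩
  rintro F G ⟨_, _, _, _, -, -, rfl, rfl, K, rfl, rfl, rfl, rfl⟩
  have b1 := (k2 l).2 _ _ ⟨rfl, K, rfl⟩
  simp only [adv_zero]
  obtain ⟨c1, c2⟩ := (a4 e1).2 K _ _
    ⟨flat_mI _, fun l a b => by by_contra c; exact b (Or.inr ⟨a, c⟩)⟩
    (b1.2.2.mono fun l hl => ⟨Or.inl hl, fun a => absurd hl (not_inW a)⟩)
  obtain ⟨d1, d2⟩ := (h2 l).2 K (InW g K Y2)
  refine ⟨⟨c1.1, fun l a b => c1.2 l a fun c => b (c.imp (fun d => absurd d (not_inW a)) id)⟩, d1,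
    (congrArg _ d2).mpr (c2.mono fun l hl => ⟨hl.1.imp ?_ id, hl.2⟩)⟩
  rintro ⟨x, b1, b2, b3, rfl⟩
  exact ⟨x, b1, by simpa [b3] using subm_bit h.1 b2, rfl⟩

theorem wrpOK_sound {V a z b key w : ℕ} (hg : geoOK g = true) (hE : End g V z)
    (h : wrpOK g (V ||| mW) (flat (i0 g)) a (sE z) b key w = true) {X : Multiset ℕ}
    (hX : Ky X key) (l : ℕ) {M : Multiset ℕ} (hM : Run a b z 0 M) : GTu (X.map (ev l) + M) := by
  obtain ⟨f, w, S, O, L, cv, e, u, h, H, hu⟩ := run_sound (by norm_num) zW_ok (by simp)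
    _ _ _ _ _ _ _ _ h zW_init
  obtain rfl := hu rfl
  simp only [Bool.and_eq_true, Nat.beq_eq] at h
  obtain ⟨rfl, h⟩ := h
  obtain ⟨S, O, L, w, h, H⟩ := conv_sound hg H h
  obtain ⟨f, w, S, O, L, cv, e, u, h, H, -⟩ := run_sound (by norm_num) (zB_ok _)
    (fun _ => zB_sh _) _ _ _ _ _ _ _ _ h H
  simp only [Bool.and_eq_true, Nat.beq_eq, Nat.add_eq, Nat.mul_eq] at h
  obtain ⟨⟨⟨⟨rfl, h1⟩, h2⟩, rfl⟩, h3⟩ := h
  obtain ⟨t1, t2⟩ := H.fin hX l
  rw [isP_eq h2, evL_pth, show ev l (2 * b) = b by simp [ev]] at t1 t2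
  obtain ⟨k, r1, r2⟩ := hM
  have hs : (0 : ℤ) < dg g 1 := by have := geo_pos hg; omega
  have := r2 _ _ _ _ _ hs ((geo_add hg (u + k)).adv _ u) ((t2 _ 0 ⟨_, _, _, _, hs,
    geo_add hg _, rfl, rfl, u + k, rfl, rfl, rfl, rfl⟩).sub h1)
  rw [adv_adv, zero_add, pth_nil hE.1] at this
  rw [pth_nil hE.1] at r1
  simp only [lsum, List.map_nil, List.sum_nil] at r1 t1
  exact hE.2 _ _ this (by rw [Multiset.sum_add]; omega)

theorem dirE_sound {key w : ℕ} (h : dirE g key w = true) {X : Multiset ℕ} (hX : Ky X key)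
    (l : ℕ) : GTu (X.map (ev l)) := by
  simp only [dirE, Bool.and_eq_true, Nat.beq_eq, Nat.ble_eq] at h
  obtain ⟨⟨⟨⟨g1, g2⟩, g3⟩, g4⟩, h⟩ := h
  obtain ⟨f, w, S, O, L, cv, e, u, h, H, hu⟩ := run_sound (by norm_num) zW_ok (by simp)
    _ _ _ _ _ _ _ _ h zW_init
  obtain rfl := hu rfl
  simp only [Bool.and_eq_true, Nat.beq_eq, List.isEmpty_iff, Nat.add_eq] at h
  obtain ⟨⟨⟨⟨rfl, rfl⟩, rfl⟩, h2⟩, h3⟩ := h
  obtain ⟨t1, t2⟩ := H.fin hX l
  have H := (t2 _ 0 ⟨rfl, 0, rfl⟩).2.2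
  rw [zero_add] at H
  have hn : (X.map (ev l)).sum = dg g 3 := by
    simp only [lsum, evL, List.map_nil, List.sum_nil] at t1; omega
  generalize hV : Nat.xor S mW = V at h3
  have key : ∀ l, InW g 0 S l → ∃ x, l = sW g 0 x ∧ V.testBit x = true ∧ mirOK g V x = true ∧
      x / 2048 = 0 + (if x < 32768 then 9 else 18 + dg g 2) ∧ (x < 32768 →
        -(dg g 3 : ℤ) ≤ l.2 + (dg g 4 - 16) ∧ l.2 + (dg g 4 - 16) < dg g 3) ∧ (32768 ≤ x →
        (-(dg g 3 : ℤ) ≤ l.2 ∧ l.2 < dg g 3) ∧ -(dg g 3 : ℤ) ≤ -1 - l.2 + (dg g 4 - 16) ∧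
          -1 - l.2 + (dg g 4 - 16) < dg g 3) := by
    rintro l ⟨x, -, a1, a2, rfl⟩
    have a3 : V.testBit x = true := by simp [← hV, a1, a2]
    have := bits_sound _ _ _ h3 x a3
    simp only [dirBit, inR, Bool.cond_eq_ite, Bool.and_eq_true, Nat.ble_eq,
      Bool.ite_eq_true_distrib, Nat.add_eq, Nat.mul_eq, Nat.succ_eq_add_one] at this
    refine ⟨x, rfl, a3, this.1, ?_⟩
    have := this.2
    simp only [sW, vW, cl, Nat.cast_zero, mul_zero]
    split_ifs at this ⊢ <;> omega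
  refine H.gt (dg g 4 - 16) ?_ ?_ ?_ ?_
  · intro l hl h
    obtain ⟨x, rfl, -, -, a1, a2, -⟩ := key l hl
    rw [hn]
    exact a2 (by simp only [sW] at h; split_ifs at a1 <;> omega)
  · intro l hl h
    obtain ⟨x, rfl, -, -, a1, -, a2⟩ := key l hl
    rw [hn]
    exact a2 (by simp only [sW] at h; split_ifs at a1 <;> omega)
  · intro l l' hl hl' h1 h2
    obtain ⟨x, rfl, -, -, a1, -⟩ := key l hl
    obtain ⟨y, rfl, -, -, b1, -⟩ := key l' hl'
    simp only [sW, Prod.mk.injEq] at h1 h2 ⊢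
    split_ifs at a1 b1 <;> omega
  · intro l l' hl hl' h1
    obtain ⟨x, rfl, -, a2, a1, -⟩ := key l hl
    obtain ⟨y, rfl, b2, -, b1, -⟩ := key l' hl'
    have : 32768 ≤ y := by simp only [sW] at h1; split_ifs at b1 <;> omega
    exact mir_false a2 b2 a1 this (by rwa [if_neg (by omega)] at b1) (by omega)

end Pool.Agent.MP_29e935_co.Six

end
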