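import Pool.Agent.Mg.F29e935p.Gda7ce1

section

/-!
Two edge-disjoint 2-factors can be rearranged so that they have few triangles: blocks,
parity counting and the exchange step.
-/

set_option autoImplicit false

namespace Pool.Agent.MP_29e935_co.Six

open Pool.Agent.MP_29e935_co.Two Finset

variable {V : Type}

/-- Adjacency in the 2-factor of a permutation. -/
def Ad (a : Equiv.Perm V) (u w : V) : Prop := w = a u ∨ u = a w

/-- The vertex lies on a triangle of the 2-factor. -/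
def Tr (a : Equiv.Perm V) (v : V) : Prop := a (a (a v)) = v

theorem Ad.symm {a : Equiv.Perm V} {u w : V} (h : Ad a u w) : Ad a w u := Or.symm h

theorem ad_iff {a : Equiv.Perm V} {u w : V} : Ad a u w ↔ w = a u ∨ w = a.symm u :=
  or_congr_right (by rw [Equiv.eq_symm_apply, eq_comm])

theorem tr_apply {a : Equiv.Perm V} {v : V} : Tr a (a v) ↔ Tr a v := a.injective.eq_iff

theorem tr_symm {a : Equiv.Perm V} {v : V} : Tr a (a.symm v) ↔ Tr a v := by
  rw [← tr_apply, Equiv.apply_symm_apply]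

theorem Tr.ad {a : Equiv.Perm V} {v : V} (h : Tr a v) : Ad a (a v) (a.symm v) :=
  Or.inl (by rw [Equiv.symm_apply_eq]; exact h.symm)

theorem exists_marks [Finite V] (a : Equiv.Perm V) (good : V → Prop) :
    ∃ O : V → Prop, (∀ v, O v → ¬ O (a v)) ∧ ∀ x, ¬ O x → ¬ O (a.symm x) →
      (∃ m, (a ^ (2 * m + 1)) x = x) ∧ (good x ∨ ∀ w, a.SameCycle x w → ¬ good w) ∧
        ∀ w, a.SameCycle x w → ¬ O w → ¬ O (a.symm w) → w = x := by
  classical
  let p : V → V → Prop := fun v w => a.SameCycle v w ∧ (good w ∨ ∀ u, a.SameCycle v u → ¬ good u)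
  have hp : ∀ v, ∃ w, p v w := fun v => by
    by_cases h : ∃ u, a.SameCycle v u ∧ good u
    · obtain ⟨u, h1, h2⟩ := h
      exact ⟨u, h1, Or.inl h2⟩
    · exact ⟨v, .refl _ _, Or.inr fun u h1 h2 => h ⟨u, h1, h2⟩⟩
  let β : V → V := fun v => (hp v).choose
  have hβ : ∀ v, p v (β v) := fun v => (hp v).choose_spec
  have hc : ∀ v w, a.SameCycle v w → β v = β w := fun v w h => by
    have : p v = p w := funext fun u => propext (and_congr ⟨h.symm.trans, h.trans⟩
      (or_congr_right (forall_congr' fun u => imp_congr_left ⟨h.symm.trans, h.trans⟩)))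
    simp only [β, this]
  have hj : ∀ v, ∃ j : ℕ, (a ^ j) (β v) = v := fun v => by
    obtain ⟨j, -, h⟩ := (hβ v).1.symm.exists_pow_eq'
    exact ⟨j, h⟩
  have hs : ∀ v, Nat.find (hj (a v)) = 0 ∨ Nat.find (hj (a v)) = Nat.find (hj v) + 1 := fun v => by
    have e : β (a v) = β v := hc _ _ (by simp [Equiv.Perm.SameCycle.refl])
    have h1 : Nat.find (hj (a v)) ≤ Nat.find (hj v) + 1 := Nat.find_min' _ (by
      rw [e, pow_succ', Equiv.Perm.mul_apply, Nat.find_spec (hj v)])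
    rcases h : Nat.find (hj (a v)) with _ | s
    · exact Or.inl rfl
    · have h2 := Nat.find_spec (hj (a v))
      rw [h, e, pow_succ', Equiv.Perm.mul_apply] at h2
      have := Nat.find_min' (hj v) (a.injective h2)
      omega
  have hz : ∀ x, ¬ Nat.find (hj x) % 2 = 1 → ¬ Nat.find (hj (a.symm x)) % 2 = 1 → β x = x :=
    fun x h1 h2 => by
      have h3 := hs (a.symm x)
      simp only [Equiv.apply_symm_apply] at h3
      have h4 := Nat.find_spec (hj x)
      rwa [show Nat.find (hj x) = 0 by omega] at h4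
  refine ⟨fun v => Nat.find (hj v) % 2 = 1, fun v h => ?_, fun x h1 h2 => ⟨?_, ?_, ?_⟩⟩
  · have := hs v
    omega
  · refine ⟨Nat.find (hj (a.symm x)) / 2, ?_⟩
    have h4 := Nat.find_spec (hj (a.symm x))
    have h5 : β (a.symm x) = x := by
      rw [hc (a.symm x) x (by simp [← Equiv.Perm.inv_def, Equiv.Perm.SameCycle.refl]), hz x h1 h2]
    have h6 : 2 * (Nat.find (hj (a.symm x)) / 2) = Nat.find (hj (a.symm x)) := by
      simp only at h2
      omega
    rw [h6]
    generalize Nat.find (hj (a.symm x)) = j at h4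
    rw [h5] at h4
    rw [pow_succ', Equiv.Perm.mul_apply, h4, Equiv.apply_symm_apply]
  · have := (hβ x).2
    rwa [hz x h1 h2] at this
  · intro w h k1 k2
    rw [← hz w k1 k2, ← hc x w h, hz x h1 h2]

theorem half_pow {a : Equiv.Perm V} {x w : V} {m : ℕ} (h : (a ^ (2 * m + 1)) x = x)
    (hw : a.SameCycle x w) (k : ℕ) (e : (a ^ (2 * k)) w = w) : (a ^ k) w = w := by
  have h1 : (a ^ (2 * m + 1)) w = w := by
    obtain ⟨i, rfl⟩ := hw
    rw [← Equiv.Perm.mul_apply, ← zpow_natCast, ← zpow_add, add_comm, zpow_add,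
      Equiv.Perm.mul_apply, zpow_natCast, h]
  have h2 := Equiv.Perm.pow_apply_eq_self_of_apply_eq_self h1 k
  have h3 := Equiv.Perm.pow_apply_eq_self_of_apply_eq_self e m
  rw [← pow_mul] at h2 h3
  rw [show (2 * m + 1) * k = k + 2 * k * m by ring, pow_add, Equiv.Perm.mul_apply, h3] at h2
  exact h2

theorem kernel [Fintype V] [DecidableEq V] (A R S : Finset V) (h : #R + #S < #A)
    (c d : (V → ZMod 2) → V → ZMod 2) (hc : ∀ f g v, c (f - g) v = c f v - c g v)
    (hd : ∀ f g v, d (f - g) v = d f v - d g v) :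
    ∃ f : V → ZMod 2, (∃ v, f v ≠ 0) ∧ (∀ v, v ∉ A → f v = 0) ∧ (∀ v ∈ R, c f v = 0) ∧
      ∀ v ∈ S, d f v = 0 := by
  let e : (A → ZMod 2) → V → ZMod 2 := fun g v => if k : v ∈ A then g ⟨v, k⟩ else 0
  obtain ⟨f, g, hne, k⟩ := Fintype.exists_ne_map_eq_of_card_lt
    (fun g : A → ZMod 2 => ((fun v : R => c (e g) v), fun v : S => d (e g) v)) (by
      simp only [Fintype.card_prod, Fintype.card_fun, ZMod.card, Fintype.card_coe, ← pow_add]
      exact Nat.pow_lt_pow_right (by norm_num) h)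
  obtain ⟨v, hv⟩ := Function.ne_iff.1 hne
  refine ⟨e f - e g, ⟨v, by simpa [e, sub_eq_zero] using hv⟩, fun v hv => by simp [e, hv],
    fun v hv => ?_, fun v hv => ?_⟩
  · rw [hc, sub_eq_zero]; exact congrFun (congrArg Prod.fst k) ⟨v, hv⟩
  · rw [hd, sub_eq_zero]; exact congrFun (congrArg Prod.snd k) ⟨v, hv⟩

/-- The data of one side. -/
structure Sd (a b : Equiv.Perm V) (O : V → Prop) : Prop where
  h2 : ∀ v, a (a v) ≠ v
  k2 : ∀ v, b (b v) ≠ v
  dj : ∀ u w, Ad a u w → ¬ Ad b u w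
  o1 : ∀ v, O v → ¬ O (a v)
  o2 : ∀ x, ¬ O x → ¬ O (a.symm x) → (∃ m, (a ^ (2 * m + 1)) x = x) ∧
    (¬ Ad b (a x) (a.symm x) ∨ ∀ w, a.SameCycle x w → ¬ ¬ Ad b (a w) (a.symm w)) ∧
      ∀ w, a.SameCycle x w → ¬ O w → ¬ O (a.symm w) → w = x

open Classical in
theorem Sd.split {a b : Equiv.Perm V} {O : V → Prop} (h : Sd a b O) (A : Finset V)
    (hA : ∀ v, O v → (v ∈ A ↔ a v ∈ A)) :
    #A = 2 * #{v ∈ A | O v} + #{v ∈ A | ¬ O v ∧ ¬ O (a.symm v)} := by
  have e1 : #{v ∈ A | O v} + #{v ∈ A | ¬ O v} = #A := card_filter_add_card_filter_not _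
  have e2 : #{v ∈ A | ¬ O v ∧ O (a.symm v)} + #{v ∈ A | ¬ O v ∧ ¬ O (a.symm v)} =
      #{v ∈ A | ¬ O v} := by
    rw [← filter_filter, ← filter_filter]
    exact card_filter_add_card_filter_not _
  have e3 : #{v ∈ A | O v} = #{v ∈ A | ¬ O v ∧ O (a.symm v)} := by
    refine card_bij' (fun v _ => a v) (fun v _ => a.symm v) (fun v hv => ?_) (fun v hv => ?_)
      (by simp) (by simp)
    · obtain ⟨k1, k2⟩ := mem_filter.1 hv
      exact mem_filter.2 ⟨(hA v k2).1 k1, h.o1 v k2, by simpa using k2⟩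
    · obtain ⟨k1, -, k2⟩ := mem_filter.1 hv
      exact mem_filter.2 ⟨(hA _ k2).2 (by simpa using k1), k2⟩
  omega

open Classical in
theorem Sd.count [Fintype V] {a b : Equiv.Perm V} {O : V → Prop} (h : Sd a b O) (A : Finset V)
    (hA : ∀ v, O v → (v ∈ A ↔ a v ∈ A)) (hT : ∀ v, Tr a v → v ∈ A) :
    6 * #{v ∈ A | (O v ∧ ¬ Tr a v) ∨ (¬ O v ∧ ¬ O (a.symm v))} + #{v | Tr a v} ≤
      3 * #A + 3 * (otype a.symm).countP fun x => x % 2 = 1 ∧ 5 ≤ x := by
  have e1 := h.split A hA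
  have e2 := h.split {v | Tr a v} fun v _ => by simp [tr_apply]
  have e3 := card_filter_add_card_filter_not (s := {v ∈ A | O v}) fun v => Tr a v
  have e4 := card_filter_add_card_filter_not (s := {v ∈ A | ¬ O v ∧ ¬ O (a.symm v)})
    fun v => Tr a v
  have e5 : ({v ∈ A | O v}.filter fun v => Tr a v) =
      ({v | Tr a v} : Finset V).filter fun v => O v := by
    ext v; simp only [mem_filter, mem_univ, true_and]; have := hT v; tauto
  have e6 : ({v ∈ A | ¬ O v ∧ ¬ O (a.symm v)}.filter fun v => Tr a v) =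
      ({v | Tr a v} : Finset V).filter fun v => ¬ O v ∧ ¬ O (a.symm v) := by
    ext v; simp only [mem_filter, mem_univ, true_and]; have := hT v; tauto
  have e7 : #(({v | Tr a v} : Finset V).filter fun v => ¬ O v ∧ ¬ O (a.symm v)) ≤
      #(({v | Tr a v} : Finset V).filter fun v => O v) := by
    refine card_le_card_of_injOn a (fun v hv => ?_) a.injective.injOn
    simp only [coe_filter, mem_filter, mem_univ, true_and, Set.mem_ofPred_eq] at hv ⊢
    refine ⟨tr_apply.2 hv.1, by_contra fun k => h.h2 v ?_⟩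
    have := (h.o2 v hv.2.1 hv.2.2).2.2 (a v) (by simp [Equiv.Perm.SameCycle.refl]) k
      (by simpa using hv.2.1)
    rw [this, this]
  have e8 : #{v ∈ A | (O v ∧ ¬ Tr a v) ∨ (¬ O v ∧ ¬ O (a.symm v))} ≤
      #({v ∈ A | O v}.filter fun v => ¬ Tr a v) + #{v ∈ A | ¬ O v ∧ ¬ O (a.symm v)} := by
    rw [filter_filter, filter_or]
    exact card_union_le _ _
  have e9 : #({v ∈ A | ¬ O v ∧ ¬ O (a.symm v)}.filter fun v => ¬ Tr a v) ≤
      #({o | olen a.symm o % 2 = 1 ∧ 5 ≤ olen a.symm o} : Finset (Orb a.symm)) := by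
    refine card_le_card_of_injOn (fun v => ⟦v⟧) (fun x hx => ?_) fun x hx y hy e => ?_
    · simp only [coe_filter, mem_filter, mem_univ, true_and, Set.mem_ofPred_eq] at hx ⊢
      obtain ⟨⟨m, hm⟩, -⟩ := h.o2 x hx.1.2.1 hx.1.2.2
      have hs : Equiv.Perm.SameCycle a.symm (⟦x⟧ : Orb a.symm).out x :=
        Quotient.exact (s := Equiv.Perm.SameCycle.setoid a.symm) (Quotient.out_eq _)
      obtain ⟨j, -, hj⟩ := hs.exists_pow_eq'
      have k1 : olen a.symm ⟦x⟧ = Function.minimalPeriod a.symm x := by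
        conv_rhs => rw [← hj, ← Equiv.Perm.iterate_eq_pow]
        exact (Function.minimalPeriod_apply_iterate (a.symm.injective.mem_periodicPts _) j).symm
      have k2 : Function.IsPeriodicPt a.symm (2 * m + 1) x := by
        change a.symm^[2 * m + 1] x = x
        rw [Equiv.Perm.iterate_eq_pow, ← Equiv.Perm.inv_def, inv_pow, Equiv.Perm.inv_eq_iff_eq, hm]
      have k3 := Nat.odd_iff.1 (Odd.of_dvd_nat ⟨m, rfl⟩ k2.minimalPeriod_dvd)
      have k4 : a.symm^[Function.minimalPeriod a.symm x] x = x := Function.iterate_minimalPeriod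
      rw [k1]
      refine ⟨k3, by_contra fun k5 => ?_⟩
      obtain k6 | k6 : Function.minimalPeriod a.symm x = 1 ∨ Function.minimalPeriod a.symm x = 3 := by
        omega
      · rw [k6, Function.iterate_one, Equiv.symm_apply_eq] at k4
        exact h.h2 x (by rw [← k4, ← k4])
      · rw [k6] at k4
        apply hx.2
        change a (a (a x)) = x
        conv_lhs => rw [← k4]
        simp
    · simp only [coe_filter, mem_filter, Set.mem_ofPred_eq] at hx hy
      exact ((h.o2 x hx.1.2.1 hx.1.2.2).2.2 y (Equiv.Perm.sameCycle_inv.1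
        (Quotient.exact (s := Equiv.Perm.SameCycle.setoid a.symm) e)) hy.1.2.1 hy.1.2.2).symm
  have e10 : #({o | olen a.symm o % 2 = 1 ∧ 5 ≤ olen a.symm o} : Finset (Orb a.symm)) =
      (otype a.symm).countP fun x => x % 2 = 1 ∧ 5 ≤ x := by
    rw [otype, Multiset.countP_map]
    rfl
  rw [e5] at e3
  rw [e6] at e4
  omega

end Pool.Agent.MP_29e935_co.Six

end

section

/-!
The exchange step: a regular graph of even degree at least four has a decomposition into
2-factors whose first factor has at most as many triangles as longer odd cycles.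
-/

set_option autoImplicit false

namespace Pool.Agent.MP_29e935_co.Six

open Pool.Agent.MP_29e935_co.Two Finset

variable {V : Type}

theorem ad_ne {a : Equiv.Perm V} (h : ∀ v, a (a v) ≠ v) (v : V) : a v ≠ a.symm v :=
  fun k => h v (by rw [k]; simp)

theorem Ad.ne {a : Equiv.Perm V} (h : ∀ v, a (a v) ≠ v) {u w : V} (k : Ad a u w) : u ≠ w := by
  rintro rfl
  have e : a u = u := (k.elim id id).symm
  exact h u (by rw [e, e])

theorem ad_two {a : Equiv.Perm V} {u y z w : V} (hy : Ad a u y) (hz : Ad a u z) (ne : y ≠ z)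
    (hw : Ad a u w) : w = y ∨ w = z := by
  rw [ad_iff] at hy hz hw
  rcases hy with rfl | rfl <;> rcases hz with rfl | rfl <;> tauto

theorem Sd.closed {a b : Equiv.Perm V} {O : V → Prop} (h : Sd a b O) {x : V} {m : ℕ}
    (hm : (a ^ (2 * m + 1)) x = x) (hb : ∀ w, a.SameCycle x w → Ad b (a w) (a.symm w)) :
    (∀ v, a.SameCycle x v → ¬ Tr a v ∧ ¬ Tr b v) ∧ ∀ v, a.SameCycle x v ↔ a.SameCycle x (b v) := by
  have n1 : ∀ w, a.SameCycle x w → Ad b w (a (a w)) := fun w hw => by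
    simpa using (hb (a w) (by simpa using hw)).symm
  have n2 : ∀ w, a.SameCycle x w → Ad b w (a.symm (a.symm w)) := fun w hw => by
    simpa using hb (a.symm w) (by simpa [← Equiv.Perm.inv_def] using hw)
  have n3 : ∀ w, a.SameCycle x w → a (a w) ≠ a.symm (a.symm w) := fun w hw e =>
    h.h2 w (half_pow hm hw 2 (by
      change a (a (a (a w))) = w
      rw [e]; simp))
  have n4 : ∀ w, a.SameCycle x w → ∀ u, Ad b w u → a.SameCycle x u := fun w hw u k => by
    rcases ad_two (n1 w hw) (n2 w hw) (n3 w hw) k with rfl | rfl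
    · simpa using hw
    · simpa [← Equiv.Perm.inv_def] using hw
  have t1 : ∀ v, a.SameCycle x v → ¬ Tr a v := fun v hv k => h.dj _ _ k.ad (hb v hv)
  refine ⟨fun v hv => ⟨t1 v hv, fun k => ?_⟩,
    fun v => ⟨fun k => n4 v k _ (Or.inl rfl), fun k => n4 _ k _ (Or.inr rfl)⟩⟩
  have k1 : Ad b (a (a v)) (a.symm (a.symm v)) := by
    have := k.ad
    rcases ad_iff.1 (n1 v hv) with e | e <;> rcases ad_iff.1 (n2 v hv) with e' | e'
    · exact absurd (e.trans e'.symm) (n3 v hv)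
    · rwa [e, e']
    · rw [e, e']; exact this.symm
    · exact absurd (e.trans e'.symm) (n3 v hv)
  have hv2 : a.SameCycle x (a (a v)) := by simpa using hv
  rcases ad_two (n1 _ hv2) (n2 _ hv2) (n3 _ hv2) k1 with e | e
  · refine t1 v hv (half_pow hm hv 3 ?_)
    change a (a (a (a (a (a v))))) = v
    rw [← e]; simp
  · apply h.h2 v
    simp only [Equiv.symm_apply_apply] at e
    conv_lhs => rw [← e]
    simp

open Classical in
/-- The parity of a block. -/
noncomputable def cf (a : Equiv.Perm V) (O : V → Prop) (f : V → ZMod 2) (v : V) : ZMod 2 :=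
  if Tr a v then f v + f (a v) + f (a (a v)) else if O v then f v + f (a v) else f v

theorem cf_sub (a : Equiv.Perm V) (O : V → Prop) (f g : V → ZMod 2) (v : V) :
    cf a O (f - g) v = cf a O f v - cf a O g v := by
  unfold cf
  split_ifs <;> simp only [Pi.sub_apply] <;> ring

/-- The edges that leave the first factor. -/
structure Mv (a b : Equiv.Perm V) (W : V → Prop) (P : V → V → Prop) : Prop where
  sym : ∀ u w, P u w → P w u
  sub : ∀ u w, P u w → Ad a u w
  mem : ∀ u w, P u w → W u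
  ex : ∀ u, W u → ∃ w, ∀ x, P u x ↔ x = w
  cc : ∀ u w x, W u → W w → Ad b u w → Ad a u x → Ad a w x → P u x ∨ P w x

theorem Sd.mv {a b : Equiv.Perm V} {O : V → Prop} (h : Sd a b O) (f : V → ZMod 2) (A : V → Prop)
    (hA : ∀ v, O v → (A v ↔ A (a v))) (hT : ∀ v, Tr a v → A v) (f0 : ∀ v, ¬ A v → f v = 0)
    (hc : ∀ v, A v → (O v ∧ ¬ Tr a v) ∨ (¬ O v ∧ ¬ O (a.symm v)) → cf a O f v = 0)
    (hX : ∀ S : V → Prop, (∀ v, S v → ¬ Tr a v ∧ ¬ Tr b v) → (∀ v, S v ↔ S (a v)) →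
      (∀ v, S v ↔ S (b v)) → ∀ v, S v → ¬ A v) :
    (∀ v, O v → ¬ Tr a v → f v = f (a v)) ∧ ∃ P, Mv a b (fun v => f v = 1) P := by
  have wA : ∀ v, f v = 1 → A v := fun v k => by_contra fun n => by
    rw [f0 v n] at k
    exact absurd k (by decide)
  have w1 : ∀ v, O v → ¬ Tr a v → f v = f (a v) := fun v k1 k2 => by
    by_cases n : A v
    · have := hc v n (Or.inl ⟨k1, k2⟩)
      simp only [cf, if_neg k2, if_pos k1] at this
      revert this
      generalize f v = p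
      generalize f (a v) = q
      revert p q
      decide
    · rw [f0 v n, f0 _ fun k => n ((hA v k1).2 k)]
  have w2 : ∀ v, ¬ O v → ¬ O (a.symm v) → ¬ Tr a v → f v ≠ 1 := fun v k1 k2 k3 k => by
    have := hc v (wA v k) (Or.inr ⟨k1, k2⟩)
    simp only [cf, if_neg k3, if_neg k1, k] at this
    exact absurd this (by decide)
  have w3 : ∀ v, Tr a v → f v + f (a v) + f (a (a v)) = 0 := fun v k => by
    have k0 : a (a (a v)) = v := k
    have k1 : ∀ u, Tr a u → ¬ O u → ¬ O (a.symm u) → f u + f (a u) + f (a (a u)) = 0 :=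
      fun u k k1 k2 => by simpa only [cf, if_pos k] using hc u (hT u k) (Or.inr ⟨k1, k2⟩)
    have k2 := tr_apply.2 k
    have k3 := tr_apply.2 k2
    by_cases o0 : O v
    · have := k1 _ k3 (fun o => h.o1 _ o (by rwa [k0])) (by simpa using h.o1 _ o0)
      rw [k0] at this
      linear_combination this
    by_cases o1 : O (a v)
    · exact k1 v k o0 (by rw [show a.symm v = a (a v) by rw [Equiv.symm_apply_eq, k0]]
                          exact h.o1 _ o1)
    · have := k1 _ k2 o1 (by simpa using o0)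
      rw [k0] at this
      linear_combination this
  refine ⟨w1, fun u w => f u = 1 ∧ f w = 1 ∧ ((w = a u ∧ (O u ∨ Tr a u)) ∨ (u = a w ∧ (O w ∨ Tr a w))),
    fun u w k => ⟨k.2.1, k.1, k.2.2.symm⟩, fun u w k => k.2.2.imp And.left And.left,
    fun u w k => k.1, fun u hu => ?_, fun u w x hu hw k1 k2 k3 => ?_⟩
  · have es : ∀ x, u = a x ↔ x = a.symm u := fun x => by rw [Equiv.eq_symm_apply, eq_comm]
    by_cases t : Tr a u
    · have k0 : a.symm u = a (a u) := by rw [Equiv.symm_apply_eq]; exact t.symm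
      have k1 := w3 u t
      have k2 : ∀ p q : ZMod 2, 1 + p + q = 0 → (p = 1 ∧ q ≠ 1) ∨ (p ≠ 1 ∧ q = 1) := by decide
      rw [hu, ← k0] at k1
      rcases k2 _ _ k1 with ⟨k3, k4⟩ | ⟨k3, k4⟩
      · refine ⟨a u, fun x => ⟨?_, fun e => ⟨hu, e ▸ k3, Or.inl ⟨e, Or.inr t⟩⟩⟩⟩
        rintro ⟨-, k5, ⟨e, -⟩ | ⟨e, -⟩⟩
        · exact e
        · exact absurd ((es x).1 e ▸ k5) k4
      · refine ⟨a.symm u, fun x => ⟨?_, fun e => ⟨hu, e ▸ k4,
          Or.inr ⟨(es x).2 e, Or.inr (e ▸ tr_symm.2 t)⟩⟩⟩⟩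
        rintro ⟨-, k5, ⟨e, -⟩ | ⟨e, -⟩⟩
        · exact absurd (e ▸ k5) k3
        · exact (es x).1 e
    by_cases o : O u
    · refine ⟨a u, fun x => ⟨?_, fun e => ⟨hu, by rw [e, ← w1 u o t, hu], Or.inl ⟨e, Or.inl o⟩⟩⟩⟩
      rintro ⟨-, -, ⟨e, -⟩ | ⟨e, k | k⟩⟩
      · exact e
      · exact absurd (e ▸ o) (h.o1 x k)
      · exact absurd (e ▸ tr_apply.2 k) t
    · have o' : O (a.symm u) := by_contra fun k => w2 u o k t hu
      refine ⟨a.symm u, fun x => ⟨?_, fun e => ⟨hu, ?_, Or.inr ⟨(es x).2 e, Or.inl (e ▸ o')⟩⟩⟩⟩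
      · rintro ⟨-, -, ⟨-, k | k⟩ | ⟨e, -⟩⟩
        · exact absurd k o
        · exact absurd k t
        · exact (es x).1 e
      · rw [e, w1 _ o' (mt tr_symm.1 t), Equiv.apply_symm_apply, hu]
  · have key : ∀ u w, f u = 1 → f w = 1 → Ad b u w → u = a x → w = a.symm x →
        (f x = 1 ∧ O x) ∨ (f x = 1 ∧ O w) := by
      rintro _ _ hu hw k1 rfl rfl
      have t : ¬ Tr a x := fun t => h.dj _ _ t.ad k1
      by_cases o : O x
      · exact Or.inl ⟨by rw [w1 x o t, hu], o⟩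
      by_cases o' : O (a.symm x)
      · exact Or.inr ⟨by rw [← hw, w1 _ o' (mt tr_symm.1 t), Equiv.apply_symm_apply], o'⟩
      obtain ⟨⟨m, hm⟩, g, -⟩ := h.o2 x o o'
      obtain ⟨c1, c2⟩ := h.closed hm fun w hw => not_not.1 (g.resolve_left (not_not.2 k1) w hw)
      exact absurd (wA _ hu) (hX _ c1 (by simp) c2 _ (by simp [Equiv.Perm.SameCycle.refl]))
    rcases ad_iff.1 k2.symm with e | e <;> rcases ad_iff.1 k3.symm with e' | e'
    · exact absurd (e.trans e'.symm) (k1.ne h.k2)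
    · rcases key u w hu hw k1 e e' with ⟨k, o⟩ | ⟨k, o⟩
      · exact Or.inl ⟨hu, k, Or.inr ⟨e, Or.inl o⟩⟩
      · exact Or.inr ⟨hw, k, Or.inl ⟨by simp [e'], Or.inl o⟩⟩
    · rcases key w u hw hu k1.symm e' e with ⟨k, o⟩ | ⟨k, o⟩
      · exact Or.inr ⟨hw, k, Or.inr ⟨e', Or.inl o⟩⟩
      · exact Or.inl ⟨hu, k, Or.inl ⟨by simp [e], Or.inl o⟩⟩
    · exact absurd (e.trans e'.symm) (k1.ne h.k2)

variable [Fintype V] [DecidableEq V]

theorem orient2 (F : V → V → Prop) (hs : ∀ u w, F u w → F w u) (hi : ∀ u, ¬ F u u)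
    (hF : ∀ u, ∃ y z, y ≠ z ∧ ∀ w, F u w ↔ w = y ∨ w = z) :
    ∃ a : Equiv.Perm V, (∀ v, a (a v) ≠ v) ∧ ∀ u w, Ad a u w ↔ F u w := by
  classical
  let G : SimpleGraph V := ⟨F, ⟨hs⟩, ⟨hi⟩⟩
  have r1 : G.IsRegularOfDegree (2 * 1) := fun u => by
    obtain ⟨y, z, hyz, hw⟩ := hF u
    have e : G.neighborFinset u = {y, z} := by ext w; simp [G, hw]
    rw [← SimpleGraph.card_neighborFinset_eq_degree, e, Finset.card_pair hyz]
  obtain ⟨φ, hφ⟩ := petersen G Nat.one_pos r1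
  refine ⟨φ 0, fun v => hφ.2.2 v 0 0, fun u w => ⟨?_, fun k => ?_⟩⟩
  · rintro (rfl | rfl)
    · exact hφ.1 0 u
    · exact (hφ.1 0 w).symm
  · have : w ∈ G.neighborFinset u := by simpa using k
    rw [(hφ.nbr r1 u).2] at this
    obtain ⟨i | i, -, rfl⟩ := Finset.mem_image.1 this
    · exact Or.inl (by rw [Subsingleton.elim i 0]; rfl)
    · exact Or.inr (by rw [Subsingleton.elim i 0]; exact ((φ 0).apply_symm_apply u).symm)

theorem Mv.flip {a b : Equiv.Perm V} {W : V → Prop} {P Q : V → V → Prop} (hP : Mv a b W P)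
    (hQ : Mv b a W Q) (ha : ∀ v, a (a v) ≠ v) (hb : ∀ v, b (b v) ≠ v)
    (dj : ∀ u w, Ad a u w → ¬ Ad b u w) :
    ∃ a' : Equiv.Perm V, (∀ v, a' (a' v) ≠ v) ∧
      (∀ u w, Ad a' u w ↔ (Ad a u w ∧ ¬ P u w) ∨ Q u w) ∧ ∀ v, Tr a' v → Tr a v ∧ ¬ W v := by
  obtain ⟨a', h1, h2⟩ := orient2 (fun u w => (Ad a u w ∧ ¬ P u w) ∨ Q u w)
    (fun u w k => k.imp (fun k => ⟨k.1.symm, fun l => k.2 (hP.sym _ _ l)⟩) (hQ.sym u w))
    (fun u k => k.elim (fun k => k.1.ne ha rfl) fun k => (hQ.sub _ _ k).ne hb rfl) fun u => by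
      by_cases hu : W u
      · obtain ⟨p, hp⟩ := hP.ex u hu
        obtain ⟨q, hq⟩ := hQ.ex u hu
        have d : ∀ y, Ad a u y → y ≠ q := fun y k e => dj u y k (hQ.sub _ _ ((hq y).2 e))
        have n := ad_ne ha u
        rcases ad_iff.1 (hP.sub _ _ ((hp p).2 rfl)) with rfl | rfl
        · refine ⟨a.symm u, q, d _ (ad_iff.2 (Or.inr rfl)), fun w => ?_⟩
          rw [ad_iff, hp, hq]
          exact or_congr_left ⟨fun k => k.1.resolve_left k.2, fun k => ⟨Or.inr k, k ▸ n.symm⟩⟩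
        · refine ⟨a u, q, d _ (Or.inl rfl), fun w => ?_⟩
          rw [ad_iff, hp, hq]
          exact or_congr_left ⟨fun k => k.1.resolve_right k.2, fun k => ⟨Or.inl k, k ▸ n⟩⟩
      · exact ⟨a u, a.symm u, ad_ne ha u, fun w => ⟨fun k => k.elim (fun k => ad_iff.1 k.1)
          fun k => absurd (hQ.mem _ _ k) hu, fun k => Or.inl ⟨ad_iff.2 k,
            fun l => hu (hP.mem _ _ l)⟩⟩⟩
  refine ⟨a', h1, h2, fun v t => ?_⟩
  have key : ∀ u w x, Ad a' u w → Ad a' u x → Ad a' w x → Ad a u w ∧ ¬ P u w := by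
    intro u w x k1 k2 k3
    refine ((h2 u w).1 k1).resolve_right fun q => ?_
    have q' := hQ.sym _ _ q
    obtain ⟨p, hp⟩ := hQ.ex u (hQ.mem _ _ q)
    obtain ⟨p', hp'⟩ := hQ.ex w (hQ.mem _ _ q')
    have l2 := ((h2 u x).1 k2).resolve_right fun l =>
      k3.ne h1 (((hp w).1 q).trans ((hp x).1 l).symm)
    have l3 := ((h2 w x).1 k3).resolve_right fun l =>
      k2.ne h1 (((hp' u).1 q').trans ((hp' x).1 l).symm)
    exact (hP.cc u w x (hQ.mem _ _ q) (hQ.mem _ _ q') (hQ.sub _ _ q) l2.1 l3.1).elim l2.2 l3.2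
  have e1 : Ad a' v (a' v) := Or.inl rfl
  have e2 : Ad a' v (a'.symm v) := ad_iff.2 (Or.inr rfl)
  have e3 := t.ad
  have n := ad_ne h1 v
  obtain ⟨k1, l1⟩ := key _ _ _ e1 e2 e3
  obtain ⟨k2, l2⟩ := key _ _ _ e2 e1 e3.symm
  obtain ⟨k3, -⟩ := key _ _ _ e3 e1.symm e2.symm
  generalize a' v = y at *
  generalize a'.symm v = z at *
  constructor
  · have t1 : Ad a (a v) (a.symm v) := by
      rcases ad_iff.1 k1 with rfl | rfl <;> rcases ad_iff.1 k2 with rfl | rfl
      · exact absurd rfl n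
      · exact k3
      · exact k3.symm
      · exact absurd rfl n
    rcases ad_iff.1 t1 with e | e
    · change a (a (a v)) = v
      rw [← e]; simp
    · exact absurd (by rw [← a.symm.injective e, ← a.symm.injective e]) (ha v)
  · intro hv
    obtain ⟨p, hp⟩ := hP.ex v hv
    rcases ad_two k1 k2 n (hP.sub _ _ ((hp p).2 rfl)) with e | e
    · exact l1 ((hp _).2 e.symm)
    · exact l2 ((hp _).2 e.symm)

/-- Two edge-disjoint 2-factors. -/
def Pr (a b : Equiv.Perm V) : Prop :=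
  (∀ v, a (a v) ≠ v) ∧ (∀ v, b (b v) ≠ v) ∧ ∀ u w, Ad a u w → ¬ Ad b u w

/-- The number of odd cycles of length at least five. -/
noncomputable def oddc (a : Equiv.Perm V) : ℕ := (otype a.symm).countP fun x => x % 2 = 1 ∧ 5 ≤ x

open Classical in
theorem improve {a b : Equiv.Perm V} (h : Pr a b)
    (hn : 3 * (oddc a + oddc b) < #{v | Tr a v} + #{v | Tr b v}) :
    ∃ a' b', Pr a' b' ∧ (∀ u w, Ad a' u w ∨ Ad b' u w → Ad a u w ∨ Ad b u w) ∧
      #{v | Tr a' v} + #{v | Tr b' v} < #{v | Tr a v} + #{v | Tr b v} := by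
  obtain ⟨ha, hb, dj⟩ := h
  unfold oddc at hn
  have dj' : ∀ u w, Ad b u w → ¬ Ad a u w := fun u w k l => dj u w l k
  obtain ⟨O, o1, o2⟩ := exists_marks a fun x => ¬ Ad b (a x) (a.symm x)
  obtain ⟨Q, q1, q2⟩ := exists_marks b fun x => ¬ Ad a (b x) (b.symm x)
  have sa : Sd a b O := ⟨ha, hb, dj, o1, o2⟩
  have sb : Sd b a Q := ⟨hb, ha, dj', q1, q2⟩
  let A : V → Prop := fun v => ∀ S : V → Prop, (∀ v, S v → ¬ Tr a v ∧ ¬ Tr b v) →
    (∀ v, O v → (S v ↔ S (a v))) → (∀ v, Q v → (S v ↔ S (b v))) → ¬ S v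
  have a1 : ∀ v, O v → (A v ↔ A (a v)) := fun v k =>
    ⟨fun l S s1 s2 s3 m => l S s1 s2 s3 ((s2 v k).2 m), fun l S s1 s2 s3 m => l S s1 s2 s3 ((s2 v k).1 m)⟩
  have a2 : ∀ v, Q v → (A v ↔ A (b v)) := fun v k =>
    ⟨fun l S s1 s2 s3 m => l S s1 s2 s3 ((s3 v k).2 m), fun l S s1 s2 s3 m => l S s1 s2 s3 ((s3 v k).1 m)⟩
  have t1 : ∀ v, Tr a v → A v := fun v k S s1 _ _ m => (s1 v m).1 k
  have t2 : ∀ v, Tr b v → A v := fun v k S s1 _ _ m => (s1 v m).2 k
  have c1 := sa.count {v | A v} (by simpa using a1) (by simpa using t1)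
  have c2 := sb.count {v | A v} (by simpa using a2) (by simpa using t2)
  obtain ⟨f, ⟨v0, hv0⟩, f0, f1, f2⟩ := kernel {v | A v} _ _ (show
    #{v ∈ ({v | A v} : Finset V) | (O v ∧ ¬ Tr a v) ∨ (¬ O v ∧ ¬ O (a.symm v))} +
    #{v ∈ ({v | A v} : Finset V) | (Q v ∧ ¬ Tr b v) ∨ (¬ Q v ∧ ¬ Q (b.symm v))} < _ by omega)
    (cf a O) (cf b Q) (cf_sub a O) (cf_sub b Q)
  simp only [mem_filter, mem_univ, true_and, and_imp] at f0 f1 f2
  obtain ⟨w1, P, hP⟩ := sa.mv f A a1 t1 f0 f1 fun S s1 s2 s3 v m l =>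
    l S s1 (fun v _ => s2 v) (fun v _ => s3 v) m
  obtain ⟨w2, R, hR⟩ := sb.mv f A a2 t2 f0 f2 fun S s1 s2 s3 v m l =>
    l S (fun v k => (s1 v k).symm) (fun v _ => s3 v) (fun v _ => s2 v) m
  obtain ⟨a', k1, k2, k3⟩ := hP.flip hR ha hb dj
  obtain ⟨b', l1, l2, l3⟩ := hR.flip hP hb ha dj'
  refine ⟨a', b', ⟨k1, l1, fun u w k l => ?_⟩, fun u w k => ?_, ?_⟩
  · rcases (k2 u w).1 k with k | k <;> rcases (l2 u w).1 l with l | l
    · exact dj u w k.1 l.1
    · exact k.2 l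
    · exact l.2 k
    · exact dj u w (hP.sub _ _ l) (hR.sub _ _ k)
  · rw [k2, l2] at k
    rcases k with (k | k) | k | k
    · exact Or.inl k.1
    · exact Or.inr (hR.sub _ _ k)
    · exact Or.inr k.1
    · exact Or.inl (hP.sub _ _ k)
  have m1 : ({v | Tr a' v} : Finset V) ⊆ ({v | Tr a v} : Finset V) := fun v => by
    simpa using fun k => (k3 v k).1
  have m2 : ({v | Tr b' v} : Finset V) ⊆ ({v | Tr b v} : Finset V) := fun v => by
    simpa using fun k => (l3 v k).1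
  obtain ⟨v, hv, t⟩ : ∃ v, f v = 1 ∧ (Tr a v ∨ Tr b v) := by
    by_contra! hc
    have z : ∀ p : ZMod 2, p ≠ 0 → p = 1 := by decide
    refine hv0 (f0 v0 fun k => k (fun v => f v = 1) hc (fun v o => ?_) (fun v o => ?_) (z _ hv0))
    · by_cases t : Tr a v
      · exact iff_of_false (fun k => (hc v k).1 t) fun k => (hc _ k).1 (tr_apply.2 t)
      · rw [w1 v o t]
    · by_cases t : Tr b v
      · exact iff_of_false (fun k => (hc v k).2 t) fun k => (hc _ k).2 (tr_apply.2 t)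
      · rw [w2 v o t]
  rcases t with t | t
  · exact Nat.add_lt_add_of_lt_of_le (card_lt_card ((ssubset_iff_of_subset m1).2
      ⟨v, by simpa using t, by simpa using fun k => (k3 v k).2 hv⟩)) (card_le_card m2)
  · exact Nat.add_lt_add_of_le_of_lt (card_le_card m1) (card_lt_card ((ssubset_iff_of_subset m2).2
      ⟨v, by simpa using t, by simpa using fun k => (l3 v k).2 hv⟩))

open Classical in
theorem few {G : SimpleGraph V} : ∀ (N : ℕ) (a b : Equiv.Perm V), Pr a b →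
    (∀ u w, Ad a u w ∨ Ad b u w → G.Adj u w) → #{v | Tr a v} + #{v | Tr b v} < N →
    ∃ c : Equiv.Perm V, (∀ v, c (c v) ≠ v) ∧ (∀ u w, Ad c u w → G.Adj u w) ∧
      #{v | Tr c v} ≤ 3 * oddc c
  | 0, _, _, _, _, h => absurd h (Nat.not_lt_zero _)
  | N + 1, a, b, h, g, hN => by
    by_cases hn : 3 * (oddc a + oddc b) < #{v | Tr a v} + #{v | Tr b v}
    · obtain ⟨a', b', k1, k2, k3⟩ := improve h hn
      exact few N a' b' k1 (fun u w k => g u w (k2 u w k)) (by omega)
    rcases le_or_gt #{v | Tr a v} (3 * oddc a) with l | l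
    · exact ⟨a, h.1, fun u w k => g u w (Or.inl k), l⟩
    · exact ⟨b, h.2.1, fun u w k => g u w (Or.inr k), by omega⟩

/-- A 2-factor extends to a decomposition. -/
theorem extend0 {G : SimpleGraph V} [DecidableRel G.Adj] {t : ℕ} (ht : 0 < t)
    (hG : G.IsRegularOfDegree (2 * (t + 1))) {a : Equiv.Perm V} (ha : ∀ v, a (a v) ≠ v)
    (hle : ∀ u w, Ad a u w → G.Adj u w) :
    ∃ σ : Fin (t + 1) → Equiv.Perm V, Factors G σ ∧ σ 0 = a := by
  classical
  let F : SimpleGraph V := ⟨Ad a, ⟨fun _ _ => Ad.symm⟩, ⟨fun _ k => k.ne ha rfl⟩⟩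
  have r2 : (G \ F).IsRegularOfDegree (2 * t) := fun u => by
    have e : (G \ F).neighborFinset u = G.neighborFinset u \ {a u, a.symm u} := by
      ext w; simp [F, ad_iff]
    rw [← SimpleGraph.card_neighborFinset_eq_degree, e, Finset.card_sdiff_of_subset fun w hw => by
      simpa using hle u w (ad_iff.2 (by simpa using hw)), SimpleGraph.card_neighborFinset_eq_degree,
      hG u, card_pair (ad_ne ha u)]
    omega
  obtain ⟨σ, hσ⟩ := petersen (G \ F) ht r2
  refine ⟨Fin.cons a σ, ⟨fun i v => ?_, fun v i j => ?_, fun v i j => ?_⟩, rfl⟩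
  · refine Fin.cases ?_ (fun i => ?_) i
    · exact hle _ _ (Or.inl rfl)
    · exact (hσ.1 i v).1
  · refine Fin.cases ?_ (fun i => ?_) i <;> refine Fin.cases ?_ (fun j => ?_) j
    · intro _; rfl
    · intro k; exact absurd (Or.inl k.symm) (hσ.1 j v).2
    · intro k; exact absurd (Or.inl k) (hσ.1 i v).2
    · intro k; rw [hσ.2.1 v i j k]
  · refine Fin.cases ?_ (fun i => ?_) i <;> refine Fin.cases ?_ (fun j => ?_) j
    · exact ha v
    · intro k; exact (hσ.1 j v).2 (Or.inr k.symm)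
    · intro k
      have := (hσ.1 i (a v)).2
      rw [show σ i (a v) = v from k] at this
      exact this (Or.inr rfl)
    · exact hσ.2.2 v i j

open Classical in
theorem count_three (a : Equiv.Perm V) : 3 * (otype a.symm).count 3 ≤ #{v | Tr a v} := by
  have e : #(({o | 3 = olen a.symm o} : Finset (Orb a.symm)).sigma
      fun o => (univ : Finset (Fin (olen a.symm o)))) = 3 * (otype a.symm).count 3 := by
    rw [card_sigma, sum_congr rfl fun o ho => (show #(univ : Finset (Fin (olen a.symm o))) = 3 by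
      rw [card_fin, ← (mem_filter.1 ho).2]), sum_const, smul_eq_mul, mul_comm, otype,
      Multiset.count_map]
    rfl
  rw [← e]
  refine card_le_card_of_injOn (opt a.symm) (fun p hp => ?_) (opt_bij a.symm).1.injOn
  obtain ⟨o, j⟩ := p
  have h0 : 3 = olen a.symm o := (mem_filter.1 (mem_sigma.1 (mem_coe.1 hp)).1).2
  have h1 : a.symm^[olen a.symm o] (a.symm^[j] o.out) = a.symm^[j] o.out := by
    rw [← Function.iterate_add_apply, add_comm, Function.iterate_add_apply]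
    exact congrArg _ Function.iterate_minimalPeriod
  refine mem_coe.2 (mem_filter.2 ⟨mem_univ _, ?_⟩)
  change a (a (a (a.symm^[j] o.out))) = a.symm^[j] o.out
  generalize a.symm^[j] o.out = w at h1
  rw [← h0] at h1
  conv_lhs => rw [← h1]
  simp

/-- A decomposition whose first factor has few triangles. -/
theorem refactorO {G : SimpleGraph V} [DecidableRel G.Adj] {t : ℕ} (ht : 1 < t)
    (hG : G.IsRegularOfDegree (2 * t)) : ∃ σ : Fin t → Equiv.Perm V, Factors G σ ∧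
      (otype (σ ⟨0, by omega⟩).symm).count 3 ≤ oddc (σ ⟨0, by omega⟩) := by
  obtain ⟨t, rfl⟩ : ∃ s, t = s + 2 := ⟨t - 2, by omega⟩
  obtain ⟨σ, hσ⟩ := petersen G (by omega) hG
  have g : ∀ i u w, Ad (σ i) u w → G.Adj u w := by
    rintro i u w (rfl | rfl)
    · exact hσ.1 _ _
    · exact (hσ.1 _ _).symm
  obtain ⟨c, c1, c2, c3⟩ := few (G := G) _ (σ 0) (σ 1) ⟨fun v => hσ.2.2 v 0 0, fun v => hσ.2.2 v 1 1,
    fun u w k l => by
      rcases k with rfl | rfl <;> rcases l with l | l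
      · exact absurd (hσ.2.1 _ _ _ l) (by simp)
      · exact hσ.2.2 _ _ _ l.symm
      · exact hσ.2.2 _ _ _ l.symm
      · exact absurd (hσ.2.1 _ _ _ l) (by simp)⟩
    (fun u w k => k.elim (g 0 u w) (g 1 u w)) (Nat.lt_succ_self _)
  obtain ⟨τ, k1, k2⟩ := extend0 (t := t + 1) (by omega) hG c1 c2
  refine ⟨τ, k1, ?_⟩
  have := count_three c
  rw [Fin.zero_eta, k2]
  omega

end Pool.Agent.MP_29e935_co.Six

end
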