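import Pool.Agent.Mg.F29e935p.G945edc
import Pool.Agent.Mg.F29e935p.Gda6414
import Pool.Agent.Mg.F29e935p.G0d1dd6
import Pool.Agent.Mg.F29e935p.G3960c8
import Pool.Agent.Mg.F29e935p.Gda7ce1
import Pool.Agent.MP_29e935_co.SixTab
import Pool.Agent.Mg.F29e935p.G01d316
import Pool.Agent.MP_29e935_co.SvX0
import Pool.Agent.MP_29e935_co.SvX1
import Pool.Agent.MP_29e935_co.SvX2
import Pool.Agent.MP_29e935_co.SvX3
import Pool.Agent.MP_29e935_co.SvX4
import Pool.Agent.MP_29e935_co.SvX6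
import Pool.Agent.MP_29e935_co.SvX7
import Pool.Agent.MP_29e935_co.SvC0
import Pool.Agent.MP_29e935_co.SvC1
import Pool.Agent.MP_29e935_co.SvC2
import Pool.Agent.MP_29e935_co.SvC3

section

/-!
Reduction of the whole statement to mirror labelings of unions of cycles with few triangles.
-/

set_option autoImplicit false

namespace Pool.Agent.MP_29e935_co.Six

open Pool.Agent.MP_29e935_co.Two Pool.Agent.MP_29e935_co.Four Finset

/-- Mirror labelings exist when there are few triangles. -/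
def MirB : Prop :=
  ∀ M : Multiset ℕ, (∀ x ∈ M, 3 ≤ x) → 7 ≤ M.sum → 8 * M.count 3 ≤ M.sum → M ≠ {3, 5} → Mir M

/-- Mirror labelings exist when there are at most as many triangles as longer odd cycles. -/
def MirC : Prop :=
  ∀ M : Multiset ℕ, (∀ x ∈ M, 3 ≤ x) → 7 ≤ M.sum →
    M.count 3 ≤ M.countP (fun x => x % 2 = 1 ∧ 5 ≤ x) → M ≠ {3, 5} → Mir M

theorem MirB.mirC (H : MirB) : MirC := fun M h1 h2 h3 h4 => H M h1 h2 (by
  have : ∀ N : Multiset ℕ, 3 * N.count 3 + 5 * N.countP (fun x => x % 2 = 1 ∧ 5 ≤ x) ≤ N.sum :=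
    fun N => by
      induction N using Multiset.induction_on with
      | empty => simp
      | cons a N ih =>
        rw [Multiset.count_cons, Multiset.countP_cons, Multiset.sum_cons]
        split_ifs <;> omega
  have := this M
  omega) h4

theorem six_regularC (H : MirC) (V : Type) [Fintype V] [DecidableEq V] (G : SimpleGraph V)
    [DecidableRel G.Adj] {r : ℕ} (h0 : 2 < r) (h4 : r % 4 = 2) (hG : G.IsRegularOfDegree r) :
    ∃ (h : V → ℕ) (g : Sym2 V → ℕ) (k : ℕ),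
      Function.Injective h ∧ Set.InjOn g G.edgeSet ∧
      (∀ v, ∀ e ∈ G.edgeSet, h v ≠ g e) ∧
      (∀ v, 1 ≤ h v ∧ h v ≤ Fintype.card V + Fintype.card G.edgeSet) ∧
      (∀ e ∈ G.edgeSet, 1 ≤ g e ∧ g e ≤ Fintype.card V + Fintype.card G.edgeSet) ∧
      ∀ v, h v + ∑ w ∈ G.neighborFinset v, g s(v, w) = k := by
  obtain ⟨u, rfl⟩ : ∃ u, r = 2 * (2 * u + 1) := ⟨r / 4, by omega⟩
  have ht : 0 < 2 * u + 1 := by omega
  rcases isEmpty_or_nonempty V with hV | ⟨⟨v0⟩⟩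
  · obtain ⟨σ, hσ⟩ := petersen G ht hG
    exact chain ht hG hσ (fun _ _ => 0) (fun _ => 0) (fun v => isEmptyElim v)
      (fun _ _ _ v => isEmptyElim v) (fun _ _ _ _ v => isEmptyElim v) fun _ _ v => isEmptyElim v
  obtain ⟨σ, hσ, hx⟩ := refactorO (show 1 < 2 * u + 1 by omega) hG
  have h3 : ∀ v, (σ ⟨0, ht⟩).symm ((σ ⟨0, ht⟩).symm v) ≠ v := fun v h => by
    apply hσ.2.2 v ⟨0, ht⟩ ⟨0, ht⟩
    conv_lhs => rw [← h]
    simp
  have hn := G.degree_lt_card_verts v0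
  rw [hG v0, ← otype_sum (σ ⟨0, ht⟩).symm] at hn
  unfold oddc at hx
  refine GT.vmtl ht hG hσ ?_
  have h5 := otype_three _ h3
  generalize otype (σ ⟨0, ht⟩).symm = M at hn hx h5
  by_cases e2 : M = {3, 5}
  · subst e2
    obtain rfl : u = 1 := by simp at hn; omega
    exact gt_get 1
  exact (H M h5 (by omega) hx e2).gt u

/-- The whole statement from the mirror labelings. -/
theorem all_regular (H : MirC) (V : Type) [Fintype V] [DecidableEq V] (G : SimpleGraph V)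
    [DecidableRel G.Adj] (r : ℕ) (h1 : 1 < r) (hG : G.IsRegularOfDegree r)
    (hne : ¬ (r = 2 ∧ Fintype.card V = 6 ∧ ¬ G.Connected)) :
    ∃ (h : V → ℕ) (g : Sym2 V → ℕ) (k : ℕ),
      Function.Injective h ∧ Set.InjOn g G.edgeSet ∧
      (∀ v, ∀ e ∈ G.edgeSet, h v ≠ g e) ∧
      (∀ v, 1 ≤ h v ∧ h v ≤ Fintype.card V + Fintype.card G.edgeSet) ∧
      (∀ e ∈ G.edgeSet, 1 ≤ g e ∧ g e ≤ Fintype.card V + Fintype.card G.edgeSet) ∧
      ∀ v, h v + ∑ w ∈ G.neighborFinset v, g s(v, w) = k := by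
  by_cases ho : r % 2 = 1
  · exact hasVMTL_odd G hG (Nat.odd_iff.2 ho) h1
  by_cases h4 : r % 4 = 0
  · exact four_regular V G (by omega) h4 hG
  by_cases h2 : r = 2
  · subst h2
    exact two_regular V G hG fun k => hne ⟨rfl, k⟩
  · exact six_regularC H V G (by omega) (by omega) hG

end Pool.Agent.MP_29e935_co.Six

end

section

/-!
A further re-choice: the first factor has few triangles and is not a union of 4-cycles.
-/

set_option autoImplicit false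

namespace Pool.Agent.MP_29e935_co.Six

open Pool.Agent.MP_29e935_co.Two Pool.Agent.MP_29e935_co.Four Finset

variable {V : Type}

/-- All cycles have length dividing four. -/
def Q4 (a : Equiv.Perm V) : Prop := ∀ v, a (a (a (a v))) = v

open Classical in
/-- The perfect matching of a union of even cycles given by a colouring. -/
noncomputable def mt (a : Equiv.Perm V) (O : V → Prop) (v : V) : V := if O v then a v else a.symm v

theorem mt_mt {a : Equiv.Perm V} {O : V → Prop} (h : ∀ v, O (a v) ↔ ¬ O v) (v : V) :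
    mt a O (mt a O v) = v := by
  unfold mt
  by_cases o : O v
  · rw [if_pos o, if_neg fun k => (h v).1 k o, Equiv.symm_apply_apply]
  · have := h (a.symm v)
    rw [Equiv.apply_symm_apply] at this
    rw [if_neg o, if_pos (by tauto), Equiv.apply_symm_apply]

theorem mt_ad (a : Equiv.Perm V) (O : V → Prop) (v : V) : Ad a v (mt a O v) := by
  unfold mt
  split_ifs
  · exact Or.inl rfl
  · exact ad_iff.2 (Or.inr rfl)

theorem exists_col [Finite V] {a : Equiv.Perm V} (ha : ∀ v, a (a v) ≠ v) (h4 : Q4 a) :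
    ∃ O : V → Prop, ∀ v, O (a v) ↔ ¬ O v := by
  obtain ⟨O, o1, o2⟩ := exists_marks a fun _ => True
  refine ⟨O, fun v => ⟨fun k l => o1 v l k, fun k => by_contra fun l => ?_⟩⟩
  obtain ⟨⟨m, hm⟩, -⟩ := o2 (a v) l (by simpa using k)
  have h1 := half_pow hm (Equiv.Perm.SameCycle.refl a _) 2 (h4 (a v))
  exact ha (a v) h1

variable [Fintype V] [DecidableEq V]

theorem two_match {p q : V → V} (hp : ∀ v, p (p v) = v) (hq : ∀ v, q (q v) = v)
    (h1 : ∀ v, p v ≠ v) (h2 : ∀ v, q v ≠ v) (h3 : ∀ v, p v ≠ q v) :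
    ∃ c : Equiv.Perm V, (∀ v, c (c v) ≠ v) ∧ (∀ u w, Ad c u w → w = p u ∨ w = q u) ∧
      (∀ v, ¬ Tr c v) ∧ (Q4 c → ∀ v, p (q v) = q (p v)) := by
  obtain ⟨c, c1, c2⟩ := orient2 (fun u w => w = p u ∨ w = q u)
    (fun u w k => k.imp (fun k => by rw [k, hp]) fun k => by rw [k, hq])
    (fun u k => k.elim (fun k => h1 u k.symm) fun k => h2 u k.symm)
    fun u => ⟨p u, q u, h3 u, fun _ => Iff.rfl⟩
  have c3 : ∀ v, c v = p v ∨ c v = q v := fun v => (c2 v _).1 (Or.inl rfl)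
  have s1 : ∀ v, c v = p v → c (c v) = q (c v) := fun v k =>
    (c3 (c v)).resolve_left fun l => c1 v (by rw [l, k, hp])
  have s2 : ∀ v, c v = q v → c (c v) = p (c v) := fun v k =>
    (c3 (c v)).resolve_right fun l => c1 v (by rw [l, k, hq])
  refine ⟨c, c1, fun u w => (c2 u w).1, fun v t => ?_, fun k v => ?_⟩
  · have t' : c (c (c v)) = v := t
    rcases c3 v with e | e
    · have e3 := s1 _ (s2 _ (s1 v e))
      rw [t'] at e3
      exact h3 v (e.symm.trans e3)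
    · have e3 := s2 _ (s1 _ (s2 v e))
      rw [t'] at e3
      exact h3 v (e3.symm.trans e)
  · have k4 := k v
    rcases c3 v with e | e
    · have e1 := s1 v e
      have e2 := s2 _ e1
      have e3 := s1 _ e2
      rw [e3, e2, e1, e] at k4
      conv_lhs => rw [← k4]
      rw [hq, hp]
    · have e1 := s2 v e
      have e2 := s1 _ e1
      have e3 := s2 _ e2
      rw [e3, e2, e1, e] at k4
      conv_rhs => rw [← k4]
      rw [hp, hq]

theorem both_four {a b : Equiv.Perm V} (h : Pr a b) (ha : Q4 a) (hb : Q4 b) (v : V) :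
    ∃ c : Equiv.Perm V, (∀ v, c (c v) ≠ v) ∧ (∀ u w, Ad c u w → Ad a u w ∨ Ad b u w) ∧
      (∀ v, ¬ Tr c v) ∧ ¬ Q4 c := by
  obtain ⟨a2, b2, dj⟩ := h
  obtain ⟨O, hO⟩ := exists_col a2 ha
  obtain ⟨Q, hQ, hv⟩ : ∃ Q : V → Prop, (∀ v, Q (b v) ↔ ¬ Q v) ∧ mt b Q v ≠ a (a v) := by
    obtain ⟨Q, hQ⟩ := exists_col b2 hb
    by_cases k : mt b Q v = a (a v)
    · refine ⟨fun v => ¬ Q v, fun v => not_congr (hQ v), fun l => ?_⟩
      rw [← k] at l
      unfold mt at l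
      have := ad_ne b2 v
      by_cases o : Q v <;> simp [o] at l
      · exact this l.symm
      · exact this l
    · exact ⟨Q, hQ, k⟩
  have key : ∀ P : V → Prop, (∀ v, P (a v) ↔ ¬ P v) →
      (∃ c : Equiv.Perm V, (∀ v, c (c v) ≠ v) ∧ (∀ u w, Ad c u w → Ad a u w ∨ Ad b u w) ∧
        (∀ v, ¬ Tr c v) ∧ ¬ Q4 c) ∨ mt a P (mt b Q v) = mt b Q (mt a P v) := by
    intro P hP
    obtain ⟨c, c1, c2, c3, c4⟩ := two_match (mt_mt hP) (mt_mt hQ)
      (fun v => ((mt_ad a P v).ne a2).symm) (fun v => ((mt_ad b Q v).ne b2).symm)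
      fun v k => dj _ _ (mt_ad a P v) (k ▸ mt_ad b Q v)
    by_cases k : Q4 c
    · exact Or.inr (c4 k v)
    · refine Or.inl ⟨c, c1, fun u w l => ?_, c3, k⟩
      rcases c2 u w l with rfl | rfl
      · exact Or.inl (mt_ad _ _ _)
      · exact Or.inr (mt_ad _ _ _)
  have hu := mt_ad b Q v
  generalize mt b Q v = u at hv hu key
  let S : V → Prop := fun w => w = u ∨ w = a u ∨ w = a (a u) ∨ w = a (a (a u))
  have s1 : ∀ w, S (a w) ↔ S w := fun w => by
    have e : a w = u ↔ w = a (a (a u)) := by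
      conv_lhs => rw [← ha u]
      exact a.injective.eq_iff
    simp only [S, e, a.injective.eq_iff]
    tauto
  have s2 : ¬ S v := by
    rintro (e | e | e | e)
    · exact hu.ne b2 e
    · exact dj _ _ (Or.inr e) hu
    · exact hv (by rw [e, ha])
    · exact dj _ _ (Or.inl (by rw [e, ha])) hu
  rcases key O hO with k | k1
  · exact k
  rcases key (fun w => O w ↔ ¬ S w) (fun w => by rw [hO, s1]; tauto) with k | k2
  · exact k
  exfalso
  have e1 : mt a (fun w => O w ↔ ¬ S w) v = mt a O v := by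
    unfold mt
    by_cases o : O v <;> simp [o, s2]
  rw [e1, ← k1] at k2
  have s3 : S u := Or.inl rfl
  have := ad_ne a2 u
  unfold mt at k2
  by_cases o : O u <;> simp [o, s3] at k2
  · exact this k2.symm
  · exact this k2

theorem q4_of_otype {a : Equiv.Perm V} (h : ∀ x ∈ otype a.symm, x = 4) : Q4 a := by
  intro v
  obtain ⟨⟨o, j⟩, rfl⟩ := (opt_bij a.symm).2 v
  have h1 : a.symm^[olen a.symm o] o.out = o.out := Function.iterate_minimalPeriod
  rw [h _ (Multiset.mem_map_of_mem _ (mem_univ o))] at h1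
  have h2 : a.symm^[4] (a.symm^[j] o.out) = a.symm^[j] o.out := by
    rw [← Function.iterate_add_apply, add_comm, Function.iterate_add_apply, h1]
  change a (a (a (a (a.symm^[j] o.out)))) = a.symm^[j] o.out
  generalize a.symm^[j] o.out = w at h2
  conv_lhs => rw [← h2]
  simp

open Classical in
theorem q4_zero {a : Equiv.Perm V} (ha : ∀ v, a (a v) ≠ v) (h : Q4 a) :
    #{v | Tr a v} = 0 ∧ oddc a = 0 := by
  constructor
  · refine card_eq_zero.2 (filter_eq_empty_iff.2 fun v _ t => ?_)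
    have t' : a (a (a v)) = v := t
    have h1 := h v
    rw [t'] at h1
    exact ha v (by rw [h1, h1])
  · refine Multiset.countP_eq_zero.2 fun x hx k => ?_
    obtain ⟨o, -, rfl⟩ := Multiset.mem_map.1 hx
    have k2 : Function.IsPeriodicPt a.symm 4 o.out := by
      change a.symm (a.symm (a.symm (a.symm o.out))) = o.out
      conv_lhs => rw [← h o.out]
      simp
    have k3 : olen a.symm o ≤ 4 := Nat.le_of_dvd (by norm_num) k2.minimalPeriod_dvd
    omega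

open Classical in
theorem fewD {G : SimpleGraph V} (v : V) : ∀ (N : ℕ) (a b : Equiv.Perm V), Pr a b →
    (∀ u w, Ad a u w ∨ Ad b u w → G.Adj u w) → #{v | Tr a v} + #{v | Tr b v} < N →
    ∃ c : Equiv.Perm V, (∀ v, c (c v) ≠ v) ∧ (∀ u w, Ad c u w → G.Adj u w) ∧
      #{v | Tr c v} ≤ 3 * oddc c ∧ ¬ Q4 c
  | 0, _, _, _, _, h => absurd h (Nat.not_lt_zero _)
  | N + 1, a, b, h, g, hN => by
    by_cases hn : 3 * (oddc a + oddc b) < #{v | Tr a v} + #{v | Tr b v}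
    · obtain ⟨a', b', k1, k2, k3⟩ := improve h hn
      exact fewD v N a' b' k1 (fun u w k => g u w (k2 u w k)) (by omega)
    by_cases qa : Q4 a <;> by_cases qb : Q4 b
    · obtain ⟨c, c1, c2, c3, c4⟩ := both_four h qa qb v
      refine ⟨c, c1, fun u w k => g u w (c2 u w k), ?_, c4⟩
      rw [card_eq_zero.2 (filter_eq_empty_iff.2 fun v _ => c3 v)]
      exact Nat.zero_le _
    · have := q4_zero h.1 qa
      exact ⟨b, h.2.1, fun u w k => g u w (Or.inr k), by omega, qb⟩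
    · have := q4_zero h.2.1 qb
      exact ⟨a, h.1, fun u w k => g u w (Or.inl k), by omega, qa⟩
    rcases le_or_gt #{v | Tr a v} (3 * oddc a) with l | l
    · exact ⟨a, h.1, fun u w k => g u w (Or.inl k), l, qa⟩
    · exact ⟨b, h.2.1, fun u w k => g u w (Or.inr k), by omega, qb⟩

theorem refactorD {G : SimpleGraph V} [DecidableRel G.Adj] {t : ℕ} (ht : 1 < t)
    (hG : G.IsRegularOfDegree (2 * t)) (v : V) : ∃ σ : Fin t → Equiv.Perm V, Factors G σ ∧
      (otype (σ ⟨0, by omega⟩).symm).count 3 ≤ oddc (σ ⟨0, by omega⟩) ∧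
      ∃ x ∈ otype (σ ⟨0, by omega⟩).symm, x ≠ 4 := by
  obtain ⟨t, rfl⟩ : ∃ s, t = s + 2 := ⟨t - 2, by omega⟩
  obtain ⟨σ, hσ⟩ := petersen G (by omega) hG
  have g : ∀ i u w, Ad (σ i) u w → G.Adj u w := by
    rintro i u w (rfl | rfl)
    · exact hσ.1 _ _
    · exact (hσ.1 _ _).symm
  obtain ⟨c, c1, c2, c3, c4⟩ := fewD (G := G) v _ (σ 0) (σ 1)
    ⟨fun v => hσ.2.2 v 0 0, fun v => hσ.2.2 v 1 1, fun u w k l => by
      rcases k with rfl | rfl <;> rcases l with l | l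
      · exact absurd (hσ.2.1 _ _ _ l) (by simp)
      · exact hσ.2.2 _ _ _ l.symm
      · exact hσ.2.2 _ _ _ l.symm
      · exact absurd (hσ.2.1 _ _ _ l) (by simp)⟩
    (fun u w k => k.elim (g 0 u w) (g 1 u w)) (Nat.lt_succ_self _)
  obtain ⟨τ, k1, k2⟩ := extend0 (t := t + 1) (by omega) hG c1 c2
  refine ⟨τ, k1, ?_⟩
  have := count_three c
  rw [Fin.zero_eta, k2]
  refine ⟨by omega, by_contra fun k => c4 (q4_of_otype fun x hx => by_contra fun l => k ⟨x, hx, l⟩)⟩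

/-- Mirror labelings exist when there are at most as many triangles as longer odd cycles and
not all cycles have length four. -/
def MirD : Prop :=
  ∀ M : Multiset ℕ, (∀ x ∈ M, 3 ≤ x) → 7 ≤ M.sum →
    M.count 3 ≤ M.countP (fun x => x % 2 = 1 ∧ 5 ≤ x) → (∃ x ∈ M, x ≠ 4) → M ≠ {3, 5} → Mir M

theorem six_regularD (H : MirD) (V : Type) [Fintype V] [DecidableEq V] (G : SimpleGraph V)
    [DecidableRel G.Adj] {r : ℕ} (h0 : 2 < r) (h4 : r % 4 = 2) (hG : G.IsRegularOfDegree r) :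
    ∃ (h : V → ℕ) (g : Sym2 V → ℕ) (k : ℕ),
      Function.Injective h ∧ Set.InjOn g G.edgeSet ∧
      (∀ v, ∀ e ∈ G.edgeSet, h v ≠ g e) ∧
      (∀ v, 1 ≤ h v ∧ h v ≤ Fintype.card V + Fintype.card G.edgeSet) ∧
      (∀ e ∈ G.edgeSet, 1 ≤ g e ∧ g e ≤ Fintype.card V + Fintype.card G.edgeSet) ∧
      ∀ v, h v + ∑ w ∈ G.neighborFinset v, g s(v, w) = k := by
  obtain ⟨u, rfl⟩ : ∃ u, r = 2 * (2 * u + 1) := ⟨r / 4, by omega⟩
  have ht : 0 < 2 * u + 1 := by omega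
  rcases isEmpty_or_nonempty V with hV | ⟨⟨v0⟩⟩
  · obtain ⟨σ, hσ⟩ := petersen G ht hG
    exact chain ht hG hσ (fun _ _ => 0) (fun _ => 0) (fun v => isEmptyElim v)
      (fun _ _ _ v => isEmptyElim v) (fun _ _ _ _ v => isEmptyElim v) fun _ _ v => isEmptyElim v
  obtain ⟨σ, hσ, hx, hy⟩ := refactorD (show 1 < 2 * u + 1 by omega) hG v0
  have h3 : ∀ v, (σ ⟨0, ht⟩).symm ((σ ⟨0, ht⟩).symm v) ≠ v := fun v h => by
    apply hσ.2.2 v ⟨0, ht⟩ ⟨0, ht⟩
    conv_lhs => rw [← h]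
    simp
  have hn := G.degree_lt_card_verts v0
  rw [hG v0, ← otype_sum (σ ⟨0, ht⟩).symm] at hn
  unfold oddc at hx
  refine GT.vmtl ht hG hσ ?_
  have h5 := otype_three _ h3
  generalize otype (σ ⟨0, ht⟩).symm = M at hn hx hy h5
  by_cases e2 : M = {3, 5}
  · subst e2
    obtain rfl : u = 1 := by simp at hn; omega
    exact gt_get 1
  exact (H M h5 (by omega) hx hy e2).gt u

/-- The whole statement from the mirror labelings. -/
theorem all_regularD (H : MirD) (V : Type) [Fintype V] [DecidableEq V] (G : SimpleGraph V)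
    [DecidableRel G.Adj] (r : ℕ) (h1 : 1 < r) (hG : G.IsRegularOfDegree r)
    (hne : ¬ (r = 2 ∧ Fintype.card V = 6 ∧ ¬ G.Connected)) :
    ∃ (h : V → ℕ) (g : Sym2 V → ℕ) (k : ℕ),
      Function.Injective h ∧ Set.InjOn g G.edgeSet ∧
      (∀ v, ∀ e ∈ G.edgeSet, h v ≠ g e) ∧
      (∀ v, 1 ≤ h v ∧ h v ≤ Fintype.card V + Fintype.card G.edgeSet) ∧
      (∀ e ∈ G.edgeSet, 1 ≤ g e ∧ g e ≤ Fintype.card V + Fintype.card G.edgeSet) ∧
      ∀ v, h v + ∑ w ∈ G.neighborFinset v, g s(v, w) = k := by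
  by_cases ho : r % 2 = 1
  · exact hasVMTL_odd G hG (Nat.odd_iff.2 ho) h1
  by_cases h4 : r % 4 = 0
  · exact four_regular V G (by omega) h4 hG
  by_cases h2 : r = 2
  · subst h2
    exact two_regular V G hG fun k => hne ⟨rfl, k⟩
  · exact six_regularD H V G (by omega) (by omega) hG

end Pool.Agent.MP_29e935_co.Six

end

section

/-!
The whole statement from layered labelings of unions of cycles.
-/

set_option autoImplicit false

namespace Pool.Agent.MP_29e935_co.Six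

open Pool.Agent.MP_29e935_co.Two Pool.Agent.MP_29e935_co.Four Finset

def GTD : Prop :=
  ∀ M : Multiset ℕ, (∀ x ∈ M, 3 ≤ x) → 7 ≤ M.sum →
    M.count 3 ≤ M.countP (fun x => x % 2 = 1 ∧ 5 ≤ x) → (∃ x ∈ M, x ≠ 4) → M ≠ {3, 5} → GTu M

theorem six_regularE (H : GTD) (V : Type) [Fintype V] [DecidableEq V] (G : SimpleGraph V)
    [DecidableRel G.Adj] {r : ℕ} (h0 : 2 < r) (h4 : r % 4 = 2) (hG : G.IsRegularOfDegree r) :
    ∃ (h : V → ℕ) (g : Sym2 V → ℕ) (k : ℕ),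
      Function.Injective h ∧ Set.InjOn g G.edgeSet ∧
      (∀ v, ∀ e ∈ G.edgeSet, h v ≠ g e) ∧
      (∀ v, 1 ≤ h v ∧ h v ≤ Fintype.card V + Fintype.card G.edgeSet) ∧
      (∀ e ∈ G.edgeSet, 1 ≤ g e ∧ g e ≤ Fintype.card V + Fintype.card G.edgeSet) ∧
      ∀ v, h v + ∑ w ∈ G.neighborFinset v, g s(v, w) = k := by
  obtain ⟨u, rfl⟩ : ∃ u, r = 2 * (2 * u + 1) := ⟨r / 4, by omega⟩
  have ht : 0 < 2 * u + 1 := by omega
  rcases isEmpty_or_nonempty V with hV | ⟨⟨v0⟩⟩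
  · obtain ⟨σ, hσ⟩ := petersen G ht hG
    exact chain ht hG hσ (fun _ _ => 0) (fun _ => 0) (fun v => isEmptyElim v)
      (fun _ _ _ v => isEmptyElim v) (fun _ _ _ _ v => isEmptyElim v) fun _ _ v => isEmptyElim v
  obtain ⟨σ, hσ, hx, hy⟩ := refactorD (show 1 < 2 * u + 1 by omega) hG v0
  have h3 : ∀ v, (σ ⟨0, ht⟩).symm ((σ ⟨0, ht⟩).symm v) ≠ v := fun v h => by
    apply hσ.2.2 v ⟨0, ht⟩ ⟨0, ht⟩
    conv_lhs => rw [← h]
    simp
  have hn := G.degree_lt_card_verts v0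
  rw [hG v0, ← otype_sum (σ ⟨0, ht⟩).symm] at hn
  unfold oddc at hx
  refine GT.vmtl ht hG hσ ?_
  have h5 := otype_three _ h3
  generalize otype (σ ⟨0, ht⟩).symm = M at hn hx hy h5
  by_cases e2 : M = {3, 5}
  · subst e2
    obtain rfl : u = 1 := by simp at hn; omega
    exact gt_get 1
  exact H M h5 (by omega) hx hy e2 u

/-- The whole statement from the layered labelings. -/
theorem all_regularE (H : GTD) (V : Type) [Fintype V] [DecidableEq V] (G : SimpleGraph V)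
    [DecidableRel G.Adj] (r : ℕ) (h1 : 1 < r) (hG : G.IsRegularOfDegree r)
    (hne : ¬ (r = 2 ∧ Fintype.card V = 6 ∧ ¬ G.Connected)) :
    ∃ (h : V → ℕ) (g : Sym2 V → ℕ) (k : ℕ),
      Function.Injective h ∧ Set.InjOn g G.edgeSet ∧
      (∀ v, ∀ e ∈ G.edgeSet, h v ≠ g e) ∧
      (∀ v, 1 ≤ h v ∧ h v ≤ Fintype.card V + Fintype.card G.edgeSet) ∧
      (∀ e ∈ G.edgeSet, 1 ≤ g e ∧ g e ≤ Fintype.card V + Fintype.card G.edgeSet) ∧
      ∀ v, h v + ∑ w ∈ G.neighborFinset v, g s(v, w) = k := by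
  by_cases ho : r % 2 = 1
  · exact hasVMTL_odd G hG (Nat.odd_iff.2 ho) h1
  by_cases h4 : r % 4 = 0
  · exact four_regular V G (by omega) h4 hG
  by_cases h2 : r = 2
  · subst h2
    exact two_regular V G hG fun k => hne ⟨rfl, k⟩
  · exact six_regularE H V G (by omega) (by omega) hG

end Pool.Agent.MP_29e935_co.Six

end

section

/-!
Soundness of the table checks and the covering argument.
-/

set_option autoImplicit false

namespace Pool.Agent.MP_29e935_co.Six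

/-- The property holds for all entries of a chunk. -/
def Ch (p : ℕ → Prop) (C : ℕ) : Prop := ∀ i, p (C >>> (640 * i) % wW)

theorem Ch.zero {p : ℕ → Prop} (h : p 0) {C : ℕ} (e : Nat.beq C 0 = true) : Ch p C := fun i => by
  simpa [Nat.eq_of_beq_eq_true e] using h

theorem Ch.cons {p : ℕ → Prop} {C : ℕ} (h : p (C % wW)) (H : Ch p (C >>> 640)) : Ch p C
  | 0 => by simpa using h
  | i + 1 => by
    have := H i
    rwa [← Nat.shiftRight_add, show 640 + 640 * i = 640 * (i + 1) by ring] at this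

theorem rec_and {a b : Bool} (h : (Bool.rec false b a : Bool) = true) : a = true ∧ b = true := by
  cases a
  · exact absurd h (by simp)
  · exact ⟨rfl, h⟩

theorem ky_zero : Ky 0 0 := fun i => by simp

variable {A : ℕ → ℕ}

def SegF (A : ℕ → ℕ) (q : ℕ) : Prop :=
  ∀ X, Ky X (ky q) → ∀ l, Run (A (dg q 0)) l (A (dg q 1)) (ev l (dg q 2)) (X.map (ev l))

theorem SegF.zero (h0 : sH (A 0) = 0) : SegF A 0 := fun X hX l => by
  obtain rfl := hX.eq ky_zero
  exact (Run.refl _ l).right h0 _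

theorem segC_sound (h0 : sH (A 0) = 0) : ∀ l C, segC A l C = true → Ch (SegF A) C
  | [], _, h => Ch.zero (SegF.zero h0) h
  | _ :: l, _, h => Ch.cons (fun _ hX => segOK_sound (rec_and h).1 hX)
      (segC_sound h0 l _ (rec_and h).2)

def Ex (M : Multiset ℕ) : Prop := 7 ≤ M.sum → M ≠ {3, 5} → (∃ x ∈ M, x ≠ 4) → GTu M

def WF (A : ℕ → ℕ) (q : ℕ) : Prop :=
  ∀ X, Ky X (ky q) → ∀ l, (dg q 2 = 0 → Ex (X.map (ev l))) ∧
    (dg q 2 ≠ 0 → ∀ M, Run (A (dg q 0)) (dg q 1) (A 0) 0 M → GTu (X.map (ev l) + M))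

theorem WF.zero : WF A 0 := fun X hX l => by
  obtain rfl := hX.eq ky_zero
  exact ⟨fun _ h => absurd h (by simp), fun h => absurd rfl h⟩

theorem frc_eq {α : Type} (n : ℕ) (k : ℕ → α) : frc n k = k n := by cases n <;> rfl

theorem wrps_sound {g V : ℕ} {k : ℕ → Bool} (hg : geoOK g = true) (hE : End g V (A 0))
    (hk : ∀ C, k C = true → Ch (WF A) C) :
    ∀ l C, wrps A g (V ||| mW) (flat (i0 g)) k l C = true → Ch (WF A) C
  | [], C, h => hk C h
  | _ :: l, C, h => by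
    have h1 := (rec_and h).1
    simp only [Bool.and_eq_true, Nat.ble_eq] at h1
    exact Ch.cons (fun X hX l => ⟨fun e => absurd (e ▸ h1.1 : 1 ≤ 0) (by simp),
      fun _ M hM => wrpOK_sound hg hE h1.2 hX l hM⟩) (wrps_sound hg hE hk l _ (rec_and h).2)

theorem wrpC_sound : ∀ l C, wrpC A l C = true → Ch (WF A) C
  | [], _, h => Ch.zero WF.zero h
  | G :: l, C, h => by
    have h' : (geoOK G.1 && frc (bld (dg G.2.1 0) (G.2.1 >>> 20) 0) fun V =>
      frc (flat (i0 G.1)) fun F => endOK G.1 V F (A 0) (dg G.2.1 1) (G.2.1 >>> 20) G.2.2.1 &&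
        frc (V ||| mW) fun V => wrps A G.1 V F (wrpC A l) G.2.2.2 C) = true := h
    simp only [frc_eq, Bool.and_eq_true] at h'
    exact wrps_sound h'.1 (endOK_sound h'.1 h'.2.1) (wrpC_sound l) _ _ h'.2.2

theorem excK_sound {k : ℕ} (h : excK k = true) {X : Multiset ℕ} (a : Ky X k) (l : ℕ) :
    Ex (X.map (ev l)) := fun c d _ => by
  have h' : (Nat.beq k 0 || Nat.beq k (2 ^ (6 * 10)) || Nat.beq k (2 ^ (6 * 12)) ||
    Nat.beq k (enc {6, 10})) = true := h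
  simp only [Bool.or_eq_true, Nat.beq_eq] at h'
  rcases h' with ((e | e) | e) | e <;> rw [e] at a
  · obtain rfl := a.eq ky_zero
    simp at c
  · obtain rfl := a.eq (ky_one 10)
    simp [ev] at c
  · obtain rfl := a.eq (ky_one 12)
    simp [ev] at c
  · obtain rfl := a.eq (ky_enc _ (by simp))
    simp [ev] at d

theorem dirC_sound : ∀ l C, dirC l C = true → Ch (WF A) C
  | [], _, h => Ch.zero WF.zero h
  | _ :: l, C, h => by
    have h1 := (rec_and h).1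
    simp only [Bool.and_eq_true, Bool.or_eq_true, Nat.beq_eq] at h1
    exact Ch.cons (fun X hX l => ⟨fun _ => h1.2.elim (fun e => excK_sound e hX l)
      fun e _ _ _ => dirE_sound e hX l, fun e => absurd h1.1 e⟩) (dirC_sound l _ (rec_and h).2)

theorem look_mem {p : ℕ → Prop} {T : ℕ → ℕ} (h : ∀ j, Ch p (T j)) (i : ℕ) : p (look T i) := by
  rw [look, frc_eq]
  exact h _ _

theorem ky_ex (s : ℕ) : ∃ X, Ky X s := by
  induction s using Nat.strong_induction_on with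
  | _ s ih =>
    rcases Nat.eq_zero_or_pos s with rfl | h
    · exact ⟨0, ky_zero⟩
    obtain ⟨X, hX⟩ := ih (s / 64) (by omega)
    refine ⟨Multiset.replicate (s % 64) 0 + X.map Nat.succ, fun i => ?_⟩
    rw [Multiset.count_add, Multiset.count_replicate]
    cases i with
    | zero => simp
    | succ i =>
      rw [Multiset.count_map_eq_count' _ _ Nat.succ_injective, hX i, pow_succ',
        Nat.div_div_eq_div_mul]
      simp

theorem hI_bit {k : ℕ} (h : k &&& hI = 0) {i : ℕ} (hi : i < 107) : k.testBit (6 * i + 5) = false :=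
  bit_of_and h ((by decide +kernel : ∀ i < 107, hI.testBit (6 * i + 5) = true) i hi)

theorem dig_bits {k : ℕ} {X : Multiset ℕ} (hX : Ky X k) (h2 : k < 2 ^ 642) (i : ℕ) :
    X.count i = 0 ∨ (i < 107 ∧ X.count i < 64 ∧ (k.testBit (6 * i + 5) = true ↔ 32 ≤ X.count i) ∧
      (k.testBit (6 * i + 4) = true ↔ 16 ≤ X.count i % 32)) := by
  rw [hX i]
  rcases Nat.lt_or_ge i 107 with h | h
  · simp only [Nat.testBit_eq_decide_div_mod_eq, pow_add, pow_mul, ← Nat.div_div_eq_div_mul,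
      decide_eq_true_eq, Nat.reducePow]
    omega
  · rw [Nat.div_eq_of_lt (h2.trans_le ?_)]
    · simp
    · rw [show 2 ^ 642 = 64 ^ 107 by decide +kernel]
      exact Nat.pow_le_pow_right (by norm_num) h

theorem small {k : ℕ} {X : Multiset ℕ} (hX : Ky X k) (h1 : k &&& hI = 0) (h2 : k < 2 ^ 642)
    (i : ℕ) : X.count i < 32 := by
  rcases dig_bits hX h2 i with h | ⟨h, -, a, -⟩
  · omega
  · rw [hI_bit h1 h] at a
    simpa using a

theorem lt_wW (T : ℕ → ℕ) (i : ℕ) : ky (look T i) < wW :=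
  (Nat.shiftRight_le _ _).trans_lt (Nat.mod_lt _ (by decide +kernel))

theorem sml_or {a b : ℕ} (h : sml (Nat.lor a b) = true) : a &&& hI = 0 ∧ b &&& hI = 0 := by
  simpa only [sml, Nat.beq_eq, Nat.land_eq, Nat.lor_eq, Nat.and_or_distrib_right,
    Nat.or_eq_zero_iff] using h

theorem sm2_sound {a b : ℕ} {X Y : Multiset ℕ} (x : Ky X a) (y : Ky Y b) (ha : a < 2 ^ 642)
    (hb : b < 2 ^ 642) (h : sm2 a b = true) (i : ℕ) :
    Y.count i < 48 ∧ X.count i + Y.count i < 63 := by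
  rw [sm2, Bool.or_eq_true, Bool.and_eq_true] at h
  rcases h with h | ⟨h1, h2⟩
  · have := small x (sml_or h).1 ha i
    have := small y (sml_or h).2 hb i
    omega
  have s : ∀ k : ℕ, (Nat.shiftLeft k 1).testBit (6 * i + 5) = k.testBit (6 * i + 4) := fun k => by
    simp [Nat.testBit_shiftLeft]
  have p : X.count i < 16 := by
    have := small x (sml_or h1).1 ha i
    rcases dig_bits x ha i with h | ⟨h, -, -, c⟩
    · omega
    · rw [← s, hI_bit (sml_or h1).2 h] at c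
      simp only [Bool.false_eq_true, false_iff] at c
      omega
  rcases dig_bits y hb i with h | ⟨h, c0, c1, c2⟩
  · omega
  · have := hI_bit (Nat.eq_of_beq_eq_true h2) h
    rw [Nat.land_eq, Nat.testBit_and, s, Bool.and_eq_false_iff, ← Bool.not_eq_true,
      ← Bool.not_eq_true, c1, c2] at this
    omega

theorem ky_two {a b : ℕ} (ha : a < wW) (hb : b < wW) (h : sm2 a b = true) :
    ∃ X Y, Ky X a ∧ Ky Y b ∧ Ky (X + Y) (a + b) ∧ ∀ i, Y.count i < 48 := by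
  obtain ⟨X, x⟩ := ky_ex a
  obtain ⟨Y, y⟩ := ky_ex b
  have s := sm2_sound x y (ha.trans (by decide +kernel)) (hb.trans (by decide +kernel)) h
  exact ⟨X, Y, x, y, x.add y fun i => by have := s i; omega, fun i => (s i).1⟩

theorem sml_sm2 {a b : ℕ} (h : sml (Nat.lor a b) = true) : sm2 a b = true := by
  rw [sm2, h, Bool.true_or]

theorem dg01 {u a b : ℕ} (h : Nat.beq (Nat.mod u 1048576) (a + 1024 * b) = true) (ha : a < 1024) :
    dg u 0 = a ∧ dg u 1 = b := by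
  have e : u % 1048576 = a + 1024 * b := Nat.eq_of_beq_eq_true h
  change u >>> 0 % 1024 = a ∧ u >>> 10 % 1024 = b
  simp only [Nat.shiftRight_eq_div_pow]
  omega

def Gd (A : ℕ → ℕ) (G : Multiset ℕ) : Prop := Run (A 0) 0 (A 0) 0 G

theorem SegF.gd (h0 : sH (A 0) = 0) {u : ℕ} (h : SegF A u) (hb : isB u = true) {X : Multiset ℕ}
    (hX : Ky X (ky u)) (l : ℕ) : Gd A (X.map (ev l)) := by
  obtain ⟨e1, e2⟩ := dg01 (a := 0) (b := 0) hb (by norm_num)
  have := h X hX l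
  rw [e1, e2] at this
  exact (this.left h0 0).right h0 0

theorem four_sound {g : ℕ} (h : four g = true) {X : Multiset ℕ} (hX : Ky X g) :
    ∀ x ∈ X.map (ev 0), x = 4 := by
  simp only [four, Bool.and_eq_true, Nat.beq_eq, Nat.ble_eq] at h
  have h1 : g % 281474976710656 = 0 := h.1
  have := ky_enc (Multiset.replicate (g / 281474976710656) 8) (by simp; omega)
  rw [show enc (Multiset.replicate (g / 281474976710656) 8) = g by simp [enc]; omega] at this
  rw [hX.eq this]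
  simp [Multiset.mem_replicate, ev]

/-- The blocks already removed, according to the mode. -/
def Ctx (A : ℕ → ℕ) (b : ℕ) (G : Multiset ℕ) : Prop :=
  Gd A G ∧ (b = 0 → G = 0) ∧ (2 ≤ b → ∀ x ∈ G, x = 4)

theorem Ctx.step {b b' g : ℕ} {G X : Multiset ℕ} (h : Ctx A b G) (hm : md b b' g = true)
    (hX : Ky X g) (hg : Gd A (X.map (ev 0))) : Ctx A b' (G + X.map (ev 0)) := by
  simp only [md, Bool.cond_eq_ite, Nat.beq_eq, Nat.add_eq] at hm
  refine ⟨h.1.trans hg, fun e => ?_, fun e x hx => ?_⟩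
  · rw [if_neg (by omega), if_pos e, Nat.beq_eq] at hm
    obtain rfl : g = 0 := by omega
    rw [h.2.1 (by omega), hX.eq ky_zero]; rfl
  · rw [if_neg (by omega), if_neg (by omega), Bool.and_eq_true, Bool.not_eq_true',
      ← Bool.not_eq_true, Nat.beq_eq] at hm
    rcases Multiset.mem_add.1 hx with hx | hx
    · rcases Nat.eq_zero_or_pos b with e | e
      · simp [h.2.1 e] at hx
      · exact h.2.2 (by omega) x hx
    · exact four_sound hm.2 hX x hx

/-- A long cycle, possibly with a triangle. -/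
def Lng (lam : ℕ) (Y : Multiset ℕ) : Prop :=
  ∃ l e, lam ≤ l ∧ e < 2 ∧ (e = 1 → l % 2 = 1) ∧ Y = l ::ₘ Multiset.replicate e 3

def Sw (A : ℕ → ℕ) : Prop :=
  (∀ l, Run (A 1) l (A 1) (l + 6) 0) ∧ ∀ e < 2, ∀ r < 6, ∃ a b, a % 6 = r ∧
    (a + b + 3 * e) % 6 = 0 ∧ b ≤ 12 ∧ a ≤ 11 + e ∧
      ∀ l, Run (A 1) l (A 1) b ((a + l) ::ₘ Multiset.replicate e 3)

theorem ky_fl {e : ℕ} (he : e < 2) (a : ℕ) : Ky ((2 * a + 1) ::ₘ Multiset.replicate e 6) (fl e a) := by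
  have := ky_enc ((2 * a + 1) ::ₘ Multiset.replicate e 6) (by simp; omega)
  convert this using 1
  simp [fl, enc, Nat.shiftLeft_eq, add_comm]

theorem map_fl (e a l : ℕ) : ((2 * a + 1) ::ₘ Multiset.replicate e 6).map (ev l) =
    (a + l) ::ₘ Multiset.replicate e 3 := by
  simp [ev, Nat.add_div]

theorem swOK_sound {U : ℕ → ℕ} (hU : ∀ j, Ch (SegF A) (U j)) {w : ℕ} (h : swOK U w = true) :
    Sw A := by
  simp only [swOK, Bool.and_eq_true, Nat.beq_eq] at h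
  refine ⟨fun l => ?_, fun e he r hr => ?_⟩
  · have := look_mem hU (Nat.mod w 65536)
    rw [h.1] at this
    have := this 0 ky_zero l
    rwa [show ev l (dg 13632513 2) = l + 6 by change 13 / 2 + 13 % 2 * l = _; omega] at this
  · have h1 := allLt_sound _ h.2 (6 * e + r) (by omega)
    have e1 : Nat.div (6 * e + r) 6 = e := by change _ / 6 = _; omega
    have e2 : Nat.mod (6 * e + r) 6 = r := by change _ % 6 = _; omega
    simp only [e1, e2, Bool.and_eq_true] at h1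
    obtain ⟨⟨⟨⟨⟨⟨a1, a2⟩, a3⟩, a4⟩, a5⟩, a6⟩, a7⟩ := h1
    obtain ⟨b1, b2⟩ := dg01 (a := 1) (b := 1) a1 (by norm_num)
    simp only [Nat.beq_eq, Nat.ble_eq] at a2 a3 a4 a5 a6 a7
    refine ⟨_, _, a5, a6, (by omega : _ / 2 ≤ 12), a7, fun l => ?_⟩
    have := look_mem hU _ _ (a2 ▸ ky_fl he _) l
    rwa [b1, b2, map_fl, ev, show _ % 2 = 0 from a3, zero_mul] at this

theorem Sw.pump (h : Sw A) (l : ℕ) : ∀ t, Run (A 1) l (A 1) (l + 6 * t) 0
  | 0 => Run.refl _ _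
  | t + 1 => by simpa [mul_add, add_assoc] using (h.pump l t).trans (h.1 _)

theorem Sw.chain (h : Sw A) {lam : ℕ} (hl : 18 ≤ lam) (R : Multiset (ℕ × Multiset ℕ)) :
    (∀ p ∈ R, Lng lam p.2) → ∀ b, (b + 7 ≤ lam ∨ (b % 2 = 0 ∧ b + 6 ≤ lam)) →
      ∃ c, (c ≤ 12 ∨ (c = b ∧ R = 0)) ∧ (c + (R.map Prod.snd).sum.sum) % 6 = b % 6 ∧
        Run (A 1) b (A 1) c (R.map Prod.snd).sum := by
  induction R using Multiset.induction_on with
  | empty => exact fun _ b _ => ⟨b, Or.inr ⟨rfl, rfl⟩, by simp, Run.refl _ _⟩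
  | cons p R ih =>
    intro hR b hb
    obtain ⟨l, e, l1, l2, l3, l4⟩ := hR p (Multiset.mem_cons_self _ _)
    obtain ⟨a, b', a1, a2, a3, a4, a5⟩ := h.2 e l2 ((l - b) % 6) (by omega)
    obtain ⟨c, c1, c2, c3⟩ := ih (fun q hq => hR q (Multiset.mem_cons_of_mem hq)) b' (by omega)
    have r := ((h.pump b ((l - b - a) / 6)).trans (a5 _)).trans c3
    rw [show a + (b + 6 * ((l - b - a) / 6)) = l by omega, zero_add, ← l4] at r
    rw [Multiset.map_cons, Multiset.sum_cons]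
    refine ⟨c, Or.inl (by omega), ?_, r⟩
    rw [Multiset.sum_add, l4, Multiset.sum_cons, Multiset.sum_replicate, smul_eq_mul]
    omega

theorem map_even {X : Multiset ℕ} (h : ∀ s ∈ X, s % 2 = 0) (l : ℕ) :
    X.map (ev l) = X.map (ev 0) :=
  Multiset.map_congr rfl fun s hs => by simp [ev, h s hs]

theorem tri_sound {U W : ℕ → ℕ} (h0 : sH (A 0) = 0) (hU : ∀ j, Ch (SegF A) (U j))
    (hW : ∀ j, Ch (WF A) (W j)) {i j k : ℕ} (h : tri (look U i) (look W j) (look U k) = true) :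
    ∃ Y, Ky Y (ky (look U i) + ky (look W j) + ky (look U k)) ∧ (∀ i, Y.count i < 63) ∧
      ∀ t M G, Gd A G → Run (A 1) (dg (look W j) 1) (A 1) t M → GTu (G + M + Y.map (ev t)) := by
  simp only [tri, Bool.and_eq_true] at h
  obtain ⟨⟨⟨⟨a1, a2⟩, a3⟩, a4⟩, a5⟩ := h
  obtain ⟨b1, b2⟩ := dg01 (a := 1) (b := 0) a4 (by norm_num)
  have f1 := look_mem hU i
  have f2 := look_mem hW j
  have f3 := look_mem hU k
  have n1 := lt_wW U i
  have n2 := lt_wW W j
  have n3 := lt_wW U k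
  generalize look U i = u at *
  generalize look W j = v at *
  generalize look U k = c at *
  obtain ⟨Xu, Xv, x1, x2, x3, -⟩ := ky_two n1 n2 (sml_sm2 a5.1)
  obtain ⟨Xc, x4⟩ := ky_ex (ky c)
  have w2 : wW + wW < 2 ^ 642 := by decide +kernel
  have s2 := sm2_sound x4 x3 (by omega) (by omega) a5.2
  refine ⟨_, x3.add x4 fun i => by have := s2 i; omega, fun i => by
    have := s2 i; rw [Multiset.count_add]; omega, fun t M G hG hM => ?_⟩
  have r1 := f3 Xc x4 t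
  rw [b1, b2] at r1
  have r3 := f2 Xv x2 t
  rw [Nat.eq_of_beq_eq_true a3] at r3
  convert r3.2 (Nat.ne_of_gt (Nat.le_of_ble_eq_true a2)) _
    ((hM.trans (r1.right h0 0)).trans (hG.trans (f1.gd h0 a1 x1 t))) using 1
  simp only [Multiset.map_add]
  abel

theorem finOK_sound {U W : ℕ → ℕ} (h0 : sH (A 0) = 0) (hU : ∀ j, Ch (SegF A) (U j))
    (hW : ∀ j, Ch (WF A) (W j)) (hS : Sw A) {key b d : ℕ} (h : finOK U W key b d = true)
    {X G : Multiset ℕ} (hX : Ky X key) (h1 : ∀ i, X.count i < 48) (h2 : ∀ s ∈ X, s % 2 = 0)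
    (hG : Ctx A b G) : Ex (G + X.map (ev 0)) := by
  simp only [finOK, Bool.cond_eq_ite, Nat.beq_eq] at h
  split_ifs at h with c1 c0 c2 <;>
    try simp only [Bool.and_eq_true, Nat.beq_eq, Nat.add_eq, Nat.ble_eq] at h
  · rintro - - ⟨x, hx, e⟩
    rw [Bool.and_eq_true, Bool.not_eq_true', ← Bool.not_eq_true, Nat.beq_eq] at c1
    refine absurd ((Multiset.mem_add.1 hx).elim (fun hx => ?_) (four_sound c1.2 hX x)) e
    rcases Nat.eq_zero_or_pos b with e | e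
    · simp [hG.2.1 e] at hx
    · exact hG.2.2 (by omega) x hx
  rotate_left 2
  · obtain ⟨Y, y1, y2, y3⟩ := tri_sound h0 hU hW h.1.1.1
    obtain ⟨⟨⟨-, a1⟩, a2⟩, a3⟩ := h
    generalize hw d 3 = a at *
    generalize hw d 4 = l at *
    generalize dg (look W (hw d 1)) 1 = c at *
    have a3 : (a + c) % 6 = l % 6 := a3
    rw [Nat.shiftLeft_eq', Nat.one_shiftLeft] at a1
    have e2 := (hX.add (ky_fl two_pos a) fun i => by
      have := h1 i
      have := Multiset.count_le_card i ((2 * a + 1) ::ₘ Multiset.replicate 0 6)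
      simp only [Multiset.card_cons, Multiset.card_replicate] at this
      omega).eq (a1 ▸ y1.add (ky_one _) fun i => by
        have := y2 i
        have := Multiset.count_le_card i {Nat.mul 2 l}
        simp only [Multiset.card_singleton] at this
        omega)
    have r := y3 _ _ G hG.1 (hS.pump c ((l - c - a) / 6))
    generalize ht : c + 6 * ((l - c - a) / 6) = t at r
    have e3 := congrArg (Multiset.map (ev t)) e2
    rw [Multiset.map_add, Multiset.map_add, map_fl, map_even h2 t, show a + t = l by omega,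
      Multiset.map_singleton, show ev t (Nat.mul 2 l) = l by simp [ev]] at e3
    rw [add_zero, ← add_right_cancel e3] at r
    exact fun _ _ _ => r
  all_goals
    obtain ⟨Xu, Xv, x1, x2, x3, -⟩ := ky_two (lt_wW _ _) (lt_wW _ _) h.1.1.2
    obtain rfl := hX.eq (h.1.2 ▸ x3)
    have hv := look_mem hW _ Xv x2 0
  · have e := h.2
    rw [show ky (look U (hw d 0)) = 0 by omega] at x1
    rw [hG.2.1 (by omega), x1.eq ky_zero, zero_add, zero_add]
    exact hv.1 c2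
  · intro _ _ _
    rw [h.2] at hv
    have := hv.2 c2 _ ((hG.1.trans ((look_mem hU _).gd h0 h.1.1.1 x1 0)).left h0 _)
    rwa [add_comm, add_assoc, ← Multiset.map_add] at this

theorem chn_sound {U W : ℕ → ℕ} (h0 : sH (A 0) = 0) (hU : ∀ j, Ch (SegF A) (U j))
    (hW : ∀ j, Ch (WF A) (W j)) (hS : Sw A) {key lam : ℕ} (hl : 18 ≤ lam)
    (h : ∀ j < 12, ∃ d, chn U W key lam j d = true) {X G : Multiset ℕ} (hX : Ky X key)
    (h1 : ∀ i, X.count i < 48) (h2 : ∀ s ∈ X, s % 2 = 0) (hG : Gd A G) (p : ℕ × Multiset ℕ)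
    (R : Multiset (ℕ × Multiset ℕ)) (hR : ∀ q ∈ p ::ₘ R, Lng lam q.2) :
    GTu (G + X.map (ev 0) + ((p ::ₘ R).map Prod.snd).sum) := by
  obtain ⟨l, e, l1, l2, l3, l4⟩ := hR p (Multiset.mem_cons_self _ _)
  obtain ⟨d, hd⟩ := h (6 * e + (l + 3 * e + (R.map Prod.snd).sum.sum) % 6) (by omega)
  generalize hj : 6 * e + (l + 3 * e + (R.map Prod.snd).sum.sum) % 6 = j at hd
  have e1 : Nat.div j 6 = e := by change _ / 6 = _; omega
  simp only [chn, e1, Bool.and_eq_true] at hd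
  obtain ⟨⟨⟨⟨⟨a5, a6⟩, a7⟩, a8⟩, a9⟩, a10⟩ := hd
  obtain ⟨Y, y1, y2, y3⟩ := tri_sound h0 hU hW a5
  simp only [Nat.beq_eq, Nat.ble_eq, Bool.or_eq_true, Bool.and_eq_true, Nat.add_eq, Nat.mul_eq,
    show ∀ a b, Nat.mod a b = a % b from fun _ _ => rfl] at a6 a7 a8 a9 a10
  generalize hw d 3 = a at *
  generalize dg (look W (hw d 1)) 1 = c at *
  have e2 := (hX.add (ky_fl l2 a) fun i => by
    have := h1 i
    have := Multiset.count_le_card i ((2 * a + 1) ::ₘ Multiset.replicate e 6)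
    simp only [Multiset.card_cons, Multiset.card_replicate] at this
    omega).eq (a6 ▸ y1)
  obtain ⟨b, c1, c2, c3⟩ := hS.chain hl R (fun q hq => hR q (Multiset.mem_cons_of_mem hq)) _ a10
  have c4 : a + b ≤ l ∧ (l - b - a) % 6 = 0 := by
    rcases c1 with c1 | ⟨rfl, rfl⟩ <;> omega
  have r := y3 _ _ G hG (c3.trans (hS.pump b ((l - b - a) / 6)))
  generalize ht : b + 6 * ((l - b - a) / 6) = t at r
  rw [← e2, Multiset.map_add, map_fl, map_even h2 t, show a + t = l by omega, ← l4] at r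
  rw [Multiset.map_cons, Multiset.sum_cons]
  convert r using 1
  abel

theorem trns_sound {T U : ℕ → ℕ} {I key b m : ℕ} :
    ∀ n w, trns T U I key b m n w = true → ∀ r < n, ∃ d, trn T U I key b (m + r) d = true
  | 0, _, _, r, h => absurd h (by simp)
  | n + 1, w, h, r, hr => by
    rcases Nat.lt_succ_iff_lt_or_eq.1 hr with hr | rfl
    · exact trns_sound n _ (rec_and h).2 r hr
    · exact ⟨_, (rec_and h).1⟩

def CS (T U W : ℕ → ℕ) (I J n s : ℕ) : Prop :=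
  s = 0 ∨ ((∃ d, finOK U W (ky s) (dg s 2) d = true) ∧ 1 ≤ dg s 1 ∧ dg s 1 ≤ n ∧
    (∀ j < 12, ∃ d, chn U W (ky s) (dg J (dg s 1)) j d = true) ∧
    ∀ r, dg s 1 ≤ r → r < dg s 0 → ∃ d, trn T U I (ky s) (dg s 2) r d = true)

theorem covC_sound {T U W : ℕ → ℕ} {I J n : ℕ} :
    ∀ l C, covC T U W I J n l C = true → Ch (CS T U W I J n) C
  | [], _, h => Ch.zero (Or.inl rfl) h
  | w :: l, C, h => by
    have h1 := (rec_and h).1
    simp only [Bool.and_eq_true, Nat.ble_eq] at h1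
    refine Ch.cons (Or.inr ⟨⟨_, h1.1.1.1.1⟩, h1.1.1.1.2, h1.1.1.2,
      fun j hj => ⟨_, allLt_sound _ h1.1.2 j hj⟩, fun r r1 r2 => ?_⟩) (covC_sound l _ (rec_and h).2)
    obtain ⟨r, rfl⟩ := Nat.exists_eq_add_of_le r1
    exact trns_sound _ _ h1.2 r (Nat.lt_sub_of_add_lt (by rwa [add_comm]))

/-- The cycles `Y` form an item of rank `r`. -/
def It (I B r : ℕ) (Y : Multiset ℕ) : Prop :=
  (r = 0 ∧ Lng (B + 1) Y) ∨ (0 < r ∧ ∃ X, Ky X (I >>> (640 * r) % wW) ∧ Multiset.card X ≤ 2 ∧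
    (∀ s ∈ X, s % 2 = 0) ∧ Y = X.map (ev 0))

theorem trn_sound {T U : ℕ → ℕ} (h0 : sH (A 0) = 0) (hU : ∀ j, Ch (SegF A) (U j))
    {I B key b r d : ℕ} (h : trn T U I key b r d = true) {X Y G : Multiset ℕ} (hX : Ky X key)
    (h1 : ∀ i, X.count i < 48) (h2 : ∀ s ∈ X, s % 2 = 0) (hr : 0 < r) (hY : It I B r Y)
    (hG : Ctx A b G) : ∃ i X' G', Ky X' (ky (look T i)) ∧ (∀ i, X'.count i < 48) ∧
      (∀ s ∈ X', s % 2 = 0) ∧ Ctx A (dg (look T i) 2) G' ∧ r < dg (look T i) 0 ∧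
      G + X.map (ev 0) + Y = G' + X'.map (ev 0) := by
  obtain ⟨u, g1, g2, h⟩ : ∃ u, ky u < wW ∧ SegF A u ∧ (Bool.rec false (Bool.rec false
      (Bool.rec false (Bool.rec false (md b (dg (look T (d % 65536)) 2) (ky u))
        (Nat.ble (r + 1) (dg (look T (d % 65536)) 0))) (isB u))
        (sm2 (ky u) (ky (look T (d % 65536)))))
      (Nat.beq (key + I >>> (640 * r) % wW) (ky u + ky (look T (d % 65536)))) : Bool) = true := by
    refine ⟨_, ?_, ?_, h⟩ <;> cases Nat.div d 65536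
    · exact (by decide +kernel : ky 0 < wW)
    · exact lt_wW _ _
    · exact SegF.zero h0
    · exact look_mem hU _
  obtain ⟨a1, h⟩ := rec_and h
  obtain ⟨a2, h⟩ := rec_and h
  obtain ⟨a3, h⟩ := rec_and h
  obtain ⟨a4, a5⟩ := rec_and h
  rw [Nat.beq_eq] at a1
  obtain ⟨-, Z, y1, y2, y3, rfl⟩ := hY.resolve_left (by omega)
  obtain ⟨Xg, X', x1, x2, x3, x4⟩ := ky_two g1 (lt_wW _ _) a2
  have e : X + Z = Xg + X' := (hX.add y1 fun i => by
    have := h1 i; have := Multiset.count_le_card i Z; omega).eq (a1 ▸ x3)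
  refine ⟨_, X', _, x2, x4, fun s hs => ?_, hG.step a5 x1 (g2.gd h0 a3 x1 0),
    Nat.le_of_ble_eq_true a4, by rw [add_assoc, add_assoc, ← Multiset.map_add, e, Multiset.map_add]⟩
  exact (Multiset.mem_add.1 (e ▸ Multiset.mem_add.2 (Or.inr hs))).elim (h2 s) (y3 s)

def IsL (k l : ℕ) : Prop := k = 2 ^ (6 * (2 * l)) ∨ (l % 2 = 1 ∧ k = 2 ^ (6 * (2 * l)) + 2 ^ 36)

instance (k l : ℕ) : Decidable (IsL k l) := by unfold IsL; infer_instance

def LamOK (I J B n : ℕ) : Prop :=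
  ∀ m ≤ n, 18 ≤ dg J m ∧ dg J m ≤ B + 1 ∧ ∀ r < m, 0 < r → ∃ l ≤ B, dg J m ≤ l ∧
    IsL (I >>> (640 * r) % wW) l

instance (I J B n : ℕ) : Decidable (LamOK I J B n) := by unfold LamOK; infer_instance

theorem ky_pair (l : ℕ) : Ky {2 * l, 6} (2 ^ (6 * (2 * l)) + 2 ^ 36) := by
  simpa [enc] using ky_enc {2 * l, 6} (by simp)

theorem It.lng {I J B n m r : ℕ} {Y : Multiset ℕ} (hL : LamOK I J B n) (hm : m ≤ n) (hr : r < m)
    (h : It I B r Y) : Lng (dg J m) Y := by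
  obtain ⟨-, k1, k2⟩ := hL m hm
  rcases h with ⟨-, l, e, h1, h2⟩ | ⟨h0, X, h1, -, -, rfl⟩
  · exact ⟨l, e, by omega, h2⟩
  · obtain ⟨l, -, l1, l2 | ⟨l2, l3⟩⟩ := k2 r hr h0
    · rw [l2] at h1
      exact ⟨l, 0, l1, by omega, by omega, by simp [h1.eq (ky_one _), ev]⟩
    · rw [l3] at h1
      exact ⟨l, 1, l1, by omega, fun _ => l2, by simp [h1.eq (ky_pair _), ev]⟩

theorem cover {T U W : ℕ → ℕ} {I J B n : ℕ} (h0 : sH (A 0) = 0) (hU : ∀ j, Ch (SegF A) (U j))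
    (hW : ∀ j, Ch (WF A) (W j)) (hS : Sw A) (hC : ∀ j, Ch (CS T U W I J n) (T j))
    (hL : LamOK I J B n) (k : ℕ) : ∀ (R : Multiset (ℕ × Multiset ℕ)) i X G,
      Multiset.card R = k → Ky X (ky (look T i)) → (∀ i, X.count i < 48) → (∀ s ∈ X, s % 2 = 0) →
      Ctx A (dg (look T i) 2) G → 0 < dg (look T i) 0 →
      (∀ p ∈ R, p.1 < dg (look T i) 0 ∧ It I B p.1 p.2) →
      Ex (G + X.map (ev 0) + (R.map Prod.snd).sum) := by
  induction k with
  | zero =>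
    intro R i X G k0 k1 k2 k3 k4 k5 _
    obtain ⟨⟨d, hd⟩, -⟩ := (look_mem hC i).resolve_left fun e => by simp [e, dg] at k5
    rw [Multiset.card_eq_zero.1 k0, Multiset.map_zero, Multiset.sum_zero, add_zero]
    exact finOK_sound h0 hU hW hS hd k1 k2 k3 k4
  | succ k ih =>
    intro R i X G k0 k1 k2 k3 k4 k5 k6
    obtain ⟨-, c1, c2, c3, c4⟩ := (look_mem hC i).resolve_left fun e => by simp [e, dg] at k5
    obtain ⟨p, hp, hm⟩ := Multiset.exists_max_image Prod.fst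
      (Multiset.card_pos.1 (by omega) : R ≠ 0)
    obtain ⟨R, rfl⟩ := Multiset.exists_cons_of_mem hp
    rcases Nat.lt_or_ge p.1 (dg (look T i) 1) with c | c
    · exact fun _ _ _ => chn_sound h0 hU hW hS (hL _ c2).1 c3 k1 k2 k3 k4.1 p R fun q hq =>
        (k6 q hq).2.lng hL c2 ((hm q hq).trans_lt c)
    obtain ⟨d, hd⟩ := c4 p.1 c (k6 p hp).1
    obtain ⟨j, X', G', j1, j2, j3, j4, j5, j6⟩ :=
      trn_sound h0 hU hd k1 k2 k3 (by omega) (k6 p hp).2 k4
    rw [Multiset.map_cons, Multiset.sum_cons, ← add_assoc, j6]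
    exact ih R j X' G' (by simpa using k0) j1 j2 j3 j4 (by omega) fun q hq =>
      ⟨(hm q (Multiset.mem_cons_of_mem hq)).trans_lt j5, (k6 q (Multiset.mem_cons_of_mem hq)).2⟩

def ItemsOK (I B m : ℕ) : Prop :=
  ∀ x ≤ B, 4 ≤ x → (∃ r < m, 0 < r ∧ I >>> (640 * r) % wW = 2 ^ (6 * (2 * x))) ∧
    (x % 2 = 1 → ∃ r < m, 0 < r ∧ I >>> (640 * r) % wW = 2 ^ (6 * (2 * x)) + 2 ^ 36)

instance (I B m : ℕ) : Decidable (ItemsOK I B m) := by unfold ItemsOK; infer_instance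

theorem items {I B m : ℕ} (hI : ItemsOK I B m) (hm : 0 < m) (n : ℕ) :
    ∀ M : Multiset ℕ, Multiset.card M = n → (∀ x ∈ M, 3 ≤ x) →
      M.count 3 ≤ M.countP (fun x => x % 2 = 1 ∧ 5 ≤ x) →
      ∃ R : Multiset (ℕ × Multiset ℕ), (∀ p ∈ R, p.1 < m ∧ It I B p.1 p.2) ∧
        M = (R.map Prod.snd).sum := by
  have key : ∀ x, 4 ≤ x → (∃ r < m, It I B r {x}) ∧ (x % 2 = 1 → ∃ r < m, It I B r {x, 3}) :=
    fun x hx => by
      rcases le_or_gt x B with h | h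
      · obtain ⟨⟨r, r1, r2, r3⟩, h2⟩ := hI x h hx
        refine ⟨⟨r, r1, Or.inr ⟨r2, _, r3 ▸ ky_one _, by simp, by simp, by simp [ev]⟩⟩, fun h => ?_⟩
        obtain ⟨r, r1, r2, r3⟩ := h2 h
        exact ⟨r, r1, Or.inr ⟨r2, _, r3 ▸ ky_pair _, by simp, by simp, by simp [ev]⟩⟩
      · exact ⟨⟨0, hm, Or.inl ⟨rfl, x, 0, h, by omega, by omega, rfl⟩⟩,
          fun e => ⟨0, hm, Or.inl ⟨rfl, x, 1, h, by omega, fun _ => e, rfl⟩⟩⟩
  induction n using Nat.strong_induction_on with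
  | _ n ih =>
    intro M h0 h1 h2
    by_cases h3 : 3 ∈ M
    · obtain ⟨x, x1, x2⟩ := Multiset.countP_pos.1 ((Multiset.count_pos.2 h3).trans_le h2)
      obtain ⟨N, rfl⟩ := Multiset.exists_cons_of_mem x1
      obtain ⟨N, rfl⟩ := Multiset.exists_cons_of_mem
        ((Multiset.mem_cons.1 h3).resolve_left (by omega))
      obtain ⟨R, k1, k2⟩ := ih (Multiset.card N) (by simp at h0; omega) N rfl
        (fun y hy => h1 y (by simp [hy])) (by
          rw [Multiset.count_cons_of_ne (by omega), Multiset.count_cons_self, Multiset.countP_cons,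
            Multiset.countP_cons, if_pos x2, if_neg (by omega)] at h2
          omega)
      obtain ⟨r, r1, r3⟩ := (key x (by omega)).2 x2.1
      exact ⟨(r, {x, 3}) ::ₘ R, Multiset.forall_mem_cons.2 ⟨⟨r1, r3⟩, k1⟩, by simp [← k2]⟩
    · rcases Multiset.empty_or_exists_mem M with rfl | ⟨x, hx⟩
      · exact ⟨0, by simp, rfl⟩
      obtain ⟨N, rfl⟩ := Multiset.exists_cons_of_mem hx
      obtain ⟨R, k1, k2⟩ := ih (Multiset.card N) (by simp at h0; omega) N rfl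
        (fun y hy => h1 y (by simp [hy])) (by
          rw [Multiset.count_eq_zero.2 fun h => h3 (by simp [h])]; omega)
      have := h1 x hx
      have : x ≠ 3 := fun e => h3 (e ▸ hx)
      obtain ⟨r, r1, r3⟩ := (key x (by omega)).1
      exact ⟨(r, {x}) ::ₘ R, Multiset.forall_mem_cons.2 ⟨⟨r1, r3⟩, k1⟩, by simp [← k2]⟩

theorem gtd_of {T U W : ℕ → ℕ} {I J B n w : ℕ} (h0 : sH (A 0) = 0) (hU : ∀ j, Ch (SegF A) (U j))
    (hW : ∀ j, Ch (WF A) (W j)) (hS : swOK U w = true) (hC : ∀ j, Ch (CS T U W I J n) (T j))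
    (hL : LamOK I J B n) (hI : ItemsOK I B (dg (look T 0) 0)) (h1 : 0 < dg (look T 0) 0)
    (h2 : ky (look T 0) = 0) : GTD := by
  intro M k1 k2 k3 k4 k5
  obtain ⟨R, r1, rfl⟩ := items hI h1 _ M rfl k1 k3
  have := cover h0 hU hW (swOK_sound hU hS) hC hL _ R 0 0 0 rfl (by rw [h2]; exact ky_zero) (by simp) (by simp)
    ⟨Run.refl _ _, fun _ => rfl, by simp⟩ h1 r1
  rw [Multiset.map_zero, zero_add, zero_add] at this
  exact this k2 k5 k4

theorem br {p : ℕ → Prop} {a b : ℕ} (ha : p a) (hb : p b) (c : Bool) : p (Bool.rec a b c) := by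
  cases c
  · exact ha
  · exact hb

end Pool.Agent.MP_29e935_co.Six

end

section

/-!
All tables together.
-/

set_option autoImplicit false
set_option maxRecDepth 100000

namespace Pool.Agent.MP_29e935_co.Six

theorem allU (j : ℕ) : Ch (SegF sA) (tU j) :=
  have h0 : sH (sA 0) = 0 := by decide +kernel
  (br (p := Ch (SegF sA)) (br (p := Ch (SegF sA)) (br (p := Ch (SegF sA)) (br (p := Ch (SegF sA)) (segC_sound h0 _ _ hu0) (br (p := Ch (SegF sA)) (segC_sound h0 _ _ hu1) (segC_sound h0 _ _ hu2) _) _) (br (p := Ch (SegF sA)) (segC_sound h0 _ _ hu3) (br (p := Ch (SegF sA)) (segC_sound h0 _ _ hu4) (segC_sound h0 _ _ hu5) _) _) _) (br (p := Ch (SegF sA)) (br (p := Ch (SegF sA)) (segC_sound h0 _ _ hu6) (br (p := Ch (SegF sA)) (segC_sound h0 _ _ hu7) (segC_sound h0 _ _ hu8) _) _) (br (p := Ch (SegF sA)) (segC_sound h0 _ _ hu9) (br (p := Ch (SegF sA)) (segC_sound h0 _ _ hu10) (segC_sound h0 _ _ hu11) _) _) _)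 _) (br (p := Ch (SegF sA)) (br (p := Ch (SegF sA)) (br (p := Ch (SegF sA)) (segC_sound h0 _ _ hu12) (br (p := Ch (SegF sA)) (segC_sound h0 _ _ hu13) (segC_sound h0 _ _ hu14) _) _) (br (p := Ch (SegF sA)) (segC_sound h0 _ _ hu15) (br (p := Ch (SegF sA)) (segC_sound h0 _ _ hu16) (segC_sound h0 _ _ hu17) _) _) _) (br (p := Ch (SegF sA)) (br (p := Ch (SegF sA)) (segC_sound h0 _ _ hu18) (br (p := Ch (SegF sA)) (segC_sound h0 _ _ hu19) (segC_sound h0 _ _ hu20) _) _) (br (p := Ch (SegF sA)) (segC_sound h0 _ _ hu21) (br (p := Ch (SegF sA)) (segC_sound h0 _ _ hu22) (segC_sound h0 _ _ hu23) _) _) _) _) _)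

theorem allW (j : ℕ) : Ch (WF sA) (tW j) :=
  (br (p := Ch (WF sA)) (br (p := Ch (WF sA)) (br (p := Ch (WF sA)) (br (p := Ch (WF sA)) (br (p := Ch (WF sA)) (br (p := Ch (WF sA)) (br (p := Ch (WF sA)) (dirC_sound _ _ hw0) (dirC_sound _ _ hw1) _) (br (p := Ch (WF sA)) (dirC_sound _ _ hw2) (dirC_sound _ _ hw3) _) _) (br (p := Ch (WF sA)) (br (p := Ch (WF sA)) (dirC_sound _ _ hw4) (dirC_sound _ _ hw5) _) (br (p := Ch (WF sA)) (dirC_sound _ _ hw6) (br (p := Ch (WF sA)) (dirC_sound _ _ hw7) (dirC_sound _ _ hw8) _) _) _) _) (br (p := Ch (WF sA)) (br (p := Ch (WF sA)) (br (p := Ch (WF sA)) (wrpC_sound _ _ hw9) (wrpC_sound _ _ hw10) _) (br (p := Ch (WF sA)) (wrpC_sound _ _ hw11) (wrpC_sound _ _ hw12) _) _) (br (p := Ch (WF sA)) (br (p := Ch (WF sA)) (wrpC_sound _ _ hw13) (wrpC_sound _ _ hw14) _) (br (p := Ch (WF sA)) (wrpC_sound _ _ hw15) (br (p := Ch (WF sA)) (wrpC_sound _ _ hw16) (wrpC_sound _ _ hw17) _) _) _)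 _) _) (br (p := Ch (WF sA)) (br (p := Ch (WF sA)) (br (p := Ch (WF sA)) (br (p := Ch (WF sA)) (wrpC_sound _ _ hw18) (wrpC_sound _ _ hw19) _) (br (p := Ch (WF sA)) (wrpC_sound _ _ hw20) (wrpC_sound _ _ hw21) _) _) (br (p := Ch (WF sA)) (br (p := Ch (WF sA)) (wrpC_sound _ _ hw22) (wrpC_sound _ _ hw23) _) (br (p := Ch (WF sA)) (wrpC_sound _ _ hw24) (br (p := Ch (WF sA)) (wrpC_sound _ _ hw25) (wrpC_sound _ _ hw26) _) _) _) _) (br (p := Ch (WF sA)) (br (p := Ch (WF sA)) (br (p := Ch (WF sA)) (wrpC_sound _ _ hw27) (wrpC_sound _ _ hw28) _) (br (p := Ch (WF sA)) (wrpC_sound _ _ hw29) (wrpC_sound _ _ hw30) _) _) (br (p := Ch (WF sA)) (br (p := Ch (WF sA)) (wrpC_sound _ _ hw31) (wrpC_sound _ _ hw32) _) (br (p := Ch (WF sA)) (wrpC_sound _ _ hw33) (br (p := Ch (WF sA)) (wrpC_sound _ _ hw34) (wrpC_sound _ _ hw35) _) _) _) _) _) _) (br (p := Ch (WF sA)) (br (p := Ch (WF sA)) (br (p := Ch (WF sA)) (br (p := Ch (WF sA))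 (br (p := Ch (WF sA)) (wrpC_sound _ _ hw36) (wrpC_sound _ _ hw37) _) (br (p := Ch (WF sA)) (wrpC_sound _ _ hw38) (wrpC_sound _ _ hw39) _) _) (br (p := Ch (WF sA)) (br (p := Ch (WF sA)) (wrpC_sound _ _ hw40) (wrpC_sound _ _ hw41) _) (br (p := Ch (WF sA)) (wrpC_sound _ _ hw42) (br (p := Ch (WF sA)) (wrpC_sound _ _ hw43) (wrpC_sound _ _ hw44) _) _) _) _) (br (p := Ch (WF sA)) (br (p := Ch (WF sA)) (br (p := Ch (WF sA)) (wrpC_sound _ _ hw45) (wrpC_sound _ _ hw46) _) (br (p := Ch (WF sA)) (wrpC_sound _ _ hw47) (wrpC_sound _ _ hw48) _) _) (br (p := Ch (WF sA)) (br (p := Ch (WF sA)) (wrpC_sound _ _ hw49) (wrpC_sound _ _ hw50) _) (br (p := Ch (WF sA)) (wrpC_sound _ _ hw51) (br (p := Ch (WF sA)) (wrpC_sound _ _ hw52) (wrpC_sound _ _ hw53) _) _) _) _) _) (br (p := Ch (WF sA)) (br (p := Ch (WF sA)) (br (p := Ch (WF sA)) (br (p := Ch (WF sA)) (wrpC_sound _ _ hw54) (wrpC_sound _ _ hw55) _) (br (p := Ch (WF sA)) (wrpC_sound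 _ _ hw56) (wrpC_sound _ _ hw57) _) _) (br (p := Ch (WF sA)) (br (p := Ch (WF sA)) (wrpC_sound _ _ hw58) (wrpC_sound _ _ hw59) _) (br (p := Ch (WF sA)) (wrpC_sound _ _ hw60) (br (p := Ch (WF sA)) (wrpC_sound _ _ hw61) (wrpC_sound _ _ hw62) _) _) _) _) (br (p := Ch (WF sA)) (br (p := Ch (WF sA)) (br (p := Ch (WF sA)) (wrpC_sound _ _ hw63) (wrpC_sound _ _ hw64) _) (br (p := Ch (WF sA)) (wrpC_sound _ _ hw65) (br (p := Ch (WF sA)) (wrpC_sound _ _ hw66) (wrpC_sound _ _ hw67) _) _) _) (br (p := Ch (WF sA)) (br (p := Ch (WF sA)) (wrpC_sound _ _ hw68) (wrpC_sound _ _ hw69) _) (br (p := Ch (WF sA)) (wrpC_sound _ _ hw70) (br (p := Ch (WF sA)) (wrpC_sound _ _ hw71) (wrpC_sound _ _ hw72) _) _) _) _) _) _) _) (br (p := Ch (WF sA)) (br (p := Ch (WF sA)) (br (p := Ch (WF sA)) (br (p := Ch (WF sA)) (br (p := Ch (WF sA)) (br (p := Ch (WF sA)) (wrpC_sound _ _ hw73) (wrpC_sound _ _ hw74) _) (br (p := Ch (WF sA)) (wrpC_sound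 _ _ hw75) (wrpC_sound _ _ hw76) _) _) (br (p := Ch (WF sA)) (br (p := Ch (WF sA)) (wrpC_sound _ _ hw77) (wrpC_sound _ _ hw78) _) (br (p := Ch (WF sA)) (wrpC_sound _ _ hw79) (br (p := Ch (WF sA)) (wrpC_sound _ _ hw80) (wrpC_sound _ _ hw81) _) _) _) _) (br (p := Ch (WF sA)) (br (p := Ch (WF sA)) (br (p := Ch (WF sA)) (wrpC_sound _ _ hw82) (wrpC_sound _ _ hw83) _) (br (p := Ch (WF sA)) (wrpC_sound _ _ hw84) (wrpC_sound _ _ hw85) _) _) (br (p := Ch (WF sA)) (br (p := Ch (WF sA)) (wrpC_sound _ _ hw86) (wrpC_sound _ _ hw87) _) (br (p := Ch (WF sA)) (wrpC_sound _ _ hw88) (br (p := Ch (WF sA)) (wrpC_sound _ _ hw89) (wrpC_sound _ _ hw90) _) _) _) _) _) (br (p := Ch (WF sA)) (br (p := Ch (WF sA)) (br (p := Ch (WF sA)) (br (p := Ch (WF sA)) (wrpC_sound _ _ hw91) (wrpC_sound _ _ hw92) _) (br (p := Ch (WF sA)) (wrpC_sound _ _ hw93) (wrpC_sound _ _ hw94) _) _) (br (p := Ch (WF sA)) (br (p := Ch (WF sA)) (wrpC_sound _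 _ hw95) (wrpC_sound _ _ hw96) _) (br (p := Ch (WF sA)) (wrpC_sound _ _ hw97) (br (p := Ch (WF sA)) (wrpC_sound _ _ hw98) (wrpC_sound _ _ hw99) _) _) _) _) (br (p := Ch (WF sA)) (br (p := Ch (WF sA)) (br (p := Ch (WF sA)) (wrpC_sound _ _ hw100) (wrpC_sound _ _ hw101) _) (br (p := Ch (WF sA)) (wrpC_sound _ _ hw102) (br (p := Ch (WF sA)) (wrpC_sound _ _ hw103) (wrpC_sound _ _ hw104) _) _) _) (br (p := Ch (WF sA)) (br (p := Ch (WF sA)) (wrpC_sound _ _ hw105) (wrpC_sound _ _ hw106) _) (br (p := Ch (WF sA)) (wrpC_sound _ _ hw107) (br (p := Ch (WF sA)) (wrpC_sound _ _ hw108) (wrpC_sound _ _ hw109) _) _) _) _) _) _) (br (p := Ch (WF sA)) (br (p := Ch (WF sA)) (br (p := Ch (WF sA)) (br (p := Ch (WF sA)) (br (p := Ch (WF sA)) (wrpC_sound _ _ hw110) (wrpC_sound _ _ hw111) _) (br (p := Ch (WF sA)) (wrpC_sound _ _ hw112) (wrpC_sound _ _ hw113) _) _) (br (p := Ch (WF sA)) (br (p := Ch (WF sA)) (wrpC_sound _ _ hw114)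 (wrpC_sound _ _ hw115) _) (br (p := Ch (WF sA)) (wrpC_sound _ _ hw116) (br (p := Ch (WF sA)) (wrpC_sound _ _ hw117) (wrpC_sound _ _ hw118) _) _) _) _) (br (p := Ch (WF sA)) (br (p := Ch (WF sA)) (br (p := Ch (WF sA)) (wrpC_sound _ _ hw119) (wrpC_sound _ _ hw120) _) (br (p := Ch (WF sA)) (wrpC_sound _ _ hw121) (wrpC_sound _ _ hw122) _) _) (br (p := Ch (WF sA)) (br (p := Ch (WF sA)) (wrpC_sound _ _ hw123) (wrpC_sound _ _ hw124) _) (br (p := Ch (WF sA)) (wrpC_sound _ _ hw125) (br (p := Ch (WF sA)) (wrpC_sound _ _ hw126) (wrpC_sound _ _ hw127) _) _) _) _) _) (br (p := Ch (WF sA)) (br (p := Ch (WF sA)) (br (p := Ch (WF sA)) (br (p := Ch (WF sA)) (wrpC_sound _ _ hw128) (wrpC_sound _ _ hw129) _) (br (p := Ch (WF sA)) (wrpC_sound _ _ hw130) (wrpC_sound _ _ hw131) _) _) (br (p := Ch (WF sA)) (br (p := Ch (WF sA)) (wrpC_sound _ _ hw132) (wrpC_sound _ _ hw133) _) (br (p := Ch (WF sA)) (wrpC_sound _ _ hw134) (br (p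 := Ch (WF sA)) (wrpC_sound _ _ hw135) (wrpC_sound _ _ hw136) _) _) _) _) (br (p := Ch (WF sA)) (br (p := Ch (WF sA)) (br (p := Ch (WF sA)) (wrpC_sound _ _ hw137) (wrpC_sound _ _ hw138) _) (br (p := Ch (WF sA)) (wrpC_sound _ _ hw139) (br (p := Ch (WF sA)) (wrpC_sound _ _ hw140) (wrpC_sound _ _ hw141) _) _) _) (br (p := Ch (WF sA)) (br (p := Ch (WF sA)) (wrpC_sound _ _ hw142) (wrpC_sound _ _ hw143) _) (br (p := Ch (WF sA)) (wrpC_sound _ _ hw144) (br (p := Ch (WF sA)) (wrpC_sound _ _ hw145) (wrpC_sound _ _ hw146) _) _) _) _) _) _) _) _)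

theorem allT (j : ℕ) : Ch (CS tT tU tW tI tJ 37) (tT j) :=
  (br (p := Ch (CS tT tU tW tI tJ 37)) (br (p := Ch (CS tT tU tW tI tJ 37)) (br (p := Ch (CS tT tU tW tI tJ 37)) (br (p := Ch (CS tT tU tW tI tJ 37)) (br (p := Ch (CS tT tU tW tI tJ 37)) (br (p := Ch (CS tT tU tW tI tJ 37)) (br (p := Ch (CS tT tU tW tI tJ 37)) (covC_sound _ _ ht0) (br (p := Ch (CS tT tU tW tI tJ 37)) (covC_sound _ _ ht1) (covC_sound _ _ ht2) _) _) (br (p := Ch (CS tT tU tW tI tJ 37)) (covC_sound _ _ ht3) (br (p := Ch (CS tT tU tW tI tJ 37)) (covC_sound _ _ ht4) (covC_sound _ _ ht5) _) _) _) (br (p := Ch (CS tT tU tW tI tJ 37)) (br (p := Ch (CS tT tU tW tI tJ 37)) (covC_sound _ _ ht6) (br (p := Ch (CS tT tU tW tI tJ 37)) (covC_sound _ _ ht7) (covC_sound _ _ ht8) _) _) (br (p := Ch (CS tT tU tW tI tJ 37)) (br (p := Ch (CS tT tU tW tI tJ 37)) (covC_sound _ _ ht9) (covC_sound _ _ ht10) _) (br (p := Ch (CS tT tU tW tI tJ 37)) (covC_sound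 _ _ ht11) (covC_sound _ _ ht12) _) _) _) _) (br (p := Ch (CS tT tU tW tI tJ 37)) (br (p := Ch (CS tT tU tW tI tJ 37)) (br (p := Ch (CS tT tU tW tI tJ 37)) (covC_sound _ _ ht13) (br (p := Ch (CS tT tU tW tI tJ 37)) (covC_sound _ _ ht14) (covC_sound _ _ ht15) _) _) (br (p := Ch (CS tT tU tW tI tJ 37)) (covC_sound _ _ ht16) (br (p := Ch (CS tT tU tW tI tJ 37)) (covC_sound _ _ ht17) (covC_sound _ _ ht18) _) _) _) (br (p := Ch (CS tT tU tW tI tJ 37)) (br (p := Ch (CS tT tU tW tI tJ 37)) (covC_sound _ _ ht19) (br (p := Ch (CS tT tU tW tI tJ 37)) (covC_sound _ _ ht20) (covC_sound _ _ ht21) _) _) (br (p := Ch (CS tT tU tW tI tJ 37)) (br (p := Ch (CS tT tU tW tI tJ 37)) (covC_sound _ _ ht22) (covC_sound _ _ ht23) _) (br (p := Ch (CS tT tU tW tI tJ 37)) (covC_sound _ _ ht24) (covC_sound _ _ ht25) _) _) _) _) _) (br (p := Ch (CS tT tU tW tI tJ 37)) (br (p := Ch (CS tT tU tW tI tJ 37)) (br (p := Ch (CS tT tU tW tI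 tJ 37)) (br (p := Ch (CS tT tU tW tI tJ 37)) (covC_sound _ _ ht26) (br (p := Ch (CS tT tU tW tI tJ 37)) (covC_sound _ _ ht27) (covC_sound _ _ ht28) _) _) (br (p := Ch (CS tT tU tW tI tJ 37)) (covC_sound _ _ ht29) (br (p := Ch (CS tT tU tW tI tJ 37)) (covC_sound _ _ ht30) (covC_sound _ _ ht31) _) _) _) (br (p := Ch (CS tT tU tW tI tJ 37)) (br (p := Ch (CS tT tU tW tI tJ 37)) (covC_sound _ _ ht32) (br (p := Ch (CS tT tU tW tI tJ 37)) (covC_sound _ _ ht33) (covC_sound _ _ ht34) _) _) (br (p := Ch (CS tT tU tW tI tJ 37)) (br (p := Ch (CS tT tU tW tI tJ 37)) (covC_sound _ _ ht35) (covC_sound _ _ ht36) _) (br (p := Ch (CS tT tU tW tI tJ 37)) (covC_sound _ _ ht37) (covC_sound _ _ ht38) _) _) _) _) (br (p := Ch (CS tT tU tW tI tJ 37)) (br (p := Ch (CS tT tU tW tI tJ 37)) (br (p := Ch (CS tT tU tW tI tJ 37)) (covC_sound _ _ ht39) (br (p := Ch (CS tT tU tW tI tJ 37)) (covC_sound _ _ ht40) (covC_sound _ _ ht41) _)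 _) (br (p := Ch (CS tT tU tW tI tJ 37)) (covC_sound _ _ ht42) (br (p := Ch (CS tT tU tW tI tJ 37)) (covC_sound _ _ ht43) (covC_sound _ _ ht44) _) _) _) (br (p := Ch (CS tT tU tW tI tJ 37)) (br (p := Ch (CS tT tU tW tI tJ 37)) (covC_sound _ _ ht45) (br (p := Ch (CS tT tU tW tI tJ 37)) (covC_sound _ _ ht46) (covC_sound _ _ ht47) _) _) (br (p := Ch (CS tT tU tW tI tJ 37)) (br (p := Ch (CS tT tU tW tI tJ 37)) (covC_sound _ _ ht48) (covC_sound _ _ ht49) _) (br (p := Ch (CS tT tU tW tI tJ 37)) (covC_sound _ _ ht50) (covC_sound _ _ ht51) _) _) _) _) _) _) (br (p := Ch (CS tT tU tW tI tJ 37)) (br (p := Ch (CS tT tU tW tI tJ 37)) (br (p := Ch (CS tT tU tW tI tJ 37)) (br (p := Ch (CS tT tU tW tI tJ 37)) (br (p := Ch (CS tT tU tW tI tJ 37)) (covC_sound _ _ ht52) (br (p := Ch (CS tT tU tW tI tJ 37)) (covC_sound _ _ ht53) (covC_sound _ _ ht54) _) _) (br (p := Ch (CS tT tU tW tI tJ 37)) (covC_sound _ _ ht55) (br (p :=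 Ch (CS tT tU tW tI tJ 37)) (covC_sound _ _ ht56) (covC_sound _ _ ht57) _) _) _) (br (p := Ch (CS tT tU tW tI tJ 37)) (br (p := Ch (CS tT tU tW tI tJ 37)) (covC_sound _ _ ht58) (br (p := Ch (CS tT tU tW tI tJ 37)) (covC_sound _ _ ht59) (covC_sound _ _ ht60) _) _) (br (p := Ch (CS tT tU tW tI tJ 37)) (br (p := Ch (CS tT tU tW tI tJ 37)) (covC_sound _ _ ht61) (covC_sound _ _ ht62) _) (br (p := Ch (CS tT tU tW tI tJ 37)) (covC_sound _ _ ht63) (covC_sound _ _ ht64) _) _) _) _) (br (p := Ch (CS tT tU tW tI tJ 37)) (br (p := Ch (CS tT tU tW tI tJ 37)) (br (p := Ch (CS tT tU tW tI tJ 37)) (covC_sound _ _ ht65) (br (p := Ch (CS tT tU tW tI tJ 37)) (covC_sound _ _ ht66) (covC_sound _ _ ht67) _) _) (br (p := Ch (CS tT tU tW tI tJ 37)) (covC_sound _ _ ht68) (br (p := Ch (CS tT tU tW tI tJ 37)) (covC_sound _ _ ht69) (covC_sound _ _ ht70) _) _) _) (br (p := Ch (CS tT tU tW tI tJ 37)) (br (p := Ch (CS tT tU tW tI tJ 37))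 (covC_sound _ _ ht71) (br (p := Ch (CS tT tU tW tI tJ 37)) (covC_sound _ _ ht72) (covC_sound _ _ ht73) _) _) (br (p := Ch (CS tT tU tW tI tJ 37)) (br (p := Ch (CS tT tU tW tI tJ 37)) (covC_sound _ _ ht74) (covC_sound _ _ ht75) _) (br (p := Ch (CS tT tU tW tI tJ 37)) (covC_sound _ _ ht76) (covC_sound _ _ ht77) _) _) _) _) _) (br (p := Ch (CS tT tU tW tI tJ 37)) (br (p := Ch (CS tT tU tW tI tJ 37)) (br (p := Ch (CS tT tU tW tI tJ 37)) (br (p := Ch (CS tT tU tW tI tJ 37)) (covC_sound _ _ ht78) (br (p := Ch (CS tT tU tW tI tJ 37)) (covC_sound _ _ ht79) (covC_sound _ _ ht80) _) _) (br (p := Ch (CS tT tU tW tI tJ 37)) (covC_sound _ _ ht81) (br (p := Ch (CS tT tU tW tI tJ 37)) (covC_sound _ _ ht82) (covC_sound _ _ ht83) _) _) _) (br (p := Ch (CS tT tU tW tI tJ 37)) (br (p := Ch (CS tT tU tW tI tJ 37)) (covC_sound _ _ ht84) (br (p := Ch (CS tT tU tW tI tJ 37)) (covC_sound _ _ ht85) (covC_sound _ _ ht86) _) _) (br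 (p := Ch (CS tT tU tW tI tJ 37)) (br (p := Ch (CS tT tU tW tI tJ 37)) (covC_sound _ _ ht87) (covC_sound _ _ ht88) _) (br (p := Ch (CS tT tU tW tI tJ 37)) (covC_sound _ _ ht89) (covC_sound _ _ ht90) _) _) _) _) (br (p := Ch (CS tT tU tW tI tJ 37)) (br (p := Ch (CS tT tU tW tI tJ 37)) (br (p := Ch (CS tT tU tW tI tJ 37)) (covC_sound _ _ ht91) (br (p := Ch (CS tT tU tW tI tJ 37)) (covC_sound _ _ ht92) (covC_sound _ _ ht93) _) _) (br (p := Ch (CS tT tU tW tI tJ 37)) (covC_sound _ _ ht94) (br (p := Ch (CS tT tU tW tI tJ 37)) (covC_sound _ _ ht95) (covC_sound _ _ ht96) _) _) _) (br (p := Ch (CS tT tU tW tI tJ 37)) (br (p := Ch (CS tT tU tW tI tJ 37)) (covC_sound _ _ ht97) (br (p := Ch (CS tT tU tW tI tJ 37)) (covC_sound _ _ ht98) (covC_sound _ _ ht99) _) _) (br (p := Ch (CS tT tU tW tI tJ 37)) (br (p := Ch (CS tT tU tW tI tJ 37)) (covC_sound _ _ ht100) (covC_sound _ _ ht101) _) (br (p := Ch (CS tT tU tW tI tJ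 37)) (covC_sound _ _ ht102) (covC_sound _ _ ht103) _) _) _) _) _) _) _) (br (p := Ch (CS tT tU tW tI tJ 37)) (br (p := Ch (CS tT tU tW tI tJ 37)) (br (p := Ch (CS tT tU tW tI tJ 37)) (br (p := Ch (CS tT tU tW tI tJ 37)) (br (p := Ch (CS tT tU tW tI tJ 37)) (br (p := Ch (CS tT tU tW tI tJ 37)) (covC_sound _ _ ht104) (br (p := Ch (CS tT tU tW tI tJ 37)) (covC_sound _ _ ht105) (covC_sound _ _ ht106) _) _) (br (p := Ch (CS tT tU tW tI tJ 37)) (covC_sound _ _ ht107) (br (p := Ch (CS tT tU tW tI tJ 37)) (covC_sound _ _ ht108) (covC_sound _ _ ht109) _) _) _) (br (p := Ch (CS tT tU tW tI tJ 37)) (br (p := Ch (CS tT tU tW tI tJ 37)) (covC_sound _ _ ht110) (br (p := Ch (CS tT tU tW tI tJ 37)) (covC_sound _ _ ht111) (covC_sound _ _ ht112) _) _) (br (p := Ch (CS tT tU tW tI tJ 37)) (br (p := Ch (CS tT tU tW tI tJ 37)) (covC_sound _ _ ht113) (covC_sound _ _ ht114) _) (br (p := Ch (CS tT tU tW tI tJ 37)) (covC_sound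 _ _ ht115) (covC_sound _ _ ht116) _) _) _) _) (br (p := Ch (CS tT tU tW tI tJ 37)) (br (p := Ch (CS tT tU tW tI tJ 37)) (br (p := Ch (CS tT tU tW tI tJ 37)) (covC_sound _ _ ht117) (br (p := Ch (CS tT tU tW tI tJ 37)) (covC_sound _ _ ht118) (covC_sound _ _ ht119) _) _) (br (p := Ch (CS tT tU tW tI tJ 37)) (covC_sound _ _ ht120) (br (p := Ch (CS tT tU tW tI tJ 37)) (covC_sound _ _ ht121) (covC_sound _ _ ht122) _) _) _) (br (p := Ch (CS tT tU tW tI tJ 37)) (br (p := Ch (CS tT tU tW tI tJ 37)) (covC_sound _ _ ht123) (br (p := Ch (CS tT tU tW tI tJ 37)) (covC_sound _ _ ht124) (covC_sound _ _ ht125) _) _) (br (p := Ch (CS tT tU tW tI tJ 37)) (br (p := Ch (CS tT tU tW tI tJ 37)) (covC_sound _ _ ht126) (covC_sound _ _ ht127) _) (br (p := Ch (CS tT tU tW tI tJ 37)) (covC_sound _ _ ht128) (covC_sound _ _ ht129) _) _) _) _) _) (br (p := Ch (CS tT tU tW tI tJ 37)) (br (p := Ch (CS tT tU tW tI tJ 37)) (br (p := Ch (CS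 tT tU tW tI tJ 37)) (br (p := Ch (CS tT tU tW tI tJ 37)) (covC_sound _ _ ht130) (br (p := Ch (CS tT tU tW tI tJ 37)) (covC_sound _ _ ht131) (covC_sound _ _ ht132) _) _) (br (p := Ch (CS tT tU tW tI tJ 37)) (covC_sound _ _ ht133) (br (p := Ch (CS tT tU tW tI tJ 37)) (covC_sound _ _ ht134) (covC_sound _ _ ht135) _) _) _) (br (p := Ch (CS tT tU tW tI tJ 37)) (br (p := Ch (CS tT tU tW tI tJ 37)) (covC_sound _ _ ht136) (br (p := Ch (CS tT tU tW tI tJ 37)) (covC_sound _ _ ht137) (covC_sound _ _ ht138) _) _) (br (p := Ch (CS tT tU tW tI tJ 37)) (br (p := Ch (CS tT tU tW tI tJ 37)) (covC_sound _ _ ht139) (covC_sound _ _ ht140) _) (br (p := Ch (CS tT tU tW tI tJ 37)) (covC_sound _ _ ht141) (covC_sound _ _ ht142) _) _) _) _) (br (p := Ch (CS tT tU tW tI tJ 37)) (br (p := Ch (CS tT tU tW tI tJ 37)) (br (p := Ch (CS tT tU tW tI tJ 37)) (covC_sound _ _ ht143) (br (p := Ch (CS tT tU tW tI tJ 37)) (covC_sound _ _ ht144)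 (covC_sound _ _ ht145) _) _) (br (p := Ch (CS tT tU tW tI tJ 37)) (covC_sound _ _ ht146) (br (p := Ch (CS tT tU tW tI tJ 37)) (covC_sound _ _ ht147) (covC_sound _ _ ht148) _) _) _) (br (p := Ch (CS tT tU tW tI tJ 37)) (br (p := Ch (CS tT tU tW tI tJ 37)) (covC_sound _ _ ht149) (br (p := Ch (CS tT tU tW tI tJ 37)) (covC_sound _ _ ht150) (covC_sound _ _ ht151) _) _) (br (p := Ch (CS tT tU tW tI tJ 37)) (br (p := Ch (CS tT tU tW tI tJ 37)) (covC_sound _ _ ht152) (covC_sound _ _ ht153) _) (br (p := Ch (CS tT tU tW tI tJ 37)) (covC_sound _ _ ht154) (covC_sound _ _ ht155) _) _) _) _) _) _) (br (p := Ch (CS tT tU tW tI tJ 37)) (br (p := Ch (CS tT tU tW tI tJ 37)) (br (p := Ch (CS tT tU tW tI tJ 37)) (br (p := Ch (CS tT tU tW tI tJ 37)) (br (p := Ch (CS tT tU tW tI tJ 37)) (covC_sound _ _ ht156) (br (p := Ch (CS tT tU tW tI tJ 37)) (covC_sound _ _ ht157) (covC_sound _ _ ht158) _) _) (br (p := Ch (CS tT tU tW tI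 tJ 37)) (covC_sound _ _ ht159) (br (p := Ch (CS tT tU tW tI tJ 37)) (covC_sound _ _ ht160) (covC_sound _ _ ht161) _) _) _) (br (p := Ch (CS tT tU tW tI tJ 37)) (br (p := Ch (CS tT tU tW tI tJ 37)) (covC_sound _ _ ht162) (br (p := Ch (CS tT tU tW tI tJ 37)) (covC_sound _ _ ht163) (covC_sound _ _ ht164) _) _) (br (p := Ch (CS tT tU tW tI tJ 37)) (br (p := Ch (CS tT tU tW tI tJ 37)) (covC_sound _ _ ht165) (covC_sound _ _ ht166) _) (br (p := Ch (CS tT tU tW tI tJ 37)) (covC_sound _ _ ht167) (covC_sound _ _ ht168) _) _) _) _) (br (p := Ch (CS tT tU tW tI tJ 37)) (br (p := Ch (CS tT tU tW tI tJ 37)) (br (p := Ch (CS tT tU tW tI tJ 37)) (covC_sound _ _ ht169) (br (p := Ch (CS tT tU tW tI tJ 37)) (covC_sound _ _ ht170) (covC_sound _ _ ht171) _) _) (br (p := Ch (CS tT tU tW tI tJ 37)) (covC_sound _ _ ht172) (br (p := Ch (CS tT tU tW tI tJ 37)) (covC_sound _ _ ht173) (covC_sound _ _ ht174) _) _) _) (br (p := Ch (CS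 tT tU tW tI tJ 37)) (br (p := Ch (CS tT tU tW tI tJ 37)) (covC_sound _ _ ht175) (br (p := Ch (CS tT tU tW tI tJ 37)) (covC_sound _ _ ht176) (covC_sound _ _ ht177) _) _) (br (p := Ch (CS tT tU tW tI tJ 37)) (br (p := Ch (CS tT tU tW tI tJ 37)) (covC_sound _ _ ht178) (covC_sound _ _ ht179) _) (br (p := Ch (CS tT tU tW tI tJ 37)) (covC_sound _ _ ht180) (covC_sound _ _ ht181) _) _) _) _) _) (br (p := Ch (CS tT tU tW tI tJ 37)) (br (p := Ch (CS tT tU tW tI tJ 37)) (br (p := Ch (CS tT tU tW tI tJ 37)) (br (p := Ch (CS tT tU tW tI tJ 37)) (covC_sound _ _ ht182) (br (p := Ch (CS tT tU tW tI tJ 37)) (covC_sound _ _ ht183) (covC_sound _ _ ht184) _) _) (br (p := Ch (CS tT tU tW tI tJ 37)) (covC_sound _ _ ht185) (br (p := Ch (CS tT tU tW tI tJ 37)) (covC_sound _ _ ht186) (covC_sound _ _ ht187) _) _) _) (br (p := Ch (CS tT tU tW tI tJ 37)) (br (p := Ch (CS tT tU tW tI tJ 37)) (covC_sound _ _ ht188) (br (p := Ch (CS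 tT tU tW tI tJ 37)) (covC_sound _ _ ht189) (covC_sound _ _ ht190) _) _) (br (p := Ch (CS tT tU tW tI tJ 37)) (br (p := Ch (CS tT tU tW tI tJ 37)) (covC_sound _ _ ht191) (covC_sound _ _ ht192) _) (br (p := Ch (CS tT tU tW tI tJ 37)) (covC_sound _ _ ht193) (covC_sound _ _ ht194) _) _) _) _) (br (p := Ch (CS tT tU tW tI tJ 37)) (br (p := Ch (CS tT tU tW tI tJ 37)) (br (p := Ch (CS tT tU tW tI tJ 37)) (covC_sound _ _ ht195) (br (p := Ch (CS tT tU tW tI tJ 37)) (covC_sound _ _ ht196) (covC_sound _ _ ht197) _) _) (br (p := Ch (CS tT tU tW tI tJ 37)) (covC_sound _ _ ht198) (br (p := Ch (CS tT tU tW tI tJ 37)) (covC_sound _ _ ht199) (covC_sound _ _ ht200) _) _) _) (br (p := Ch (CS tT tU tW tI tJ 37)) (br (p := Ch (CS tT tU tW tI tJ 37)) (covC_sound _ _ ht201) (br (p := Ch (CS tT tU tW tI tJ 37)) (covC_sound _ _ ht202) (covC_sound _ _ ht203) _) _) (br (p := Ch (CS tT tU tW tI tJ 37)) (br (p := Ch (CS tT tU tW tI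 tJ 37)) (covC_sound _ _ ht204) (covC_sound _ _ ht205) _) (br (p := Ch (CS tT tU tW tI tJ 37)) (covC_sound _ _ ht206) (covC_sound _ _ ht207) _) _) _) _) _) _) _) _)

theorem gtd : GTD :=
  gtd_of (B := 41) (w := 0x5000b000a000c0003000d0008000800070009000c000a000b0002000a0003000300040008000500070006000600070001) (by decide +kernel) allU allW (by decide +kernel) allT
    (by decide +kernel) (by decide +kernel) (by decide +kernel) (by decide +kernel)

end Pool.Agent.MP_29e935_co.Six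

end
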