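import Pool.Agent.Mg.F29e935p.G30e52c

section

/-!
A checking machine for the labelings of `FourCore` and its soundness.
-/

set_option autoImplicit false

namespace Pool.Agent.MP_29e935_co.Four

open Pool.Agent.MP_29e935_co.Two

/-- Machine state. -/
structure St : Type where
  la : ℕ
  lb : ℕ
  fa : ℕ
  fb : ℕ
  ro : ℕ
  nu : ℕ
  m : ℕ

def absl (b : ℕ → ℕ) (c : ℕ) : ℕ × ℕ := (min (c / 64) 2, b (c / 64) + c % 64)

def fam (o : ℕ) (l : ℕ × ℕ) : ℕ := if l.1 < 2 then l.1 else if (l.2 + o) % 6 < 3 then 2 else 3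

def Core (n : ℕ) (s : St) (b : ℕ → ℕ) (o : ℕ) (D : Multiset (ℕ × ℕ)) : Prop :=
  s.la + 2 * b 0 = 68 + b 2 ∧ s.lb + 2 * b 1 = 59 + b 3 ∧ (b 2 + o) % 6 = s.fa ∧
  (b 3 + o) % 6 = s.fb ∧ (s.ro = 0 ∨ b 2 + 64 = b 3 + s.ro) ∧ (s.nu = 0 ∨ n = b 0 + b 1 + s.nu) ∧
  D.Nodup ∧ ∀ l ∈ D, l.1 < 3 ∧ (l.2 < b (fam o l) ∨
    ∃ i < 64, l.2 = b (fam o l) + i ∧ s.m.testBit (64 * fam o l + i) = true)

def alloc (s : St) (c : ℕ) : St := ⟨s.la, s.lb, s.fa, s.fb, s.ro, s.nu, s.m ||| 2 ^ c⟩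

def fresh (s : St) (c : ℕ) : Bool :=
  (Nat.blt c 128 || (Nat.beq (c / 64) 2 && Nat.blt ((s.fa + c % 64) % 6) 3) ||
    (Nat.beq (c / 64) 3 && Nat.ble 3 ((s.fb + c % 64) % 6))) && !s.m.testBit c

theorem Core.alloc {n : ℕ} {s : St} {b : ℕ → ℕ} {o : ℕ} {D : Multiset (ℕ × ℕ)}
    (h : Core n s b o D) {c : ℕ} (hc : fresh s c = true) :
    Core n (alloc s c) b o (absl b c ::ₘ D) := by
  obtain ⟨h1, h2, h3, h4, h5, h6, h7, h8⟩ := h
  simp only [fresh, Bool.and_eq_true, Bool.or_eq_true, Nat.blt_eq, Nat.ble_eq, Nat.beq_eq,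
    Bool.not_eq_true'] at hc
  have hf : fam o (absl b c) = c / 64 := by
    have e1 : (absl b c).1 = min (c / 64) 2 := rfl
    have e2 : (absl b c).2 = b (c / 64) + c % 64 := rfl
    unfold fam
    rcases hc.1 with (h | ⟨h, h'⟩) | ⟨h, h'⟩
    · rw [if_pos (by omega)]; omega
    · rw [h] at e2; rw [if_neg (by omega), h, if_pos (by omega)]
    · rw [h] at e2; rw [if_neg (by omega), h, if_neg (by omega)]
  have e : 64 * (c / 64) + c % 64 = c := by omega
  refine ⟨h1, h2, h3, h4, h5, h6, Multiset.nodup_cons.2 ⟨fun hm => ?_, h7⟩, fun l hl => ?_⟩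
  · rcases (h8 _ hm).2 with h | ⟨i, -, hd, ht⟩
    · rw [hf] at h; simp only [absl] at h; omega
    · rw [hf] at hd ht
      simp only [absl] at hd
      have : i = c % 64 := by omega
      rw [this, e, hc.2] at ht
      exact absurd ht (by simp)
  · rcases Multiset.mem_cons.1 hl with rfl | hl
    · refine ⟨by simp only [absl]; omega, Or.inr ⟨c % 64, by omega, by rw [hf]; rfl, ?_⟩⟩
      rw [hf, e]
      simp [Four.alloc, Nat.testBit_or]
    · refine ⟨(h8 l hl).1, (h8 l hl).2.imp id fun ⟨d, hd, e, ht⟩ => ⟨d, hd, e, ?_⟩⟩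
      simp [Four.alloc, Nat.testBit_or, ht]

/-- Relative position of a label line seen from family `f`; `0` if unknown. -/
def rel (s : St) (f c : ℕ) : ℕ :=
  cond (Nat.beq (c / 64) f) (c % 64 + 1) (cond (Nat.blt c 128) (s.nu - c % 64) 0)

def ptOK (s : St) (p x q : ℕ) : Bool :=
  (Nat.blt 0 (rel s 0 p) && Nat.blt 0 (rel s 0 q) &&
    ((Nat.beq (x / 64) 2 && Nat.beq (rel s 0 p + rel s 0 q + 62) (s.la + x % 64)) ||
      (Nat.beq (x / 64) 3 && Nat.blt 1 s.ro &&
        Nat.beq (rel s 0 p + rel s 0 q + s.ro) (s.la + x % 64 + 2)))) ||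
  (Nat.blt 0 (rel s 1 p) && Nat.blt 0 (rel s 1 q) &&
    ((Nat.beq (x / 64) 3 && Nat.beq (rel s 1 p + rel s 1 q + 62) (s.lb + x % 64)) ||
      (Nat.beq (x / 64) 2 && Nat.blt 1 s.ro &&
        Nat.beq (rel s 1 p + rel s 1 q + 126) (s.lb + x % 64 + s.ro))))

theorem rel_cases (s : St) (f c : ℕ) : (c / 64 = f ∧ rel s f c = c % 64 + 1) ∨
    (c / 64 ≠ f ∧ c < 128 ∧ rel s f c = s.nu - c % 64) ∨ rel s f c = 0 := by
  unfold rel
  cases h1 : Nat.beq (c / 64) f
  · cases h2 : Nat.blt c 128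
    · exact Or.inr (Or.inr rfl)
    · exact Or.inr (Or.inl ⟨Nat.ne_of_beq_eq_false h1, by simpa using h2, rfl⟩)
  · exact Or.inl ⟨Nat.eq_of_beq_eq_true h1, rfl⟩

theorem rel_zero {n : ℕ} {s : St} {b : ℕ → ℕ} (h : s.nu = 0 ∨ n = b 0 + b 1 + s.nu) {c : ℕ}
    (hc : 0 < rel s 0 c) : (absl b c).1 < 2 ∧ lab n (absl b c) + 1 = b 0 + rel s 0 c := by
  rcases rel_cases s 0 c with ⟨h1, h2⟩ | ⟨h1, h2, h3⟩ | h1
  · simp only [lab, absl, h1, h2]; simp; omega
  · have : c / 64 = 1 := by omega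
    simp only [lab, absl, this]; simp; omega
  · omega

theorem rel_one {n : ℕ} {s : St} {b : ℕ → ℕ} (h : s.nu = 0 ∨ n = b 0 + b 1 + s.nu) {c : ℕ}
    (hc : 0 < rel s 1 c) : (absl b c).1 < 2 ∧ lab n (absl b c) + b 1 + rel s 1 c = n := by
  rcases rel_cases s 1 c with ⟨h1, h2⟩ | ⟨h1, h2, h3⟩ | h1
  · simp only [lab, absl, h1, h2]; simp; omega
  · have : c / 64 = 0 := by omega
    simp only [lab, absl, this]; simp; omega
  · omega

theorem Core.pt {n : ℕ} {s : St} {b : ℕ → ℕ} {o : ℕ} {D : Multiset (ℕ × ℕ)} (h : Core n s b o D)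
    {p x q : ℕ} (hp : ptOK s p x q = true) : Pt n (absl b p) (absl b x) (absl b q) := by
  obtain ⟨h1, h2, -, -, h5, h6, -⟩ := h
  simp only [ptOK, Bool.or_eq_true, Bool.and_eq_true, Nat.beq_eq, Nat.blt_eq] at hp
  unfold Pt
  rcases hp with ⟨⟨k1, k2⟩, k⟩ | ⟨⟨k1, k2⟩, k⟩
  · obtain ⟨j1, j2⟩ := rel_zero h6 k1
    obtain ⟨j3, j4⟩ := rel_zero h6 k2
    rcases k with ⟨k3, k4⟩ | ⟨⟨k3, k4⟩, k5⟩ <;> refine ⟨j1, j3, ?_, Or.inl ?_⟩ <;>
      simp only [absl, k3] at * <;> omega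
  · obtain ⟨j1, j2⟩ := rel_one h6 k1
    obtain ⟨j3, j4⟩ := rel_one h6 k2
    rcases k with ⟨k3, k4⟩ | ⟨⟨k3, k4⟩, k5⟩ <;> refine ⟨j1, j3, ?_, Or.inr ?_⟩ <;>
      simp only [absl, k3] at * <;> omega

/-- Closed cycles of lengths `M` and open paths `L`. -/
def Real (n : ℕ) (s : St) (bA bB : ℕ) (M : Multiset ℕ) (L : List (ℕ × ℕ × ℕ)) : Prop :=
  ∃ (b : ℕ → ℕ) (o : ℕ) (D E : Multiset (ℕ × ℕ)), b 0 = bA ∧ b 1 = bB ∧ Core n s b o (D + E) ∧
    Cycles (Pt n) M D ∧ Paths (Pt n) (L.map fun p => (absl b p.1, absl b p.2.1, p.2.2)) E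

variable {n bA bB : ℕ} {s : St} {M : Multiset ℕ} {L : List (ℕ × ℕ × ℕ)}

theorem Real.init (n f nu : ℕ) (hf : f < 6) (h : nu = 0 ∨ n = nu) :
    Real n ⟨68, 59, f, f, 64, nu, 0⟩ 0 0 0 [] :=
  ⟨fun _ => 0, f, 0, 0, rfl, rfl, ⟨rfl, rfl, by simp only []; omega, by simp only []; omega,
    by simp, by simpa using h, by simp, by simp⟩, Cycles.nil _, rfl⟩

theorem Real.start (H : Real n s bA bB M L) {p : ℕ} (hp : fresh s p = true) :
    Real n (alloc s p) bA bB M ((p, p, 0) :: L) := by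
  obtain ⟨b, o, D, E, h0, h1, h2, h3, h4⟩ := H
  refine ⟨b, o, D, _, h0, h1, ?_, h3, _, _, Path.one _, h4, rfl⟩
  convert h2.alloc hp using 1
  simp only [← Multiset.singleton_add]
  abel

theorem Real.rev {h t k : ℕ} (H : Real n s bA bB M ((h, t, k) :: L)) :
    Real n s bA bB M ((t, h, k) :: L) := by
  obtain ⟨b, o, D, E, h0, h1, h2, h3, D1, D2, h4, h5, rfl⟩ := H
  have := Path.rev (V := Pt n) (fun _ _ _ => Pt.symm) h4
  exact ⟨b, o, D, _, h0, h1, h2, h3, D1, D2, this, h5, rfl⟩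

theorem Real.swap {P Q : ℕ × ℕ × ℕ} (H : Real n s bA bB M (P :: Q :: L)) :
    Real n s bA bB M (Q :: P :: L) := by
  obtain ⟨b, o, D, E, h0, h1, h2, h3, D1, _, h4, ⟨D2, D3, h5, h6, rfl⟩, rfl⟩ := H
  exact ⟨b, o, D, _, h0, h1, h2, h3, D2, _, h5, ⟨D1, D3, h4, h6, rfl⟩, add_left_comm _ _ _⟩

theorem Real.ext {h t k x q : ℕ} (H : Real n s bA bB M ((h, t, k) :: L))
    (g1 : ptOK s t x q = true) (g2 : fresh s x = true) (g3 : fresh (alloc s x) q = true) :
    Real n (alloc (alloc s x) q) bA bB M ((h, q, k + 1) :: L) := by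
  obtain ⟨b, o, D, E, h0, h1, h2, h3, D1, D2, h4, h5, rfl⟩ := H
  refine ⟨b, o, D, _, h0, h1, ?_, h3, _, D2, h4.snoc (h2.pt g1), h5, rfl⟩
  convert (h2.alloc g2).alloc g3 using 1
  simp only [← Multiset.singleton_add]
  abel

theorem Real.close {h t k x : ℕ} (H : Real n s bA bB M ((h, t, k) :: L))
    (g1 : ptOK s t x h = true) (g2 : fresh s x = true) :
    Real n (alloc s x) bA bB ((k + 1) ::ₘ M) L := by
  obtain ⟨b, o, D, E, h0, h1, h2, h3, D1, D2, h4, h5, rfl⟩ := H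
  refine ⟨b, o, _, D2, h0, h1, ?_, h4.close (h2.pt g1) h3, h5⟩
  convert h2.alloc g2 using 1
  simp only [← Multiset.singleton_add]
  abel

theorem Real.join {h t k h' t' k' x : ℕ} (H : Real n s bA bB M ((h, t, k) :: (h', t', k') :: L))
    (g1 : ptOK s t x h' = true) (g2 : fresh s x = true) :
    Real n (alloc s x) bA bB M ((h, t', k + k' + 1) :: L) := by
  obtain ⟨b, o, D, E, h0, h1, h2, h3, D1, _, h4, ⟨D2, D3, h5, h6, rfl⟩, rfl⟩ := H
  refine ⟨b, o, D, _, h0, h1, ?_, h3, _, D3, h4.join (h2.pt g1) h5, h6, rfl⟩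
  convert h2.alloc g2 using 1
  simp only [← Multiset.singleton_add]
  abel

theorem Real.assume (H : Real n s bA bB M L) {ro nu : ℕ}
    (h1 : s.la + 2 * bA + 55 = s.lb + 2 * bB + ro) (h2 : n = bA + bB + nu) :
    Real n ⟨s.la, s.lb, s.fa, s.fb, ro, nu, s.m⟩ bA bB M L := by
  obtain ⟨b, o, D, E, rfl, rfl, ⟨k1, k2, k3, k4, -, -, k7⟩, h3⟩ := H
  exact ⟨b, o, D, E, rfl, rfl, ⟨k1, k2, k3, k4, Or.inr (by simp only []; omega), Or.inr h2, k7⟩, h3⟩

/-- Shift amounts, packed in base 128. -/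
def shf (w f : ℕ) : ℕ := w / 128 ^ f % 128

def shiftOK (s : St) (w : ℕ) (t : St) : Bool :=
  Nat.beq (t.la + 2 * shf w 0) (s.la + shf w 2) && Nat.beq (t.lb + 2 * shf w 1) (s.lb + shf w 3) &&
  Nat.beq ((s.fa + shf w 2) % 6) t.fa && Nat.beq ((s.fb + shf w 3) % 6) t.fb &&
  Nat.beq t.ro 0 && Nat.beq t.nu 0 &&
  (List.range 256).all fun c =>
    !s.m.testBit c || Nat.blt (c % 64) (shf w (c / 64)) || t.m.testBit (c - shf w (c / 64))

def mv (w c d : ℕ) : Bool := Nat.beq (d / 64) (c / 64) && Nat.beq (d + shf w (c / 64)) c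

theorem mv_sound (b : ℕ → ℕ) {w c d : ℕ} (h : mv w c d = true) :
    absl (fun f => b f + shf w f) d = absl b c := by
  simp only [mv, Bool.and_eq_true, Nat.beq_eq] at h
  simp only [absl, h.1, Prod.mk.injEq, true_and]
  omega

theorem fam_lt (o : ℕ) (l : ℕ × ℕ) : fam o l < 4 := by
  unfold fam
  split_ifs <;> omega

theorem Real.shift {t : St} {h1 t1 k1 h2 t2 k2 h1' t1' h2' t2' w : ℕ}
    (H : Real n s bA bB M [(h1, t1, k1), (h2, t2, k2)]) (hw : shiftOK s w t = true)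
    (m1 : mv w h1 h1' = true) (m2 : mv w t1 t1' = true) (m3 : mv w h2 h2' = true)
    (m4 : mv w t2 t2' = true) :
    Real n t (bA + shf w 0) (bB + shf w 1) M [(h1', t1', k1), (h2', t2', k2)] := by
  obtain ⟨b, o, D, E, rfl, rfl, ⟨j1, j2, j3, j4, -, -, j7, j8⟩, h3, h4⟩ := H
  simp only [shiftOK, Bool.and_eq_true, Nat.beq_eq, List.all_eq_true, List.mem_range,
    Bool.or_eq_true, Bool.not_eq_true', Nat.blt_eq] at hw
  obtain ⟨⟨⟨⟨⟨⟨w1, w2⟩, w3⟩, w4⟩, w5⟩, w6⟩, w7⟩ := hw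
  refine ⟨fun f => b f + shf w f, o, D, E, rfl, rfl, ⟨by simp only []; omega,
    by simp only []; omega, by simp only []; omega, by simp only []; omega, Or.inl w5, Or.inl w6,
    j7, fun l hl => ⟨(j8 l hl).1, ?_⟩⟩, h3, ?_⟩
  · have hf := fam_lt o l
    rcases (j8 l hl).2 with h | ⟨i, hi, e, ht⟩
    · left; simp only []; omega
    · by_cases hs : i < shf w (fam o l)
      · left; simp only []; omega
      · right
        have e1 : (64 * fam o l + i) / 64 = fam o l := by omega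
        have e2 : (64 * fam o l + i) % 64 = i := by omega
        rcases w7 (64 * fam o l + i) (by omega) with (h | h) | h
        · rw [ht] at h; exact absurd h (by simp)
        · rw [e1, e2] at h; exact absurd h hs
        · rw [e1] at h
          refine ⟨i - shf w (fam o l), by omega, by simp only []; omega, ?_⟩
          rw [← h]; congr 1; omega
  · simp only [List.map_cons, List.map_nil, mv_sound b m1, mv_sound b m2, mv_sound b m3,
      mv_sound b m4] at h4 ⊢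
    exact h4

def finOK (s : St) (u v : ℕ) : Bool :=
  Nat.blt 0 s.ro && Nat.ble (s.la + s.lb + s.ro) (191 + 2 * (u + v)) &&
  Nat.ble (s.la + s.lb) (63 + s.ro + 2 * (u + v)) &&
  (List.range 64).all fun i =>
    (!s.m.testBit i || Nat.blt i u) && (!s.m.testBit (64 + i) || Nat.blt i v) &&
    (!s.m.testBit (128 + i) || Nat.blt (s.la + s.lb + s.ro + 2 * i) (191 + 2 * (u + v))) &&
    (!s.m.testBit (192 + i) || Nat.blt (s.la + s.lb + 2 * i) (63 + s.ro + 2 * (u + v)))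

theorem Real.fin (H : Real n s bA bB M []) {u v : ℕ} (hf : finOK s u v = true) {M' : Multiset ℕ}
    (hG : M.sum = bA + u + (bB + v)) (hs : n = bA + u + (bB + v) + M'.sum)
    (h : T (4 + (bB + v : ℕ) - (bA + u : ℕ)) M') : T 4 (M + M') := by
  obtain ⟨b, o, D, E, rfl, rfl, ⟨j1, j2, -, -, j5, -, j7, j8⟩, h3, rfl⟩ := H
  simp only [finOK, Bool.and_eq_true, List.all_eq_true, List.mem_range,
    Bool.or_eq_true, Bool.not_eq_true', Nat.blt_eq, Nat.ble_eq] at hf
  obtain ⟨⟨⟨w1, w2⟩, w3⟩, w4⟩ := hf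
  rw [add_zero] at j7 j8
  refine glue h3 j7 (fun l hl => ?_) hG hs h
  obtain ⟨f, i⟩ := l
  obtain ⟨k1, k2⟩ := j8 _ hl
  have hf : (f = 0 ∧ fam o (f, i) = 0) ∨ (f = 1 ∧ fam o (f, i) = 1) ∨ (f = 2 ∧ fam o (f, i) = 2) ∨
      (f = 2 ∧ fam o (f, i) = 3) := by
    simp only [fam] at k1 ⊢
    split_ifs <;> omega
  rcases hf with ⟨rfl, e⟩ | ⟨rfl, e⟩ | ⟨rfl, e⟩ | ⟨rfl, e⟩ <;> rw [e] at k2 <;>
    rcases k2 with k2 | ⟨j, hj, k2, k3⟩ <;> simp only at k2 ⊢
  · omega
  · rcases (w4 j hj).1.1.1 with h | h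
    · rw [Nat.mul_zero, Nat.zero_add, h] at k3; exact absurd k3 (by simp)
    · omega
  · omega
  · rcases (w4 j hj).1.1.2 with h | h
    · rw [h] at k3; exact absurd k3 (by simp)
    · omega
  · omega
  · rcases (w4 j hj).1.2 with h | h
    · rw [h] at k3; exact absurd k3 (by simp)
    · omega
  · omega
  · rcases (w4 j hj).2 with h | h
    · rw [h] at k3; exact absurd k3 (by simp)
    · omega

end Pool.Agent.MP_29e935_co.Four

end

section

/-!
Programs for the checking machine; the kinds of table entries and their soundness.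
-/

set_option autoImplicit false

namespace Pool.Agent.MP_29e935_co.Four

open Pool.Agent.MP_29e935_co.Two

/-- A length `a * p + b * q + i`. -/
abbrev Len : Type := ℕ × ℕ × ℕ

def Len.ev (p q : ℕ) (l : Len) : ℕ := l.1 * p + l.2.1 * q + l.2.2

structure Cf : Type where
  s : St
  L : List (ℕ × ℕ × Len)
  C : List Len

def step (c : Cf) (o x q : ℕ) : Option Cf :=
  match o, c.L with
  | 0, P :: L => cond (ptOK c.s P.2.1 x q && fresh c.s x && fresh (alloc c.s x) q)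
      (some ⟨alloc (alloc c.s x) q, (P.1, q, ⟨P.2.2.1, P.2.2.2.1, P.2.2.2.2 + 1⟩) :: L, c.C⟩) none
  | 1, L => cond (fresh c.s q) (some ⟨alloc c.s q, (q, q, ⟨0, 0, 0⟩) :: L, c.C⟩) none
  | 2, P :: L => cond (ptOK c.s P.2.1 x P.1 && fresh c.s x)
      (some ⟨alloc c.s x, L, ⟨P.2.2.1, P.2.2.2.1, P.2.2.2.2 + 1⟩ :: c.C⟩) none
  | 3, P :: L => some ⟨c.s, (P.2.1, P.1, P.2.2) :: L, c.C⟩
  | 4, P :: Q :: L => some ⟨c.s, Q :: P :: L, c.C⟩
  | 5, P :: Q :: L => cond (ptOK c.s P.2.1 x Q.1 && fresh c.s x)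
      (some ⟨alloc c.s x, (P.1, Q.2.1,
        ⟨P.2.2.1 + Q.2.2.1, P.2.2.2.1 + Q.2.2.2.1, P.2.2.2.2 + Q.2.2.2.2 + 1⟩) :: L, c.C⟩) none
  | _, _ => none

def RC (n bA bB p q : ℕ) (M : Multiset ℕ) (c : Cf) : Prop :=
  Real n c.s bA bB ((c.C.map (Len.ev p q) : List ℕ) + M)
    (c.L.map fun P => (P.1, P.2.1, Len.ev p q P.2.2))

theorem cond_some {α : Type} {b : Bool} {x y : α} (h : cond b (some x) none = some y) :
    b = true ∧ x = y := by
  cases b
  · exact absurd h (by simp)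
  · exact ⟨rfl, by simpa using h⟩

variable {n bA bB p q : ℕ} {M : Multiset ℕ}

theorem step_sound {c d : Cf} {o x y : ℕ} (H : RC n bA bB p q M c) (e : step c o x y = some d) :
    RC n bA bB p q M d := by
  obtain ⟨s, L, C⟩ := c
  unfold step at e
  split at e
  · rename_i P L h
    obtain ⟨g, rfl⟩ := cond_some e
    simp only [Bool.and_eq_true] at g h
    subst h
    exact Real.ext H g.1.1 g.1.2 g.2
  · obtain ⟨g, rfl⟩ := cond_some e
    have := Real.start H g
    simpa [RC, Len.ev] using this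
  · rename_i P L h
    obtain ⟨g, rfl⟩ := cond_some e
    simp only [Bool.and_eq_true] at g h
    subst h
    have := Real.close H g.1 g.2
    rw [← Multiset.cons_add] at this
    exact this
  · rename_i P L h
    simp only [Option.some.injEq] at e h
    subst h e
    exact Real.rev H
  · rename_i P Q L h
    simp only [Option.some.injEq] at e h
    subst h e
    exact Real.swap H
  · rename_i P Q L h
    obtain ⟨g, rfl⟩ := cond_some e
    simp only [Bool.and_eq_true] at g h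
    subst h
    have := Real.join H g.1 g.2
    simp only [RC, List.map_cons]
    convert this using 4
    simp only [Len.ev]
    ring
  · exact absurd e (by simp)

/-- Run `k` steps, reading 19 bits of `w` per step. -/
def run : ℕ → ℕ → Cf → Option Cf
  | 0, _, c => some c
  | k + 1, w, c =>
    match step c (w % 8) (w / 8 % 256) (w / 2048 % 256) with
    | none => none
    | some d => run k (w / 524288) d

theorem run_sound : ∀ (k w : ℕ) (c d : Cf), RC n bA bB p q M c → run k w c = some d →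
    RC n bA bB p q M d
  | 0, _, c, d, H, e => by
    simp only [run, Option.some.injEq] at e
    exact e ▸ H
  | k + 1, w, c, d, H, e => by
    simp only [run] at e
    cases h : step c (w % 8) (w / 8 % 256) (w / 2048 % 256) with
    | none => rw [h] at e; exact absurd e (by simp)
    | some c' =>
      rw [h] at e
      exact run_sound k _ c' d (step_sound H h) e

/-- The run ends with all paths closed, cycle lengths `C` and all lines in range. -/
def endC (r : Option Cf) (C : List Len) (u v : ℕ) : Bool :=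
  match r with
  | none => false
  | some d => d.L.isEmpty && decide (d.C = C) && finOK d.s u v

theorem endC_sound {k w u v : ℕ} {c : Cf} {C : List Len} (H : RC n bA bB p q M c)
    (e : endC (run k w c) C u v = true) {M' : Multiset ℕ}
    (hG : ((C.map (Len.ev p q) : List ℕ) + M : Multiset ℕ).sum = bA + u + (bB + v))
    (hs : n = bA + u + (bB + v) + M'.sum) (h : T (4 + (bB + v : ℕ) - (bA + u : ℕ)) M') :
    T 4 ((C.map (Len.ev p q) : List ℕ) + M + M') := by
  cases hr : run k w c with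
  | none => rw [hr] at e; exact absurd e (by simp [endC])
  | some d =>
    rw [hr] at e
    simp only [endC, Bool.and_eq_true, decide_eq_true_eq, List.isEmpty_iff] at e
    have := run_sound k w c d H hr
    simp only [RC, e.1.1, e.1.2, List.map_nil] at this
    exact this.fin e.2 hG hs h

def con (L : List ℕ) : List Len := L.map fun i => ⟨0, 0, i⟩

theorem con_ev (L : List ℕ) : (con L).map (Len.ev p q) = L := by
  simp [con, Function.comp_def, Len.ev]

theorem RC.init (n f nu : ℕ) (hf : f < 6) (h : nu = 0 ∨ n = nu) :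
    RC n 0 0 0 0 0 ⟨⟨68, 59, f, f, 64, nu, 0⟩, [], []⟩ := by
  simpa [RC] using Real.init n f nu hf h

/-- A complete labeling: lengths, number of steps, program. -/
def baseOK (e : List ℕ × ℕ × ℕ) : Bool :=
  endC (run e.2.1 e.2.2 ⟨⟨68, 59, 0, 0, 64, e.1.sum, 0⟩, [], []⟩) (con e.1) e.1.sum 0

theorem baseOK_sound {e : List ℕ × ℕ × ℕ} (h : baseOK e = true) : T 4 (e.1 : Multiset ℕ) := by
  have := endC_sound (RC.init e.1.sum 0 _ (by norm_num) (Or.inr rfl)) h (M' := 0)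
    (by simp [con_ev]) (by simp) (T.zero _)
  simpa [con_ev] using this

def Good (G : Multiset ℕ) : Prop := ∀ M, T 4 M → T 4 (G + M)

theorem Good.zero : Good 0 := fun M h => by simpa using h

theorem Good.add {G H : Multiset ℕ} (g : Good G) (h : Good H) : Good (G + H) := fun M hM => by
  rw [add_assoc]; exact g _ (h _ hM)

/-- An outer block: lengths, size of the upper part, number of steps, program. -/
def blockOK (e : List ℕ × ℕ × ℕ × ℕ) : Bool :=
  cond (Nat.beq (2 * e.2.1) e.1.sum)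
    (endC (run e.2.2.1 e.2.2.2 ⟨⟨68, 59, 0, 0, 64, 0, 0⟩, [], []⟩) (con e.1) e.2.1 e.2.1)
    (Nat.beq (2 * e.2.1 + 9) e.1.sum &&
      endC (run e.2.2.1 e.2.2.2 ⟨⟨68, 59, 0, 0, 64, 0, 0⟩, [], []⟩) (con e.1) (e.2.1 + 9) e.2.1)

theorem blockOK_sound {e : List ℕ × ℕ × ℕ × ℕ} (h : blockOK e = true) :
    Good (e.1 : Multiset ℕ) := by
  intro M hM
  unfold blockOK at h
  cases h1 : Nat.beq (2 * e.2.1) e.1.sum
  · rw [h1, cond_false, Bool.and_eq_true, Nat.beq_eq] at h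
    have := endC_sound (RC.init (e.1.sum + M.sum) 0 _ (by norm_num) (Or.inl rfl)) h.2 (M' := M)
      (by simp [con_ev]; omega) (by omega) (by convert hM.symm using 1; push_cast; ring)
    simpa [con_ev] using this
  · rw [h1, cond_true] at h
    have h2 := Nat.eq_of_beq_eq_true h1
    have := endC_sound (RC.init (e.1.sum + M.sum) 0 _ (by norm_num) (Or.inl rfl)) h (M' := M)
      (by simp [con_ev]; omega) (by omega) (by convert hM using 1; push_cast; ring)
    simpa [con_ev] using this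

/-- The running state: one open path in each of the two chains. -/
def hub : St := ⟨67, 69, 0, 3, 0, 0, 22 + 19 * 2 ^ 64 + 2 ^ 128⟩

def OO (n bA bB : ℕ) (M : Multiset ℕ) (p q : ℕ) : Prop :=
  Real n hub bA bB M [(2, 4, p), (64, 68, q)]

def hubC (ro nu : ℕ) : Cf :=
  ⟨⟨67, 69, 0, 3, ro, nu, 22 + 19 * 2 ^ 64 + 2 ^ 128⟩, [(2, 4, ⟨1, 0, 0⟩), (64, 68, ⟨0, 1, 0⟩)], []⟩

theorem OO.rc (H : OO n bA bB M p q) : RC n bA bB p q M (hubC 0 0) := by
  simpa [RC, hubC, Len.ev, OO, hub] using H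

theorem OO.rc' (H : OO n bA bB M p q) {ro nu : ℕ} (h1 : 2 * bA + 53 = 2 * bB + ro)
    (h2 : n = bA + bB + nu) : RC n bA bB p q M (hubC ro nu) := by
  have := Real.assume H (ro := ro) (by simp only [hub]; omega) h2
  simpa [RC, hubC, Len.ev, hub] using this

/-- The run ends in the running state after the shift `w`. -/
def endO (r : Option Cf) (C : List Len) (l1 l2 : Len) (w : ℕ) : Bool :=
  match r with
  | some ⟨s, [P, Q], C'⟩ => decide (C' = C) && decide (P.2.2 = l1) && decide (Q.2.2 = l2) &&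
      shiftOK s w hub && mv w P.1 2 && mv w P.2.1 4 && mv w Q.1 64 && mv w Q.2.1 68
  | _ => false

theorem endO_sound {k w v : ℕ} {c : Cf} {C : List Len} {l1 l2 : Len} (H : RC n bA bB p q M c)
    (e : endO (run k w c) C l1 l2 v = true) :
    OO n (bA + shf v 0) (bB + shf v 1) ((C.map (Len.ev p q) : List ℕ) + M) (Len.ev p q l1)
      (Len.ev p q l2) := by
  unfold endO at e
  split at e
  · rename_i s P Q C' hr
    simp only [Bool.and_eq_true, decide_eq_true_eq] at e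
    obtain ⟨⟨⟨⟨⟨⟨⟨rfl, rfl⟩, rfl⟩, e1⟩, e2⟩, e3⟩, e4⟩, e5⟩ := e
    exact Real.shift (run_sound k w c _ H hr) e1 e2 e3 e4 e5
  · exact absurd e (by simp)

/-- A start: short cycles, phase, lengths of the two paths, shift, steps, program. -/
structure SE : Type where
  R : List ℕ
  f : ℕ
  al : ℕ
  be : ℕ
  v : ℕ
  k : ℕ
  w : ℕ

def startOK (e : SE) : Bool :=
  Nat.blt e.f 6 &&
    endO (run e.k e.w ⟨⟨68, 59, e.f, e.f, 64, 0, 0⟩, [], []⟩) (con e.R) ⟨0, 0, e.al⟩ ⟨0, 0, e.be⟩ e.v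

theorem startOK_sound {e : SE} (h : startOK e = true) (n : ℕ) :
    OO n (shf e.v 0) (shf e.v 1) (e.R : Multiset ℕ) e.al e.be := by
  simp only [startOK, Bool.and_eq_true, Nat.blt_eq] at h
  simpa [con_ev, Len.ev] using endO_sound (RC.init n e.f 0 h.1 (Or.inl rfl)) h.2

/-- The two paths are joined in the middle. -/
def joinOK (ro r u k w : ℕ) : Bool :=
  Nat.ble u (r + 4) && endC (run k w (hubC ro (r + 4))) [⟨1, 1, r⟩] u (r + 4 - u)

theorem joinOK_sound {ro r u k w : ℕ} (h : joinOK ro r u k w = true) (H : OO n bA bB M p q)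
    (h1 : 2 * bA + 53 = 2 * bB + ro) (h2 : n = bA + bB + (r + 4))
    (h3 : M.sum + p + q = bA + bB + 4) : T 4 ((p + q + r) ::ₘ M) := by
  simp only [joinOK, Bool.and_eq_true, Nat.ble_eq] at h
  have := endC_sound (H.rc' h1 h2) h.2 (M' := 0) (by simp [Len.ev]; omega) (by simp; omega)
    (T.zero _)
  simpa [Len.ev] using this

/-- The two paths are closed separately in the middle. -/
def twoOK (ro i j u k w : ℕ) : Bool :=
  Nat.ble u (i + j + 4) &&
    endC (run k w (hubC ro (i + j + 4))) [⟨0, 1, j⟩, ⟨1, 0, i⟩] u (i + j + 4 - u)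

theorem twoOK_sound {ro i j u k w : ℕ} (h : twoOK ro i j u k w = true) (H : OO n bA bB M p q)
    (h1 : 2 * bA + 53 = 2 * bB + ro) (h2 : n = bA + bB + (i + j + 4))
    (h3 : M.sum + p + q = bA + bB + 4) : T 4 ((q + j) ::ₘ (p + i) ::ₘ M) := by
  simp only [twoOK, Bool.and_eq_true, Nat.ble_eq] at h
  have := endC_sound (H.rc' h1 h2) h.2 (M' := 0) (by simp [Len.ev]; omega) (by simp; omega)
    (T.zero _)
  simpa [Len.ev, ← Multiset.cons_coe] using this

end Pool.Agent.MP_29e935_co.Four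

end
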